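import Pool.Agent.Lib.SELB.Props

/-!
# MP_af3d17_nt, Selberg's formula: the main terms and their Laplace transforms
(rows LAPM, MAINB; helper27)
-/

set_option autoImplicit false

namespace Pool.Agent.SELB

open Complex Filter Topology MeasureTheory Set

/-- The main term on the scale `x = e^y`. -/
lemma main_exp (κ : ℕ) (p q w : ℂ) (t y : ℝ) :
    main κ p q w t (Real.exp y) = cexp ((w - t * I) * y) *
      ((p * y + q) / (w - t * I) ^ (κ + 1) - (κ + 1) * p / (w - t * I) ^ (κ + 2)) := by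
  unfold main
  have h1 : ((Real.exp y : ℝ) : ℂ) ≠ 0 := by
    exact_mod_cast (Real.exp_pos y).ne'
  rw [Complex.cpow_def_of_ne_zero h1, Real.log_exp]
  congr 2
  rw [← Complex.ofReal_log (Real.exp_pos y).le, Real.log_exp, mul_comm]

/-- The Laplace transform of `e^(-v y)`. -/
lemma lap_exp {v : ℂ} (hv : 0 < v.re) :
    Integrable (fun y : ℝ => cexp (-v * y)) (volume.restrict (Ioi 0)) ∧
      ∫ y in Ioi (0 : ℝ), cexp (-v * y) = 1 / v := by
  have h1 : (-v).re < 0 := by simpa using hv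
  constructor
  · exact integrableOn_exp_mul_complex_Ioi h1 0
  · rw [integral_exp_mul_complex_Ioi h1 0]
    simp

/-- `y^k e^(-r y)` is integrable. -/
lemma int_pow_real {r : ℝ} (hr : 0 < r) (k : ℕ) :
    Integrable (fun y : ℝ => y ^ k * Real.exp (-(r * y))) (volume.restrict (Ioi 0)) := by
  by_contra hni
  have hk : (0 : ℝ) < (k : ℝ) + 1 := by positivity
  have h := Real.integral_rpow_mul_exp_neg_mul_Ioi hk hr
  have e1 : ∫ y in Ioi (0 : ℝ), y ^ ((k : ℝ) + 1 - 1) * Real.exp (-(r * y)) =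
      ∫ y in Ioi (0 : ℝ), y ^ k * Real.exp (-(r * y)) := by
    refine setIntegral_congr_fun measurableSet_Ioi fun y _ => ?_
    simp only [add_sub_cancel_right, Real.rpow_natCast]
  rw [e1, integral_undef hni] at h
  have : 0 < (1 / r) ^ ((k : ℝ) + 1) * Real.Gamma ((k : ℝ) + 1) :=
    mul_pos (Real.rpow_pos_of_pos (by positivity) _) (Real.Gamma_pos_of_pos hk)
  linarith

/-- `y^k e^(-v y)` is integrable. -/
lemma int_pow {v : ℂ} (hv : 0 < v.re) (k : ℕ) :
    Integrable (fun y : ℝ => (y : ℂ) ^ k * cexp (-v * y)) (volume.restrict (Ioi 0)) := by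
  refine (int_pow_real hv k).mono' (by fun_prop) ?_
  filter_upwards [self_mem_ae_restrict measurableSet_Ioi] with y hy
  have hy0 : (0 : ℝ) < y := hy
  rw [norm_mul, norm_pow, Complex.norm_real, Real.norm_of_nonneg hy0.le, Complex.norm_exp]
  simp

/-- The Laplace transform of `y^k e^(-v y)`. -/
lemma lap_pow {v : ℂ} (hv : 0 < v.re) (k : ℕ) :
    ∫ y in Ioi (0 : ℝ), (y : ℂ) ^ k * cexp (-v * y) = (k.factorial : ℂ) / v ^ (k + 1) := by
  have hv0 : v ≠ 0 := by
    rintro rfl
    simp at hv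
  induction k with
  | zero => simpa using (lap_exp hv).2
  | succ k ih =>
    have hd : ∀ x : ℝ, HasDerivAt (fun y : ℝ => (y : ℂ) ^ (k + 1) * cexp (-v * y))
        ((k + 1) * ((x : ℂ) ^ k * cexp (-v * x)) - v * ((x : ℂ) ^ (k + 1) * cexp (-v * x))) x := by
      intro x
      have h1 : HasDerivAt (fun y : ℝ => (y : ℂ)) 1 x := Complex.ofRealCLM.hasDerivAt
      have h2 := (h1.pow (k + 1)).mul ((h1.const_mul (-v)).cexp)
      refine h2.congr_deriv ?_
      simp only [Pi.pow_apply, Nat.cast_add, Nat.cast_one, Nat.add_sub_cancel]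
      ring
    have hi : IntegrableOn (fun x : ℝ => (k + 1) * ((x : ℂ) ^ k * cexp (-v * x)) -
        v * ((x : ℂ) ^ (k + 1) * cexp (-v * x))) (Ioi 0) :=
      ((int_pow hv k).const_mul _).sub ((int_pow hv (k + 1)).const_mul _)
    have ht := tendsto_zero_of_hasDerivAt_of_integrableOn_Ioi (a := 0) (fun x _ => hd x) hi
      (int_pow hv (k + 1))
    have h := integral_Ioi_of_hasDerivAt_of_tendsto' (a := 0) (fun x _ => hd x) hi ht
    rw [integral_sub ((int_pow hv k).const_mul _) ((int_pow hv (k + 1)).const_mul _),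
      integral_const_mul, integral_const_mul, ih] at h
    have h3 : ((0 : ℝ) : ℂ) ^ (k + 1) = 0 := by simp
    rw [h3, zero_mul, sub_zero] at h
    have h4 : v * ∫ y in Ioi (0 : ℝ), (y : ℂ) ^ (k + 1) * cexp (-v * y) =
        (k + 1) * ((k.factorial : ℂ) / v ^ (k + 1)) := by
      linear_combination -h
    have h5 : ((k + 1).factorial : ℂ) = (k + 1) * (k.factorial : ℂ) := by
      rw [Nat.factorial_succ]
      push_cast
      ring
    rw [h5, eq_div_iff (pow_ne_zero _ hv0), pow_succ, ← mul_assoc, mul_comm _ v, ← mul_assoc,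
      h4]
    have h6 : v ^ (k + 1) ≠ 0 := pow_ne_zero _ hv0
    field_simp

/-- `y ≤ 2 e^(y/2)`. -/
lemma le_two_exp_half {y : ℝ} (_hy : 0 ≤ y) : y ≤ 2 * Real.exp (y / 2) := by
  have := Real.add_one_le_exp (y / 2)
  linarith

/-- The bound for the bracket of the main term. -/
lemma bracket_le (κ : ℕ) (p q u : ℂ) {y : ℝ} (hy : 0 ≤ y) :
    ‖(p * y + q) / u ^ (κ + 1) - (κ + 1) * p / u ^ (κ + 2)‖ ≤
      (‖p‖ * y + ‖q‖) / ‖u‖ ^ (κ + 1) + (κ + 1) * ‖p‖ / ‖u‖ ^ (κ + 2) := by
  refine (norm_sub_le _ _).trans (add_le_add ?_ ?_)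
  · rw [norm_div, norm_pow]
    refine div_le_div_of_nonneg_right ?_ (by positivity)
    refine (norm_add_le _ _).trans ?_
    rw [norm_mul, Complex.norm_real, Real.norm_of_nonneg hy]
  · rw [norm_div, norm_pow, norm_mul]
    refine div_le_div_of_nonneg_right ?_ (by positivity)
    refine mul_le_mul_of_nonneg_right ?_ (norm_nonneg _)
    have : ((κ : ℂ) + 1) = ((κ + 1 : ℕ) : ℂ) := by push_cast; ring
    rw [this, Complex.norm_natCast]
    push_cast
    exact le_refl _

/-- Row LAPM. -/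
theorem LAPM_all : P_LAPM := by
  intro κ p q w t
  have hfun : (fun y : ℝ => main κ p q w t (Real.exp y)) = fun y : ℝ =>
      cexp ((w - t * I) * y) *
        ((p * y + q) / (w - t * I) ^ (κ + 1) - (κ + 1) * p / (w - t * I) ^ (κ + 2)) := by
    funext y
    exact main_exp κ p q w t y
  refine ⟨?_, ?_, ?_⟩
  · rw [hfun]
    refine Continuous.mul (by fun_prop) (Continuous.sub ?_ continuous_const)
    exact Continuous.div_const (by fun_prop) _
  · set u : ℂ := w - t * I with hu
    refine ⟨(‖p‖ + ‖q‖) / ‖u‖ ^ (κ + 1) + (κ + 1) * ‖p‖ / ‖u‖ ^ (κ + 2), fun y hy => ?_⟩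
    rw [main_exp, ← hu, norm_mul, Complex.norm_exp]
    have e1 : (u * (y : ℂ)).re = w.re * y := by
      rw [hu]
      simp
    rw [e1, mul_comm]
    refine mul_le_mul_of_nonneg_right ((bracket_le κ p q u hy).trans ?_) (Real.exp_pos _).le
    rw [add_mul _ _ (1 + y)]
    refine add_le_add ?_ ?_
    · rw [div_mul_eq_mul_div]
      refine div_le_div_of_nonneg_right ?_ (by positivity)
      have h8 := norm_nonneg p
      have h9 := norm_nonneg q
      nlinarith
    · have h0 : 0 ≤ (κ + 1) * ‖p‖ / ‖u‖ ^ (κ + 2) := by positivity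
      nlinarith
  · intro s hs
    set u : ℂ := w - t * I with hu
    set v : ℂ := s - u with hv
    have hvre : 0 < v.re := by
      rw [hv, hu]
      simp
      linarith
    obtain ⟨i0, j0⟩ := lap_exp hvre
    have i1 := int_pow hvre 1
    have j1 := lap_pow hvre 1
    have e1 : (fun y : ℝ => main κ p q w t (Real.exp y) * cexp (-s * y)) = fun y : ℝ =>
        (p / u ^ (κ + 1)) * ((y : ℂ) ^ 1 * cexp (-v * y)) +
          (q / u ^ (κ + 1) - (κ + 1) * p / u ^ (κ + 2)) * cexp (-v * y) := by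
      funext y
      rw [main_exp, ← hu]
      have : cexp (-v * y) = cexp (u * y) * cexp (-s * y) := by
        rw [← Complex.exp_add, hv]
        congr 1
        ring
      rw [this]
      ring
    rw [e1, integral_add (i1.const_mul _) (i0.const_mul _), integral_const_mul,
      integral_const_mul, j0, j1]
    have e2 : s + t * I - w = v := by
      rw [hv, hu]
      ring
    unfold mainL
    rw [e2, ← hu]
    simp only [Nat.factorial_one, Nat.cast_one]
    have hv0 : v ≠ 0 := by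
      intro h
      rw [h] at hvre
      simp at hvre
    by_cases hu0 : u = 0
    · rw [hu0]
      simp
    · have hu1 : u ^ (κ + 2) = u ^ (κ + 1) * u := pow_succ u (κ + 1)
      rw [hu1]
      have hu2 : u ^ (κ + 1) ≠ 0 := pow_ne_zero _ hu0
      generalize u ^ (κ + 1) = U at hu2 ⊢
      field_simp
      ring

/-- Row MAINB. -/
theorem MAINB_all : P_MAINB := by
  intro κ p q w hw hw1
  refine ⟨(2 * ‖p‖ + ‖q‖) / w.re ^ (κ + 1) + (κ + 1) * ‖p‖ / w.re ^ (κ + 2), fun t y hy => ?_⟩
  set u : ℂ := w - t * I with hu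
  have hure : u.re = w.re := by
    rw [hu]
    simp
  have hun : w.re ≤ ‖u‖ := by
    rw [← hure]
    exact Complex.re_le_norm u
  have hup : 0 < ‖u‖ := hw.trans_le hun
  rw [main_exp, ← hu, norm_mul, Complex.norm_exp]
  have e1 : (u * (y : ℂ)).re = w.re * y := by
    simp [hure]
  rw [e1]
  have hexp : Real.exp (w.re * y) * Real.exp (-y) ≤ 1 := by
    rw [← Real.exp_add]
    refine Real.exp_le_one_iff.mpr ?_
    nlinarith
  have hE := Real.exp_pos (y / 2)
  have hE1 : 1 ≤ Real.exp (y / 2) := Real.one_le_exp (by linarith)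
  have hb : ‖(p * y + q) / u ^ (κ + 1) - (κ + 1) * p / u ^ (κ + 2)‖ ≤
      ((2 * ‖p‖ + ‖q‖) / w.re ^ (κ + 1) + (κ + 1) * ‖p‖ / w.re ^ (κ + 2)) *
        Real.exp (y / 2) := by
    refine (bracket_le κ p q u hy).trans ?_
    rw [add_mul _ _ (Real.exp (y / 2))]
    refine add_le_add ?_ ?_
    · rw [div_mul_eq_mul_div]
      refine div_le_div₀ (by positivity) ?_ (by positivity)
        (pow_le_pow_left₀ hw.le hun _)
      have h7 := le_two_exp_half hy
      have h8 := norm_nonneg p
      have h9 := norm_nonneg q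
      nlinarith
    · have h1 : (κ + 1) * ‖p‖ / ‖u‖ ^ (κ + 2) ≤ (κ + 1) * ‖p‖ / w.re ^ (κ + 2) :=
        div_le_div_of_nonneg_left (by positivity) (by positivity)
          (pow_le_pow_left₀ hw.le hun _)
      refine h1.trans ?_
      have h0 : 0 ≤ (κ + 1) * ‖p‖ / w.re ^ (κ + 2) := by positivity
      nlinarith
  calc Real.exp (w.re * y) * ‖(p * y + q) / u ^ (κ + 1) - (κ + 1) * p / u ^ (κ + 2)‖ *
        Real.exp (-y) = ‖(p * y + q) / u ^ (κ + 1) - (κ + 1) * p / u ^ (κ + 2)‖ *
        (Real.exp (w.re * y) * Real.exp (-y)) := by ring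
    _ ≤ ‖(p * y + q) / u ^ (κ + 1) - (κ + 1) * p / u ^ (κ + 2)‖ * 1 :=
        mul_le_mul_of_nonneg_left hexp (norm_nonneg _)
    _ ≤ _ := by rw [mul_one]; exact hb

end Pool.Agent.SELB
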