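import Pool.Agent.Lib.SELB.Props

/-!
# MP_af3d17_nt, Selberg's formula: the abstract theorem (row AT)
-/

set_option autoImplicit false

namespace Pool.Agent.SELB

open Complex Filter Topology MeasureTheory Set

namespace ATx

lemma intg {g : ℝ → ℂ} {A c : ℝ} {s : ℂ} (hg : ContinuousOn g (Ici 0))
    (hA : ∀ y : ℝ, 0 ≤ y → ‖g y‖ ≤ A * Real.exp (c * y)) (hc : c < s.re) :
    IntegrableOn (fun y : ℝ => g y * cexp (-s * y)) (Ioi 0) := by
  have h1 : IntegrableOn (fun y : ℝ => A * Real.exp (-(s.re - c) * y)) (Ioi 0) := by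
    exact (integrableOn_exp_mul_Ioi (by linarith : -(s.re - c) < 0) 0).const_mul A
  refine Integrable.mono' h1 ?_ ?_
  · have h2 : ContinuousOn (fun y : ℝ => g y * cexp (-s * y)) (Ioi 0) := by
      refine (hg.mono Ioi_subset_Ici_self).mul ?_
      exact Continuous.continuousOn (by fun_prop)
    exact h2.aestronglyMeasurable measurableSet_Ioi
  · refine (ae_restrict_iff' measurableSet_Ioi).2 (Eventually.of_forall fun y hy => ?_)
    have hy0 : (0 : ℝ) ≤ y := le_of_lt hy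
    have e : ‖cexp (-s * y)‖ = Real.exp (-s.re * y) := by
      rw [Complex.norm_exp]
      congr 1
      simp
    rw [norm_mul, e]
    calc ‖g y‖ * Real.exp (-s.re * y) ≤ A * Real.exp (c * y) * Real.exp (-s.re * y) :=
          mul_le_mul_of_nonneg_right (hA y hy0) (Real.exp_pos _).le
      _ = A * Real.exp (-(s.re - c) * y) := by
          rw [mul_assoc, ← Real.exp_add]
          congr 2
          ring

lemma one_add_le (y : ℝ) : 1 + y ≤ 2 * Real.exp (y / 2) := by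
  have := Real.add_one_le_exp (y / 2)
  linarith

lemma countable_high (h : P_DENS) (T0 : ℝ) : (high T0).Countable := by
  obtain ⟨C, hC⟩ := h 1 one_pos
  have h1 : high T0 ⊆ ⋃ n : ℤ, {ρ | ρ ∈ NZ ∧ |ρ.im - (n : ℝ)| ≤ 2} := by
    intro ρ hρ
    refine mem_iUnion.2 ⟨⌊ρ.im⌋, hρ.1, ?_⟩
    have h2 := Int.floor_le ρ.im
    have h3 := Int.lt_floor_add_one ρ.im
    rw [abs_le]
    constructor <;> linarith
  exact (Set.countable_iUnion fun n : ℤ => (hC (n : ℝ)).1.countable).mono h1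

lemma norm_shift {ρ : ℂ} (h : ρ.re = 1 / 2) (t : ℝ) : (1 + |ρ.im - t|) / 3 ≤ ‖ρ - t * I‖ := by
  have h1 : ‖ρ - t * I‖ ^ 2 = 1 / 4 + (ρ.im - t) ^ 2 := by
    rw [← Complex.normSq_eq_norm_sq, Complex.normSq_apply]
    simp [h]
    ring
  have h2 : ((1 + |ρ.im - t|) / 3) ^ 2 ≤ ‖ρ - t * I‖ ^ 2 := by
    rw [h1]
    have h3 : |ρ.im - t| ^ 2 = (ρ.im - t) ^ 2 := sq_abs _
    nlinarith [sq_nonneg (|ρ.im - t| - 1), abs_nonneg (ρ.im - t)]
  exact le_of_sq_le_sq h2 (norm_nonneg _) 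

/-- bound for `c_ρ = R_ρ / (ρ - it)^m` -/
lemma norm_c {R : ℂ → ℂ} {C0 b t : ℝ} {ρ : ℂ} (κ : ℕ) (h : ρ.re = 1 / 2)
    (hR : ‖R ρ‖ ≤ C0 * (1 + |ρ.im|) ^ b) :
    ‖R ρ / (ρ - t * I) ^ (κ + 1)‖ ≤ |C0| * 3 ^ (κ + 1) *
      ((1 + |ρ.im|) ^ b * (1 + |ρ.im - t|) ^ (-((κ + 1 : ℕ) : ℝ))) := by
  have h0 : 0 < 1 + |ρ.im - t| := by positivity
  have h1 : (1 + |ρ.im - t|) / 3 ≤ ‖ρ - t * I‖ := norm_shift h t
  have h2 : ((1 + |ρ.im - t|) / 3) ^ (κ + 1) ≤ ‖ρ - t * I‖ ^ (κ + 1) :=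
    pow_le_pow_left₀ (by positivity) h1 _
  have h3 : 0 < ((1 + |ρ.im - t|) / 3) ^ (κ + 1) := by positivity
  have h4 : ‖R ρ‖ ≤ |C0| * (1 + |ρ.im|) ^ b :=
    hR.trans (mul_le_mul_of_nonneg_right (le_abs_self _) (by positivity))
  rw [norm_div, norm_pow]
  calc ‖R ρ‖ / ‖ρ - t * I‖ ^ (κ + 1) ≤ (|C0| * (1 + |ρ.im|) ^ b) / ((1 + |ρ.im - t|) / 3) ^ (κ + 1) :=
        div_le_div₀ (by positivity) h4 h3 h2
    _ = _ := by
        rw [Real.rpow_neg h0.le, Real.rpow_natCast, div_pow]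
        field_simp

lemma mainL_diff (κ : ℕ) (p q w : ℂ) (t : ℝ) (hw : 0 < w.re) (hw1 : w.re ≤ 1) :
    DifferentiableOn ℂ (fun s : ℂ => mainL κ p q w t (s + 1 + t * I)) {s | 1 / 2 < s.re} := by
  intro s hs
  have hs' : (1 : ℝ) / 2 < s.re := hs
  have h1 : s + 1 + t * I - w ≠ 0 := by
    intro h
    have := congrArg Complex.re h
    simp at this
    linarith
  have h2 : w - t * I ≠ 0 := by
    intro h
    have := congrArg Complex.re h
    simp at this
    linarith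
  refine DifferentiableAt.differentiableWithinAt ?_
  unfold mainL
  have e1 : (s + 1 + t * I - w) ^ 2 ≠ 0 := pow_ne_zero _ h1
  have e2 : (w - t * I) ^ (κ + 2) * (s + 1 + t * I - w) ≠ 0 := mul_ne_zero (pow_ne_zero _ h2) h1
  refine DifferentiableAt.sub ?_ ?_
  · refine DifferentiableAt.div_const ?_ _
    refine DifferentiableAt.add ?_ ?_
    · exact (differentiableAt_const _).div (by fun_prop) e1
    · exact (differentiableAt_const _).div (by fun_prop) h1
  · exact (differentiableAt_const _).div (by fun_prop) e2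

end ATx

open ATx in
theorem AT_all (hLAP : P_LAP) (hLAPM : P_LAPM) (hMAINB : P_MAINB) (hLAPV : P_LAPV)
    (hTAUB : P_TAUB) (hDENS : P_DENS) (hS0 : P_S0) (hGM : P_GM) (hGZ : P_GZ) : P_AT := by
  intro f F F₀ R p q κ T0 b C0 S hDS hκ hb hbκ hS hF₀ hF hline hR hexp η hη
  -- a smaller exponent
  set η' : ℝ := min η ((κ - b) / 2) with hη'def
  have hη' : 0 < η' := lt_min hη (by linarith)
  have hη'1 : η' ≤ η := min_le_left _ _
  have hη'2 : b + η' < κ := by
    have : η' ≤ (κ - b) / 2 := min_le_right _ _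
    linarith
  obtain ⟨C1, δ, hδ, hC1, hgz⟩ := hGZ κ T0 b C0 F₀ R S hκ hb hline hR hexp η' hη' hη'2
  have h1 : ∀ w : ℂ, w ∈ S → ∃ C : ℝ, 0 ≤ C ∧ ∀ t : ℝ, ∃ H : ℂ → ℂ,
      DifferentiableOn ℂ H {s | 0 < s.re} ∧
      (∀ s : ℂ, 0 < s.re → s ≠ w - t * I →
        H s = PP (p w) (q w) w (s + t * I) / s ^ (κ + 1) - mainL κ (p w) (q w) w t (s + t * I)) ∧
      ∀ s : ℂ, 1 / 2 < s.re → s.re ≤ 2 → s ≠ w - t * I →
        ‖H s + mainL κ (p w) (q w) w t (s + 1 + t * I)‖ ≤ C * (1 + |s.im|) ^ (-2 : ℝ) :=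
    fun w hw => hGM κ (p w) (q w) w hκ (hS w hw).1 (hS w hw).2
  choose! CM hCM using h1
  have h2 : ∀ w : ℂ, w ∈ S → ∃ C : ℝ, ∀ t y : ℝ, 0 ≤ y →
      ‖main κ (p w) (q w) w t (Real.exp y)‖ * Real.exp (-y) ≤ C * Real.exp (y / 2) :=
    fun w hw => hMAINB κ (p w) (q w) w (hS w hw).1 (hS w hw).2
  choose! CB hCB using h2
  obtain ⟨C2, hC2⟩ := hS0 b (κ + 1) hb.le (by push_cast; linarith) η' hη'
  set ηT : ℝ := min 1 δ with hηT
  have hηT0 : 0 < ηT := lt_min one_pos hδ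
  obtain ⟨K, hK0, hK⟩ := hTAUB ηT hηT0
  have : Countable (high T0) := (countable_high hDENS T0).to_subtype
  have hCMs : 0 ≤ ∑ w ∈ S, CM w := Finset.sum_nonneg fun w hw => (hCM w hw).1
  have hCBs : 0 ≤ ∑ w ∈ S, CB w := by
    refine Finset.sum_nonneg fun w hw => ?_
    have := hCB w hw 0 0 le_rfl
    simp only [neg_zero, Real.exp_zero, mul_one, zero_div] at this
    exact (norm_nonneg _).trans this
  set D : ℝ := |C0| * 3 ^ (κ + 1) * |C2| with hD
  have hD0 : 0 ≤ D := by positivity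
  refine ⟨K * (C1 + ∑ w ∈ S, CM w) + 2 * D + ∑ w ∈ S, CB w, fun t x hx => ?_⟩
  -- the data at `t`
  have h3 : ∀ w : ℂ, w ∈ S → ∃ H : ℂ → ℂ,
      DifferentiableOn ℂ H {s | 0 < s.re} ∧
      (∀ s : ℂ, 0 < s.re → s ≠ w - t * I →
        H s = PP (p w) (q w) w (s + t * I) / s ^ (κ + 1) - mainL κ (p w) (q w) w t (s + t * I)) ∧
      ∀ s : ℂ, 1 / 2 < s.re → s.re ≤ 2 → s ≠ w - t * I →
        ‖H s + mainL κ (p w) (q w) w t (s + 1 + t * I)‖ ≤ CM w * (1 + |s.im|) ^ (-2 : ℝ) :=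
    fun w hw => (hCM w hw).2 t
  choose! H hH using h3
  set c : high T0 → ℂ := fun ρ => R ρ / ((ρ : ℂ) - t * I) ^ (κ + 1) with hc
  set W : high T0 → ℂ := fun ρ => (ρ : ℂ) - t * I with hW
  have hWre : ∀ i, (W i).re = 1 / 2 := by
    intro i
    simp [hW, hline i i.2]
  have ht1 : (1 : ℝ) ≤ 1 + |t| := by linarith [abs_nonneg t]
  have hcb : ∀ i, ‖c i‖ ≤ |C0| * 3 ^ (κ + 1) *
      ((1 + |(i : ℂ).im|) ^ b * (1 + |(i : ℂ).im - t|) ^ (-((κ + 1 : ℕ) : ℝ))) := fun i =>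
    norm_c κ (hline i i.2) (hR i i.2)
  have hcs : Summable fun i => ‖c i‖ :=
    Summable.of_nonneg_of_le (fun i => norm_nonneg _) hcb ((hC2 T0 t).1.mul_left _)
  have hcsum : ∑' i, ‖c i‖ ≤ D * (1 + |t|) ^ (b + η') := by
    calc ∑' i, ‖c i‖ ≤ ∑' i : high T0, |C0| * 3 ^ (κ + 1) *
          ((1 + |(i : ℂ).im|) ^ b * (1 + |(i : ℂ).im - t|) ^ (-((κ + 1 : ℕ) : ℝ))) :=
          hcs.tsum_le_tsum hcb ((hC2 T0 t).1.mul_left _)
      _ = |C0| * 3 ^ (κ + 1) * ∑' i : high T0,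
          ((1 + |(i : ℂ).im|) ^ b * (1 + |(i : ℂ).im - t|) ^ (-((κ + 1 : ℕ) : ℝ))) := tsum_mul_left
      _ ≤ |C0| * 3 ^ (κ + 1) * (|C2| * (1 + |t|) ^ (b + η')) := by
          refine mul_le_mul_of_nonneg_left ?_ (by positivity)
          exact (hC2 T0 t).2.trans (mul_le_mul_of_nonneg_right (le_abs_self _) (by positivity))
      _ = D * (1 + |t|) ^ (b + η') := by rw [hD]; ring
  obtain ⟨hVc, hVb, hVL, hVd⟩ := hLAPV (high T0) c W hWre hcs
  set V : ℝ → ℂ := fun y => ∑' i, c i * (cexp (W i * y) - cexp ((W i - 1) * y)) with hV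
  set GV : ℂ → ℂ := fun s => ∑' i, c i * (1 / (s - W i) - 1 / (s - W i + 1)) with hGV
  obtain ⟨hLc, hL0, ⟨A1, hA1⟩, hLL⟩ := hLAP f F κ t hκ hDS
  -- the main terms
  have hMc : ∀ w : ℂ, Continuous fun y : ℝ => main κ (p w) (q w) w t (Real.exp y) := fun w =>
    (hLAPM κ (p w) (q w) w t).1
  have hMb : ∀ w : ℂ, ∃ C : ℝ, ∀ y : ℝ, 0 ≤ y →
      ‖main κ (p w) (q w) w t (Real.exp y)‖ ≤ C * (1 + y) * Real.exp (w.re * y) := fun w =>
    (hLAPM κ (p w) (q w) w t).2.1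
  have hML : ∀ (w s : ℂ), w.re < s.re →
      ∫ y in Ioi (0 : ℝ), main κ (p w) (q w) w t (Real.exp y) * cexp (-s * y) =
        mainL κ (p w) (q w) w t (s + t * I) := fun w => (hLAPM κ (p w) (q w) w t).2.2
  have hMb' : ∀ w : ℂ, w ∈ S → ∃ C : ℝ, 0 ≤ C ∧ ∀ y : ℝ, 0 ≤ y →
      ‖main κ (p w) (q w) w t (Real.exp y)‖ ≤ C * Real.exp (3 / 2 * y) := by
    intro w hw
    obtain ⟨C, hC⟩ := hMb w
    refine ⟨2 * |C|, by positivity, fun y hy => ?_⟩
    have e1 : Real.exp (w.re * y) ≤ Real.exp y := by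
      apply Real.exp_le_exp.2
      nlinarith [(hS w hw).2]
    calc ‖main κ (p w) (q w) w t (Real.exp y)‖ ≤ C * (1 + y) * Real.exp (w.re * y) := hC y hy
      _ ≤ |C| * (1 + y) * Real.exp (w.re * y) := by
          refine mul_le_mul_of_nonneg_right ?_ (Real.exp_pos _).le
          exact mul_le_mul_of_nonneg_right (le_abs_self _) (by linarith)
      _ ≤ |C| * (2 * Real.exp (y / 2)) * Real.exp y := by
          refine mul_le_mul (mul_le_mul_of_nonneg_left (one_add_le y) (abs_nonneg _)) e1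
            (Real.exp_pos _).le (by positivity)
      _ = 2 * |C| * Real.exp (3 / 2 * y) := by
          have : Real.exp (3 / 2 * y) = Real.exp (y / 2) * Real.exp y := by
            rw [← Real.exp_add]; congr 1; ring
          rw [this]; ring
  choose! CW hCW using hMb'
  set M : ℝ → ℂ := fun y => ∑ w ∈ S, main κ (p w) (q w) w t (Real.exp y) with hM
  set r : ℝ → ℂ := fun y => riesz f κ t (Real.exp y) - (1 - (Real.exp (-y) : ℂ)) * M y - V y with hr
  set G : ℂ → ℂ := fun s => F₀ (s + t * I) / s ^ (κ + 1) +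
    ∑ w ∈ S, (H w s + mainL κ (p w) (q w) w t (s + 1 + t * I)) - GV s with hG
  set B : ℝ := (C1 + ∑ w ∈ S, CM w) * (1 + |t|) ^ (b + η') with hB
  have hMcont : Continuous M := continuous_finsetSum _ fun w _ => hMc w
  -- hypotheses of TAUB
  have hrc : ContinuousOn r (Ici 0) := by
    refine (hLc.sub ?_).sub hVc.continuousOn
    exact ((by fun_prop : Continuous fun y : ℝ => (1 - (Real.exp (-y) : ℂ))).mul hMcont).continuousOn
  have hr0 : r 0 = 0 := by
    simp only [hr, Real.exp_zero, hL0, neg_zero, hV]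
    simp
  have hVb' : ∀ y : ℝ, 0 ≤ y → ‖V y‖ ≤ 2 * (∑' i, ‖c i‖) * Real.exp (y / 2) := hVb
  have hVb3 : ∀ y : ℝ, 0 ≤ y → ‖V y‖ ≤ 2 * (∑' i, ‖c i‖) * Real.exp (3 / 2 * y) := by
    intro y hy
    refine (hVb' y hy).trans (mul_le_mul_of_nonneg_left (Real.exp_le_exp.2 (by linarith)) ?_)
    have : 0 ≤ ∑' i, ‖c i‖ := tsum_nonneg fun i => norm_nonneg _
    linarith
  have hMbd : ∀ y : ℝ, 0 ≤ y → ‖M y‖ ≤ (∑ w ∈ S, CW w) * Real.exp (3 / 2 * y) := by
    intro y hy
    rw [Finset.sum_mul]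
    exact norm_sum_le_of_le _ fun w hw => (hCW w hw).2 y hy
  have hrb : ∀ y : ℝ, 0 ≤ y → ‖r y‖ ≤ (A1 + ∑ w ∈ S, CW w + 2 * ∑' i, ‖c i‖) *
      Real.exp (3 / 2 * y) := by
    intro y hy
    have e1 : ‖(1 - (Real.exp (-y) : ℂ))‖ ≤ 1 := by
      have e2 : (1 - (Real.exp (-y) : ℂ)) = ((1 - Real.exp (-y) : ℝ) : ℂ) := by push_cast; ring
      rw [e2, Complex.norm_real, Real.norm_eq_abs, abs_le]
      have e3 := Real.exp_pos (-y)
      have e4 : Real.exp (-y) ≤ 1 := Real.exp_le_one_iff.2 (by linarith)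
      constructor <;> linarith
    calc ‖r y‖ ≤ ‖riesz f κ t (Real.exp y)‖ + ‖(1 - (Real.exp (-y) : ℂ)) * M y‖ + ‖V y‖ := by
          refine (norm_sub_le _ _).trans (add_le_add (norm_sub_le _ _) le_rfl)
      _ ≤ A1 * Real.exp (3 / 2 * y) + (∑ w ∈ S, CW w) * Real.exp (3 / 2 * y) +
          2 * (∑' i, ‖c i‖) * Real.exp (3 / 2 * y) := by
          refine add_le_add (add_le_add (hA1 y hy) ?_) (hVb3 y hy)
          rw [norm_mul]
          calc ‖(1 - (Real.exp (-y) : ℂ))‖ * ‖M y‖ ≤ 1 * ‖M y‖ :=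
                mul_le_mul_of_nonneg_right e1 (norm_nonneg _)
            _ ≤ _ := by rw [one_mul]; exact hMbd y hy
      _ = _ := by ring
  have hGd : DifferentiableOn ℂ G {s | 1 / 2 < s.re} := by
    refine (DifferentiableOn.add ?_ ?_).sub hVd
    · refine DifferentiableOn.div ?_ (by fun_prop) ?_
      · refine hF₀.comp (by fun_prop) ?_
        intro s hs
        simpa using hs
      · intro s hs
        refine pow_ne_zero _ ?_
        rintro rfl
        simp only [mem_ofPred_eq, Complex.zero_re] at hs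
        linarith
    · refine DifferentiableOn.fun_sum fun w hw => ?_
      refine ((hH w hw).1.mono ?_).add (mainL_diff κ (p w) (q w) w t (hS w hw).1 (hS w hw).2)
      intro s hs
      have : (1 : ℝ) / 2 < s.re := hs
      show 0 < s.re
      linarith
  have hGL : ∀ s : ℂ, s.re = 2 → ∫ y in Ioi (0 : ℝ), r y * cexp (-s * y) = G s := by
    intro s hs
    have i1 : IntegrableOn (fun y : ℝ => riesz f κ t (Real.exp y) * cexp (-s * y)) (Ioi 0) :=
      intg hLc hA1 (by rw [hs]; norm_num)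
    have i2 : ∀ w ∈ S, IntegrableOn (fun y : ℝ => main κ (p w) (q w) w t (Real.exp y) *
        cexp (-s * y)) (Ioi 0) := fun w hw =>
      intg (hMc w).continuousOn (hCW w hw).2 (by rw [hs]; norm_num)
    have i3 : ∀ w ∈ S, IntegrableOn (fun y : ℝ => main κ (p w) (q w) w t (Real.exp y) *
        cexp (-(s + 1) * y)) (Ioi 0) := fun w hw =>
      intg (hMc w).continuousOn (hCW w hw).2 (by simp [hs]; norm_num)
    have i4 : IntegrableOn (fun y : ℝ => V y * cexp (-s * y)) (Ioi 0) :=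
      intg hVc.continuousOn hVb3 (by rw [hs]; norm_num)
    have e0 : ∀ y : ℝ, r y * cexp (-s * y) = riesz f κ t (Real.exp y) * cexp (-s * y) -
        ∑ w ∈ S, main κ (p w) (q w) w t (Real.exp y) * cexp (-s * y) +
        ∑ w ∈ S, main κ (p w) (q w) w t (Real.exp y) * cexp (-(s + 1) * y) -
        V y * cexp (-s * y) := by
      intro y
      have e1 : cexp (-(s + 1) * y) = (Real.exp (-y) : ℂ) * cexp (-s * y) := by
        rw [Complex.ofReal_exp, ← Complex.exp_add]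
        congr 1
        push_cast
        ring
      simp only [hr, hM, e1]
      rw [← Finset.sum_mul, ← Finset.sum_mul]
      ring
    simp_rw [e0]
    have i2' := integrable_finsetSum S i2
    have i3' := integrable_finsetSum S i3
    have i12 : IntegrableOn (fun y : ℝ => riesz f κ t (Real.exp y) * cexp (-s * y) -
        ∑ w ∈ S, main κ (p w) (q w) w t (Real.exp y) * cexp (-s * y)) (Ioi 0) := i1.sub i2'
    have i123 : IntegrableOn (fun y : ℝ => riesz f κ t (Real.exp y) * cexp (-s * y) -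
        ∑ w ∈ S, main κ (p w) (q w) w t (Real.exp y) * cexp (-s * y) +
        ∑ w ∈ S, main κ (p w) (q w) w t (Real.exp y) * cexp (-(s + 1) * y)) (Ioi 0) := i12.add i3'
    rw [integral_sub i123 i4, integral_add i12 i3',
      integral_sub i1 i2', integral_finsetSum S i2, integral_finsetSum S i3,
      hLL s (by rw [hs]; norm_num), hVL s (by rw [hs]; norm_num)]
    have hre : ∀ w ∈ S, w.re < s.re := fun w hw => by rw [hs]; linarith [(hS w hw).2]
    rw [Finset.sum_congr rfl fun w hw => hML w s (hre w hw),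
      Finset.sum_congr rfl fun w hw => hML w (s + 1) (by
        have := hre w hw
        simp
        linarith)]
    have hnS : s + t * I ∉ S := by
      intro h
      have := (hS _ h).2
      simp [hs] at this
    have e2 := hF (s + t * I) (by simp [hs]; norm_num) hnS
    have e3 : ∀ w ∈ S, H w s = PP (p w) (q w) w (s + t * I) / s ^ (κ + 1) -
        mainL κ (p w) (q w) w t (s + t * I) := by
      intro w hw
      refine (hH w hw).2.1 s (by rw [hs]; norm_num) ?_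
      rintro rfl
      have := (hS w hw).2
      simp at hs
      linarith
    simp only [hG]
    rw [Finset.sum_add_distrib, Finset.sum_congr rfl e3, Finset.sum_sub_distrib, ← Finset.sum_div, e2,
      add_div]
    ring
  set E : Finset ℂ := S.image fun w => w - t * I with hE
  have hGb : ∀ s : ℂ, 1 / 2 < s.re → s.re ≤ 2 → s ∉ E → ‖G s‖ ≤ B * (1 + |s.im|) ^ (-1 - ηT) := by
    intro s hs1 hs2 hsE
    have hsE' : ∀ w ∈ S, s ≠ w - t * I := by
      rintro w hw rfl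
      exact hsE (Finset.mem_image_of_mem _ hw)
    have hnS : s + t * I ∉ S := by
      intro h
      exact hsE' _ h (by ring)
    have hs0 : (1 : ℝ) ≤ 1 + |s.im| := by linarith [abs_nonneg s.im]
    have g1 := hgz t s hs1 hs2 hnS
    have g2 : ∀ w ∈ S, ‖H w s + mainL κ (p w) (q w) w t (s + 1 + t * I)‖ ≤
        CM w * (1 + |s.im|) ^ (-1 - ηT) := by
      intro w hw
      refine ((hH w hw).2.2 s hs1 hs2 (hsE' w hw)).trans ?_
      refine mul_le_mul_of_nonneg_left ?_ (hCM w hw).1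
      refine Real.rpow_le_rpow_of_exponent_le hs0 ?_
      have : ηT ≤ 1 := min_le_left _ _
      linarith
    have g3 : (1 + |s.im|) ^ (-1 - δ) ≤ (1 + |s.im|) ^ (-1 - ηT) := by
      refine Real.rpow_le_rpow_of_exponent_le hs0 ?_
      have : ηT ≤ δ := min_le_right _ _
      linarith
    have g4 : (1 : ℝ) ≤ (1 + |t|) ^ (b + η') := Real.one_le_rpow ht1 (by linarith)
    have g5 : 0 < (1 + |s.im|) ^ (-1 - ηT) := Real.rpow_pos_of_pos (by linarith) _
    calc ‖G s‖ = ‖(F₀ (s + t * I) / s ^ (κ + 1) - GV s) +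
          ∑ w ∈ S, (H w s + mainL κ (p w) (q w) w t (s + 1 + t * I))‖ := by
          simp only [hG]; congr 1; ring
      _ ≤ ‖F₀ (s + t * I) / s ^ (κ + 1) - GV s‖ +
          ‖∑ w ∈ S, (H w s + mainL κ (p w) (q w) w t (s + 1 + t * I))‖ := norm_add_le _ _
      _ ≤ C1 * (1 + |t|) ^ (b + η') * (1 + |s.im|) ^ (-1 - δ) +
          ∑ w ∈ S, CM w * (1 + |s.im|) ^ (-1 - ηT) :=
          add_le_add g1 (norm_sum_le_of_le _ g2)
      _ ≤ C1 * (1 + |t|) ^ (b + η') * (1 + |s.im|) ^ (-1 - ηT) +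
          (1 + |t|) ^ (b + η') * ∑ w ∈ S, CM w * (1 + |s.im|) ^ (-1 - ηT) := by
          refine add_le_add (mul_le_mul_of_nonneg_left g3 (by positivity)) ?_
          refine le_mul_of_one_le_left (Finset.sum_nonneg fun w hw => ?_) g4
          exact mul_nonneg (hCM w hw).1 g5.le
      _ = B * (1 + |s.im|) ^ (-1 - ηT) := by
          rw [← Finset.sum_mul, hB]; ring
  have hfin := hK r G _ B E hrc hr0 hrb hGd hGL hGb
  -- conclusion
  have hx0 : 0 < x := by linarith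
  set y : ℝ := Real.log x with hy
  have hy0 : 0 ≤ y := Real.log_nonneg hx
  have hxy : Real.exp y = x := Real.exp_log hx0
  have hsq : √x = Real.exp (y / 2) := by
    rw [← hxy, Real.exp_half]
  have key : riesz f κ t x - ∑ w ∈ S, main κ (p w) (q w) w t x =
      r y + V y - (Real.exp (-y) : ℂ) * M y := by
    simp only [hr, hM, hxy]
    ring
  have k1 : ‖(Real.exp (-y) : ℂ) * M y‖ ≤ (∑ w ∈ S, CB w) * Real.exp (y / 2) := by
    rw [norm_mul, Complex.norm_real, Real.norm_eq_abs, abs_of_pos (Real.exp_pos _), Finset.sum_mul]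
    calc Real.exp (-y) * ‖M y‖ ≤ Real.exp (-y) * ∑ w ∈ S, ‖main κ (p w) (q w) w t (Real.exp y)‖ :=
          mul_le_mul_of_nonneg_left (norm_sum_le _ _) (Real.exp_pos _).le
      _ = ∑ w ∈ S, ‖main κ (p w) (q w) w t (Real.exp y)‖ * Real.exp (-y) := by
          rw [Finset.mul_sum]
          exact Finset.sum_congr rfl fun w _ => mul_comm _ _
      _ ≤ ∑ w ∈ S, CB w * Real.exp (y / 2) := Finset.sum_le_sum fun w hw => hCB w hw t y hy0
  have k2 := hVb' y hy0
  have k3 := hfin y hy0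
  have g4 : (1 : ℝ) ≤ (1 + |t|) ^ (b + η') := Real.one_le_rpow ht1 (by linarith)
  have g6 : (1 + |t|) ^ (b + η') ≤ (1 + |t|) ^ (b + η) :=
    Real.rpow_le_rpow_of_exponent_le ht1 (by linarith)
  have g7 : 0 ≤ K * (C1 + ∑ w ∈ S, CM w) + 2 * D + ∑ w ∈ S, CB w := by positivity
  rw [key, hsq]
  calc ‖r y + V y - (Real.exp (-y) : ℂ) * M y‖ ≤ ‖r y‖ + ‖V y‖ + ‖(Real.exp (-y) : ℂ) * M y‖ :=
        (norm_sub_le _ _).trans (add_le_add (norm_add_le _ _) le_rfl)
    _ ≤ K * B * Real.exp (y / 2) + 2 * (D * (1 + |t|) ^ (b + η')) * Real.exp (y / 2) +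
        (∑ w ∈ S, CB w) * Real.exp (y / 2) := by
        refine add_le_add (add_le_add k3 (k2.trans ?_)) k1
        refine mul_le_mul_of_nonneg_right ?_ (Real.exp_pos _).le
        linarith
    _ ≤ K * B * Real.exp (y / 2) + 2 * (D * (1 + |t|) ^ (b + η')) * Real.exp (y / 2) +
        ((∑ w ∈ S, CB w) * (1 + |t|) ^ (b + η')) * Real.exp (y / 2) := by
        refine add_le_add le_rfl (mul_le_mul_of_nonneg_right ?_ (Real.exp_pos _).le)
        exact le_mul_of_one_le_right hCBs g4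
    _ = (K * (C1 + ∑ w ∈ S, CM w) + 2 * D + ∑ w ∈ S, CB w) * (1 + |t|) ^ (b + η') *
        Real.exp (y / 2) := by rw [hB]; ring
    _ ≤ (K * (C1 + ∑ w ∈ S, CM w) + 2 * D + ∑ w ∈ S, CB w) * (1 + |t|) ^ (b + η) *
        Real.exp (y / 2) := by
        refine mul_le_mul_of_nonneg_right ?_ (Real.exp_pos _).le
        exact mul_le_mul_of_nonneg_left g6 g7

end Pool.Agent.SELB
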