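import Pool.Agent.Lib.SELB.Props

/-!
# MP_af3d17_nt, Selberg's formula: row BACK

The Laplace transform of the error term.
-/

set_option autoImplicit false

namespace Pool.Agent.SELB

open Complex Filter Topology MeasureTheory Set

section Laplace

variable {E : ℝ → ℂ} {C a : ℝ}

theorem lap_const_nonneg (hb : ∀ y : ℝ, 0 ≤ y → ‖E y‖ ≤ C * Real.exp (a * y)) : 0 ≤ C := by
  have h := hb 0 le_rfl
  rw [mul_zero, Real.exp_zero, mul_one] at h
  exact (norm_nonneg _).trans h

theorem lap_norm_le (hb : ∀ y : ℝ, 0 ≤ y → ‖E y‖ ≤ C * Real.exp (a * y)) (s : ℂ) {y : ℝ}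
    (hy : 0 ≤ y) : ‖E y * cexp (-s * y)‖ ≤ C * Real.exp ((a - s.re) * y) := by
  rw [norm_mul, Complex.norm_exp]
  have h1 : (-s * (y : ℂ)).re = -s.re * y := by simp
  rw [h1]
  calc ‖E y‖ * Real.exp (-s.re * y) ≤ C * Real.exp (a * y) * Real.exp (-s.re * y) :=
        mul_le_mul_of_nonneg_right (hb y hy) (Real.exp_pos _).le
    _ = C * Real.exp ((a - s.re) * y) := by
        rw [mul_assoc, ← Real.exp_add]
        congr 2
        ring

theorem lap_meas (hE : ContinuousOn E (Ici 0)) (s : ℂ) :
    AEStronglyMeasurable (fun y : ℝ => E y * cexp (-s * y)) (volume.restrict (Ioi 0)) := by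
  refine ContinuousOn.aestronglyMeasurable ?_ measurableSet_Ioi
  refine (hE.mono Ioi_subset_Ici_self).mul (Continuous.continuousOn ?_)
  fun_prop

theorem lap_bound_integrable {s : ℂ} (hs : a < s.re) :
    IntegrableOn (fun y : ℝ => C * Real.exp ((a - s.re) * y)) (Ioi 0) :=
  (integrableOn_exp_mul_Ioi (by linarith) 0).const_mul C

theorem lap_integrable (hE : ContinuousOn E (Ici 0))
    (hb : ∀ y : ℝ, 0 ≤ y → ‖E y‖ ≤ C * Real.exp (a * y)) {s : ℂ} (hs : a < s.re) :
    IntegrableOn (fun y : ℝ => E y * cexp (-s * y)) (Ioi 0) := by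
  refine Integrable.mono' (lap_bound_integrable (C := C) hs) (lap_meas hE s) ?_
  refine (ae_restrict_iff' measurableSet_Ioi).2 (Eventually.of_forall fun y hy => ?_)
  exact lap_norm_le hb s (le_of_lt hy)

theorem lap_norm_integral_le
    (hb : ∀ y : ℝ, 0 ≤ y → ‖E y‖ ≤ C * Real.exp (a * y)) {s : ℂ} (hs : a < s.re) :
    ‖∫ y in Ioi (0 : ℝ), E y * cexp (-s * y)‖ ≤ C / (s.re - a) := by
  have h1 : ‖∫ y in Ioi (0 : ℝ), E y * cexp (-s * y)‖ ≤
      ∫ y in Ioi (0 : ℝ), C * Real.exp ((a - s.re) * y) := by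
    refine norm_integral_le_of_norm_le (lap_bound_integrable hs) ?_
    refine (ae_restrict_iff' measurableSet_Ioi).2 (Eventually.of_forall fun y hy => ?_)
    exact lap_norm_le hb s (le_of_lt hy)
  refine h1.trans (le_of_eq ?_)
  rw [integral_const_mul, integral_exp_mul_Ioi (by linarith), mul_zero, Real.exp_zero]
  have h2 : s.re - a ≠ 0 := by
    intro h
    linarith
  have h3 : a - s.re ≠ 0 := by
    intro h
    linarith
  field_simp
  ring

theorem lap_diff (hE : ContinuousOn E (Ici 0))
    (hb : ∀ y : ℝ, 0 ≤ y → ‖E y‖ ≤ C * Real.exp (a * y)) {s₀ : ℂ} (hs : a < s₀.re) :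
    DifferentiableAt ℂ (fun s : ℂ => ∫ y in Ioi (0 : ℝ), E y * cexp (-s * y)) s₀ := by
  have hC := lap_const_nonneg hb
  set δ : ℝ := (s₀.re - a) / 2 with hδ
  have hδ0 : 0 < δ := by rw [hδ]; linarith
  have hU : {s : ℂ | a + δ < s.re} ∈ 𝓝 s₀ := by
    refine (isOpen_lt continuous_const Complex.continuous_re).mem_nhds ?_
    change a + δ < s₀.re
    rw [hδ]
    linarith
  have key := hasDerivAt_integral_of_dominated_loc_of_deriv_le (μ := volume.restrict (Ioi 0))
    (F := fun (s : ℂ) (y : ℝ) => E y * cexp (-s * y))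
    (F' := fun (s : ℂ) (y : ℝ) => E y * (cexp (-s * y) * (-(y : ℂ))))
    (bound := fun y : ℝ => C * (2 / δ) * Real.exp (-(δ / 2) * y)) (x₀ := s₀) hU
    (Eventually.of_forall fun s => lap_meas hE s) (lap_integrable hE hb hs) ?_ ?_ ?_ ?_
  · exact key.2.differentiableAt
  · refine ContinuousOn.aestronglyMeasurable ?_ measurableSet_Ioi
    refine (hE.mono Ioi_subset_Ici_self).mul (Continuous.continuousOn ?_)
    fun_prop
  · refine (ae_restrict_iff' measurableSet_Ioi).2 (Eventually.of_forall fun y hy s hs1 => ?_)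
    have hy0 : (0 : ℝ) ≤ y := le_of_lt hy
    have hs2 : a + δ < s.re := hs1
    rw [← mul_assoc, norm_mul, norm_neg, Complex.norm_real, Real.norm_of_nonneg hy0]
    have h1 := lap_norm_le hb s hy0
    have h2 : Real.exp ((a - s.re) * y) ≤ Real.exp (-δ * y) := by
      refine Real.exp_le_exp.2 ?_
      nlinarith
    have h3 : y ≤ 2 / δ * Real.exp (δ / 2 * y) := by
      have h4 := Real.add_one_le_exp (δ / 2 * y)
      have h5 : 2 / δ * (δ / 2 * y) = y := by field_simp
      have h6 : 0 < 2 / δ := by positivity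
      nlinarith
    calc ‖E y * cexp (-s * y)‖ * y ≤ (C * Real.exp (-δ * y)) * (2 / δ * Real.exp (δ / 2 * y)) :=
          mul_le_mul (h1.trans (mul_le_mul_of_nonneg_left h2 hC)) h3 hy0 (by positivity)
      _ = C * (2 / δ) * (Real.exp (-δ * y) * Real.exp (δ / 2 * y)) := by ring
      _ = C * (2 / δ) * Real.exp (-(δ / 2) * y) := by
          rw [← Real.exp_add]
          congr 2
          ring
  · exact (integrableOn_exp_mul_Ioi (by linarith) 0).const_mul _
  · refine Eventually.of_forall fun y s _ => ?_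
    have h1 : HasDerivAt (fun s : ℂ => -s * (y : ℂ)) (-(y : ℂ)) s := by
      simpa using (hasDerivAt_id s).neg.mul_const (y : ℂ)
    exact (h1.cexp).const_mul (E y)

end Laplace

/-- BACK -/
theorem BACK_all (h1 : P_LAP) (h2 : P_LAPM) : P_BACK := by
  intro f F κ t K S p q hF hκ hbd
  obtain ⟨hc1, -, ⟨C1, hC1⟩, hl1⟩ := h1 f F κ t hκ hF
  set E : ℝ → ℂ := fun y => riesz f κ t (Real.exp y) -
    ∑ w ∈ S, main κ (p w) (q w) w t (Real.exp y) with hEdef
  have hE : ContinuousOn E (Ici 0) := by
    refine hc1.sub (Continuous.continuousOn ?_)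
    exact continuous_finsetSum S fun w _ => (h2 κ (p w) (q w) w t).1
  have hb : ∀ y : ℝ, 0 ≤ y → ‖E y‖ ≤ K * Real.exp (1 / 2 * y) := by
    intro y hy
    have h3 := hbd (Real.exp y) (Real.one_le_exp hy)
    rw [← Real.exp_half] at h3
    have h4 : y / 2 = 1 / 2 * y := by ring
    rw [h4] at h3
    exact h3
  refine ⟨fun z => ∫ y in Ioi (0 : ℝ), E y * cexp (-(z - t * I) * y), ?_, ?_, ?_⟩
  · intro z hz
    have hz' : (1 / 2 : ℝ) < (z - t * I).re := by
      have : (z - t * I).re = z.re := by simp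
      rw [this]
      exact hz
    have h3 := lap_diff hE hb hz'
    have h4 : DifferentiableAt ℂ (fun z : ℂ => z - t * I) z := by fun_prop
    exact (DifferentiableAt.comp z h3 h4).differentiableWithinAt
  · intro z hz
    have hre : (z - t * I).re = z.re := by simp
    have h3 := lap_norm_integral_le hb (s := z - t * I) (by rw [hre]; exact hz)
    rw [hre] at h3
    exact h3
  · intro z hz hw
    have hre : (z - t * I).re = z.re := by simp
    have hne : (z - t * I) ^ (κ + 1) ≠ 0 := by
      refine pow_ne_zero _ fun h0 => ?_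
      rw [h0, Complex.zero_re] at hre
      linarith
    have hi1 : IntegrableOn (fun y : ℝ => riesz f κ t (Real.exp y) * cexp (-(z - t * I) * y))
        (Ioi 0) := lap_integrable (a := 3 / 2) hc1 hC1 (by rw [hre]; exact hz)
    have hi2 : ∀ w ∈ S, IntegrableOn
        (fun y : ℝ => main κ (p w) (q w) w t (Real.exp y) * cexp (-(z - t * I) * y)) (Ioi 0) := by
      intro w hwS
      obtain ⟨hc2, ⟨C2, hC2⟩, -⟩ := h2 κ (p w) (q w) w t
      have hC20 : 0 ≤ C2 := by
        have h3 := hC2 0 le_rfl
        rw [add_zero, mul_one, mul_zero, Real.exp_zero, mul_one] at h3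
        exact (norm_nonneg _).trans h3
      have hwz := hw w hwS
      set d : ℝ := (z.re - w.re) / 2 with hd
      have hd0 : 0 < d := by rw [hd]; linarith
      refine lap_integrable (C := C2 * (1 + 1 / d)) (a := w.re + d) hc2.continuousOn ?_ ?_
      · intro y hy
        refine (hC2 y hy).trans ?_
        have h3 : 1 + y ≤ (1 + 1 / d) * Real.exp (d * y) := by
          have h4 := Real.add_one_le_exp (d * y)
          have h5 : 1 / d * (d * y) = y := by field_simp
          have h6 : 0 < 1 / d := by positivity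
          have h7 : 0 ≤ d * y := by positivity
          nlinarith
        calc C2 * (1 + y) * Real.exp (w.re * y)
            ≤ C2 * ((1 + 1 / d) * Real.exp (d * y)) * Real.exp (w.re * y) :=
              mul_le_mul_of_nonneg_right (mul_le_mul_of_nonneg_left h3 hC20) (Real.exp_pos _).le
          _ = C2 * (1 + 1 / d) * (Real.exp (w.re * y) * Real.exp (d * y)) := by ring
          _ = C2 * (1 + 1 / d) * Real.exp ((w.re + d) * y) := by
              rw [← Real.exp_add]
              congr 2
              ring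
      · rw [hre, hd]
        linarith
    have hI : ∫ y in Ioi (0 : ℝ), E y * cexp (-(z - t * I) * y) =
        F z / (z - t * I) ^ (κ + 1) - ∑ w ∈ S, mainL κ (p w) (q w) w t z := by
      have h3 : (fun y : ℝ => E y * cexp (-(z - t * I) * y)) = fun y : ℝ =>
          riesz f κ t (Real.exp y) * cexp (-(z - t * I) * y) -
          ∑ w ∈ S, main κ (p w) (q w) w t (Real.exp y) * cexp (-(z - t * I) * y) := by
        funext y
        rw [hEdef]
        simp only [sub_mul, Finset.sum_mul]
      rw [h3, integral_sub hi1 (integrable_finsetSum S hi2), integral_finsetSum S hi2,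
        hl1 (z - t * I) (by rw [hre]; exact hz), sub_add_cancel]
      congr 1
      refine Finset.sum_congr rfl fun w hwS => ?_
      rw [(h2 κ (p w) (q w) w t).2.2 (z - t * I) (by rw [hre]; exact hw w hwS), sub_add_cancel]
    change F z = (z - t * I) ^ (κ + 1) * ((∫ y in Ioi (0 : ℝ), E y * cexp (-(z - t * I) * y)) + _)
    rw [hI, sub_add_cancel, mul_div_cancel₀ _ hne]

end Pool.Agent.SELB
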