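import Pool.Agent.Lib.SELB.Props

/-!
# MP_af3d17_nt, Selberg's formula: row BWD
-/

set_option autoImplicit false

namespace Pool.Agent.SELB

open Complex Filter Topology MeasureTheory Set

namespace BWDx

lemma mainL_bound {κ : ℕ} {p q w : ℂ} {t : ℝ} {z : ℂ} (h : 1 ≤ ‖z - w‖) :
    ‖mainL κ p q w t z‖ ≤ (‖p‖ + ‖q‖) / ‖(w - t * I) ^ (κ + 1)‖ +
      (κ + 1) * ‖p‖ / ‖(w - t * I) ^ (κ + 2)‖ := by
  unfold mainL
  have h1 : ‖p / (z - w) ^ 2 + q / (z - w)‖ ≤ ‖p‖ + ‖q‖ := by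
    refine (norm_add_le _ _).trans (add_le_add ?_ ?_)
    · rw [norm_div, norm_pow]
      exact div_le_self (norm_nonneg _) (one_le_pow₀ h)
    · rw [norm_div]
      exact div_le_self (norm_nonneg _) h
  refine (norm_sub_le _ _).trans (add_le_add ?_ ?_)
  · rw [norm_div]
    exact div_le_div_of_nonneg_right h1 (norm_nonneg _)
  · rw [norm_div, norm_mul, norm_mul, ← div_div]
    have h2 : ‖((κ : ℂ) + 1)‖ = (κ : ℝ) + 1 := by
      have : ((κ : ℂ) + 1) = (((κ : ℝ) + 1 : ℝ) : ℂ) := by push_cast; ring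
      rw [this, Complex.norm_real, Real.norm_of_nonneg (by positivity)]
    rw [h2]
    exact div_le_self (by positivity) h

lemma norm_sub_ge {z w : ℂ} {M t : ℝ} (hw : |w.im| ≤ M) (hz : z.im = t) (ht : M + 1 ≤ t) :
    1 ≤ ‖z - w‖ := by
  have h1 := Complex.abs_im_le_norm (z - w)
  have h2 : 1 ≤ |(z - w).im| := by
    rw [Complex.sub_im, hz]
    have := abs_le.1 hw
    rw [le_abs]
    left
    linarith
  linarith

lemma ord_le {x : EReal} {A : ℝ} (h : ∀ ε : ℝ, 0 < ε → ((-(A + ε) : ℝ) : EReal) ≤ x) :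
    ((-A : ℝ) : EReal) ≤ x := by
  by_contra hc
  push Not at hc
  obtain ⟨r, hr1, hr2⟩ := EReal.lt_iff_exists_real_btwn.1 hc
  rw [EReal.coe_lt_coe_iff] at hr2
  have := h (-A - r) (by linarith)
  have e : -(A + (-A - r)) = r := by ring
  rw [e] at this
  exact absurd hr1 (not_lt.2 this)

end BWDx

open BWDx in
theorem BWD_all (h1 : P_LS) (h2 : P_BACK) (h3 : P_ID1) (h4 : P_ID2) (h5 : P_LINE)
    (h6 : P_BWDC) : P_BWD := by
  intro γ hγ
  -- the zeros to the right of the line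
  have line : ∀ (κ : ℕ) (K : ℝ) (S : Finset ℂ) (p q : ℂ → ℂ), 1 ≤ κ →
      (∀ x : ℝ, 1 ≤ x → ‖riesz vM κ 0 x - ∑ w ∈ S, main κ (p w) (q w) w 0 x‖ ≤ K * √x) →
      ∀ z : ℂ, 1 / 2 < z.re → riemannZeta z = 0 → z ∈ S := by
    intro κ K S p q hκ hx
    obtain ⟨L, hL1, -, hL3⟩ := h2 vM F1 κ 0 K S p q h1.1 hκ hx
    exact h3 κ 0 S p q L hL1 hL3
  have im_bound : ∀ S : Finset ℂ, ∃ M : ℝ, ∀ w ∈ S, |w.im| ≤ M := by
    intro S
    obtain ⟨M, hM⟩ := (S.finite_toSet.image (fun z : ℂ => |z.im|)).bddAbove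
    exact ⟨M, fun w hw => hM ⟨w, hw, rfl⟩⟩
  -- the formula for `F2` near the line
  have form : ∀ (κ : ℕ) (K t : ℝ) (S S1 : Finset ℂ) (p q : ℂ → ℂ) (M T0 : ℝ), 1 ≤ κ →
      (∀ x : ℝ, 1 ≤ x → ‖riesz selberg κ t x - ∑ w ∈ S, main κ (p w) (q w) w t x‖ ≤ K * √x) →
      (∀ z : ℂ, 1 / 2 < z.re → riemannZeta z = 0 → z ∈ S1) → (∀ w ∈ S, |w.im| ≤ M) →
      (∀ w ∈ S1, |w.im| ≤ M) → RHl T0 → ∀ ρ ∈ NZ, M + 1 ≤ ρ.im → T0 < ρ.im → 0 < ρ.im →
      ∀ δ : ℝ, 0 < δ → ‖F2 (ρ + δ)‖ ≤ ‖(ρ + δ - t * I)‖ ^ (κ + 1) * (K / δ +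
        ∑ w ∈ S, ‖mainL κ (p w) (q w) w t (ρ + δ)‖) := by
    intro κ K t S S1 p q M T0 hκ hx hz hM hM1 hT ρ hρ hρ1 hρ2 hρ3 δ hδ
    obtain ⟨L, hL1, hL2, hL3⟩ := h2 selberg F2 κ t K S p q h1.2 hκ hx
    have hre : ρ.re = 1 / 2 := hT ρ ⟨hρ, by rw [abs_of_pos hρ3]; exact hρ2⟩
    have hzre : (ρ + δ : ℂ).re = 1 / 2 + δ := by simp [hre]
    have hzim : (ρ + δ : ℂ).im = ρ.im := by simp
    have hbig : ∀ w : ℂ, |w.im| ≤ M → (ρ + δ : ℂ) ≠ w := by
      intro w hw h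
      rw [← h, hzim, abs_of_pos hρ3] at hw
      linarith
    have e := h4 κ t S p q L hL1 hL3 (ρ + δ) (by rw [hzre]; linarith)
      (fun h => hbig _ (hM _ h) rfl) (by
        intro h
        rw [h] at hzim
        simp at hzim
        linarith) (fun h => hbig _ (hM1 _ (hz _ (by rw [hzre]; linarith) h)) rfl)
    rw [e, norm_mul, norm_pow]
    refine mul_le_mul_of_nonneg_left ?_ (by positivity)
    refine (norm_add_le _ _).trans (add_le_add ?_ (norm_sum_le _ _))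
    have := hL2 (ρ + δ) (by rw [hzre]; linarith)
    rw [hzre] at this
    simpa using this
  refine ⟨?_, ?_⟩
  · intro κ A hκ hA hv hs
    obtain ⟨S1, p1, q1, hS1⟩ := hv
    obtain ⟨C1, hC1⟩ := hS1 1 one_pos
    have hz := line κ C1 S1 p1 q1 hκ (by
      intro x hx
      have := hC1 0 x hx
      simpa using this)
    obtain ⟨T0, -, hT0⟩ := h5 S1 hz
    obtain ⟨S, p, q, hS⟩ := hs
    obtain ⟨M1, hM1⟩ := im_bound S1
    obtain ⟨M, hM⟩ := im_bound S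
    refine ord_le fun ε hε => ?_
    obtain ⟨C, hC⟩ := hS ε hε
    set N : ℝ := ∑ w ∈ S, ((‖p w‖ + ‖q w‖) + (κ + 1) * ‖p w‖) with hN
    have hN0 : 0 ≤ N := Finset.sum_nonneg fun w _ => by positivity
    refine h6 γ hγ T0 (A + ε) (C + N) (max (max M M1 + 1) (max T0 0 + 1)) hT0 (by linarith) ?_
    intro ρ hρ hρT δ hδ hδ1
    have hT1 : max M M1 + 1 ≤ ρ.im := (le_max_left _ _).trans hρT
    have hT2 : max T0 0 + 1 ≤ ρ.im := (le_max_right _ _).trans hρT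
    have hT3 : T0 < ρ.im := by have := le_max_left T0 0; linarith
    have hT4 : 0 < ρ.im := by have := le_max_right T0 0; linarith
    have key := form κ (C * (1 + |ρ.im|) ^ (A + ε)) ρ.im S S1 p q (max M M1) T0 hκ
      (fun x hx => hC ρ.im x hx) hz (fun w hw => (hM w hw).trans (le_max_left _ _))
      (fun w hw => (hM1 w hw).trans (le_max_right _ _)) hT0 ρ hρ hT1 hT3 hT4 δ hδ
    have hre : ρ.re = 1 / 2 := hT0 ρ ⟨hρ, by rw [abs_of_pos hT4]; exact hT3⟩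
    have e1 : (ρ + δ - ρ.im * I : ℂ) = ((1 / 2 + δ : ℝ) : ℂ) := by
      apply Complex.ext <;> simp [hre]
    have e2 : ‖(ρ + δ - ρ.im * I : ℂ)‖ ^ (κ + 1) ≤ 1 := by
      rw [e1, Complex.norm_real, Real.norm_of_nonneg (by linarith)]
      exact pow_le_one₀ (by linarith) (by linarith)
    have e3 : ∑ w ∈ S, ‖mainL κ (p w) (q w) w ρ.im (ρ + δ)‖ ≤ N := by
      refine Finset.sum_le_sum fun w hw => ?_
      have hw1 := (hM w hw).trans (le_max_left M M1)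
      have g1 : 1 ≤ ‖(ρ + δ : ℂ) - w‖ := norm_sub_ge hw1 (by simp) hT1
      have g2 : 1 ≤ ‖w - ρ.im * I‖ := by
        rw [norm_sub_rev]
        exact norm_sub_ge hw1 (by simp) hT1
      refine (mainL_bound g1).trans (add_le_add ?_ ?_)
      · rw [norm_pow]
        exact div_le_self (by positivity) (one_le_pow₀ g2)
      · rw [norm_pow]
        exact div_le_self (by positivity) (one_le_pow₀ g2)
    have h0 : 1 ≤ (1 + ρ.im) ^ (A + ε) := Real.one_le_rpow (by linarith) (by linarith)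
    have hCn : 0 ≤ C := by
      have := hC 0 1 le_rfl
      simp only [abs_zero, add_zero, Real.one_rpow, mul_one, Real.sqrt_one] at this
      exact (norm_nonneg _).trans this
    have habs : |ρ.im| = ρ.im := abs_of_pos hT4
    rw [habs] at key
    have e4 : N ≤ N * (1 + ρ.im) ^ (A + ε) / δ := by
      rw [le_div_iff₀ hδ]
      exact mul_le_mul_of_nonneg_left (by linarith) hN0
    calc ‖F2 (ρ + δ)‖ ≤ _ := key
      _ ≤ 1 * (C * (1 + ρ.im) ^ (A + ε) / δ + N) :=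
        mul_le_mul e2 (add_le_add le_rfl e3)
          (add_nonneg (by positivity) (Finset.sum_nonneg fun w _ => norm_nonneg _)) zero_le_one
      _ ≤ (C + N) * (1 + ρ.im) ^ (A + ε) / δ := by
        rw [one_mul, add_mul, add_div]
        linarith
  · intro κ hκ hv hs
    obtain ⟨S1, p1, q1, C1, hC1⟩ := hv
    have hz := line κ C1 S1 p1 q1 hκ hC1
    obtain ⟨T0, -, hT0⟩ := h5 S1 hz
    obtain ⟨S, p, q, C, hC⟩ := hs
    obtain ⟨M1, hM1⟩ := im_bound S1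
    obtain ⟨M, hM⟩ := im_bound S
    have hCn : 0 ≤ C := by
      have := hC 1 le_rfl
      simp only [Real.sqrt_one, mul_one] at this
      exact (norm_nonneg _).trans this
    set N : ℝ := ∑ w ∈ S, ((‖p w‖ + ‖q w‖) / ‖(w - (0 : ℝ) * I : ℂ) ^ (κ + 1)‖ +
      (κ + 1) * ‖p w‖ / ‖(w - (0 : ℝ) * I : ℂ) ^ (κ + 2)‖) with hN
    have hN0 : 0 ≤ N := Finset.sum_nonneg fun w _ => by positivity
    refine h6 γ hγ T0 (κ + 1) (C + N) (max (max M M1 + 1) (max T0 0 + 1)) hT0 (by positivity) ?_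
    intro ρ hρ hρT δ hδ hδ1
    have hT1 : max M M1 + 1 ≤ ρ.im := (le_max_left _ _).trans hρT
    have hT2 : max T0 0 + 1 ≤ ρ.im := (le_max_right _ _).trans hρT
    have hT3 : T0 < ρ.im := by have := le_max_left T0 0; linarith
    have hT4 : 0 < ρ.im := by have := le_max_right T0 0; linarith
    have key := form κ C 0 S S1 p q (max M M1) T0 hκ hC hz
      (fun w hw => (hM w hw).trans (le_max_left _ _))
      (fun w hw => (hM1 w hw).trans (le_max_right _ _)) hT0 ρ hρ hT1 hT3 hT4 δ hδ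
    have hre : ρ.re = 1 / 2 := hT0 ρ ⟨hρ, by rw [abs_of_pos hT4]; exact hT3⟩
    have e2 : ‖(ρ + δ - (0 : ℝ) * I : ℂ)‖ ^ (κ + 1) ≤ (1 + ρ.im) ^ ((κ : ℝ) + 1) := by
      have g : ‖(ρ + δ - (0 : ℝ) * I : ℂ)‖ ≤ 1 + ρ.im := by
        refine (Complex.norm_le_abs_re_add_abs_im _).trans ?_
        have g1 : (ρ + δ - (0 : ℝ) * I : ℂ).re = 1 / 2 + δ := by simp [hre]
        have g2 : (ρ + δ - (0 : ℝ) * I : ℂ).im = ρ.im := by simp
        rw [g1, g2, abs_of_pos hT4, abs_of_pos (by linarith)]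
        linarith
      have : (1 + ρ.im) ^ ((κ : ℝ) + 1) = (1 + ρ.im) ^ (κ + 1) := by
        rw [← Real.rpow_natCast]
        push_cast
        rfl
      rw [this]
      exact pow_le_pow_left₀ (norm_nonneg _) g _
    have e3 : ∑ w ∈ S, ‖mainL κ (p w) (q w) w 0 (ρ + δ)‖ ≤ N := by
      refine Finset.sum_le_sum fun w hw => ?_
      have hw1 := (hM w hw).trans (le_max_left M M1)
      have g1 : 1 ≤ ‖(ρ + δ : ℂ) - w‖ := norm_sub_ge hw1 (by simp) hT1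
      exact mainL_bound g1
    have h0 : 0 < (1 + ρ.im) ^ ((κ : ℝ) + 1) := Real.rpow_pos_of_pos (by linarith) _
    have e4 : N ≤ N / δ := by
      rw [le_div_iff₀ hδ]
      nlinarith
    calc ‖F2 (ρ + δ)‖ ≤ _ := key
      _ ≤ (1 + ρ.im) ^ ((κ : ℝ) + 1) * (C / δ + N) :=
        mul_le_mul e2 (add_le_add le_rfl e3)
          (add_nonneg (by positivity) (Finset.sum_nonneg fun w _ => norm_nonneg _)) h0.le
      _ ≤ (1 + ρ.im) ^ ((κ : ℝ) + 1) * (C / δ + N / δ) :=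
        mul_le_mul_of_nonneg_left (add_le_add le_rfl e4) h0.le
      _ = (C + N) * (1 + ρ.im) ^ ((κ : ℝ) + 1) / δ := by ring

end Pool.Agent.SELB
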