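import Pool.Agent.Lib.SELB.Props
import Pool.Agent.Lib.MP_af3d17_nt_h98.Count

/-!
Row BWDC: the bound for `ζ''/ζ` near the line gives the bound for the gaps.
-/

set_option autoImplicit false

namespace Pool.Agent.SELB

open Complex Filter Topology MeasureTheory Set Pool.Agent.ZP

namespace BWDC

lemma mem_NZ {ρ : ℂ} (h : IsUpperZero ρ) : ρ ∈ NZ := ⟨h.1, h.2.1, h.2.2.1⟩

/-- simplicity of the high zeros -/
lemma simple {T0 B C T c T' : ℝ} (hR : RHl T0) (hc : 0 < c) (hT' : 100 ≤ T')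
    (hpair : ∀ ρ ∈ NZ, T' ≤ ρ.im → ∀ δ : ℝ, 0 < δ → δ * Real.log ρ.im ≤ c →
      (deriv riemannZeta ρ = 0 ∨ ∃ ρ' ∈ NZ, ρ' ≠ ρ ∧ |ρ'.im - ρ.im| ≤ δ) →
      1 / (2 * δ ^ 2) ≤ ‖F2 (ρ + δ)‖)
    (hF : ∀ ρ ∈ NZ, T ≤ ρ.im → ∀ δ : ℝ, 0 < δ → δ ≤ 1 / 2 →
      ‖F2 (ρ + δ)‖ ≤ C * (1 + ρ.im) ^ B / δ) : RH (max (max T0 T) T') := by
  intro ρ hρ hlt
  have h1 : T0 < ρ.im := lt_of_le_of_lt (le_trans (le_max_left _ _) (le_max_left _ _)) hlt
  have h2 : T < ρ.im := lt_of_le_of_lt (le_trans (le_max_right _ _) (le_max_left _ _)) hlt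
  have h3 : T' < ρ.im := lt_of_le_of_lt (le_max_right _ _) hlt
  refine ⟨hR ρ ⟨mem_NZ hρ, by rw [abs_of_pos hρ.2.2.2]; exact h1⟩, fun h0 => ?_⟩
  obtain ⟨K, hK⟩ : ∃ K : ℝ, K = C * (1 + ρ.im) ^ B := ⟨_, rfl⟩
  have hlog : 0 < Real.log ρ.im := Real.log_pos (by linarith)
  obtain ⟨δ, hδ0, hδ1, hδ2, hδ3⟩ : ∃ δ : ℝ, 0 < δ ∧ δ ≤ 1 / 2 ∧ δ ≤ c / Real.log ρ.im ∧
      δ ≤ 1 / (4 * (|K| + 1)) :=
    ⟨min (min (1 / 2) (c / Real.log ρ.im)) (1 / (4 * (|K| + 1))),
      lt_min (lt_min (by norm_num) (by positivity)) (by positivity),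
      (min_le_left _ _).trans (min_le_left _ _), (min_le_left _ _).trans (min_le_right _ _),
      min_le_right _ _⟩
  have h4 := hpair ρ (mem_NZ hρ) h3.le δ hδ0 (by rwa [le_div_iff₀ hlog] at hδ2) (Or.inl h0)
  have h5 := h4.trans (hF ρ (mem_NZ hρ) h2.le δ hδ0 hδ1)
  rw [← hK, div_le_div_iff₀ (by positivity) hδ0] at h5
  rw [le_div_iff₀ (by positivity)] at hδ3
  have h6 : K ≤ |K| := le_abs_self K
  have h7 : K * (2 * δ ^ 2) ≤ |K| * (2 * δ ^ 2) := by gcongr
  have h8 : 0 ≤ |K| := abs_nonneg K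
  nlinarith [mul_nonneg h8 hδ0.le, mul_pos hδ0 hδ0]

end BWDC

open BWDC in
theorem BWDC_all (hP : P_PAIR) : P_BWDC := by
  intro γ hγ T0 B C T hR hB hF
  obtain ⟨c, T', hc, hT', hpair⟩ := hP T0 hR
  have hRH := simple hR hc hT' hpair hF
  by_contra hcon
  push Not at hcon
  obtain ⟨a, h1, h2⟩ := EReal.lt_iff_exists_real_btwn.1 hcon
  have ha : a < -B := by exact_mod_cast h2
  have ha0 : a < 0 := by linarith
  have hfreq : ∃ᶠ n in atTop, gapExponent γ n < a := frequently_lt_of_liminf_lt (by isBoundedDefault) h1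
  obtain ⟨ε, hε⟩ : ∃ ε : ℝ, ε = (-a - B) / (2 * (B + 1)) := ⟨_, rfl⟩
  have hε0 : 0 < ε := by rw [hε]; exact div_pos (by linarith) (by linarith)
  have hBε : B * ε ≤ (-a - B) / 2 := by
    rw [hε, mul_div_assoc', div_le_div_iff₀ (by linarith) (by norm_num)]
    nlinarith
  have hL : Tendsto (fun n : ℕ => Real.log ((n : ℝ) + 1)) atTop atTop :=
    Real.tendsto_log_atTop.comp (tendsto_natCast_atTop_atTop.atTop_add tendsto_const_nhds)
  have hlg : Tendsto (fun n : ℕ => Real.log (γ n)) atTop atTop :=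
    Real.tendsto_log_atTop.comp (tendsto_gamma hγ)
  have hll : ∀ᶠ n : ℕ in atTop, ‖Real.log (Real.log (γ n))‖ ≤ (-a / 4) * ‖Real.log (γ n)‖ :=
    hlg.eventually (Real.isLittleO_log_id_atTop.bound (by linarith))
  have hev : ∀ᶠ n : ℕ in atTop, (a : EReal) ≤ gapExponent γ n := by
    filter_upwards [hll, log_gamma_le hγ hε0, log_gamma_le hγ one_pos,
      (tendsto_gamma hγ).eventually_gt_atTop (max (max (max T0 T) T') 100),
      hL.eventually_ge_atTop 1, hL.eventually_ge_atTop (Real.log 2 / -a),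
      hL.eventually_ge_atTop (2 * |Real.log c| / -a),
      hL.eventually_ge_atTop (2 * (Real.log 2 + |Real.log C| + B * Real.log 2) / (-a - B))]
      with n e1 e2 e3 e4 e5 e6 e7 e8
    have f1 : max (max T0 T) T' < γ n := lt_of_le_of_lt (le_max_left _ _) e4
    have f2 : 100 < γ n := lt_of_le_of_lt (le_max_right _ _) e4
    have f3 : T < γ n := lt_of_le_of_lt (le_trans (le_max_right _ _) (le_max_left _ _)) f1
    have f4 : T' < γ n := lt_of_le_of_lt (le_max_right _ _) f1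
    have hg := gap_pos hγ hRH f1
    obtain ⟨g, hgdef⟩ : ∃ g : ℝ, g = γ (n + 1) - γ n := ⟨_, rfl⟩
    have hg0 : 0 < g := by rw [hgdef]; linarith
    obtain ⟨L, hLdef⟩ : ∃ L : ℝ, L = Real.log ((n : ℝ) + 1) := ⟨_, rfl⟩
    rw [← hLdef] at e2 e3 e5 e6 e7 e8
    have hL0 : 0 < L := by linarith
    rw [gapExponent, if_neg hg.ne', ← hgdef, ← hLdef, EReal.coe_le_coe_iff, le_div_iff₀ hL0]
    have hl2 : 0 < Real.log 2 := Real.log_pos (by norm_num)
    have hlogγ : 0 < Real.log (γ n) := Real.log_pos (by linarith)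
    rw [div_le_iff₀ (by linarith)] at e6 e7 e8
    rcases lt_or_ge (1 / 2) g with hg2 | hg2
    · have h3 : Real.log (1 / 2) ≤ Real.log g := Real.log_le_log (by norm_num) hg2.le
      rw [one_div, Real.log_inv] at h3
      linarith
    rcases lt_or_ge c (g * Real.log (γ n)) with hgc | hgc
    · have h3 : Real.log c ≤ Real.log g + Real.log (Real.log (γ n)) := by
        rw [← Real.log_mul hg0.ne' hlogγ.ne']
        exact Real.log_le_log hc hgc.le
      have h4 : Real.log (Real.log (γ n)) ≤ -a / 4 * Real.log (γ n) := by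
        refine (le_abs_self _).trans ?_
        rw [Real.norm_eq_abs, Real.norm_eq_abs, abs_of_pos hlogγ] at e1
        exact e1
      have h5 : -a / 4 * Real.log (γ n) ≤ -a / 4 * ((1 + 1) * L) :=
        mul_le_mul_of_nonneg_left e3 (by linarith)
      have h6 := neg_abs_le (Real.log c)
      linarith
    · obtain ⟨ρ, hρ, hρn⟩ := exists_zero_of_index hγ n
      obtain ⟨ρ', hρ', hρn'⟩ := exists_zero_of_index hγ (n + 1)
      have h3 := hpair ρ (mem_NZ hρ) (by rw [hρn]; exact f4.le) g hg0 (by rw [hρn]; exact hgc)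
        (Or.inr ⟨ρ', mem_NZ hρ', fun h => by
          rw [h, hρn] at hρn'
          linarith, by rw [hρn, hρn', ← hgdef, abs_of_pos hg0]⟩)
      have h4 := h3.trans (hF ρ (mem_NZ hρ) (by rw [hρn]; exact f3.le) g hg0 hg2)
      rw [hρn, div_le_div_iff₀ (by positivity) hg0] at h4
      have hpos : 0 < (1 + γ n) ^ B := Real.rpow_pos_of_pos (by linarith) _
      have h5 : 1 ≤ 2 * g * (C * (1 + γ n) ^ B) := by
        have : g * 1 ≤ g * (2 * g * (C * (1 + γ n) ^ B)) := by linarith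
        exact le_of_mul_le_mul_left this hg0
      have hC : 0 < C := by
        by_contra hC
        push Not at hC
        have : C * (1 + γ n) ^ B ≤ 0 := mul_nonpos_of_nonpos_of_nonneg hC hpos.le
        nlinarith
      have h6 := Real.log_le_log one_pos h5
      rw [Real.log_one, Real.log_mul (by positivity) (by positivity),
        Real.log_mul (by norm_num) hg0.ne', Real.log_mul hC.ne' hpos.ne',
        Real.log_rpow (by linarith)] at h6
      have h7 : Real.log (1 + γ n) ≤ Real.log 2 + Real.log (γ n) := by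
        rw [← Real.log_mul (by norm_num) (by linarith)]
        exact Real.log_le_log (by linarith) (by linarith)
      have h8 : B * Real.log (1 + γ n) ≤ B * (Real.log 2 + (1 + ε) * L) :=
        mul_le_mul_of_nonneg_left (by linarith) hB
      have h9 : B * ε * L ≤ (-a - B) / 2 * L := mul_le_mul_of_nonneg_right hBε hL0.le
      have h10 := le_abs_self (Real.log C)
      linarith
  obtain ⟨n, h3, h4⟩ := (hfreq.and_eventually hev).exists
  exact absurd h3 (not_lt.2 h4)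

end Pool.Agent.SELB
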