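import Pool.Agent.Lib.SELB.Props

/-!
# MP_af3d17_nt, Selberg's formula: row CONJ
-/

set_option autoImplicit false

namespace Pool.Agent.SELB

open Complex Filter Topology MeasureTheory Set

/-- a function commuting with conjugation has a derivative commuting with conjugation -/
theorem CONJ_deriv {f : ℂ → ℂ} (hf : ∀ z, f (starRingEnd ℂ z) = starRingEnd ℂ (f z)) (s : ℂ) :
    deriv f (starRingEnd ℂ s) = starRingEnd ℂ (deriv f s) := by
  have h1 : ((starRingEnd ℂ) ∘ f ∘ (starRingEnd ℂ)) = f := by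
    funext z
    simp only [Function.comp_apply]
    rw [hf, Complex.conj_conj]
  have := congrFun (deriv_conj_conj (f := f)) ((starRingEnd ℂ) s)
  rw [h1] at this
  rw [this]
  simp only [Function.comp_apply, Complex.conj_conj]

theorem CONJ_all : P_CONJ := by
  have h1 : ∀ z : ℂ, deriv riemannZeta (starRingEnd ℂ z) = starRingEnd ℂ (deriv riemannZeta z) :=
    CONJ_deriv riemannZeta_conj
  have h2 : ∀ z : ℂ, deriv (deriv riemannZeta) (starRingEnd ℂ z) =
      starRingEnd ℂ (deriv (deriv riemannZeta) z) := CONJ_deriv h1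
  refine ⟨fun z => ?_, fun z => ?_, fun z => ?_, fun T0 z hz => ?_⟩
  · rw [F1, F1, h1, riemannZeta_conj, map_neg, map_div₀]
  · rw [F2, F2, h2, riemannZeta_conj, map_div₀]
  · rw [res2, res2, h2, h1, map_div₀]
  · obtain ⟨⟨hz1, hz2, hz3⟩, hz4⟩ := hz
    refine ⟨⟨?_, ?_, ?_⟩, ?_⟩
    · rw [riemannZeta_conj, hz1, map_zero]
    · rwa [Complex.conj_re]
    · rwa [Complex.conj_re]
    · rwa [Complex.conj_im, abs_neg]

end Pool.Agent.SELB
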