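import Pool.Agent.Lib.SELB.Props
import Pool.Agent.Lib.MP_af3d17_nt_h98.Zer

/-!
# MP_af3d17_nt, Selberg's formula: row DENS (and LOWFIN)

The number of zeros in a window of height.
-/

set_option autoImplicit false

namespace Pool.Agent.SELB

open Complex Filter Topology MeasureTheory Set Metric

theorem NZ_finite_abs (T : ℝ) : {ρ : ℂ | ρ ∈ NZ ∧ |ρ.im| ≤ T}.Finite := by
  have h2 : ((Set.Icc (0 : ℝ) 1 ×ℂ Set.Icc (-T) T) ∩ riemannZetaZeros).Finite :=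
    IsCompact.inter_riemannZetaZeros_finite (isCompact_Icc.reProdIm isCompact_Icc)
  refine h2.subset ?_
  rintro ρ ⟨⟨h1, h3, h4⟩, h5⟩
  refine ⟨?_, h1⟩
  rw [Complex.mem_reProdIm]
  exact ⟨⟨h3.le, h4.le⟩, abs_le.1 h5⟩

/-- LOWFIN -/
theorem LOWFIN_all : P_LOWFIN := fun T0 => (NZ_finite_abs T0).union (Set.finite_singleton 1)

/-- zeros in a window -/
def Wnd (u r : ℝ) : Set ℂ := {ρ | ρ ∈ NZ ∧ |ρ.im - u| ≤ r}

theorem Wnd_finite (u r : ℝ) : (Wnd u r).Finite := by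
  refine (NZ_finite_abs (|u| + r)).subset ?_
  rintro ρ ⟨h1, h2⟩
  refine ⟨h1, ?_⟩
  have h3 := abs_add_le (ρ.im - u) u
  rw [sub_add_cancel] at h3
  linarith

theorem NZ_mirror {ρ : ℂ} (h : ρ ∈ NZ) : 1 - (starRingEnd ℂ) ρ ∈ NZ := by
  obtain ⟨h0, h1, h2⟩ := h
  have hre : (1 - (starRingEnd ℂ) ρ).re = 1 - ρ.re := by simp
  refine ⟨?_, by rw [hre]; linarith, by rw [hre]; linarith⟩
  have hne : ∀ n : ℕ, ρ ≠ -n := by
    intro n hn
    rw [hn] at h1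
    simp at h1
    have h0 : (0 : ℝ) ≤ n := Nat.cast_nonneg n
    linarith
  have h1' : ρ ≠ 1 := by
    rintro rfl
    simp at h2
  have h2' := riemannZeta_one_sub hne h1'
  rw [h0, mul_zero] at h2'
  have h3 : (1 - (starRingEnd ℂ) ρ) = (starRingEnd ℂ) (1 - ρ) := by simp
  rw [h3, riemannZeta_conj, h2', map_zero]

theorem NZ_conj {ρ : ℂ} (h : ρ ∈ NZ) : (starRingEnd ℂ) ρ ∈ NZ := by
  obtain ⟨h0, h1, h2⟩ := h
  refine ⟨?_, by rw [Complex.conj_re]; exact h1, by rw [Complex.conj_re]; exact h2⟩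
  rw [riemannZeta_conj, h0, map_zero]

/-- the right half of a window of radius one -/
theorem right_count : ∃ C T1 : ℝ, 0 < C ∧ 100 ≤ T1 ∧ ∀ t ≥ T1,
    (({ρ : ℂ | ρ ∈ NZ ∧ |ρ.im - t| ≤ 1 ∧ 1 / 2 ≤ ρ.re}.ncard : ℕ) : ℝ) ≤ C * Real.log t := by
  obtain ⟨C, T1, hC, hT1, hloc⟩ := Pool.Agent.ZP.local_zeta
  refine ⟨C, T1, hC, hT1, fun t ht => ?_⟩
  obtain ⟨k, z, g, hk, -, -, hfac, hg, -⟩ := hloc t ht
  refine le_trans ?_ hk
  have hsub : {ρ : ℂ | ρ ∈ NZ ∧ |ρ.im - t| ≤ 1 ∧ 1 / 2 ≤ ρ.re} ⊆ Set.range z := by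
    rintro ρ ⟨⟨h0, h1, h2⟩, h3, h4⟩
    have hnorm : ‖ρ - Pool.Agent.ZP.pt 10 t‖ ≤ 97 / 10 := by
      have h5 : (ρ - Pool.Agent.ZP.pt 10 t).re = ρ.re - 10 := by simp [Pool.Agent.ZP.pt]
      have h6 : (ρ - Pool.Agent.ZP.pt 10 t).im = ρ.im - t := by simp [Pool.Agent.ZP.pt]
      have h7 : ‖ρ - Pool.Agent.ZP.pt 10 t‖ ^ 2 ≤ (97 / 10) ^ 2 := by
        rw [← Complex.normSq_eq_norm_sq, Complex.normSq_apply, h5, h6]
        have h8 := abs_le.1 h3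
        nlinarith
      nlinarith [norm_nonneg (ρ - Pool.Agent.ZP.pt 10 t)]
    have hball : ρ ∈ closedBall (Pool.Agent.ZP.pt 10 t) (97 / 10) := by
      rw [mem_closedBall, dist_eq_norm]
      exact hnorm
    have hball' : ρ ∈ closedBall (Pool.Agent.ZP.pt 10 t) (98 / 10) :=
      closedBall_subset_closedBall (by norm_num) hball
    have h9 := hfac ρ hball'
    rw [h0] at h9
    rcases mul_eq_zero.1 h9.symm with h10 | h10
    · obtain ⟨i, -, hi⟩ := Finset.prod_eq_zero_iff.1 h10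
      exact ⟨i, (sub_eq_zero.1 hi).symm⟩
    · exact absurd h10 (hg ρ hball)
  have h1 := Set.ncard_le_ncard hsub (Set.finite_range z)
  have h2 : (Set.range z).ncard ≤ k := by
    have h3 : (Set.range z).ncard ≤ (Set.univ : Set (Fin k)).ncard := by
      rw [← Set.image_univ]
      exact Set.ncard_image_le Set.finite_univ
    rw [Set.ncard_univ, Nat.card_eq_fintype_card, Fintype.card_fin] at h3
    exact h3
  exact_mod_cast h1.trans h2

/-- a window of radius one -/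
theorem one_count : ∃ C T1 : ℝ, 0 < C ∧ 100 ≤ T1 ∧ ∀ t ≥ T1,
    (((Wnd t 1).ncard : ℕ) : ℝ) ≤ C * Real.log t := by
  obtain ⟨C, T1, hC, hT1, h⟩ := right_count
  refine ⟨2 * C, T1, by positivity, hT1, fun t ht => ?_⟩
  set R : Set ℂ := {ρ : ℂ | ρ ∈ NZ ∧ |ρ.im - t| ≤ 1 ∧ 1 / 2 ≤ ρ.re} with hR
  have hfin : R.Finite := (Wnd_finite t 1).subset fun ρ hρ => ⟨hρ.1, hρ.2.1⟩
  have hsub : Wnd t 1 ⊆ R ∪ (fun ρ : ℂ => 1 - (starRingEnd ℂ) ρ) '' R := by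
    rintro ρ ⟨h1, h2⟩
    rcases le_total (1 / 2) ρ.re with h3 | h3
    · exact Or.inl ⟨h1, h2, h3⟩
    · refine Or.inr ⟨1 - (starRingEnd ℂ) ρ, ⟨NZ_mirror h1, ?_, ?_⟩, ?_⟩
      · have him : (1 - (starRingEnd ℂ) ρ).im = ρ.im := by simp
        rw [him]
        exact h2
      · have hre : (1 - (starRingEnd ℂ) ρ).re = 1 - ρ.re := by simp
        rw [hre]
        linarith
      · simp
  have h1 := Set.ncard_le_ncard hsub (hfin.union (hfin.image _))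
  have h2 := Set.ncard_union_le R ((fun ρ : ℂ => 1 - (starRingEnd ℂ) ρ) '' R)
  have h3 := Set.ncard_image_le (f := fun ρ : ℂ => 1 - (starRingEnd ℂ) ρ) hfin
  have h4 : (Wnd t 1).ncard ≤ 2 * R.ncard := by omega
  have h5 : (((Wnd t 1).ncard : ℕ) : ℝ) ≤ 2 * (R.ncard : ℝ) := by exact_mod_cast h4
  have h6 := h t ht
  linarith

theorem two_le (u : ℝ) : (Wnd u 2).ncard ≤ (Wnd (u - 1) 1).ncard + (Wnd (u + 1) 1).ncard := by
  have hsub : Wnd u 2 ⊆ Wnd (u - 1) 1 ∪ Wnd (u + 1) 1 := by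
    rintro ρ ⟨h1, h2⟩
    have h3 := abs_le.1 h2
    rcases le_total ρ.im u with h4 | h4
    · exact Or.inl ⟨h1, abs_le.2 ⟨by linarith, by linarith⟩⟩
    · exact Or.inr ⟨h1, abs_le.2 ⟨by linarith, by linarith⟩⟩
  exact (Set.ncard_le_ncard hsub ((Wnd_finite _ _).union (Wnd_finite _ _))).trans
    (Set.ncard_union_le _ _)

theorem neg_le (u : ℝ) : (Wnd u 2).ncard ≤ (Wnd (-u) 2).ncard := by
  have hsub : Wnd u 2 ⊆ (fun ρ : ℂ => (starRingEnd ℂ) ρ) '' Wnd (-u) 2 := by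
    rintro ρ ⟨h1, h2⟩
    refine ⟨(starRingEnd ℂ) ρ, ⟨NZ_conj h1, ?_⟩, by simp⟩
    rw [Complex.conj_im, ← abs_neg]
    have : -(-ρ.im - -u) = ρ.im - u := by ring
    rw [this]
    exact h2
  exact (Set.ncard_le_ncard hsub ((Wnd_finite _ _).image _)).trans
    (Set.ncard_image_le (Wnd_finite _ _))

/-- DENS -/
theorem DENS_all : P_DENS := by
  intro η hη
  obtain ⟨C, T1, hC, hT1, h⟩ := one_count
  set K : ℝ := (({ρ : ℂ | ρ ∈ NZ ∧ |ρ.im| ≤ T1 + 3}.ncard : ℕ) : ℝ) with hK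
  have hK0 : 0 ≤ K := Nat.cast_nonneg _
  refine ⟨K + 2 * C / η, fun u => ⟨Wnd_finite u 2, ?_⟩⟩
  change (((Wnd u 2).ncard : ℕ) : ℝ) ≤ _
  have hpow1 : 1 ≤ (1 + |u|) ^ η :=
    Real.one_le_rpow (by have := abs_nonneg u; linarith) hη.le
  have hbig : ∀ v : ℝ, T1 + 1 ≤ v →
      (((Wnd v 2).ncard : ℕ) : ℝ) ≤ (2 * C / η) * (1 + v) ^ η := by
    intro v hv
    have h1 := two_le v
    have h2 : (((Wnd v 2).ncard : ℕ) : ℝ) ≤ ((Wnd (v - 1) 1).ncard : ℝ) +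
        ((Wnd (v + 1) 1).ncard : ℝ) := by exact_mod_cast h1
    have h3 := h (v - 1) (by linarith)
    have h4 := h (v + 1) (by linarith)
    have h5 : Real.log (v - 1) ≤ Real.log (1 + v) :=
      Real.log_le_log (by linarith) (by linarith)
    have h6 : Real.log (v + 1) = Real.log (1 + v) := by rw [add_comm]
    have h7 := Real.log_le_rpow_div (show (0 : ℝ) ≤ 1 + v by linarith) hη
    rw [h6] at h4
    have h8 : C * Real.log (v - 1) ≤ C * Real.log (1 + v) :=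
      mul_le_mul_of_nonneg_left h5 hC.le
    have h9 : C * Real.log (1 + v) ≤ C * ((1 + v) ^ η / η) :=
      mul_le_mul_of_nonneg_left h7 hC.le
    have h10 : (2 * C / η) * (1 + v) ^ η = C * ((1 + v) ^ η / η) + C * ((1 + v) ^ η / η) := by
      ring
    rw [h10]
    linarith
  rcases le_or_gt |u| (T1 + 1) with hu | hu
  · have hsub : Wnd u 2 ⊆ {ρ : ℂ | ρ ∈ NZ ∧ |ρ.im| ≤ T1 + 3} := by
      rintro ρ ⟨h1, h2⟩
      refine ⟨h1, ?_⟩
      have h3 := abs_add_le (ρ.im - u) u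
      rw [sub_add_cancel] at h3
      linarith
    have h1 := Set.ncard_le_ncard hsub (NZ_finite_abs _)
    have h2 : (((Wnd u 2).ncard : ℕ) : ℝ) ≤ K := Nat.cast_le.2 h1
    have h3 : K ≤ K * (1 + |u|) ^ η := le_mul_of_one_le_right hK0 hpow1
    have h4 : 0 ≤ (2 * C / η) * (1 + |u|) ^ η := by positivity
    nlinarith
  · have h0 : (((Wnd u 2).ncard : ℕ) : ℝ) ≤ (2 * C / η) * (1 + |u|) ^ η := by
      rcases le_total 0 u with h1 | h1
      · rw [abs_of_nonneg h1] at hu ⊢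
        exact hbig u hu.le
      · rw [abs_of_nonpos h1] at hu ⊢
        have h2 := neg_le u
        have h3 : (((Wnd u 2).ncard : ℕ) : ℝ) ≤ ((Wnd (-u) 2).ncard : ℝ) := by exact_mod_cast h2
        exact h3.trans (hbig (-u) hu.le)
    have h3 : 0 ≤ K * (1 + |u|) ^ η := by positivity
    nlinarith

end Pool.Agent.SELB
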