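import Mathlib
import Pool.Agent.Lib.MP_af3d17_nt_h98.SeqDefs

/-!
# MP_af3d17_nt, Selberg's formula: definitions used by all modules
-/

set_option autoImplicit false

namespace Pool.Agent.SELB

open Complex Filter Topology MeasureTheory Set

/-- von Mangoldt's function -/
noncomputable def vM (n : ℕ) : ℝ := ArithmeticFunction.vonMangoldt n

/-- Selberg's function `Λ₂(n) = ∑_{d ∣ n} μ(d) log² (n/d)` -/
noncomputable def selberg (n : ℕ) : ℝ :=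
  ∑ d ∈ n.divisors, (ArithmeticFunction.moebius d : ℝ) * Real.log ((n : ℝ) / (d : ℝ)) ^ 2

/-- The Riesz mean `(1/κ!) ∑_{n ≤ x} f(n) n^(-it) log^κ (x/n)`. -/
noncomputable def riesz (f : ℕ → ℝ) (κ : ℕ) (t x : ℝ) : ℂ :=
  (∑ n ∈ Finset.Icc 1 ⌊x⌋₊, (f n : ℂ) * (n : ℂ) ^ (-(t * I)) * ((Real.log (x / n) : ℝ) : ℂ) ^ κ) /
    (κ.factorial : ℂ)

/-- The residue at `s = w - it` of `(p/(s-(w-it))^2 + q/(s-(w-it))) x^s / s^(κ+1)`. -/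
noncomputable def main (κ : ℕ) (p q w : ℂ) (t x : ℝ) : ℂ :=
  (x : ℂ) ^ (w - t * I) * ((p * (Real.log x : ℂ) + q) / (w - t * I) ^ (κ + 1) -
    (κ + 1) * p / (w - t * I) ^ (κ + 2))

/-- `f` expands with exponent `A`. -/
def Expands (f : ℕ → ℝ) (κ : ℕ) (A : ℝ) : Prop :=
  ∃ (S : Finset ℂ) (p q : ℂ → ℂ), ∀ ε : ℝ, 0 < ε → ∃ C : ℝ, ∀ t x : ℝ, 1 ≤ x →
    ‖riesz f κ t x - ∑ w ∈ S, main κ (p w) (q w) w t x‖ ≤ C * (1 + |t|) ^ (A + ε) * √x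

/-- The same for `t = 0`. -/
def ExpandsZero (f : ℕ → ℝ) (κ : ℕ) : Prop :=
  ∃ (S : Finset ℂ) (p q : ℂ → ℂ) (C : ℝ), ∀ x : ℝ, 1 ≤ x →
    ‖riesz f κ 0 x - ∑ w ∈ S, main κ (p w) (q w) w 0 x‖ ≤ C * √x

/-! ### internal notions -/

/-- the nontrivial zeros (both half planes) -/
def NZ : Set ℂ := {ρ | riemannZeta ρ = 0 ∧ 0 < ρ.re ∧ ρ.re < 1}

/-- the nontrivial zeros with `|Im ρ| > T0` -/
def high (T0 : ℝ) : Set ℂ := {ρ | ρ ∈ NZ ∧ T0 < |ρ.im|}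

/-- the nontrivial zeros with `|Im ρ| ≤ T0`, and the point `1` -/
def low (T0 : ℝ) : Set ℂ := {ρ | ρ ∈ NZ ∧ |ρ.im| ≤ T0} ∪ {1}

/-- all high zeros are on the line -/
def RHl (T0 : ℝ) : Prop := ∀ ρ ∈ high T0, ρ.re = 1 / 2

/-- all high zeros are on the line and simple -/
def RHs (T0 : ℝ) : Prop := ∀ ρ ∈ high T0, ρ.re = 1 / 2 ∧ deriv riemannZeta ρ ≠ 0

/-- distinct high zeros are separated by `c (1 + |γ|)^(-b)` -/
def Sep (b T0 : ℝ) : Prop :=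
  ∃ c : ℝ, 0 < c ∧ ∀ ρ ∈ high T0, ∀ ρ' ∈ high T0, ρ ≠ ρ' →
    c * (1 + |ρ.im|) ^ (-b) ≤ |ρ.im - ρ'.im|

/-- `-ζ'/ζ` -/
noncomputable def F1 (z : ℂ) : ℂ := -(deriv riemannZeta z / riemannZeta z)

/-- `ζ''/ζ` -/
noncomputable def F2 (z : ℂ) : ℂ := deriv (deriv riemannZeta) z / riemannZeta z

/-- the residue of `-ζ'/ζ` at a simple zero -/
noncomputable def res1 (_ρ : ℂ) : ℂ := -1

/-- the residue of `ζ''/ζ` at a simple zero -/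
noncomputable def res2 (ρ : ℂ) : ℂ := deriv (deriv riemannZeta) ρ / deriv riemannZeta ρ

/-- principal part with a pole of order at most two -/
noncomputable def PP (p q w z : ℂ) : ℂ := p / (z - w) ^ 2 + q / (z - w)

/-- The Laplace transform of `y ↦ main κ p q w t (e^y)` at `z - it`. -/
noncomputable def mainL (κ : ℕ) (p q w : ℂ) (t : ℝ) (z : ℂ) : ℂ :=
  (p / (z - w) ^ 2 + q / (z - w)) / (w - t * I) ^ (κ + 1) -
    (κ + 1) * p / ((w - t * I) ^ (κ + 2) * (z - w))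

/-- `F` is the Dirichlet series of `f` -/
def IsDS (f : ℕ → ℝ) (F : ℂ → ℂ) : Prop :=
  ∀ z : ℂ, 1 < z.re → LSeriesHasSum (fun n => (f n : ℂ)) z (F z)

/-- Local structure of `F` (`F1` or `F2`) with residues `R` at the simple zeros. -/
structure Mero (F R : ℂ → ℂ) : Prop where
  pole : ∀ w : ℂ, 0 < w.re → ∃ (p q : ℂ) (h : ℂ → ℂ), AnalyticAt ℂ h w ∧
    ∀ᶠ z in 𝓝[≠] w, F z = h z + PP p q w z
  simple : ∀ w ∈ NZ, deriv riemannZeta w ≠ 0 → ∃ h : ℂ → ℂ, AnalyticAt ℂ h w ∧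
    ∀ᶠ z in 𝓝[≠] w, F z = h z + R w / (z - w)
  reg : ∀ w : ℂ, 0 < w.re → w ≠ 1 → riemannZeta w ≠ 0 → AnalyticAt ℂ F w

/-- The window of high zeros used at the point `z`. -/
def Window (T0 : ℝ) (z : ℂ) (N : Finset ℂ) : Prop :=
  (∀ ρ ∈ N, ρ ∈ high T0 ∧ |ρ.im - z.im| ≤ 2) ∧
    ∀ ρ ∈ high T0, |ρ.im - z.im| ≤ 1 / 2 → ρ ∈ N

/-- The expansion of `F₀` at all heights, with exceptional set `E`. -/
def ExpansionAt (T0 b C : ℝ) (F₀ R : ℂ → ℂ) (z : ℂ) : Prop :=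
  ∃ N : Finset ℂ, Window T0 z N ∧ ‖F₀ z - ∑ ρ ∈ N, R ρ / (z - ρ)‖ ≤ C * (1 + |z.im|) ^ b

end Pool.Agent.SELB
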