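import Pool.Agent.Lib.SELB.PPEX

/-!
# MP_af3d17_nt, Selberg's formula: row EXPALL
-/

set_option autoImplicit false

namespace Pool.Agent.SELB

open Complex Filter Topology MeasureTheory Set

theorem ExpansionAt.conj {T0 b C : ℝ} {F R : ℂ → ℂ}
    (hF : ∀ z : ℂ, F (starRingEnd ℂ z) = starRingEnd ℂ (F z))
    (hR : ∀ z : ℂ, R (starRingEnd ℂ z) = starRingEnd ℂ (R z))
    (hh : ∀ T0 : ℝ, ∀ z ∈ high T0, starRingEnd ℂ z ∈ high T0) {z : ℂ}
    (h : ExpansionAt T0 b C F R (starRingEnd ℂ z)) : ExpansionAt T0 b C F R z := by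
  classical
  obtain ⟨N, ⟨hN1, hN2⟩, hb⟩ := h
  refine ⟨N.image (starRingEnd ℂ), ⟨fun ρ hρ => ?_, fun ρ hρ hρ2 => ?_⟩, ?_⟩
  · obtain ⟨ρ', hρ', rfl⟩ := Finset.mem_image.1 hρ
    obtain ⟨h1, h2⟩ := hN1 ρ' hρ'
    refine ⟨hh _ _ h1, ?_⟩
    rw [Complex.conj_im] at h2 ⊢
    rw [← abs_neg]
    convert h2 using 2
    ring
  · refine Finset.mem_image.2 ⟨starRingEnd ℂ ρ, hN2 _ (hh _ _ hρ) ?_, Complex.conj_conj ρ⟩
    rw [Complex.conj_im, Complex.conj_im, ← abs_neg]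
    convert hρ2 using 2
    ring
  · rw [Finset.sum_image (fun a _ b _ hab => (starRingEnd ℂ).injective hab)]
    have e1 : F z - ∑ ρ ∈ N, R (starRingEnd ℂ ρ) / (z - starRingEnd ℂ ρ) =
        starRingEnd ℂ (F (starRingEnd ℂ z) - ∑ ρ ∈ N, R ρ / (starRingEnd ℂ z - ρ)) := by
      rw [map_sub, hF, Complex.conj_conj, map_sum]
      congr 1
      refine Finset.sum_congr rfl fun ρ _ => ?_
      rw [map_div₀, map_sub, Complex.conj_conj, hR]
    rw [e1, Complex.norm_conj]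
    rw [Complex.conj_im, abs_neg] at hb
    exact hb

theorem norm_PP_le {p q w z : ℂ} (h : 1 ≤ ‖z - w‖) : ‖PP p q w z‖ ≤ ‖p‖ + ‖q‖ := by
  have h0 : 0 < ‖z - w‖ := lt_of_lt_of_le one_pos h
  have h2 : (1 : ℝ) ≤ ‖z - w‖ ^ 2 := one_le_pow₀ h
  rw [PP]
  refine (norm_add_le _ _).trans (add_le_add ?_ ?_)
  · rw [norm_div, norm_pow]
    exact div_le_self (norm_nonneg _) h2
  · rw [norm_div]
    exact div_le_self (norm_nonneg _) h

theorem abs_im_of_low {T0 : ℝ} {w : ℂ} (hw : w ∈ low T0) : |w.im| ≤ |T0| := by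
  rcases hw with hw | hw
  · exact hw.2.trans (le_abs_self T0)
  · rw [mem_singleton_iff] at hw
    subst hw
    simp

theorem EXPALL_all (h1 : P_LOW) (h2 : P_CONJ) : P_EXPALL := by
  intro F R hF hcF hcR T0 b S hb hS hRH p q hpq hhi
  obtain ⟨C, T2, hC0, hC⟩ := hhi
  obtain ⟨-, -, -, hconj⟩ := h2
  have hS' : ∀ w, w ∈ S ↔ w ∈ low T0 := fun w => by rw [← hS]; exact Finset.mem_coe.symm
  set T3 : ℝ := max T2 (|T0| + 1) with hT3
  obtain ⟨C1, hC10, hC1⟩ := h1 F R hF T0 S hS hRH p q hpq T3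
  set B : ℝ := ∑ w ∈ S, (‖p w‖ + ‖q w‖) with hB
  have hB0 : 0 ≤ B := Finset.sum_nonneg fun w _ => by positivity
  -- the principal parts at large heights
  have hPP : ∀ z : ℂ, T3 ≤ |z.im| → ‖∑ w ∈ S, PP (p w) (q w) w z‖ ≤ B := by
    intro z hz
    refine (norm_sum_le _ _).trans (Finset.sum_le_sum fun w hw => norm_PP_le ?_)
    have h3 : |w.im| ≤ |T0| := abs_im_of_low ((hS' w).1 hw)
    have h4 : |T0| + 1 ≤ |z.im| := (le_max_right _ _).trans hz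
    have h5 : |z.im| - |w.im| ≤ |(z - w).im| := by
      rw [Complex.sub_im]
      exact abs_sub_abs_le_abs_sub _ _
    exact (by linarith : (1 : ℝ) ≤ |(z - w).im|).trans (Complex.abs_im_le_norm _)
  have hpow : ∀ z : ℂ, (1 : ℝ) ≤ (1 + |z.im|) ^ b := fun z =>
    Real.one_le_rpow (by linarith [abs_nonneg z.im]) hb.le
  -- from `F` to `F - PP` at large heights
  have hlarge : ∀ z : ℂ, T3 ≤ |z.im| → ExpansionAt T0 b C F R z →
      ExpansionAt T0 b (C + B) (fun z => F z - ∑ w ∈ S, PP (p w) (q w) w z) R z := by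
    rintro z hz ⟨N, hN, hn⟩
    refine ⟨N, hN, ?_⟩
    have e1 : (F z - ∑ w ∈ S, PP (p w) (q w) w z) - ∑ ρ ∈ N, R ρ / (z - ρ) =
        (F z - ∑ ρ ∈ N, R ρ / (z - ρ)) - ∑ w ∈ S, PP (p w) (q w) w z := by ring
    show ‖(F z - ∑ w ∈ S, PP (p w) (q w) w z) - ∑ ρ ∈ N, R ρ / (z - ρ)‖ ≤ _
    rw [e1, add_mul]
    refine (norm_sub_le _ _).trans (add_le_add hn ((hPP z hz).trans ?_))
    exact le_mul_of_one_le_right hB0 (hpow z)
  have hmono : ∀ (C C' : ℝ) (G : ℂ → ℂ) (z : ℂ), C ≤ C' → ExpansionAt T0 b C G R z →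
      ExpansionAt T0 b C' G R z := by
    rintro C C' G z hCC ⟨N, hN, hn⟩
    exact ⟨N, hN, hn.trans (mul_le_mul_of_nonneg_right hCC (zero_le_one.trans (hpow z)))⟩
  refine ⟨max C1 (C + B), hC10.trans (le_max_left _ _), fun z hz1 hz2 hz3 => ?_⟩
  by_cases hz : |z.im| ≤ T3
  · refine hmono C1 _ _ z (le_max_left _ _) ?_
    obtain ⟨N, hN, hn⟩ := hC1 z hz1 hz2 hz hz3
    refine ⟨N, hN, hn.trans ?_⟩
    rw [Real.rpow_zero, mul_one]
    exact le_mul_of_one_le_right hC10 (hpow z)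
  · have hz' : T3 ≤ |z.im| := (not_le.1 hz).le
    refine hmono (C + B) _ _ z (le_max_right _ _) (hlarge z hz' ?_)
    have hT2 : T2 ≤ |z.im| := (le_max_left _ _).trans hz'
    rcases le_total 0 z.im with him | him
    · rw [abs_of_nonneg him] at hT2
      exact hC z hz1 hz2 hT2
    · rw [abs_of_nonpos him] at hT2
      refine ExpansionAt.conj hcF hcR hconj (hC _ ?_ ?_ ?_)
      · rwa [Complex.conj_re]
      · rwa [Complex.conj_re]
      · rwa [Complex.conj_im]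

end Pool.Agent.SELB
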