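import Pool.Agent.Lib.SELB.Props

/-!
# MP_af3d17_nt, Selberg's formula: the forward direction (row FWD)
-/

set_option autoImplicit false

namespace Pool.Agent.SELB

open Complex Filter Topology MeasureTheory Set

namespace FWDx

lemma low_re (hL : ∀ w ∈ NZ, 0 < w.re ∧ w.re < 1) {T0 : ℝ} {w : ℂ} (hw : w ∈ low T0) :
    0 < w.re ∧ w.re ≤ 1 := by
  rcases hw with hw | hw
  · exact ⟨(hL w hw.1).1, (hL w hw.1).2.le⟩
  · have : w = 1 := hw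
    subst this
    simp

lemma core (hPPEX : P_PPEX) (hEXPALL : P_EXPALL) (hAT : P_AT) {f : ℕ → ℝ} {F R : ℂ → ℂ}
    (hDS : IsDS f F) (hM : Mero F R)
    (hc1 : ∀ z : ℂ, F (starRingEnd ℂ z) = starRingEnd ℂ (F z))
    (hc2 : ∀ z : ℂ, R (starRingEnd ℂ z) = starRingEnd ℂ (R z))
    {T0 A : ℝ} {κ : ℕ} (hA : 0 ≤ A) (hAκ : A < κ) (S : Finset ℂ) (hS : (S : Set ℂ) = low T0)
    (hRH : RHs T0)
    (hi : ∀ b : ℝ, A < b → ∃ C T2 : ℝ, 0 ≤ C ∧ ∀ z : ℂ, 1 / 2 < z.re → z.re ≤ 2 → T2 ≤ z.im →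
      ExpansionAt T0 b C F R z)
    (hRb : ∀ b : ℝ, A < b → ∃ C : ℝ, 0 ≤ C ∧ ∀ ρ ∈ high T0, ‖R ρ‖ ≤ C * (1 + |ρ.im|) ^ b) :
    Expands f κ A := by
  obtain ⟨p, q, F₀, hpq, hF₀, hF⟩ := hPPEX F R hM T0 S hS hRH
  have hκ0 : (0 : ℝ) < κ := lt_of_le_of_lt hA hAκ
  have hκ : 1 ≤ κ := Nat.one_le_iff_ne_zero.2 (by rintro rfl; simp at hκ0)
  refine ⟨S, p, q, fun ε hε => ?_⟩
  set b : ℝ := A + min (ε / 2) ((κ - A) / 2) with hb
  have hm0 : 0 < min (ε / 2) ((κ - A) / 2) := lt_min (by linarith) (by linarith)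
  have hm1 : min (ε / 2) ((κ - A) / 2) ≤ ε / 2 := min_le_left _ _
  have hm2 : min (ε / 2) ((κ - A) / 2) ≤ (κ - A) / 2 := min_le_right _ _
  have hAb : A < b := by linarith
  have hb0 : 0 < b := by linarith
  have hbκ : b < κ := by linarith
  obtain ⟨C1, hC1, h1⟩ := hEXPALL F R hM hc1 hc2 T0 b S hb0 hS hRH p q hpq (hi b hAb)
  obtain ⟨C2, hC2, h2⟩ := hRb b hAb
  have hS1 : ∀ w ∈ S, 0 < w.re ∧ w.re ≤ 1 := by
    intro w hw
    refine low_re (fun w hw => ⟨hw.2.1, hw.2.2⟩) (T0 := T0) ?_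
    rw [← hS]
    exact hw
  have h3 : ∀ ρ ∈ high T0, ‖R ρ‖ ≤ (C1 + C2) * (1 + |ρ.im|) ^ b := by
    intro ρ hρ
    refine (h2 ρ hρ).trans (mul_le_mul_of_nonneg_right (by linarith) ?_)
    positivity
  have h4 : ∀ z : ℂ, 1 / 2 < z.re → z.re ≤ 2 → z ∉ S → ExpansionAt T0 b (C1 + C2) F₀ R z := by
    intro z hz1 hz2 hz3
    obtain ⟨N, hN, hb⟩ := h1 z hz1 hz2 hz3
    refine ⟨N, hN, ?_⟩
    have e : F₀ z = F z - ∑ w ∈ S, PP (p w) (q w) w z := by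
      rw [hF z hz1 hz3]; ring
    rw [e]
    refine hb.trans (mul_le_mul_of_nonneg_right (by linarith) ?_)
    positivity
  obtain ⟨C, hC⟩ := hAT f F F₀ R p q κ T0 b (C1 + C2) S hDS hκ hb0 hbκ hS1 hF₀ hF
    (fun ρ hρ => (hRH ρ hρ).1) h3 h4 (ε / 2) (by linarith)
  refine ⟨|C|, fun t x hx => (hC t x hx).trans ?_⟩
  have ht : (1 : ℝ) ≤ 1 + |t| := by linarith [abs_nonneg t]
  have g1 : (1 + |t|) ^ (b + ε / 2) ≤ (1 + |t|) ^ (A + ε) :=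
    Real.rpow_le_rpow_of_exponent_le ht (by linarith)
  refine mul_le_mul_of_nonneg_right ?_ (Real.sqrt_nonneg _)
  calc C * (1 + |t|) ^ (b + ε / 2) ≤ |C| * (1 + |t|) ^ (b + ε / 2) :=
        mul_le_mul_of_nonneg_right (le_abs_self _) (by positivity)
    _ ≤ |C| * (1 + |t|) ^ (A + ε) := mul_le_mul_of_nonneg_left g1 (abs_nonneg _)

end FWDx

open FWDx in
theorem FWD_all (hLS : P_LS) (hM1 : P_MERO1) (hM2 : P_MERO2) (hLOWFIN : P_LOWFIN) (hCONJ : P_CONJ)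
    (hPPEX : P_PPEX) (hRB2 : P_RB2) (hHI1 : P_HI1) (hHI2 : P_HI2) (hEXPALL : P_EXPALL)
    (hAT : P_AT) (hSEP : P_SEP) : P_FWD := by
  intro γ hγ κ A hA hAκ hα
  obtain ⟨T0, hT0, hRH, hSep⟩ := hSEP γ hγ A hA hα
  set S : Finset ℂ := (hLOWFIN T0).toFinset with hSdef
  have hS : (S : Set ℂ) = low T0 := (hLOWFIN T0).coe_toFinset
  constructor
  · refine core hPPEX hEXPALL hAT hLS.1 hM1 hCONJ.1 (fun z => by simp [res1]) hA hAκ S hS hRH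
      (fun b hb => hHI1 T0 b (by linarith) hRH) (fun b hb => ⟨1, zero_le_one, fun ρ _ => ?_⟩)
    have h1 : (1 : ℝ) ≤ (1 + |ρ.im|) ^ b :=
      Real.one_le_rpow (by linarith [abs_nonneg ρ.im]) (by linarith)
    simpa [res1] using h1
  · refine core hPPEX hEXPALL hAT hLS.2 hM2 hCONJ.2.1 hCONJ.2.2.1 hA hAκ S hS hRH
      (fun b hb => ?_) (fun b hb => ?_)
    · exact hHI2 T0 ((A + b) / 2) b (by linarith) (by linarith) hRH (hSep _ (by linarith))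
    · exact hRB2 T0 ((A + b) / 2) b (by linarith) (by linarith) hRH (hSep _ (by linarith))

end Pool.Agent.SELB
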