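import Pool.Agent.Lib.SELB.Defs

/-!
# MP_af3d17_nt, Selberg's formula: the statements of the rows
-/

set_option autoImplicit false

namespace Pool.Agent.SELB

open Complex Filter Topology MeasureTheory Set

/-! ### Dirichlet series and Laplace transforms -/

/-- LS -/
def P_LS : Prop := IsDS vM F1 ∧ IsDS selberg F2

/-- LAP -/
def P_LAP : Prop := ∀ (f : ℕ → ℝ) (F : ℂ → ℂ) (κ : ℕ) (t : ℝ), 1 ≤ κ → IsDS f F →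
  ContinuousOn (fun y : ℝ => riesz f κ t (Real.exp y)) (Ici 0) ∧
  riesz f κ t 1 = 0 ∧
  (∃ C : ℝ, ∀ y : ℝ, 0 ≤ y → ‖riesz f κ t (Real.exp y)‖ ≤ C * Real.exp (3 / 2 * y)) ∧
  ∀ s : ℂ, 3 / 2 < s.re →
    ∫ y in Ioi (0 : ℝ), riesz f κ t (Real.exp y) * cexp (-s * y) = F (s + t * I) / s ^ (κ + 1)

/-- LAPM -/
def P_LAPM : Prop := ∀ (κ : ℕ) (p q w : ℂ) (t : ℝ),
  Continuous (fun y : ℝ => main κ p q w t (Real.exp y)) ∧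
  (∃ C : ℝ, ∀ y : ℝ, 0 ≤ y → ‖main κ p q w t (Real.exp y)‖ ≤ C * (1 + y) * Real.exp (w.re * y)) ∧
  ∀ s : ℂ, w.re < s.re →
    ∫ y in Ioi (0 : ℝ), main κ p q w t (Real.exp y) * cexp (-s * y) = mainL κ p q w t (s + t * I)

/-- MAINB: for `0 < Re w ≤ 1` the bound is uniform in `t`. -/
def P_MAINB : Prop := ∀ (κ : ℕ) (p q w : ℂ), 0 < w.re → w.re ≤ 1 → ∃ C : ℝ, ∀ t y : ℝ, 0 ≤ y →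
  ‖main κ p q w t (Real.exp y)‖ * Real.exp (-y) ≤ C * Real.exp (y / 2)

/-- LAPV: the sum over the zeros and its Laplace transform. -/
def P_LAPV : Prop := ∀ (ι : Type) [Countable ι] (c w : ι → ℂ), (∀ i, (w i).re = 1 / 2) →
  Summable (fun i => ‖c i‖) →
  Continuous (fun y : ℝ => ∑' i, c i * (cexp (w i * y) - cexp ((w i - 1) * y))) ∧
  (∀ y : ℝ, 0 ≤ y → ‖∑' i, c i * (cexp (w i * y) - cexp ((w i - 1) * y))‖ ≤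
    2 * (∑' i, ‖c i‖) * Real.exp (y / 2)) ∧
  (∀ s : ℂ, 1 / 2 < s.re →
    ∫ y in Ioi (0 : ℝ), (∑' i, c i * (cexp (w i * y) - cexp ((w i - 1) * y))) * cexp (-s * y) =
      ∑' i, c i * (1 / (s - w i) - 1 / (s - w i + 1))) ∧
  DifferentiableOn ℂ (fun s => ∑' i, c i * (1 / (s - w i) - 1 / (s - w i + 1))) {s | 1 / 2 < s.re}

/-- TAUB: Laplace inversion on the line `Re s = 2` and shift to `Re s = 1/2`. -/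
def P_TAUB : Prop := ∀ η : ℝ, 0 < η → ∃ K : ℝ, 0 ≤ K ∧ ∀ (r : ℝ → ℂ) (G : ℂ → ℂ) (A B : ℝ)
  (E : Finset ℂ), ContinuousOn r (Ici 0) → r 0 = 0 →
  (∀ y : ℝ, 0 ≤ y → ‖r y‖ ≤ A * Real.exp (3 / 2 * y)) →
  DifferentiableOn ℂ G {s | 1 / 2 < s.re} →
  (∀ s : ℂ, s.re = 2 → ∫ y in Ioi (0 : ℝ), r y * cexp (-s * y) = G s) →
  (∀ s : ℂ, 1 / 2 < s.re → s.re ≤ 2 → s ∉ E → ‖G s‖ ≤ B * (1 + |s.im|) ^ (-1 - η)) →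
  ∀ y : ℝ, 0 ≤ y → ‖r y‖ ≤ K * B * Real.exp (y / 2)

/-! ### sums over the zeros -/

/-- DENS -/
def P_DENS : Prop := ∀ η : ℝ, 0 < η → ∃ C : ℝ, ∀ u : ℝ,
  {ρ | ρ ∈ NZ ∧ |ρ.im - u| ≤ 2}.Finite ∧
  (({ρ | ρ ∈ NZ ∧ |ρ.im - u| ≤ 2}.ncard : ℕ) : ℝ) ≤ C * (1 + |u|) ^ η

/-- SQ: the basic sum -/
def P_SQ : Prop := ∀ q : ℝ, 1 < q → ∀ η : ℝ, 0 < η → ∃ C : ℝ, ∀ v : ℝ,
  Summable (fun ρ : NZ => (1 + |(ρ : ℂ).im - v|) ^ (-q)) ∧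
  ∑' ρ : NZ, (1 + |(ρ : ℂ).im - v|) ^ (-q) ≤ C * (1 + |v|) ^ η

/-- S0 -/
def P_S0 : Prop := ∀ (b : ℝ) (m : ℕ), 0 ≤ b → b + 1 < m → ∀ η : ℝ, 0 < η → ∃ C : ℝ, ∀ T0 t : ℝ,
  Summable (fun ρ : high T0 => (1 + |(ρ : ℂ).im|) ^ b * (1 + |(ρ : ℂ).im - t|) ^ (-(m : ℝ))) ∧
  ∑' ρ : high T0, (1 + |(ρ : ℂ).im|) ^ b * (1 + |(ρ : ℂ).im - t|) ^ (-(m : ℝ)) ≤
    C * (1 + |t|) ^ (b + η)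

/-- SB -/
def P_SB : Prop := ∀ (b : ℝ) (m : ℕ), 0 ≤ b → b + 1 < m → ∀ η : ℝ, 0 < η → ∃ C δ : ℝ, 0 < δ ∧
  ∀ T0 t u : ℝ,
  Summable (fun ρ : high T0 => (1 + |(ρ : ℂ).im|) ^ b * (1 + |(ρ : ℂ).im - t|) ^ (-(m : ℝ)) *
    (1 + |(ρ : ℂ).im - u|) ^ (-2 : ℝ)) ∧
  ∑' ρ : high T0, (1 + |(ρ : ℂ).im|) ^ b * (1 + |(ρ : ℂ).im - t|) ^ (-(m : ℝ)) *
    (1 + |(ρ : ℂ).im - u|) ^ (-2 : ℝ) ≤ C * (1 + |t|) ^ (b + η) * (1 + |u - t|) ^ (-1 - δ)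

/-! ### local structure -/

/-- MERO1 -/
def P_MERO1 : Prop := Mero F1 res1

/-- MERO2 -/
def P_MERO2 : Prop := Mero F2 res2

/-- LOWFIN -/
def P_LOWFIN : Prop := ∀ T0 : ℝ, (low T0).Finite

/-- CONJ -/
def P_CONJ : Prop :=
  (∀ z : ℂ, F1 (starRingEnd ℂ z) = starRingEnd ℂ (F1 z)) ∧
  (∀ z : ℂ, F2 (starRingEnd ℂ z) = starRingEnd ℂ (F2 z)) ∧
  (∀ z : ℂ, res2 (starRingEnd ℂ z) = starRingEnd ℂ (res2 z)) ∧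
  (∀ T0 : ℝ, ∀ z ∈ high T0, starRingEnd ℂ z ∈ high T0)

/-- PPEX: principal parts at the low points, and the rest `F₀`. -/
def P_PPEX : Prop := ∀ (F R : ℂ → ℂ), Mero F R → ∀ (T0 : ℝ) (S : Finset ℂ), (S : Set ℂ) = low T0 →
  RHs T0 → ∃ (p q F₀ : ℂ → ℂ),
  (∀ w ∈ S, ∃ h : ℂ → ℂ, AnalyticAt ℂ h w ∧ ∀ᶠ z in 𝓝[≠] w, F z = h z + PP (p w) (q w) w z) ∧
  DifferentiableOn ℂ F₀ {z | 1 / 2 < z.re} ∧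
  ∀ z : ℂ, 1 / 2 < z.re → z ∉ S → F z = F₀ z + ∑ w ∈ S, PP (p w) (q w) w z

/-- LOW: bounded heights -/
def P_LOW : Prop := ∀ (F R : ℂ → ℂ), Mero F R → ∀ (T0 : ℝ) (S : Finset ℂ), (S : Set ℂ) = low T0 →
  RHs T0 → ∀ p q : ℂ → ℂ,
  (∀ w ∈ S, ∃ h : ℂ → ℂ, AnalyticAt ℂ h w ∧ ∀ᶠ z in 𝓝[≠] w, F z = h z + PP (p w) (q w) w z) →
  ∀ T2 : ℝ, ∃ C : ℝ, 0 ≤ C ∧ ∀ z : ℂ, 1 / 2 < z.re → z.re ≤ 2 → |z.im| ≤ T2 → z ∉ S →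
    ExpansionAt T0 0 C (fun z => F z - ∑ w ∈ S, PP (p w) (q w) w z) R z

/-- RB2 -/
def P_RB2 : Prop := ∀ (T0 b0 b : ℝ), 0 ≤ b0 → b0 < b → RHs T0 → Sep b0 T0 → ∃ C : ℝ, 0 ≤ C ∧
  ∀ ρ ∈ high T0, ‖res2 ρ‖ ≤ C * (1 + |ρ.im|) ^ b

/-- HI1 -/
def P_HI1 : Prop := ∀ (T0 b : ℝ), 0 < b → RHs T0 → ∃ C T2 : ℝ, 0 ≤ C ∧ ∀ z : ℂ, 1 / 2 < z.re →
  z.re ≤ 2 → T2 ≤ z.im → ExpansionAt T0 b C F1 res1 z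

/-- HI2 -/
def P_HI2 : Prop := ∀ (T0 b0 b : ℝ), 0 ≤ b0 → b0 < b → RHs T0 → Sep b0 T0 → ∃ C T2 : ℝ, 0 ≤ C ∧
  ∀ z : ℂ, 1 / 2 < z.re → z.re ≤ 2 → T2 ≤ z.im → ExpansionAt T0 b C F2 res2 z

/-- EXPALL: expansion of `F₀ = F - principal parts` at all heights (assembly of LOW, HI, CONJ). -/
def P_EXPALL : Prop := ∀ (F R : ℂ → ℂ), Mero F R →
  (∀ z : ℂ, F (starRingEnd ℂ z) = starRingEnd ℂ (F z)) →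
  (∀ z : ℂ, R (starRingEnd ℂ z) = starRingEnd ℂ (R z)) →
  ∀ (T0 b : ℝ) (S : Finset ℂ), 0 < b → (S : Set ℂ) = low T0 → RHs T0 → ∀ p q : ℂ → ℂ,
  (∀ w ∈ S, ∃ h : ℂ → ℂ, AnalyticAt ℂ h w ∧ ∀ᶠ z in 𝓝[≠] w, F z = h z + PP (p w) (q w) w z) →
  (∃ C T2 : ℝ, 0 ≤ C ∧ ∀ z : ℂ, 1 / 2 < z.re → z.re ≤ 2 → T2 ≤ z.im → ExpansionAt T0 b C F R z) →
  ∃ C : ℝ, 0 ≤ C ∧ ∀ z : ℂ, 1 / 2 < z.re → z.re ≤ 2 → z ∉ S →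
    ExpansionAt T0 b C (fun z => F z - ∑ w ∈ S, PP (p w) (q w) w z) R z

/-! ### the forward direction -/

/-- GM: the part of a fixed principal part -/
def P_GM : Prop := ∀ (κ : ℕ) (p q w : ℂ), 1 ≤ κ → 0 < w.re → w.re ≤ 1 → ∃ C : ℝ, 0 ≤ C ∧
  ∀ t : ℝ, ∃ H : ℂ → ℂ, DifferentiableOn ℂ H {s | 0 < s.re} ∧
  (∀ s : ℂ, 0 < s.re → s ≠ w - t * I →
    H s = PP p q w (s + t * I) / s ^ (κ + 1) - mainL κ p q w t (s + t * I)) ∧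
  ∀ s : ℂ, 1 / 2 < s.re → s.re ≤ 2 → s ≠ w - t * I →
    ‖H s + mainL κ p q w t (s + 1 + t * I)‖ ≤ C * (1 + |s.im|) ^ (-2 : ℝ)

/-- GZ: the part of the high zeros -/
def P_GZ : Prop := ∀ (κ : ℕ) (T0 b C0 : ℝ) (F₀ R : ℂ → ℂ) (S : Finset ℂ), 1 ≤ κ → 0 < b →
  (∀ ρ ∈ high T0, ρ.re = 1 / 2) → (∀ ρ ∈ high T0, ‖R ρ‖ ≤ C0 * (1 + |ρ.im|) ^ b) →
  (∀ z : ℂ, 1 / 2 < z.re → z.re ≤ 2 → z ∉ S → ExpansionAt T0 b C0 F₀ R z) →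
  ∀ η : ℝ, 0 < η → b + η < κ → ∃ C δ : ℝ, 0 < δ ∧ 0 ≤ C ∧ ∀ (t : ℝ) (s : ℂ), 1 / 2 < s.re →
    s.re ≤ 2 → s + t * I ∉ S →
    ‖F₀ (s + t * I) / s ^ (κ + 1) - ∑' ρ : high T0, R ρ / ((ρ : ℂ) - t * I) ^ (κ + 1) *
      (1 / (s - ((ρ : ℂ) - t * I)) - 1 / (s - ((ρ : ℂ) - t * I) + 1))‖ ≤
      C * (1 + |t|) ^ (b + η) * (1 + |s.im|) ^ (-1 - δ)

/-- AT: the abstract theorem (assembly of LAP, LAPM, MAINB, LAPV, TAUB, S0, GM, GZ) -/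
def P_AT : Prop := ∀ (f : ℕ → ℝ) (F F₀ R p q : ℂ → ℂ) (κ : ℕ) (T0 b C0 : ℝ) (S : Finset ℂ),
  IsDS f F → 1 ≤ κ → 0 < b → b < κ → (∀ w ∈ S, 0 < w.re ∧ w.re ≤ 1) →
  DifferentiableOn ℂ F₀ {z | 1 / 2 < z.re} →
  (∀ z : ℂ, 1 / 2 < z.re → z ∉ S → F z = F₀ z + ∑ w ∈ S, PP (p w) (q w) w z) →
  (∀ ρ ∈ high T0, ρ.re = 1 / 2) → (∀ ρ ∈ high T0, ‖R ρ‖ ≤ C0 * (1 + |ρ.im|) ^ b) →
  (∀ z : ℂ, 1 / 2 < z.re → z.re ≤ 2 → z ∉ S → ExpansionAt T0 b C0 F₀ R z) →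
  ∀ η : ℝ, 0 < η → ∃ C : ℝ, ∀ t x : ℝ, 1 ≤ x →
    ‖riesz f κ t x - ∑ w ∈ S, main κ (p w) (q w) w t x‖ ≤ C * (1 + |t|) ^ (b + η) * √x

/-- SEP -/
def P_SEP : Prop := ∀ γ : ℕ → ℝ, Pool.Agent.ZP.IsOrdinateSeq γ → ∀ A : ℝ, 0 ≤ A →
  ((-A : ℝ) : EReal) ≤ Pool.Agent.ZP.alpha γ → ∃ T0 : ℝ, 1 ≤ T0 ∧ RHs T0 ∧ ∀ b : ℝ, A < b → Sep b T0

/-- FWD (assembly) -/
def P_FWD : Prop := ∀ γ : ℕ → ℝ, Pool.Agent.ZP.IsOrdinateSeq γ → ∀ (κ : ℕ) (A : ℝ), 0 ≤ A →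
  A < κ → ((-A : ℝ) : EReal) ≤ Pool.Agent.ZP.alpha γ → Expands vM κ A ∧ Expands selberg κ A

/-! ### the backward direction -/

/-- BACK -/
def P_BACK : Prop := ∀ (f : ℕ → ℝ) (F : ℂ → ℂ) (κ : ℕ) (t K : ℝ) (S : Finset ℂ) (p q : ℂ → ℂ),
  IsDS f F → 1 ≤ κ →
  (∀ x : ℝ, 1 ≤ x → ‖riesz f κ t x - ∑ w ∈ S, main κ (p w) (q w) w t x‖ ≤ K * √x) →
  ∃ L : ℂ → ℂ, DifferentiableOn ℂ L {z | 1 / 2 < z.re} ∧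
  (∀ z : ℂ, 1 / 2 < z.re → ‖L z‖ ≤ K / (z.re - 1 / 2)) ∧
  ∀ z : ℂ, 3 / 2 < z.re → (∀ w ∈ S, w.re < z.re) →
    F z = (z - t * I) ^ (κ + 1) * (L z + ∑ w ∈ S, mainL κ (p w) (q w) w t z)

/-- ID1 -/
def P_ID1 : Prop := ∀ (κ : ℕ) (t : ℝ) (S : Finset ℂ) (p q L : ℂ → ℂ),
  DifferentiableOn ℂ L {z | 1 / 2 < z.re} →
  (∀ z : ℂ, 3 / 2 < z.re → (∀ w ∈ S, w.re < z.re) →
    F1 z = (z - t * I) ^ (κ + 1) * (L z + ∑ w ∈ S, mainL κ (p w) (q w) w t z)) →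
  ∀ z : ℂ, 1 / 2 < z.re → riemannZeta z = 0 → z ∈ S

/-- ID2 -/
def P_ID2 : Prop := ∀ (κ : ℕ) (t : ℝ) (S : Finset ℂ) (p q L : ℂ → ℂ),
  DifferentiableOn ℂ L {z | 1 / 2 < z.re} →
  (∀ z : ℂ, 3 / 2 < z.re → (∀ w ∈ S, w.re < z.re) →
    F2 z = (z - t * I) ^ (κ + 1) * (L z + ∑ w ∈ S, mainL κ (p w) (q w) w t z)) →
  ∀ z : ℂ, 1 / 2 < z.re → z ∉ S → z ≠ 1 → riemannZeta z ≠ 0 →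
    F2 z = (z - t * I) ^ (κ + 1) * (L z + ∑ w ∈ S, mainL κ (p w) (q w) w t z)

/-- LINE: finitely many zeros to the right of the line -/
def P_LINE : Prop := ∀ S : Finset ℂ, (∀ z : ℂ, 1 / 2 < z.re → riemannZeta z = 0 → z ∈ S) →
  ∃ T0 : ℝ, 1 ≤ T0 ∧ RHl T0

/-- PAIR: two zeros within `δ` (or a multiple zero) make `ζ''/ζ` large at distance `δ`. -/
def P_PAIR : Prop := ∀ T0 : ℝ, RHl T0 → ∃ c T : ℝ, 0 < c ∧ 100 ≤ T ∧ ∀ ρ ∈ NZ, T ≤ ρ.im →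
  ∀ δ : ℝ, 0 < δ → δ * Real.log ρ.im ≤ c →
  (deriv riemannZeta ρ = 0 ∨ ∃ ρ' ∈ NZ, ρ' ≠ ρ ∧ |ρ'.im - ρ.im| ≤ δ) →
  1 / (2 * δ ^ 2) ≤ ‖F2 (ρ + δ)‖

/-- BWDC: the bound for `ζ''/ζ` near the line gives the bound for the gaps. -/
def P_BWDC : Prop := ∀ γ : ℕ → ℝ, Pool.Agent.ZP.IsOrdinateSeq γ → ∀ (T0 B C T : ℝ), RHl T0 →
  0 ≤ B → (∀ ρ ∈ NZ, T ≤ ρ.im → ∀ δ : ℝ, 0 < δ → δ ≤ 1 / 2 →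
    ‖F2 (ρ + δ)‖ ≤ C * (1 + ρ.im) ^ B / δ) → ((-B : ℝ) : EReal) ≤ Pool.Agent.ZP.alpha γ

/-- BWD (assembly) -/
def P_BWD : Prop := ∀ γ : ℕ → ℝ, Pool.Agent.ZP.IsOrdinateSeq γ →
  (∀ (κ : ℕ) (A : ℝ), 1 ≤ κ → 0 ≤ A → Expands vM κ A → Expands selberg κ A →
    ((-A : ℝ) : EReal) ≤ Pool.Agent.ZP.alpha γ) ∧
  (∀ κ : ℕ, 1 ≤ κ → ExpandsZero vM κ → ExpandsZero selberg κ →
    ((-((κ : ℝ) + 1) : ℝ) : EReal) ≤ Pool.Agent.ZP.alpha γ)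

end Pool.Agent.SELB
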