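import Mathlib
import Pool.Agent.Lib.SELB.Props

/-!
# MP_af3d17_nt, Selberg's formula, row GM: the part of a fixed principal part (helper48)
-/

set_option autoImplicit false

namespace Pool.Agent.SELB

open Complex Filter Topology MeasureTheory Set

namespace GMx

/-- The first sum. -/
noncomputable def S1 (m : ℕ) (a b : ℂ) : ℂ := ∑ j ∈ Finset.range m, a ^ (j + 1) * b ^ (m - j)

/-- The second sum. -/
noncomputable def S2 (m : ℕ) (a b : ℂ) : ℂ :=
  ∑ j ∈ Finset.range m, ∑ i ∈ Finset.range (j + 1), a ^ (i + 1) * b ^ (m + 1 - i)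

theorem geo {a b v : ℂ} (hab : a - b = -(v * a * b)) (n : ℕ) : a ^ n - b ^ n = -v * S1 n a b := by
  rw [← geom_sum₂_mul, hab, S1, Finset.mul_sum, Finset.sum_mul]
  refine Finset.sum_congr rfl fun i hi => ?_
  have h : n - i = n - 1 - i + 1 := by
    have := Finset.mem_range.1 hi
    omega
  rw [h, pow_succ a, pow_succ b]
  ring

theorem geo2 {a b v : ℂ} (hab : a - b = -(v * a * b)) (m : ℕ) :
    (m : ℂ) * b ^ (m + 1) - S1 m a b = v * S2 m a b := by
  have h1 : (m : ℂ) * b ^ (m + 1) = ∑ _j ∈ Finset.range m, b ^ (m + 1) := by simp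
  rw [h1, S1, S2, ← Finset.sum_sub_distrib, Finset.mul_sum]
  refine Finset.sum_congr rfl fun j hj => ?_
  have hj' := Finset.mem_range.1 hj
  have h2 : b ^ (m + 1) = b ^ (j + 1) * b ^ (m - j) := by
    rw [← pow_add]; congr 1; omega
  have h3 : a ^ (j + 1) - b ^ (j + 1) = -v * S1 (j + 1) a b := geo hab (j + 1)
  have h4 : b ^ (m + 1) - a ^ (j + 1) * b ^ (m - j) = v * (S1 (j + 1) a b * b ^ (m - j)) := by
    rw [h2, ← sub_mul, ← neg_sub, h3]
    ring
  rw [h4, S1, Finset.sum_mul]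
  congr 1
  refine Finset.sum_congr rfl fun i hi => ?_
  have hi' := Finset.mem_range.1 hi
  rw [mul_assoc, ← pow_add]
  congr 2
  omega

/-- The regular function. -/
noncomputable def Hf (m : ℕ) (p q c s : ℂ) : ℂ := p * S2 m s⁻¹ c⁻¹ - q * S1 m s⁻¹ c⁻¹

theorem Hf_eq {m : ℕ} {p q c s : ℂ} (hs : s ≠ 0) (hc : c ≠ 0) (hsc : s - c ≠ 0) :
    Hf m p q c s = (p / (s - c) ^ 2 + q / (s - c)) / s ^ m -
      ((p / (s - c) ^ 2 + q / (s - c)) / c ^ m - m * p / (c ^ (m + 1) * (s - c))) := by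
  have hab : s⁻¹ - c⁻¹ = -((s - c) * s⁻¹ * c⁻¹) := by field_simp; ring
  have h1 := geo hab m
  have h2 := geo2 hab m
  set v := s - c with hv
  have e1 : (p / v ^ 2 + q / v) / s ^ m - ((p / v ^ 2 + q / v) / c ^ m -
      m * p / (c ^ (m + 1) * v)) = (p / v ^ 2 + q / v) * (s⁻¹ ^ m - c⁻¹ ^ m) +
      p / v * (m * c⁻¹ ^ (m + 1)) := by
    rw [inv_pow, inv_pow, inv_pow]
    field_simp
    ring
  rw [e1, h1]
  have e2 : (m : ℂ) * c⁻¹ ^ (m + 1) = S1 m s⁻¹ c⁻¹ + v * S2 m s⁻¹ c⁻¹ := by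
    rw [← h2]; ring
  rw [e2, Hf]
  field_simp
  ring

theorem Hf_diff (m : ℕ) (p q c : ℂ) : DifferentiableOn ℂ (Hf m p q c) {s | 0 < s.re} := by
  intro s hs
  have hs0 : s ≠ 0 := by
    rintro rfl
    simp at hs
  have h : DifferentiableAt ℂ (fun s : ℂ => s⁻¹) s := differentiableAt_inv hs0
  refine DifferentiableAt.differentiableWithinAt ?_
  unfold Hf S1 S2
  refine DifferentiableAt.sub (DifferentiableAt.const_mul ?_ _) (DifferentiableAt.const_mul ?_ _)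
  · refine DifferentiableAt.fun_sum fun j _ => DifferentiableAt.fun_sum fun i _ => ?_
    exact (h.pow _).mul_const _
  · refine DifferentiableAt.fun_sum fun j _ => ?_
    exact (h.pow _).mul_const _

theorem term_le {a b : ℂ} {B T : ℝ} (hB : 1 ≤ B) (hT0 : 0 ≤ T) (hT1 : T ≤ 1) (ha : ‖a‖ ≤ B * T)
    (hb : ‖b‖ ≤ B * T) {i j n : ℕ} (hn : i + j = n) (h2 : 2 ≤ n) :
    ‖a ^ i * b ^ j‖ ≤ B ^ n * T ^ 2 := by
  rw [norm_mul, norm_pow, norm_pow]
  calc ‖a‖ ^ i * ‖b‖ ^ j ≤ (B * T) ^ i * (B * T) ^ j :=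
        mul_le_mul (pow_le_pow_left₀ (norm_nonneg _) ha _) (pow_le_pow_left₀ (norm_nonneg _) hb _)
          (by positivity) (by positivity)
    _ = B ^ n * T ^ n := by rw [← pow_add, hn, mul_pow]
    _ ≤ B ^ n * T ^ 2 := mul_le_mul_of_nonneg_left (pow_le_pow_of_le_one hT0 hT1 h2)
        (by positivity)

theorem S1_le {m : ℕ} (hm : 1 ≤ m) {a b : ℂ} {B T : ℝ} (hB : 1 ≤ B) (hT0 : 0 ≤ T) (hT1 : T ≤ 1)
    (ha : ‖a‖ ≤ B * T) (hb : ‖b‖ ≤ B * T) : ‖S1 m a b‖ ≤ m * (B ^ (m + 1) * T ^ 2) := by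
  refine (norm_sum_le _ _).trans ?_
  calc ∑ j ∈ Finset.range m, ‖a ^ (j + 1) * b ^ (m - j)‖
      ≤ ∑ _j ∈ Finset.range m, B ^ (m + 1) * T ^ 2 := by
        refine Finset.sum_le_sum fun j hj => ?_
        have := Finset.mem_range.1 hj
        exact term_le hB hT0 hT1 ha hb (by omega) (by omega)
    _ = m * (B ^ (m + 1) * T ^ 2) := by simp

theorem S2_le {m : ℕ} {a b : ℂ} {B T : ℝ} (hB : 1 ≤ B) (hT0 : 0 ≤ T) (hT1 : T ≤ 1)
    (ha : ‖a‖ ≤ B * T) (hb : ‖b‖ ≤ B * T) : ‖S2 m a b‖ ≤ m * (m * (B ^ (m + 2) * T ^ 2)) := by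
  refine (norm_sum_le _ _).trans ?_
  calc ∑ j ∈ Finset.range m, ‖∑ i ∈ Finset.range (j + 1), a ^ (i + 1) * b ^ (m + 1 - i)‖
      ≤ ∑ _j ∈ Finset.range m, m * (B ^ (m + 2) * T ^ 2) := by
        refine Finset.sum_le_sum fun j hj => ?_
        have hj' := Finset.mem_range.1 hj
        refine (norm_sum_le _ _).trans ?_
        calc ∑ i ∈ Finset.range (j + 1), ‖a ^ (i + 1) * b ^ (m + 1 - i)‖
            ≤ ∑ _i ∈ Finset.range (j + 1), B ^ (m + 2) * T ^ 2 := by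
              refine Finset.sum_le_sum fun i hi => ?_
              have := Finset.mem_range.1 hi
              exact term_le hB hT0 hT1 ha hb (by omega) (by omega)
          _ = ((j + 1 : ℕ) : ℝ) * (B ^ (m + 2) * T ^ 2) := by simp
          _ ≤ m * (B ^ (m + 2) * T ^ 2) := by
              refine mul_le_mul_of_nonneg_right ?_ (by positivity)
              exact_mod_cast hj'
    _ = m * (m * (B ^ (m + 2) * T ^ 2)) := by simp

end GMx

open GMx in
theorem GM_all : P_GM := by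
  intro κ p q w hκ hw0 hw1
  set m : ℕ := κ + 1 with hm
  have hm2 : 2 ≤ m := by omega
  set r : ℝ := 1 / w.re with hr
  have hr0 : 0 < r := by positivity
  have hr1 : 1 ≤ r := by rw [hr, le_div_iff₀ hw0]; linarith
  set B : ℝ := 3 * (1 + 2 * r) with hB
  have hB1 : 1 ≤ B := by rw [hB]; linarith
  set C1 : ℝ := ‖p‖ * (m * (m * B ^ (m + 2))) + ‖q‖ * (m * B ^ (m + 1)) +
    ((4 * ‖p‖ + 2 * ‖q‖) * B ^ m + 2 * (m * ‖p‖) * B ^ (m + 1)) with hC1
  set C2 : ℝ := (‖p‖ + ‖q‖) * 3 ^ m + ((2 * ‖p‖ + ‖q‖) * r ^ (m - 2) +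
    m * ‖p‖ * r ^ (m - 1)) * B ^ 2 with hC2
  have hC10 : 0 ≤ C1 := by positivity
  have hC20 : 0 ≤ C2 := by positivity
  refine ⟨C1 + C2, by positivity, fun t => ?_⟩
  set c : ℂ := w - t * I with hc
  have hcre : c.re = w.re := by simp [hc]
  have hc0 : c ≠ 0 := by
    intro h
    rw [h] at hcre
    simp at hcre
    linarith
  have hcn : w.re ≤ ‖c‖ := by rw [← hcre]; exact Complex.re_le_norm c
  refine ⟨Hf m p q c, Hf_diff _ _ _ _, ?_, ?_⟩
  · intro s hs hsc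
    have hs0 : s ≠ 0 := by
      rintro rfl
      simp at hs
    have hv : s - c ≠ 0 := sub_ne_zero.2 hsc
    have e1 : s + t * I - w = s - c := by rw [hc]; ring
    rw [Hf_eq hs0 hc0 hv, PP, mainL, e1, hm]
    push_cast
    ring
  · intro s hs1 hs2 hsc
    have hs0 : s ≠ 0 := by
      rintro rfl
      norm_num at hs1
    have hv : s - c ≠ 0 := sub_ne_zero.2 hsc
    have hτ0 : 0 ≤ |s.im| := abs_nonneg _
    set T : ℝ := (1 + |s.im|)⁻¹ with hT
    have hT0 : 0 < T := by positivity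
    have hT1 : T ≤ 1 := inv_le_one_of_one_le₀ (by linarith)
    have hTT : (1 + |s.im|) * T = 1 := mul_inv_cancel₀ (by linarith)
    have hpow : (1 + |s.im|) ^ (-2 : ℝ) = T ^ 2 := by
      rw [Real.rpow_neg (by linarith), hT, inv_pow]
      norm_num
    rw [hpow]
    -- the modulus of `s`
    have hsre : s.re ≤ ‖s‖ := Complex.re_le_norm s
    have hsim : |s.im| ≤ ‖s‖ := Complex.abs_im_le_norm s
    have hsn : 0 < ‖s‖ := norm_pos_iff.2 hs0
    have hcn0 : 0 < ‖c‖ := norm_pos_iff.2 hc0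
    have ha : ‖s⁻¹‖ ≤ 3 * T := by
      rw [norm_inv, inv_le_iff_one_le_mul₀ hsn]
      have h3 : 1 + |s.im| ≤ 3 * ‖s‖ := by linarith
      calc (1 : ℝ) = (1 + |s.im|) * T := hTT.symm
        _ ≤ 3 * ‖s‖ * T := mul_le_mul_of_nonneg_right h3 hT0.le
        _ = 3 * T * ‖s‖ := by ring
    have hbr : ‖c⁻¹‖ ≤ r := by
      rw [norm_inv, hr, one_div]
      exact inv_anti₀ hw0 hcn
    set v : ℂ := s - c with hvdef
    have hvre : v.re = s.re - w.re := by rw [hvdef, Complex.sub_re, hcre]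
    have hv1re : 1 / 2 ≤ (v + 1).re := by
      rw [Complex.add_re, Complex.one_re, hvre]; linarith
    have hv1n : 1 / 2 ≤ ‖v + 1‖ := hv1re.trans (Complex.re_le_norm _)
    have hv1 : v + 1 ≠ 0 := by
      intro h
      rw [h, norm_zero] at hv1n
      norm_num at hv1n
    have e2 : s + 1 + t * I - w = v + 1 := by rw [hvdef, hc]; ring
    have hmain : mainL κ p q w t (s + 1 + t * I) = (p / (v + 1) ^ 2 + q / (v + 1)) / c ^ m -
        m * p / (c ^ (m + 1) * (v + 1)) := by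
      rw [mainL, e2, hm]
      push_cast
      ring
    have hv1inv : ‖(v + 1)⁻¹‖ ≤ 2 := by
      rw [norm_inv, inv_le_iff_one_le_mul₀ (norm_pos_iff.2 hv1)]
      linarith
    have hscv : ‖s‖ ≤ ‖c‖ + ‖v‖ := by
      have : s = c + v := by rw [hvdef]; ring
      calc ‖s‖ = ‖c + v‖ := by rw [← this]
        _ ≤ ‖c‖ + ‖v‖ := norm_add_le _ _
    have hcr : 1 ≤ r * ‖c‖ := by
      rw [hr, one_div, ← div_eq_inv_mul, one_le_div hw0]
      exact hcn
    rcases le_or_gt ‖v‖ 1 with hvle | hvgt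
    · -- near the point
      have hbB : ‖c⁻¹‖ ≤ B * T := by
        rw [norm_inv, inv_le_iff_one_le_mul₀ hcn0]
        have h3 : 1 + |s.im| ≤ B * ‖c‖ := by
          have h4 : 1 + |s.im| ≤ 3 * ‖s‖ := by linarith
          have h5 : ‖s‖ ≤ ‖c‖ + r * ‖c‖ := by linarith
          have h9 : 0 ≤ r * ‖c‖ := by positivity
          have h10 : B * ‖c‖ = 3 * ‖c‖ + 6 * (r * ‖c‖) := by rw [hB]; ring
          rw [h10]
          linarith
        calc (1 : ℝ) = (1 + |s.im|) * T := hTT.symm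
          _ ≤ B * ‖c‖ * T := mul_le_mul_of_nonneg_right h3 hT0.le
          _ = B * T * ‖c‖ := by ring
      have haB : ‖s⁻¹‖ ≤ B * T := ha.trans (mul_le_mul_of_nonneg_right (by rw [hB]; linarith) hT0.le)
      have h1 : ‖Hf m p q c s‖ ≤ ‖p‖ * (m * (m * (B ^ (m + 2) * T ^ 2))) +
          ‖q‖ * (m * (B ^ (m + 1) * T ^ 2)) := by
        unfold Hf
        refine (norm_sub_le _ _).trans ?_
        rw [norm_mul, norm_mul]
        exact add_le_add (mul_le_mul_of_nonneg_left (S2_le hB1 hT0.le hT1 haB hbB) (norm_nonneg _))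
          (mul_le_mul_of_nonneg_left (S1_le (by omega) hB1 hT0.le hT1 haB hbB) (norm_nonneg _))
      have hcm : ‖c⁻¹ ^ m‖ ≤ B ^ m * T ^ 2 := by
        have := term_le (a := c⁻¹) (b := c⁻¹) hB1 hT0.le hT1 hbB hbB (i := m) (j := 0) (n := m)
          (by omega) hm2
        simpa using this
      have hcm1 : ‖c⁻¹ ^ (m + 1)‖ ≤ B ^ (m + 1) * T ^ 2 := by
        have := term_le (a := c⁻¹) (b := c⁻¹) hB1 hT0.le hT1 hbB hbB (i := m + 1) (j := 0)
          (n := m + 1) (by omega) (by omega)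
        simpa using this
      have h2 : ‖mainL κ p q w t (s + 1 + t * I)‖ ≤ (4 * ‖p‖ + 2 * ‖q‖) * (B ^ m * T ^ 2) +
          2 * (m * ‖p‖) * (B ^ (m + 1) * T ^ 2) := by
        have e3 : mainL κ p q w t (s + 1 + t * I) = (p * ((v + 1)⁻¹ * (v + 1)⁻¹) +
            q * (v + 1)⁻¹) * c⁻¹ ^ m - m * p * (v + 1)⁻¹ * c⁻¹ ^ (m + 1) := by
          rw [hmain, inv_pow, inv_pow]
          field_simp
        rw [e3]
        refine (norm_sub_le _ _).trans (add_le_add ?_ ?_)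
        · rw [norm_mul]
          refine mul_le_mul ?_ hcm (norm_nonneg _) (by positivity)
          refine (norm_add_le _ _).trans ?_
          rw [norm_mul, norm_mul, norm_mul]
          have := mul_le_mul hv1inv hv1inv (norm_nonneg _) (by norm_num)
          have h5 := mul_le_mul_of_nonneg_left this (norm_nonneg p)
          have h6 := mul_le_mul_of_nonneg_left hv1inv (norm_nonneg q)
          linarith
        · rw [norm_mul, norm_mul, norm_mul, Complex.norm_natCast]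
          refine mul_le_mul ?_ hcm1 (norm_nonneg _) (by positivity)
          have h5 := mul_le_mul_of_nonneg_left hv1inv
            (mul_nonneg (Nat.cast_nonneg m) (norm_nonneg p))
          linarith
      calc ‖Hf m p q c s + mainL κ p q w t (s + 1 + t * I)‖ ≤ _ := norm_add_le _ _
        _ ≤ C1 * T ^ 2 := by
          rw [hC1]
          refine (add_le_add h1 h2).trans (le_of_eq ?_)
          ring
        _ ≤ (C1 + C2) * T ^ 2 := mul_le_mul_of_nonneg_right (by linarith) (by positivity)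
    · -- far from the point
      have hvn0 : 0 < ‖v‖ := by linarith
      have hvv1 : ‖v‖ ≤ ‖v + 1‖ := by
        have h3 : ‖v‖ ^ 2 ≤ ‖v + 1‖ ^ 2 := by
          rw [← Complex.normSq_eq_norm_sq, ← Complex.normSq_eq_norm_sq, Complex.normSq_apply,
            Complex.normSq_apply]
          simp only [Complex.add_re, Complex.one_re, Complex.add_im, Complex.one_im, add_zero]
          rw [Complex.add_re, Complex.one_re] at hv1re
          nlinarith
        exact le_of_sq_le_sq h3 (norm_nonneg _)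
      set x : ℝ := ‖v⁻¹‖ with hx
      have hx0 : 0 ≤ x := norm_nonneg _
      have hx1 : x ≤ 1 := by
        rw [hx, norm_inv]
        exact inv_le_one_of_one_le₀ hvgt.le
      have hy : ‖(v + 1)⁻¹‖ ≤ x := by
        rw [hx, norm_inv, norm_inv]
        exact inv_anti₀ hvn0 hvv1
      have hd : ‖v⁻¹ * (v + 1)⁻¹‖ ≤ x ^ 2 := by
        rw [norm_mul, sq]
        exact mul_le_mul_of_nonneg_left hy hx0
      -- `‖c⁻¹‖ x ≤ B T`
      have hcx : ‖c⁻¹‖ * x ≤ B * T := by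
        rw [hx, norm_inv, norm_inv, ← mul_inv, inv_le_iff_one_le_mul₀ (by positivity)]
        have h3 : 1 + |s.im| ≤ B * (‖c‖ * ‖v‖) := by
          have h4 : 1 + |s.im| ≤ 1 + (‖c‖ + ‖v‖) := by linarith
          have h5 : (1 : ℝ) ≤ ‖v‖ := hvgt.le
          have h6 : ‖c‖ ≤ ‖c‖ * ‖v‖ := le_mul_of_one_le_right hcn0.le h5
          have h7 : ‖v‖ ≤ r * (‖c‖ * ‖v‖) := by
            rw [← mul_assoc]; exact le_mul_of_one_le_left hvn0.le hcr
          have h8 : 0 ≤ ‖c‖ * ‖v‖ := by positivity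
          have h9 : 0 ≤ r * (‖c‖ * ‖v‖) := by positivity
          have h10 : B * (‖c‖ * ‖v‖) = 3 * (‖c‖ * ‖v‖) + 6 * (r * (‖c‖ * ‖v‖)) := by rw [hB]; ring
          rw [h10]
          linarith
        calc (1 : ℝ) = (1 + |s.im|) * T := hTT.symm
          _ ≤ B * (‖c‖ * ‖v‖) * T := mul_le_mul_of_nonneg_right h3 hT0.le
          _ = B * T * (‖c‖ * ‖v‖) := by ring
      have hb2 : ‖c⁻¹‖ ^ m * x ^ 2 ≤ r ^ (m - 2) * B ^ 2 * T ^ 2 := by
        have e3 : ‖c⁻¹‖ ^ m = ‖c⁻¹‖ ^ (m - 2) * ‖c⁻¹‖ ^ 2 := by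
          rw [← pow_add, show m - 2 + 2 = m by omega]
        calc ‖c⁻¹‖ ^ m * x ^ 2 = ‖c⁻¹‖ ^ (m - 2) * (‖c⁻¹‖ * x) ^ 2 := by rw [e3]; ring
          _ ≤ r ^ (m - 2) * (B * T) ^ 2 := by
            refine mul_le_mul (pow_le_pow_left₀ (norm_nonneg _) hbr _)
              (pow_le_pow_left₀ (by positivity) hcx _) (by positivity) (by positivity)
          _ = r ^ (m - 2) * B ^ 2 * T ^ 2 := by ring
      have hb3 : ‖c⁻¹‖ ^ (m + 1) * x ^ 2 ≤ r ^ (m - 1) * B ^ 2 * T ^ 2 := by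
        have e3 : ‖c⁻¹‖ ^ (m + 1) = ‖c⁻¹‖ ^ (m - 1) * ‖c⁻¹‖ ^ 2 := by
          rw [← pow_add, show m - 1 + 2 = m + 1 by omega]
        calc ‖c⁻¹‖ ^ (m + 1) * x ^ 2 = ‖c⁻¹‖ ^ (m - 1) * (‖c⁻¹‖ * x) ^ 2 := by rw [e3]; ring
          _ ≤ r ^ (m - 1) * (B * T) ^ 2 := by
            refine mul_le_mul (pow_le_pow_left₀ (norm_nonneg _) hbr _)
              (pow_le_pow_left₀ (by positivity) hcx _) (by positivity) (by positivity)
          _ = r ^ (m - 1) * B ^ 2 * T ^ 2 := by ring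
      have key : Hf m p q c s + mainL κ p q w t (s + 1 + t * I) =
          (p * (v⁻¹ * v⁻¹) + q * v⁻¹) * s⁻¹ ^ m -
          ((p * (v⁻¹ + (v + 1)⁻¹) + q) * (v⁻¹ * (v + 1)⁻¹)) * c⁻¹ ^ m +
          m * p * (v⁻¹ * (v + 1)⁻¹) * c⁻¹ ^ (m + 1) := by
        rw [Hf_eq hs0 hc0 hv, hmain, inv_pow, inv_pow, inv_pow, ← hvdef]
        field_simp
        ring
      have k1 : ‖(p * (v⁻¹ * v⁻¹) + q * v⁻¹) * s⁻¹ ^ m‖ ≤ (‖p‖ + ‖q‖) * 3 ^ m * T ^ 2 := by
        rw [norm_mul, norm_pow]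
        have h3 : ‖p * (v⁻¹ * v⁻¹) + q * v⁻¹‖ ≤ ‖p‖ + ‖q‖ := by
          refine (norm_add_le _ _).trans ?_
          rw [norm_mul, norm_mul, norm_mul, ← hx]
          have h4 : x * x ≤ 1 := mul_le_one₀ hx1 hx0 hx1
          have h5 := mul_le_mul_of_nonneg_left h4 (norm_nonneg p)
          have h6 := mul_le_mul_of_nonneg_left hx1 (norm_nonneg q)
          linarith
        have h4 : ‖s⁻¹‖ ^ m ≤ 3 ^ m * T ^ 2 := by
          calc ‖s⁻¹‖ ^ m ≤ (3 * T) ^ m := pow_le_pow_left₀ (norm_nonneg _) ha _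
            _ = 3 ^ m * T ^ m := mul_pow _ _ _
            _ ≤ 3 ^ m * T ^ 2 := mul_le_mul_of_nonneg_left
              (pow_le_pow_of_le_one hT0.le hT1 hm2) (by positivity)
        calc _ ≤ (‖p‖ + ‖q‖) * (3 ^ m * T ^ 2) :=
              mul_le_mul h3 h4 (by positivity) (by positivity)
          _ = _ := by ring
      have k2 : ‖((p * (v⁻¹ + (v + 1)⁻¹) + q) * (v⁻¹ * (v + 1)⁻¹)) * c⁻¹ ^ m‖ ≤
          (2 * ‖p‖ + ‖q‖) * (r ^ (m - 2) * B ^ 2 * T ^ 2) := by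
        rw [norm_mul, norm_mul, norm_pow]
        have h3 : ‖p * (v⁻¹ + (v + 1)⁻¹) + q‖ ≤ 2 * ‖p‖ + ‖q‖ := by
          refine (norm_add_le _ _).trans ?_
          rw [norm_mul]
          have h4 : ‖v⁻¹ + (v + 1)⁻¹‖ ≤ 2 := (norm_add_le _ _).trans (by linarith)
          have h5 := mul_le_mul_of_nonneg_left h4 (norm_nonneg p)
          linarith
        calc ‖p * (v⁻¹ + (v + 1)⁻¹) + q‖ * ‖v⁻¹ * (v + 1)⁻¹‖ * ‖c⁻¹‖ ^ m
            ≤ (2 * ‖p‖ + ‖q‖) * x ^ 2 * ‖c⁻¹‖ ^ m :=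
              mul_le_mul_of_nonneg_right (mul_le_mul h3 hd (norm_nonneg _) (by positivity))
                (by positivity)
          _ = (2 * ‖p‖ + ‖q‖) * (‖c⁻¹‖ ^ m * x ^ 2) := by ring
          _ ≤ _ := mul_le_mul_of_nonneg_left hb2 (by positivity)
      have k3 : ‖m * p * (v⁻¹ * (v + 1)⁻¹) * c⁻¹ ^ (m + 1)‖ ≤
          m * ‖p‖ * (r ^ (m - 1) * B ^ 2 * T ^ 2) := by
        rw [norm_mul, norm_mul, norm_mul, norm_pow, Complex.norm_natCast]
        calc m * ‖p‖ * ‖v⁻¹ * (v + 1)⁻¹‖ * ‖c⁻¹‖ ^ (m + 1)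
            ≤ m * ‖p‖ * x ^ 2 * ‖c⁻¹‖ ^ (m + 1) :=
              mul_le_mul_of_nonneg_right (mul_le_mul_of_nonneg_left hd (by positivity))
                (by positivity)
          _ = m * ‖p‖ * (‖c⁻¹‖ ^ (m + 1) * x ^ 2) := by ring
          _ ≤ _ := mul_le_mul_of_nonneg_left hb3 (by positivity)
      rw [key]
      calc _ ≤ _ := norm_add_le _ _
        _ ≤ (‖p‖ + ‖q‖) * 3 ^ m * T ^ 2 + (2 * ‖p‖ + ‖q‖) * (r ^ (m - 2) * B ^ 2 * T ^ 2) +
            m * ‖p‖ * (r ^ (m - 1) * B ^ 2 * T ^ 2) :=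
          add_le_add ((norm_sub_le _ _).trans (add_le_add k1 k2)) k3
        _ = C2 * T ^ 2 := by rw [hC2]; ring
        _ ≤ (C1 + C2) * T ^ 2 := mul_le_mul_of_nonneg_right (by linarith) (by positivity)

end Pool.Agent.SELB
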