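import Pool.Agent.Lib.SELB.Props

/-!
# SELB: row GZ, the part of the high zeros
-/

set_option autoImplicit false

namespace Pool.Agent.SELB

open Complex Filter Topology MeasureTheory Set

/-- the difference of the two kernels near a zero -/
theorem gz_bracket (m : ℕ) (s w : ℂ) (hsw : s ≠ w) (hK : ‖s‖ ≤ 6 * ‖w‖)
    (hs2 : 1 / 2 ≤ ‖s‖) (hw2 : 1 / 2 ≤ ‖w‖) (hv1 : 1 ≤ ‖s - w + 1‖) :
    ‖1 / (s - w) / s ^ m - 1 / w ^ m * (1 / (s - w) - 1 / (s - w + 1))‖ ≤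
      (2 * m * 6 ^ m + 6 ^ m) * (1 / ‖s‖ ^ m) := by
  have hs0 : 0 < ‖s‖ := by linarith
  have hw0 : 0 < ‖w‖ := by linarith
  have hs : s ≠ 0 := norm_pos_iff.1 hs0
  have hw : w ≠ 0 := norm_pos_iff.1 hw0
  have hv : s - w ≠ 0 := sub_ne_zero.2 hsw
  have hv' : s - w + 1 ≠ 0 := by
    intro h0
    rw [h0, norm_zero] at hv1
    linarith
  have e1 : 1 / (s - w) / s ^ m - 1 / w ^ m * (1 / (s - w) - 1 / (s - w + 1)) =
      -((∑ i ∈ Finset.range m, s ^ i * w ^ (m - 1 - i)) / (s ^ m * w ^ m)) +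
        1 / w ^ m * (1 / (s - w + 1)) := by
    have e2 := geom_sum₂_mul s w m
    have e3 : (∑ i ∈ Finset.range m, s ^ i * w ^ (m - 1 - i)) = (s ^ m - w ^ m) / (s - w) := by
      rw [eq_div_iff hv, e2]
    rw [e3]
    field_simp
    ring
  rw [e1]
  have b1 : ‖(∑ i ∈ Finset.range m, s ^ i * w ^ (m - 1 - i)) / (s ^ m * w ^ m)‖ ≤
      2 * m * 6 ^ m * (1 / ‖s‖ ^ m) := by
    rcases Nat.eq_zero_or_pos m with hm | hm
    · subst hm
      simp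
    rw [norm_div, norm_mul, norm_pow, norm_pow]
    have b2 : ‖∑ i ∈ Finset.range m, s ^ i * w ^ (m - 1 - i)‖ ≤ m * (6 ^ m * ‖w‖ ^ (m - 1)) := by
      refine (norm_sum_le _ _).trans ?_
      refine (Finset.sum_le_card_nsmul _ _ (6 ^ m * ‖w‖ ^ (m - 1)) ?_).trans ?_
      · intro i hi
        have hi' : i < m := Finset.mem_range.1 hi
        rw [norm_mul, norm_pow, norm_pow]
        calc ‖s‖ ^ i * ‖w‖ ^ (m - 1 - i) ≤ (6 * ‖w‖) ^ i * ‖w‖ ^ (m - 1 - i) := by gcongr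
          _ = 6 ^ i * (‖w‖ ^ i * ‖w‖ ^ (m - 1 - i)) := by rw [mul_pow]; ring
          _ = 6 ^ i * ‖w‖ ^ (m - 1) := by
              rw [← pow_add]
              congr 2
              omega
          _ ≤ 6 ^ m * ‖w‖ ^ (m - 1) := by
              gcongr
              · norm_num
      · rw [Finset.card_range, nsmul_eq_mul]
    have b3 : ‖w‖ ^ m = ‖w‖ ^ (m - 1) * ‖w‖ := by
      rw [← pow_succ]
      congr 1
      omega
    calc ‖∑ i ∈ Finset.range m, s ^ i * w ^ (m - 1 - i)‖ / (‖s‖ ^ m * ‖w‖ ^ m)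
        ≤ (m * (6 ^ m * ‖w‖ ^ (m - 1))) / (‖s‖ ^ m * ‖w‖ ^ m) := by gcongr
      _ = m * 6 ^ m * (1 / ‖s‖ ^ m) * (1 / ‖w‖) := by
          rw [b3]
          field_simp
      _ ≤ m * 6 ^ m * (1 / ‖s‖ ^ m) * 2 := by
          gcongr
          rw [div_le_iff₀ hw0]
          linarith
      _ = _ := by ring
  have b4 : ‖1 / w ^ m * (1 / (s - w + 1))‖ ≤ 6 ^ m * (1 / ‖s‖ ^ m) := by
    rw [norm_mul, norm_div, norm_div, norm_one, norm_pow]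
    have c1 : 1 / ‖s - w + 1‖ ≤ 1 := by
      rw [div_le_one (by linarith)]
      exact hv1
    have c2 : 1 / ‖w‖ ^ m ≤ 6 ^ m * (1 / ‖s‖ ^ m) := by
      rw [mul_one_div, div_le_div_iff₀ (by positivity) (by positivity), one_mul, ← mul_pow]
      gcongr
    calc 1 / ‖w‖ ^ m * (1 / ‖s - w + 1‖) ≤ (6 ^ m * (1 / ‖s‖ ^ m)) * 1 := by gcongr
      _ = _ := mul_one _
  calc ‖-((∑ i ∈ Finset.range m, s ^ i * w ^ (m - 1 - i)) / (s ^ m * w ^ m)) +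
        1 / w ^ m * (1 / (s - w + 1))‖
      ≤ ‖(∑ i ∈ Finset.range m, s ^ i * w ^ (m - 1 - i)) / (s ^ m * w ^ m)‖ +
        ‖1 / w ^ m * (1 / (s - w + 1))‖ := by
        refine (norm_add_le _ _).trans ?_
        rw [norm_neg]
    _ ≤ 2 * m * 6 ^ m * (1 / ‖s‖ ^ m) + 6 ^ m * (1 / ‖s‖ ^ m) := add_le_add b1 b4
    _ = _ := by ring

/-- the kernel far from a zero -/
theorem gz_far (v : ℂ) (hv : 0 < v.re) (hv2 : 1 / 2 < |v.im|) :
    ‖1 / v - 1 / (v + 1)‖ ≤ 9 * (1 + |v.im|) ^ (-2 : ℝ) := by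
  have h0 : v ≠ 0 := by
    intro h
    rw [h] at hv
    simp at hv
  have h1 : v + 1 ≠ 0 := by
    intro h
    have : (v + 1).re = 0 := by rw [h]; simp
    simp at this
    linarith
  have e1 : 1 / v - 1 / (v + 1) = 1 / (v * (v + 1)) := by
    field_simp
    ring
  have a1 : |v.im| ≤ ‖v‖ := abs_im_le_norm v
  have a2 : |v.im| ≤ ‖v + 1‖ := by
    have := abs_im_le_norm (v + 1)
    simpa using this
  have a3 : (1 + |v.im|) / 3 ≤ ‖v‖ := by linarith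
  have a4 : (1 + |v.im|) / 3 ≤ ‖v + 1‖ := by linarith
  have a5 : 0 < (1 + |v.im|) / 3 := by positivity
  rw [e1, norm_div, norm_one, norm_mul]
  have e2 : (1 + |v.im|) ^ (-2 : ℝ) = 1 / ((1 + |v.im|) ^ 2) := by
    rw [Real.rpow_neg (by positivity), one_div]
    congr 1
    exact_mod_cast Real.rpow_natCast (1 + |v.im|) 2
  rw [e2]
  calc 1 / (‖v‖ * ‖v + 1‖) ≤ 1 / ((1 + |v.im|) / 3 * ((1 + |v.im|) / 3)) := by gcongr
    _ = _ := by
      field_simp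
      norm_num

theorem one_add_abs_le (a b : ℝ) : 1 + |a| ≤ (1 + |b|) * (1 + |a - b|) := by
  have e2 : |a| ≤ |b| + |a - b| := by
    have e3 : a = b + (a - b) := by ring
    calc |a| = |b + (a - b)| := by rw [← e3]
      _ ≤ |b| + |a - b| := abs_add_le _ _
  nlinarith [mul_nonneg (abs_nonneg b) (abs_nonneg (a - b))]

/-- `1/|s|^m ≤ 3^m (1+|Im s|)^(-m)` for `Re s ≥ 1/2` -/
theorem inv_pow_le (m : ℕ) (s : ℂ) (hs : 1 / 2 ≤ s.re) :
    1 / ‖s‖ ^ m ≤ 3 ^ m * (1 + |s.im|) ^ (-(m : ℝ)) := by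
  have h1 : 1 / 2 ≤ ‖s‖ := hs.trans ((le_abs_self _).trans (abs_re_le_norm s))
  have h2 : |s.im| ≤ ‖s‖ := abs_im_le_norm s
  have h3 : (1 + |s.im|) / 3 ≤ ‖s‖ := by linarith
  have h4 : 0 < 1 + |s.im| := by positivity
  rw [Real.rpow_neg h4.le, Real.rpow_natCast]
  calc 1 / ‖s‖ ^ m ≤ 1 / ((1 + |s.im|) / 3) ^ m := by gcongr
    _ = 3 ^ m * ((1 + |s.im|) ^ m)⁻¹ := by
      rw [div_pow]
      field_simp

theorem GZ_all (h1 : P_DENS) (_h2 : P_S0) (h3 : P_SB) : P_GZ := by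
  intro κ T0 b C0 F₀ R S hκ hb hline hR hexp η hη hbη
  have hbκ : b < κ := by linarith
  obtain ⟨C2, hC2⟩ := h1 η hη
  obtain ⟨C4, δ2, hδ2, hC4⟩ := h3 b (κ + 1) hb.le (by push_cast; linarith) η hη
  set m : ℕ := κ + 1 with hm
  have hmR : (m : ℝ) = κ + 1 := by rw [hm]; push_cast; ring
  set C1 : ℝ := max C0 0 with hC1
  have hC10 : 0 ≤ C1 := le_max_right _ _
  have hC01 : C0 ≤ C1 := le_max_left _ _
  set D2 : ℝ := max C2 0 with hD2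
  have hD20 : 0 ≤ D2 := le_max_right _ _
  have hCD2 : C2 ≤ D2 := le_max_left _ _
  set D4 : ℝ := max C4 0 with hD4
  have hD40 : 0 ≤ D4 := le_max_right _ _
  have hCD4 : C4 ≤ D4 := le_max_left _ _
  set C3 : ℝ := 2 * m * 6 ^ m + 6 ^ m with hC3
  have hC30 : 0 ≤ C3 := by positivity
  set δ : ℝ := min (κ - b - η) δ2 with hδ
  have hδ0 : 0 < δ := lt_min (by linarith) hδ2
  refine ⟨C1 * 3 ^ m + D2 * (C1 * 3 ^ b * C3 * 3 ^ m) + 9 * 3 ^ m * C1 * D4, δ, hδ0,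
    by positivity, ?_⟩
  intro t s hs hs2 hsS
  set z : ℂ := s + t * I with hz
  have hzre : z.re = s.re := by simp [hz]
  have hzim : z.im = s.im + t := by simp [hz]
  obtain ⟨N, ⟨hN1, hN2⟩, hN3⟩ := hexp z (by rw [hzre]; exact hs) (by rw [hzre]; exact hs2) hsS
  set u : ℝ := z.im with hu
  have hut : u - t = s.im := by rw [hzim]; ring
  have ht0 : 0 < 1 + |t| := by positivity
  have ht1 : 1 ≤ 1 + |t| := by linarith [abs_nonneg t]
  have hu0 : 0 < 1 + |u| := by positivity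
  have hu1 : 1 ≤ 1 + |u| := by linarith [abs_nonneg u]
  have hτ0 : 0 < 1 + |s.im| := by positivity
  have hτ1 : 1 ≤ 1 + |s.im| := by linarith [abs_nonneg s.im]
  have hus : 1 + |u| ≤ (1 + |t|) * (1 + |s.im|) := by
    have := one_add_abs_le u t
    rwa [hut] at this
  have hsn : 1 / 2 ≤ ‖s‖ := hs.le.trans ((le_abs_self _).trans (abs_re_le_norm s))
  have hsinv : 1 / ‖s‖ ^ m ≤ 3 ^ m * (1 + |s.im|) ^ (-(m : ℝ)) := inv_pow_le m s hs.le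
  -- the terms
  set f : ℂ → ℂ := fun ρ => R ρ / (ρ - t * I) ^ m *
    (1 / (s - (ρ - t * I)) - 1 / (s - (ρ - t * I) + 1)) with hf
  have hvre : ∀ ρ ∈ high T0, 0 < (z - ρ).re := by
    intro ρ hρ
    rw [sub_re, hzre, hline ρ hρ]
    linarith
  have hsw : ∀ ρ : ℂ, s - (ρ - t * I) = z - ρ := by
    intro ρ
    rw [hz]
    ring
  have hw12 : ∀ ρ ∈ high T0, 1 / 2 ≤ (ρ - t * I).re := by
    intro ρ hρ
    have : (ρ - t * I).re = ρ.re := by simp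
    rw [this, hline ρ hρ]
  have hwim : ∀ ρ : ℂ, (ρ - t * I).im = ρ.im - t := by
    intro ρ
    simp
  -- far part
  set g : ℂ → ℝ := fun ρ => (1 + |ρ.im|) ^ b * (1 + |ρ.im - t|) ^ (-(m : ℝ)) *
    (1 + |ρ.im - u|) ^ (-2 : ℝ) with hg
  have hgfar : ∀ ρ ∈ high T0, ρ ∉ N → ‖f ρ‖ ≤ 9 * 3 ^ m * C1 * g ρ := by
    intro ρ hρ hρN
    have hfar : 1 / 2 < |ρ.im - u| := by
      by_contra hcon
      exact hρN (hN2 ρ hρ (not_lt.1 hcon))
    have e1 : |(z - ρ).im| = |ρ.im - u| := by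
      rw [sub_im, abs_sub_comm]
    have b1 : ‖1 / (s - (ρ - t * I)) - 1 / (s - (ρ - t * I) + 1)‖ ≤
        9 * (1 + |ρ.im - u|) ^ (-2 : ℝ) := by
      rw [hsw, ← e1]
      exact gz_far _ (hvre ρ hρ) (by rw [e1]; exact hfar)
    have b2 : ‖R ρ / (ρ - t * I) ^ m‖ ≤ C1 * (1 + |ρ.im|) ^ b *
        (3 ^ m * (1 + |ρ.im - t|) ^ (-(m : ℝ))) := by
      rw [norm_div, norm_pow, div_eq_mul_one_div]
      have c1 : ‖R ρ‖ ≤ C1 * (1 + |ρ.im|) ^ b := (hR ρ hρ).trans (by gcongr)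
      have c2 := inv_pow_le m (ρ - t * I) (hw12 ρ hρ)
      rw [hwim] at c2
      gcongr
    calc ‖f ρ‖ = ‖R ρ / (ρ - t * I) ^ m‖ *
          ‖1 / (s - (ρ - t * I)) - 1 / (s - (ρ - t * I) + 1)‖ := norm_mul _ _
      _ ≤ (C1 * (1 + |ρ.im|) ^ b * (3 ^ m * (1 + |ρ.im - t|) ^ (-(m : ℝ)))) *
          (9 * (1 + |ρ.im - u|) ^ (-2 : ℝ)) := by gcongr
      _ = _ := by rw [hg]; ring
  obtain ⟨hsum, hsumle⟩ := hC4 T0 t u
  have hsumle' : ∑' ρ : high T0, g ρ ≤ D4 * (1 + |t|) ^ (b + η) * (1 + |s.im|) ^ (-1 - δ2) := by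
    rw [← hut]
    refine hsumle.trans ?_
    gcongr
  classical
  set G : high T0 → ℂ := fun ρ => if (ρ : ℂ) ∈ N then 0 else f ρ with hG
  have hGn : ∀ ρ : high T0, ‖G ρ‖ ≤ 9 * 3 ^ m * C1 * g ρ := by
    intro ρ
    by_cases hρ : (ρ : ℂ) ∈ N
    · have : G ρ = 0 := by simp [hG, hρ]
      rw [this, norm_zero]
      have : 0 ≤ g ρ := by positivity
      positivity
    · have : G ρ = f ρ := by simp [hG, hρ]
      rw [this]
      exact hgfar ρ ρ.2 hρ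
  have hGs : Summable G :=
    Summable.of_norm_bounded (g := fun ρ : high T0 => 9 * 3 ^ m * C1 * g ρ) (hsum.mul_left _) hGn
  have hGle : ‖∑' ρ, G ρ‖ ≤ 9 * 3 ^ m * C1 * (D4 * (1 + |t|) ^ (b + η) *
      (1 + |s.im|) ^ (-1 - δ2)) := by
    have := tsum_of_norm_bounded ((hsum.mul_left (9 * 3 ^ m * C1)).hasSum) hGn
    refine this.trans ?_
    rw [tsum_mul_left]
    gcongr
  -- splitting
  have hNsub : ∀ ρ ∈ N, ρ ∈ high T0 := fun ρ hρ => (hN1 ρ hρ).1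
  have hsplit : ∑' ρ : high T0, f ρ = ∑ ρ ∈ N, f ρ + ∑' ρ, G ρ := by
    set N' : Finset (high T0) := N.subtype (· ∈ high T0) with hN'
    have e1 : HasSum (fun ρ : high T0 => if ρ ∈ N' then f ρ else 0)
        (∑ ρ ∈ N', if ρ ∈ N' then f ρ else 0) := by
      apply hasSum_sum_of_ne_finset_zero
      intro ρ hρ
      simp [hρ]
    have e2 : ∑ ρ ∈ N', (if ρ ∈ N' then f (ρ : ℂ) else 0) = ∑ ρ ∈ N, f ρ := by
      rw [← Finset.sum_subtype_of_mem f hNsub]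
      apply Finset.sum_congr rfl
      intro ρ hρ
      rw [if_pos hρ]
    rw [e2] at e1
    have e3 := e1.add hGs.hasSum
    rw [← e3.tsum_eq]
    apply tsum_congr
    intro ρ
    by_cases hρ : (ρ : ℂ) ∈ N
    · have h5 : ρ ∈ N' := by rw [hN', Finset.mem_subtype]; exact hρ
      simp [hG, hρ, h5]
    · have h5 : ρ ∉ N' := by rw [hN', Finset.mem_subtype]; exact hρ
      simp [hG, hρ, h5]
  have hgoal : F₀ z / s ^ m - ∑' ρ : high T0, f ρ =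
      (F₀ z - ∑ ρ ∈ N, R ρ / (z - ρ)) / s ^ m +
        ∑ ρ ∈ N, (R ρ / (z - ρ) / s ^ m - f ρ) - ∑' ρ, G ρ := by
    rw [hsplit, Finset.sum_sub_distrib, ← Finset.sum_div]
    ring
  have hgoal2 : F₀ (s + t * I) / s ^ (κ + 1) - ∑' ρ : high T0, R ρ / ((ρ : ℂ) - t * I) ^ (κ + 1) *
      (1 / (s - ((ρ : ℂ) - t * I)) - 1 / (s - ((ρ : ℂ) - t * I) + 1)) =
      F₀ z / s ^ m - ∑' ρ : high T0, f ρ := rfl
  rw [hgoal2, hgoal]
  -- first part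
  have hub : (1 + |u|) ^ (b + η) * (1 + |s.im|) ^ (-(m : ℝ)) ≤
      (1 + |t|) ^ (b + η) * (1 + |s.im|) ^ (-1 - δ) := by
    calc (1 + |u|) ^ (b + η) * (1 + |s.im|) ^ (-(m : ℝ))
        ≤ ((1 + |t|) * (1 + |s.im|)) ^ (b + η) * (1 + |s.im|) ^ (-(m : ℝ)) := by gcongr
      _ = (1 + |t|) ^ (b + η) * (1 + |s.im|) ^ (b + η - m) := by
          rw [Real.mul_rpow ht0.le hτ0.le, mul_assoc, ← Real.rpow_add hτ0]
          congr 2
      _ ≤ (1 + |t|) ^ (b + η) * (1 + |s.im|) ^ (-1 - δ) := by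
          have : b + η - m ≤ -1 - δ := by
            have := min_le_left (κ - b - η) δ2
            rw [hmR]
            linarith
          gcongr
  have hT1 : ‖(F₀ z - ∑ ρ ∈ N, R ρ / (z - ρ)) / s ^ m‖ ≤
      C1 * 3 ^ m * ((1 + |t|) ^ (b + η) * (1 + |s.im|) ^ (-1 - δ)) := by
    rw [norm_div, norm_pow, div_eq_mul_one_div]
    have c1 : ‖F₀ z - ∑ ρ ∈ N, R ρ / (z - ρ)‖ ≤ C1 * (1 + |u|) ^ (b + η) := by
      refine hN3.trans ?_
      have : (1 + |u|) ^ b ≤ (1 + |u|) ^ (b + η) :=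
        Real.rpow_le_rpow_of_exponent_le hu1 (by linarith)
      gcongr
    calc ‖F₀ z - ∑ ρ ∈ N, R ρ / (z - ρ)‖ * (1 / ‖s‖ ^ m)
        ≤ (C1 * (1 + |u|) ^ (b + η)) * (3 ^ m * (1 + |s.im|) ^ (-(m : ℝ))) := by gcongr
      _ = C1 * 3 ^ m * ((1 + |u|) ^ (b + η) * (1 + |s.im|) ^ (-(m : ℝ))) := by ring
      _ ≤ _ := by gcongr
  -- second part
  have hcard : (N.card : ℝ) ≤ D2 * (1 + |u|) ^ η := by
    obtain ⟨hfin, hcnt⟩ := hC2 u
    have h6 : N.card ≤ {ρ | ρ ∈ NZ ∧ |ρ.im - u| ≤ 2}.ncard := by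
      rw [← Set.ncard_coe_finset]
      apply Set.ncard_le_ncard _ hfin
      intro ρ hρ
      exact ⟨(hN1 ρ hρ).1.1, (hN1 ρ hρ).2⟩
    calc (N.card : ℝ) ≤ (({ρ | ρ ∈ NZ ∧ |ρ.im - u| ≤ 2}.ncard : ℕ) : ℝ) := by exact_mod_cast h6
      _ ≤ C2 * (1 + |u|) ^ η := hcnt
      _ ≤ _ := by gcongr
  have hterm : ∀ ρ ∈ N, ‖R ρ / (z - ρ) / s ^ m - f ρ‖ ≤
      C1 * 3 ^ b * (1 + |u|) ^ b * (C3 * (3 ^ m * (1 + |s.im|) ^ (-(m : ℝ)))) := by
    intro ρ hρ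
    obtain ⟨hρh, hρu⟩ := hN1 ρ hρ
    have hγu : |ρ.im - u| ≤ 2 := hρu
    have hv0 := hvre ρ hρh
    have hvn : ‖z - ρ‖ ≤ 2.5 := by
      have a1 : |(z - ρ).re| ≤ 1.5 := by
        rw [abs_of_pos hv0, sub_re, hzre, hline ρ hρh]
        linarith
      have a2 : |(z - ρ).im| ≤ 2 := by
        rw [sub_im, abs_sub_comm]
        exact hγu
      have a3 : ‖z - ρ‖ ^ 2 ≤ 2.5 ^ 2 := by
        rw [← normSq_eq_norm_sq, normSq_apply]
        have a4 : (z - ρ).re * (z - ρ).re ≤ 1.5 ^ 2 := by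
          rw [← pow_two, ← sq_abs]
          gcongr
        have a5 : (z - ρ).im * (z - ρ).im ≤ 2 ^ 2 := by
          rw [← pow_two, ← sq_abs]
          gcongr
        norm_num at a4 a5 ⊢
        linarith
      exact le_of_sq_le_sq a3 (by norm_num)
    set w : ℂ := ρ - t * I with hw
    have hw2 : 1 / 2 ≤ ‖w‖ := (hw12 ρ hρh).trans ((le_abs_self _).trans (abs_re_le_norm w))
    have hsw' : s - w = z - ρ := hsw ρ
    have hne : s ≠ w := by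
      intro h0
      have : z - ρ = 0 := by rw [← hsw', h0, sub_self]
      rw [this] at hv0
      simp at hv0
    have hK : ‖s‖ ≤ 6 * ‖w‖ := by
      have : s = w + (z - ρ) := by rw [← hsw']; ring
      calc ‖s‖ = ‖w + (z - ρ)‖ := by rw [← this]
        _ ≤ ‖w‖ + ‖z - ρ‖ := norm_add_le _ _
        _ ≤ 6 * ‖w‖ := by
          norm_num at hvn
          linarith
    have hv1 : 1 ≤ ‖s - w + 1‖ := by
      rw [hsw']
      have : (1 : ℝ) ≤ (z - ρ + 1).re := by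
        rw [add_re, one_re]
        linarith
      exact this.trans ((le_abs_self _).trans (abs_re_le_norm _))
    have hbr := gz_bracket m s w hne hK hsn hw2 hv1
    have e1 : R ρ / (z - ρ) / s ^ m - f ρ =
        R ρ * (1 / (s - w) / s ^ m - 1 / w ^ m * (1 / (s - w) - 1 / (s - w + 1))) := by
      rw [← hsw', hf]
      ring
    have hγ : 1 + |ρ.im| ≤ 3 * (1 + |u|) := by
      have := one_add_abs_le ρ.im u
      nlinarith
    have c1 : ‖R ρ‖ ≤ C1 * 3 ^ b * (1 + |u|) ^ b := by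
      calc ‖R ρ‖ ≤ C0 * (1 + |ρ.im|) ^ b := hR ρ hρh
        _ ≤ C1 * (3 * (1 + |u|)) ^ b := by gcongr
        _ = C1 * 3 ^ b * (1 + |u|) ^ b := by
            rw [Real.mul_rpow (by norm_num) hu0.le]
            ring
    rw [e1, norm_mul]
    gcongr
    refine hbr.trans ?_
    gcongr
  have hT2 : ‖∑ ρ ∈ N, (R ρ / (z - ρ) / s ^ m - f ρ)‖ ≤
      D2 * (C1 * 3 ^ b * C3 * 3 ^ m) * ((1 + |t|) ^ (b + η) * (1 + |s.im|) ^ (-1 - δ)) := by
    calc ‖∑ ρ ∈ N, (R ρ / (z - ρ) / s ^ m - f ρ)‖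
        ≤ ∑ ρ ∈ N, ‖R ρ / (z - ρ) / s ^ m - f ρ‖ := norm_sum_le _ _
      _ ≤ ∑ _ρ ∈ N, C1 * 3 ^ b * (1 + |u|) ^ b * (C3 * (3 ^ m * (1 + |s.im|) ^ (-(m : ℝ)))) :=
          Finset.sum_le_sum hterm
      _ = N.card * (C1 * 3 ^ b * (1 + |u|) ^ b *
            (C3 * (3 ^ m * (1 + |s.im|) ^ (-(m : ℝ))))) := by
          rw [Finset.sum_const, nsmul_eq_mul]
      _ ≤ (D2 * (1 + |u|) ^ η) * (C1 * 3 ^ b * (1 + |u|) ^ b *
            (C3 * (3 ^ m * (1 + |s.im|) ^ (-(m : ℝ))))) := by gcongr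
      _ = D2 * (C1 * 3 ^ b * C3 * 3 ^ m) * ((1 + |u|) ^ (b + η) *
            (1 + |s.im|) ^ (-(m : ℝ))) := by
          rw [Real.rpow_add hu0]
          ring
      _ ≤ _ := by gcongr
  have hT3 : ‖∑' ρ, G ρ‖ ≤ 9 * 3 ^ m * C1 * D4 *
      ((1 + |t|) ^ (b + η) * (1 + |s.im|) ^ (-1 - δ)) := by
    refine hGle.trans ?_
    have : (1 + |s.im|) ^ (-1 - δ2) ≤ (1 + |s.im|) ^ (-1 - δ) := by
      apply Real.rpow_le_rpow_of_exponent_le hτ1
      have := min_le_right (κ - b - η) δ2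
      linarith
    calc 9 * 3 ^ m * C1 * (D4 * (1 + |t|) ^ (b + η) * (1 + |s.im|) ^ (-1 - δ2))
        ≤ 9 * 3 ^ m * C1 * (D4 * (1 + |t|) ^ (b + η) * (1 + |s.im|) ^ (-1 - δ)) := by gcongr
      _ = _ := by ring
  calc ‖(F₀ z - ∑ ρ ∈ N, R ρ / (z - ρ)) / s ^ m +
        ∑ ρ ∈ N, (R ρ / (z - ρ) / s ^ m - f ρ) - ∑' ρ, G ρ‖
      ≤ ‖(F₀ z - ∑ ρ ∈ N, R ρ / (z - ρ)) / s ^ m‖ +
        ‖∑ ρ ∈ N, (R ρ / (z - ρ) / s ^ m - f ρ)‖ + ‖∑' ρ, G ρ‖ := by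
        refine (norm_sub_le _ _).trans ?_
        gcongr
        exact norm_add_le _ _
    _ ≤ C1 * 3 ^ m * ((1 + |t|) ^ (b + η) * (1 + |s.im|) ^ (-1 - δ)) +
        D2 * (C1 * 3 ^ b * C3 * 3 ^ m) * ((1 + |t|) ^ (b + η) * (1 + |s.im|) ^ (-1 - δ)) +
        9 * 3 ^ m * C1 * D4 * ((1 + |t|) ^ (b + η) * (1 + |s.im|) ^ (-1 - δ)) := by
        gcongr
    _ = _ := by ring

end Pool.Agent.SELB
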