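import Pool.Agent.Lib.SELB.Props
import Pool.Agent.Lib.MP_af3d17_nt_h98.Near

/-!
# MP_af3d17_nt, Selberg's formula: row HI1
-/

set_option autoImplicit false

namespace Pool.Agent.SELB

open Complex Filter Topology MeasureTheory Set

open Pool.Agent.ZP Metric in
theorem HI1_all : P_HI1 := by
  intro T0 b hb hRH
  obtain ⟨C, T1, hC, hT1, hloc⟩ := local_zeta
  refine ⟨2 * C / b, max T1 (|T0| + 20), by positivity, ?_⟩
  intro z hz1 hz2 hzt
  set t := z.im with ht
  have htT1 : T1 ≤ t := (le_max_left _ _).trans hzt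
  have htT0 : |T0| + 20 ≤ t := (le_max_right _ _).trans hzt
  have hT0 : T0 + 20 ≤ t := by linarith [le_abs_self T0]
  have ht20 : 20 ≤ t := by linarith [abs_nonneg T0]
  obtain ⟨k, y, g, hk, hy, hg, hf, hg0, hG⟩ := hloc t htT1
  set c := pt 10 t with hc
  -- the zeros are high
  have hyh : ∀ i, y i ∈ high T0 := by
    intro i
    obtain ⟨hyi, hyi0⟩ := hy i
    obtain ⟨h1, h2, h3, h4⟩ := mem_disc hyi
    refine ⟨⟨hyi0, by linarith, ?_⟩, ?_⟩
    · by_contra hge
      push Not at hge
      exact riemannZeta_ne_zero_of_one_le_re hge hyi0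
    · rw [abs_of_pos (by linarith)]
      linarith
  have hinj : ∀ i j, i ≠ j → y i ≠ y j := by
    intro i j hij h
    have h1 := (hRH (y i) (hyh i)).2
    apply h1
    have hyi := (hy i).1
    have hsb : y i ∈ ball c (98 / 10) := by
      rw [mem_ball]; rw [mem_closedBall] at hyi; linarith
    have hev : riemannZeta =ᶠ[𝓝 (y i)] fun w => (w - y i) * ((w - y i) *
        ((∏ l ∈ (Finset.univ.erase i).erase j, (w - y l)) * g w)) := by
      filter_upwards [isOpen_ball.mem_nhds hsb] with w hw
      rw [hf w (ball_subset_closedBall hw), ← Finset.mul_prod_erase Finset.univ _ (Finset.mem_univ i),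
        ← Finset.mul_prod_erase (Finset.univ.erase i) _
          (Finset.mem_erase.2 ⟨hij.symm, Finset.mem_univ j⟩), ← h]
      ring
    rw [hev.deriv_eq]
    have hga : DifferentiableAt ℂ g (y i) :=
      (hg _ (closedBall_subset_closedBall (by norm_num) hyi)).differentiableAt
    have hh : DifferentiableAt ℂ (fun w => (∏ l ∈ (Finset.univ.erase i).erase j, (w - y l)) * g w)
        (y i) := by fun_prop
    exact A.deriv_double _ _ hh
  -- `z` is not a zero
  have hz0 : riemannZeta z ≠ 0 := by
    intro h0
    have h1 : z ∈ high T0 := by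
      refine ⟨⟨h0, by linarith, ?_⟩, ?_⟩
      · by_contra hge
        push Not at hge
        exact riemannZeta_ne_zero_of_one_le_re hge h0
      · rw [abs_of_pos (by linarith)]
        linarith
    have := (hRH z h1).1
    linarith
  have hzc : z ∈ closedBall c (95 / 10) := by
    rw [mem_closedBall, Complex.dist_eq]
    have e : z - c = ((z.re - 10 : ℝ) : ℂ) := by
      apply Complex.ext
      · simp [hc]
      · simp [hc, ht]
    rw [e, Complex.norm_real, Real.norm_eq_abs, abs_le]
    constructor <;> linarith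
  have hld := A.logDeriv_fact hg hf (closedBall_subset_closedBall (by norm_num) hzc) hz0
  have hGz := hG z (closedBall_subset_closedBall (by norm_num) hzc)
  classical
  set I : Finset (Fin k) := Finset.univ.filter fun i => |(y i).im - t| ≤ 2 with hI
  refine ⟨I.image y, ⟨?_, ?_⟩, ?_⟩
  · intro ρ hρ
    obtain ⟨i, hi, rfl⟩ := Finset.mem_image.1 hρ
    exact ⟨hyh i, (Finset.mem_filter.1 hi).2⟩
  · intro ρ hρ hρt
    have hre := (hRH ρ hρ).1
    have hρc : ρ ∈ closedBall c (97 / 10) := by
      have e : ρ = pt (1 / 2) ρ.im := by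
        apply Complex.ext
        · simp [hre]
        · simp
      rw [e]
      refine pt_mem_disc (by norm_num) ?_
      have h1 : (ρ.im - t) ^ 2 ≤ (1 / 2) ^ 2 := by
        rw [← sq_abs]
        exact pow_le_pow_left₀ (abs_nonneg _) hρt 2
      nlinarith
    have h2 := hf ρ (closedBall_subset_closedBall (by norm_num) hρc)
    rw [hρ.1.1] at h2
    have h3 : ∏ i, (ρ - y i) = 0 := by
      rcases mul_eq_zero.1 h2.symm with h | h
      · exact h
      · exact absurd h (hg0 ρ hρc)
    obtain ⟨i, -, hi⟩ := Finset.prod_eq_zero_iff.1 h3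
    have h4 : ρ = y i := sub_eq_zero.1 hi
    refine Finset.mem_image.2 ⟨i, Finset.mem_filter.2 ⟨Finset.mem_univ _, ?_⟩, h4.symm⟩
    rw [← h4]
    linarith
  · rw [Finset.sum_image (fun i _ j _ h => by
      by_contra hij
      exact hinj i j hij h)]
    have e1 : F1 z - ∑ i ∈ I, res1 (y i) / (z - y i) =
        -(∑ i ∈ Finset.univ \ I, 1 / (z - y i)) - logDeriv g z := by
      have e2 : F1 z = -(∑ i, 1 / (z - y i) + logDeriv g z) := by
        rw [← hld]
        rfl
      have e3 : ∑ i, 1 / (z - y i) = ∑ i ∈ Finset.univ \ I, 1 / (z - y i) +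
          ∑ i ∈ I, 1 / (z - y i) := (Finset.sum_sdiff (Finset.subset_univ I)).symm
      have e4 : ∑ i ∈ I, res1 (y i) / (z - y i) = -∑ i ∈ I, 1 / (z - y i) := by
        rw [← Finset.sum_neg_distrib]
        refine Finset.sum_congr rfl fun i _ => ?_
        rw [res1, neg_div]
      rw [e2, e3, e4]
      ring
    rw [e1]
    have h1 : ‖∑ i ∈ Finset.univ \ I, 1 / (z - y i)‖ ≤ k := by
      calc ‖∑ i ∈ Finset.univ \ I, 1 / (z - y i)‖ ≤ ∑ i ∈ Finset.univ \ I, ‖1 / (z - y i)‖ :=
            norm_sum_le _ _
        _ ≤ ∑ i ∈ Finset.univ \ I, (1 : ℝ) := by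
            refine Finset.sum_le_sum fun i hi => ?_
            have hi2 : 2 < |(y i).im - t| := by
              by_contra hc
              push Not at hc
              exact (Finset.mem_sdiff.1 hi).2 (Finset.mem_filter.2 ⟨Finset.mem_univ _, hc⟩)
            have h5 := Complex.abs_im_le_norm (z - y i)
            rw [Complex.sub_im, ← ht, abs_sub_comm] at h5
            rw [norm_div, norm_one, div_le_one (by linarith)]
            linarith
        _ = ((Finset.univ \ I).card : ℝ) := by simp
        _ ≤ k := by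
            have := Finset.card_le_card (Finset.sdiff_subset (s := (Finset.univ : Finset (Fin k)))
              (t := I))
            rw [Finset.card_univ, Fintype.card_fin] at this
            exact_mod_cast this
    have h2 : ‖-(∑ i ∈ Finset.univ \ I, 1 / (z - y i)) - logDeriv g z‖ ≤ 2 * C * Real.log t := by
      refine (norm_sub_le _ _).trans ?_
      rw [norm_neg]
      linarith
    have h3 : Real.log t ≤ (1 + |t|) ^ b / b := by
      have h4 := Real.log_le_rpow_div (x := t) (by linarith) hb
      have h5 : t ^ b ≤ (1 + |t|) ^ b := by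
        rw [abs_of_pos (by linarith)]
        exact Real.rpow_le_rpow (by linarith) (by linarith) hb.le
      exact h4.trans (div_le_div_of_nonneg_right h5 hb.le)
    calc ‖-(∑ i ∈ Finset.univ \ I, 1 / (z - y i)) - logDeriv g z‖ ≤ 2 * C * Real.log t := h2
      _ ≤ 2 * C * ((1 + |t|) ^ b / b) := by gcongr
      _ = 2 * C / b * (1 + |t|) ^ b := by ring

end Pool.Agent.SELB
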