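import Pool.Agent.Lib.SELB.Props
import Pool.Agent.Lib.MP_af3d17_nt_h98.Near

/-!
# MP_af3d17_nt, Selberg's formula: rows RB2 and HI2
-/

set_option autoImplicit false

namespace Pool.Agent.SELB

open Filter Topology Metric Pool.Agent.ZP

namespace HI2

/-- membership in a disc about `pt 10 t` -/
theorem mem_iff {t r : ℝ} (hr : 0 ≤ r) {s : ℂ} :
    s ∈ closedBall (pt 10 t) r ↔ (s.re - 10) ^ 2 + (s.im - t) ^ 2 ≤ r ^ 2 := by
  rw [mem_closedBall, dist_eq_norm]
  have h1 : ‖s - pt 10 t‖ ^ 2 = (s.re - 10) ^ 2 + (s.im - t) ^ 2 := by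
    rw [← Complex.normSq_eq_norm_sq, Complex.normSq_apply]
    simp only [Complex.sub_re, pt_re, Complex.sub_im, pt_im]
    ring
  rw [← h1]
  exact (pow_le_pow_iff_left₀ (norm_nonneg _) hr two_ne_zero).symm

theorem two_of_fac {f G : ℂ → ℂ} {a : ℂ} (hG : AnalyticAt ℂ G a)
    (hf : f =ᶠ[𝓝 a] fun s => (s - a) * G s) :
    deriv f a = G a ∧ deriv (deriv f) a = 2 * deriv G a := by
  have h1 : deriv f =ᶠ[𝓝 a] fun s => G s + (s - a) * deriv G s := by
    filter_upwards [hf.eventuallyEq_nhds, hG.eventually_analyticAt] with s hs hGs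
    rw [hs.deriv_eq]
    have h2 : HasDerivAt (fun w : ℂ => w - a) 1 s := (hasDerivAt_id s).sub_const a
    have h3 := h2.fun_mul hGs.differentiableAt.hasDerivAt
    rw [h3.deriv]
    ring
  refine ⟨by rw [h1.eq_of_nhds]; simp, ?_⟩
  rw [h1.deriv_eq]
  have h2 : HasDerivAt (fun w : ℂ => w - a) 1 a := (hasDerivAt_id a).sub_const a
  have h3 := hG.differentiableAt.hasDerivAt.fun_add (h2.fun_mul hG.deriv.differentiableAt.hasDerivAt)
  rw [h3.deriv]
  ring

theorem second {f : ℂ → ℂ} {a : ℂ} (hf : AnalyticAt ℂ f a) (h0 : f a ≠ 0) :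
    deriv (deriv f) a / f a = deriv (logDeriv f) a + logDeriv f a ^ 2 := by
  have h1 : logDeriv f = fun s => deriv f s / f s := by
    funext s
    exact logDeriv_apply f s
  have h2 := hf.deriv.differentiableAt.hasDerivAt.fun_div hf.differentiableAt.hasDerivAt h0
  rw [h1, h2.deriv]
  field_simp
  ring

/-- the double sum -/
theorem dbl {k : ℕ} (z : Fin k → ℂ) (hz : Function.Injective z) (w : ℂ) (hw : ∀ i, w - z i ≠ 0) :
    (∑ i, 1 / (w - z i)) ^ 2 - ∑ i, (1 / (w - z i)) ^ 2 =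
      ∑ i, (1 / (w - z i)) * (2 * ∑ j, 1 / (z i - z j)) := by
  have key : ∀ i j, (1 / (w - z i)) * (1 / (w - z j)) - (if i = j then (1 / (w - z i)) ^ 2 else 0) =
      (1 / (w - z i)) * (1 / (z i - z j)) - (1 / (w - z j)) * (1 / (z i - z j)) := by
    intro i j
    by_cases h : i = j
    · subst h
      rw [if_pos rfl, sub_self (z i), div_zero, mul_zero, sub_zero, sq, sub_self]
    · have h1 : z i - z j ≠ 0 := sub_ne_zero.2 fun h2 => h (hz h2)
      have h2 := hw i
      have h3 := hw j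
      rw [if_neg h]
      field_simp
      ring
  have e1 : (∑ i, 1 / (w - z i)) ^ 2 - ∑ i, (1 / (w - z i)) ^ 2 =
      ∑ i, ∑ j, ((1 / (w - z i)) * (1 / (w - z j)) -
        (if i = j then (1 / (w - z i)) ^ 2 else 0)) := by
    simp only [Finset.sum_sub_distrib]
    congr 1
    · rw [sq, Finset.sum_mul_sum]
    · refine Finset.sum_congr rfl fun i _ => ?_
      simp
  have e2 : ∑ i, ∑ j, (1 / (w - z j)) * (1 / (z i - z j)) =
      - ∑ i, ∑ j, (1 / (w - z i)) * (1 / (z i - z j)) := by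
    rw [Finset.sum_comm, ← Finset.sum_neg_distrib]
    refine Finset.sum_congr rfl fun i _ => ?_
    rw [← Finset.sum_neg_distrib]
    refine Finset.sum_congr rfl fun j _ => ?_
    rw [← neg_sub (z i) (z j), div_neg]
    ring
  rw [e1]
  simp only [key, Finset.sum_sub_distrib]
  rw [e2, sub_neg_eq_add, ← Finset.sum_add_distrib]
  refine Finset.sum_congr rfl fun i _ => ?_
  rw [← Finset.mul_sum]
  ring

/-- local data at the height `t` -/
structure Loc (T0 H t : ℝ) {k : ℕ} (z : Fin k → ℂ) (g : ℂ → ℂ) : Prop where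
  card : (k : ℝ) ≤ H
  mem : ∀ i, z i ∈ closedBall (pt 10 t) (97 / 10)
  zero : ∀ i, riemannZeta (z i) = 0
  an : AnalyticOnNhd ℂ g (closedBall (pt 10 t) (98 / 10))
  fac : ∀ s ∈ closedBall (pt 10 t) (98 / 10), riemannZeta s = (∏ i, (s - z i)) * g s
  ne : ∀ s ∈ closedBall (pt 10 t) (97 / 10), g s ≠ 0
  bd : ∀ s ∈ closedBall (pt 10 t) (96 / 10), ‖logDeriv g s‖ ≤ H
  big : |T0| + 20 ≤ t
  rh : RHs T0

section loc

variable {T0 H t : ℝ} {k : ℕ} {z : Fin k → ℂ} {g : ℂ → ℂ}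

theorem Loc.high (L : Loc T0 H t z g) (i : Fin k) : z i ∈ high T0 := by
  obtain ⟨h1, h2, h3, h4⟩ := mem_disc (L.mem i)
  have hb := L.big
  have h0 := abs_nonneg T0
  refine ⟨⟨L.zero i, by linarith, ?_⟩, ?_⟩
  · by_contra h
    exact riemannZeta_ne_zero_of_one_le_re (not_lt.1 h) (L.zero i)
  · have h5 : T0 ≤ |T0| := le_abs_self T0
    have h6 : (z i).im ≤ |(z i).im| := le_abs_self _
    linarith

theorem Loc.re (L : Loc T0 H t z g) (i : Fin k) : (z i).re = 1 / 2 := (L.rh _ (L.high i)).1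

theorem Loc.im (L : Loc T0 H t z g) (i : Fin k) : |(z i).im - t| ≤ 2 := by
  have h1 := (mem_iff (by norm_num)).1 (L.mem i)
  rw [L.re i] at h1
  refine abs_le_of_sq_le_sq ?_ (by norm_num)
  nlinarith

theorem Loc.mball (L : Loc T0 H t z g) (i : Fin k) : z i ∈ ball (pt 10 t) (98 / 10) := by
  have := L.mem i
  rw [mem_closedBall] at this
  rw [mem_ball]
  linarith

theorem Loc.ev (L : Loc T0 H t z g) {w : ℂ} (hw : w ∈ ball (pt 10 t) (98 / 10)) :
    riemannZeta =ᶠ[𝓝 w] fun s => (∏ i, (s - z i)) * g s := by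
  filter_upwards [isOpen_ball.mem_nhds hw] with s hs
  exact L.fac s (ball_subset_closedBall hs)

/-- the cofactor -/
noncomputable def cof (z : Fin k → ℂ) (g : ℂ → ℂ) (i : Fin k) (s : ℂ) : ℂ :=
  (∏ j ∈ Finset.univ.erase i, (s - z j)) * g s

theorem Loc.cof_an (L : Loc T0 H t z g) (i : Fin k) : AnalyticAt ℂ (cof z g i) (z i) := by
  have h1 : AnalyticAt ℂ g (z i) := L.an _ (ball_subset_closedBall (L.mball i))
  have h2 : AnalyticAt ℂ (fun s => ∏ j ∈ Finset.univ.erase i, (s - z j)) (z i) := by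
    refine Finset.analyticAt_fun_prod _ fun j _ => ?_
    fun_prop
  exact h2.mul h1

theorem Loc.ev_cof (L : Loc T0 H t z g) (i : Fin k) :
    riemannZeta =ᶠ[𝓝 (z i)] fun s => (s - z i) * cof z g i s := by
  filter_upwards [L.ev (L.mball i)] with s hs
  rw [hs, cof, ← Finset.mul_prod_erase Finset.univ (fun j => s - z j) (Finset.mem_univ i)]
  ring

theorem Loc.cof_ne (L : Loc T0 H t z g) (i : Fin k) : cof z g i (z i) ≠ 0 := by
  have h1 := (two_of_fac (L.cof_an i) (L.ev_cof i)).1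
  rw [← h1]
  exact (L.rh _ (L.high i)).2

theorem Loc.inj (L : Loc T0 H t z g) : Function.Injective z := by
  intro i j h
  by_contra hij
  refine L.cof_ne i ?_
  rw [cof, Finset.prod_eq_zero (i := j)
    (Finset.mem_erase.2 ⟨fun h1 => hij h1.symm, Finset.mem_univ j⟩) (by rw [h, sub_self]), zero_mul]

/-- the coefficient `r_i` -/
noncomputable def rr (z : Fin k → ℂ) (i : Fin k) : ℂ := 2 * ∑ j, 1 / (z i - z j)

theorem Loc.res (L : Loc T0 H t z g) (i : Fin k) :
    res2 (z i) = rr z i + 2 * logDeriv g (z i) := by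
  obtain ⟨h1, h2⟩ := two_of_fac (L.cof_an i) (L.ev_cof i)
  have hc := L.cof_ne i
  have e0 : res2 (z i) = 2 * logDeriv (cof z g i) (z i) := by
    rw [res2, h1, h2, logDeriv_apply]
    ring
  have hp : ∏ j ∈ Finset.univ.erase i, (z i - z j) ≠ 0 := left_ne_zero_of_mul hc
  have hg : g (z i) ≠ 0 := right_ne_zero_of_mul hc
  have e1 : logDeriv (cof z g i) (z i) =
      ∑ j ∈ Finset.univ.erase i, 1 / (z i - z j) + logDeriv g (z i) := by
    have e2 : cof z g i = fun s => (∏ j ∈ Finset.univ.erase i, (s - z j)) * g s := rfl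
    rw [e2, logDeriv_mul (z i) hp hg (by fun_prop)
      (L.an _ (ball_subset_closedBall (L.mball i))).differentiableAt]
    congr 1
    rw [logDeriv_prod (Finset.prod_ne_zero_iff.1 hp) (fun j _ => by fun_prop)]
    refine Finset.sum_congr rfl fun j _ => ?_
    rw [logDeriv_apply]
    simp
  have e3 : ∑ j, 1 / (z i - z j) = ∑ j ∈ Finset.univ.erase i, 1 / (z i - z j) := by
    rw [← Finset.add_sum_erase Finset.univ (fun j => 1 / (z i - z j)) (Finset.mem_univ i)]
    simp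
  rw [e0, e1, rr, e3]
  ring

theorem Loc.cover (L : Loc T0 H t z g) {ρ : ℂ} (hρ : ρ ∈ SELB.high T0) (h : |ρ.im - t| ≤ 1 / 2) :
    ∃ i, z i = ρ := by
  have hre := (L.rh ρ hρ).1
  have h1 : ρ ∈ closedBall (pt 10 t) (97 / 10) := by
    rw [mem_iff (by norm_num), hre]
    have := sq_le_sq' (abs_le.1 h).1 (abs_le.1 h).2
    nlinarith
  have h2 := L.fac ρ (closedBall_subset_closedBall (by norm_num) h1)
  rw [hρ.1.1] at h2
  rcases mul_eq_zero.1 h2.symm with h3 | h3
  · obtain ⟨i, _, hi⟩ := Finset.prod_eq_zero_iff.1 h3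
    exact ⟨i, (sub_eq_zero.1 hi).symm⟩
  · exact absurd h3 (L.ne ρ h1)

/-- points to the right of the line at the height `t` -/
theorem mem_right {w : ℂ} (h1 : 1 / 2 < w.re) (h2 : w.re ≤ 2) (h3 : w.im = t) :
    w ∈ closedBall (pt 10 t) (95 / 10) := by
  rw [mem_iff (by norm_num), h3]
  nlinarith

theorem Loc.nz (L : Loc T0 H t z g) {w : ℂ} (h1 : 1 / 2 < w.re) (h3 : w.im = t) :
    riemannZeta w ≠ 0 := by
  intro h
  have hlt : w.re < 1 := by
    by_contra h4
    exact riemannZeta_ne_zero_of_one_le_re (not_lt.1 h4) h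
  have hb := L.big
  have h0 := abs_nonneg T0
  have h5 : T0 ≤ |T0| := le_abs_self T0
  have h6 : w.im ≤ |w.im| := le_abs_self _
  have h7 := (L.rh w ⟨⟨h, by linarith, hlt⟩, by linarith⟩).1
  linarith

theorem Loc.F2_eq (L : Loc T0 H t z g) {w : ℂ} (h1 : 1 / 2 < w.re) (h2 : w.re ≤ 2)
    (h3 : w.im = t) : F2 w = ∑ i, (1 / (w - z i)) * rr z i + 2 * logDeriv g w * ∑ i, 1 / (w - z i) +
      logDeriv g w ^ 2 + deriv (logDeriv g) w := by
  have hm := mem_right h1 h2 h3
  have hz := L.nz h1 h3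
  have hd : ∀ i, w - z i ≠ 0 := by
    intro i h
    have h4 : w.re = (z i).re := by rw [sub_eq_zero.1 h]
    rw [L.re i] at h4
    linarith
  have him : 0 < w.im := by
    have hb := L.big
    have h0 := abs_nonneg T0
    rw [h3]
    linarith
  have hza := zeta_analyticAt him
  have hg8 : AnalyticAt ℂ g w := L.an w (closedBall_subset_closedBall (by norm_num) hm)
  have hg0 : g w ≠ 0 := L.ne w (closedBall_subset_closedBall (by norm_num) hm)
  have hgl : AnalyticAt ℂ (logDeriv g) w := hg8.deriv.div hg8 hg0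
  have hwb : w ∈ ball (pt 10 t) (97 / 10) := by
    rw [mem_closedBall] at hm
    rw [mem_ball]
    linarith
  have hev : logDeriv riemannZeta =ᶠ[𝓝 w] fun s => ∑ i, 1 / (s - z i) + logDeriv g s := by
    filter_upwards [isOpen_ball.mem_nhds hwb, hza.continuousAt.eventually_ne hz] with s hs hs0
    exact A.logDeriv_fact L.an L.fac (ball_subset_closedBall hs) hs0
  have hder : deriv (logDeriv riemannZeta) w =
      -∑ i, (1 / (w - z i)) ^ 2 + deriv (logDeriv g) w := by
    rw [hev.deriv_eq]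
    have hi : ∀ i ∈ (Finset.univ : Finset (Fin k)),
        HasDerivAt (fun s : ℂ => 1 / (s - z i)) (-(1 / (w - z i)) ^ 2) w := by
      intro i _
      have e1 : HasDerivAt (fun s : ℂ => s - z i) 1 w := (hasDerivAt_id w).sub_const (z i)
      have e2 := e1.fun_inv (hd i)
      have e3 : (fun s : ℂ => 1 / (s - z i)) = fun s => (s - z i)⁻¹ := by
        funext s
        rw [one_div]
      rw [e3]
      refine e2.congr_deriv ?_
      rw [one_div, inv_pow, neg_div, one_div]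
    have h4 := (HasDerivAt.fun_sum hi).fun_add hgl.differentiableAt.hasDerivAt
    rw [h4.deriv, Finset.sum_neg_distrib]
  have h5 := second hza hz
  rw [F2, h5, hder, hev.eq_of_nhds]
  have h6 := dbl z L.inj w hd
  have h7 : ∑ i, (1 / (w - z i)) * rr z i = (∑ i, 1 / (w - z i)) ^ 2 - ∑ i, (1 / (w - z i)) ^ 2 := by
    rw [h6]
    rfl
  rw [h7]
  ring

/-- the bound for the coefficients -/
theorem Loc.rr_le (L : Loc T0 H t z g) {b0 c : ℝ} (hb0 : 0 ≤ b0) (hc : 0 < c)
    (hs : ∀ ρ ∈ SELB.high T0, ∀ ρ' ∈ SELB.high T0, ρ ≠ ρ' →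
      c * (1 + |ρ.im|) ^ (-b0) ≤ |ρ.im - ρ'.im|) (i : Fin k) :
    ‖rr z i‖ ≤ 2 * H * ((3 ^ b0 / c) * (1 + t) ^ b0) := by
  have hb := L.big
  have h0 := abs_nonneg T0
  have ht : 20 ≤ t := by linarith
  have hH : 0 ≤ H := le_trans (Nat.cast_nonneg k) L.card
  have h1 : ∀ j, ‖1 / (z i - z j)‖ ≤ (3 ^ b0 / c) * (1 + t) ^ b0 := by
    intro j
    by_cases hij : i = j
    · subst hij
      rw [sub_self, div_zero, norm_zero]
      positivity
    · have hne : z i ≠ z j := fun h => hij (L.inj h)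
      have h2 := hs _ (L.high i) _ (L.high j) hne
      have h3 : |(z i).im - (z j).im| ≤ ‖z i - z j‖ := by
        rw [← Complex.sub_im]
        exact Complex.abs_im_le_norm _
      have h4 : 0 < c * (1 + |(z i).im|) ^ (-b0) := by positivity
      have h5 : |(z i).im| ≤ t + 2 := by
        have := L.im i
        rw [abs_le] at this ⊢
        constructor <;> linarith
      rw [norm_div, norm_one, one_div]
      refine (inv_anti₀ h4 (h2.trans h3)).trans ?_
      rw [mul_inv, Real.rpow_neg (by positivity), inv_inv]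
      have h6 : (1 + |(z i).im|) ^ b0 ≤ (3 * (1 + t)) ^ b0 :=
        Real.rpow_le_rpow (by positivity) (by linarith) hb0
      rw [Real.mul_rpow (by norm_num) (by linarith)] at h6
      calc c⁻¹ * (1 + |(z i).im|) ^ b0 ≤ c⁻¹ * (3 ^ b0 * (1 + t) ^ b0) := by gcongr
        _ = (3 ^ b0 / c) * (1 + t) ^ b0 := by ring
  rw [rr, norm_mul]
  have h7 : ‖∑ j, 1 / (z i - z j)‖ ≤ k * ((3 ^ b0 / c) * (1 + t) ^ b0) := by
    refine (norm_sum_le _ _).trans ?_
    refine (Finset.sum_le_card_nsmul _ _ _ fun j _ => h1 j).trans ?_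
    rw [Finset.card_univ, Fintype.card_fin, nsmul_eq_mul]
  have h8 : ‖(2 : ℂ)‖ = 2 := by norm_num
  rw [h8]
  have h9 : 0 ≤ (3 ^ b0 / c) * (1 + t) ^ b0 := by
    have : 0 ≤ 1 + t := by linarith
    positivity
  calc 2 * ‖∑ j, 1 / (z i - z j)‖ ≤ 2 * (k * ((3 ^ b0 / c) * (1 + t) ^ b0)) := by gcongr
    _ ≤ 2 * (H * ((3 ^ b0 / c) * (1 + t) ^ b0)) := by
      gcongr
      exact L.card
    _ = 2 * H * ((3 ^ b0 / c) * (1 + t) ^ b0) := by ring

theorem Loc.expand (L : Loc T0 H t z g) {b0 c : ℝ} (hb0 : 0 ≤ b0) (hc : 0 < c)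
    (hs : ∀ ρ ∈ SELB.high T0, ∀ ρ' ∈ SELB.high T0, ρ ≠ ρ' →
      c * (1 + |ρ.im|) ^ (-b0) ≤ |ρ.im - ρ'.im|)
    {w : ℂ} (h1 : 1 / 2 < w.re) (h2 : w.re ≤ 2) (h3 : w.im = t) :
    ∃ N : Finset ℂ, Window T0 w N ∧ ‖F2 w - ∑ ρ ∈ N, res2 ρ / (w - ρ)‖ ≤
      H * (2 * (2 * H * ((3 ^ b0 / c) * (1 + t) ^ b0)) + 44 * H) + H ^ 2 + 20 * H := by
  classical
  set R : ℝ := 2 * H * ((3 ^ b0 / c) * (1 + t) ^ b0) with hR
  have hm := mem_right h1 h2 h3
  have hH : 0 ≤ H := le_trans (Nat.cast_nonneg k) L.card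
  have ht0 : 0 ≤ t := by
    have hb := L.big
    have h0 := abs_nonneg T0
    linarith
  have hR0 : 0 ≤ R := by
    have : 0 ≤ 1 + t := by linarith
    positivity
  have hw955 : w ∈ closedBall (pt 10 t) (955 / 100) :=
    closedBall_subset_closedBall (by norm_num) hm
  have hh : ‖logDeriv g w‖ ≤ H := L.bd w (closedBall_subset_closedBall (by norm_num) hm)
  have hh' : ‖deriv (logDeriv g) w‖ ≤ 20 * H := by
    refine norm_deriv_le_of_lip' (by positivity) ?_
    have hwb : w ∈ ball (pt 10 t) (955 / 100) := by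
      rw [mem_closedBall] at hm
      rw [mem_ball]
      linarith
    filter_upwards [isOpen_ball.mem_nhds hwb] with x hx
    exact A.logDeriv_lip L.an L.ne L.bd hw955 (ball_subset_closedBall hx)
  have hd : ∀ i, w - z i ≠ 0 := by
    intro i h
    have h4 : w.re = (z i).re := by rw [sub_eq_zero.1 h]
    rw [L.re i] at h4
    linarith
  set P : Fin k → Prop := fun i => |(z i).im - t| ≤ 1 / 2 with hP
  set e : Fin k → ℂ := fun i => if P i then 2 * ((logDeriv g w - logDeriv g (z i)) * (1 / (w - z i)))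
    else (1 / (w - z i)) * (rr z i + 2 * logDeriv g w) with he
  refine ⟨(Finset.univ.filter P).image z, ⟨?_, ?_⟩, ?_⟩
  · intro ρ hρ
    obtain ⟨i, hi, rfl⟩ := Finset.mem_image.1 hρ
    refine ⟨L.high i, ?_⟩
    rw [h3]
    exact L.im i
  · intro ρ hρ h
    rw [h3] at h
    obtain ⟨i, rfl⟩ := L.cover hρ h
    exact Finset.mem_image.2 ⟨i, Finset.mem_filter.2 ⟨Finset.mem_univ i, h⟩, rfl⟩
  · have e1 : F2 w - ∑ ρ ∈ (Finset.univ.filter P).image z, res2 ρ / (w - ρ) =
        ∑ i, e i + logDeriv g w ^ 2 + deriv (logDeriv g) w := by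
      rw [Finset.sum_image (fun i _ j _ h => L.inj h), L.F2_eq h1 h2 h3, Finset.sum_filter,
        Finset.mul_sum, ← Finset.sum_add_distrib]
      have e2 : ∑ i, e i = ∑ i, ((1 / (w - z i)) * rr z i + 2 * logDeriv g w * (1 / (w - z i))) -
          ∑ i, (if P i then res2 (z i) / (w - z i) else 0) := by
        rw [← Finset.sum_sub_distrib]
        refine Finset.sum_congr rfl fun i _ => ?_
        rw [he]
        by_cases hPi : P i
        · simp only [if_pos hPi]
          rw [L.res i]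
          ring
        · simp only [if_neg hPi]
          ring
      rw [e2]
      ring
    rw [e1]
    have hb : ∀ i, ‖e i‖ ≤ 2 * R + 44 * H := by
      intro i
      rw [he]
      by_cases hPi : P i
      · simp only [if_pos hPi]
        have hz955 : z i ∈ closedBall (pt 10 t) (955 / 100) := by
          rw [mem_iff (by norm_num), L.re i]
          have h4 : |(z i).im - t| ≤ 1 / 2 := hPi
          have := sq_le_sq' (abs_le.1 h4).1 (abs_le.1 h4).2
          nlinarith
        have h5 := A.logDeriv_lip L.an L.ne L.bd hz955 hw955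
        have h6 : 0 < ‖w - z i‖ := norm_pos_iff.2 (hd i)
        rw [norm_mul, norm_mul, norm_div, norm_one]
        have h7 : ‖logDeriv g w - logDeriv g (z i)‖ * (1 / ‖w - z i‖) ≤ 20 * H := by
          rw [mul_one_div, div_le_iff₀ h6]
          exact h5
        have h8 : ‖(2 : ℂ)‖ = 2 := by norm_num
        rw [h8]
        linarith
      · simp only [if_neg hPi]
        have h4 : 1 / 2 < |(z i).im - t| := not_le.1 hPi
        have h5 : 1 / 2 ≤ ‖w - z i‖ := by
          have h6 := Complex.abs_im_le_norm (w - z i)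
          rw [Complex.sub_im, h3, abs_sub_comm] at h6
          linarith
        rw [norm_mul, norm_div, norm_one]
        have h7 : 1 / ‖w - z i‖ ≤ 2 := by
          rw [div_le_iff₀ (by linarith)]
          linarith
        have h8 : ‖rr z i + 2 * logDeriv g w‖ ≤ R + 2 * H := by
          refine (norm_add_le _ _).trans ?_
          have h9 := L.rr_le hb0 hc hs i
          have h10 : ‖2 * logDeriv g w‖ ≤ 2 * H := by
            rw [norm_mul]
            have h8 : ‖(2 : ℂ)‖ = 2 := by norm_num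
            rw [h8]
            linarith
          linarith
        calc 1 / ‖w - z i‖ * ‖rr z i + 2 * logDeriv g w‖ ≤ 2 * (R + 2 * H) := by gcongr
          _ ≤ 2 * R + 44 * H := by linarith
    have hsum : ‖∑ i, e i‖ ≤ H * (2 * R + 44 * H) := by
      refine (norm_sum_le _ _).trans ?_
      refine (Finset.sum_le_card_nsmul _ _ _ fun j _ => hb j).trans ?_
      rw [Finset.card_univ, Fintype.card_fin, nsmul_eq_mul]
      have : 0 ≤ 2 * R + 44 * H := by positivity
      exact mul_le_mul_of_nonneg_right L.card this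
    have hsq : ‖logDeriv g w ^ 2‖ ≤ H ^ 2 := by
      rw [norm_pow]
      gcongr
    exact (norm_add₃_le).trans (by linarith)

end loc

theorem exists_loc {T0 : ℝ} (h : RHs T0) : ∃ C T : ℝ, 0 < C ∧ 100 ≤ T ∧ ∀ t ≥ T,
    1 ≤ Real.log t ∧ ∃ (k : ℕ) (z : Fin k → ℂ) (g : ℂ → ℂ), Loc T0 (C * Real.log t) t z g := by
  obtain ⟨C, T1, hC, hT1, hl⟩ := local_zeta
  refine ⟨C, max T1 (|T0| + 20), hC, hT1.trans (le_max_left _ _), fun t ht => ⟨?_, ?_⟩⟩
  · have h1 : T1 ≤ t := (le_max_left _ _).trans ht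
    rw [Real.le_log_iff_exp_le (by linarith)]
    have := Real.exp_one_lt_d9
    linarith
  · obtain ⟨k, z, g, h1, h2, h3, h4, h5, h6⟩ := hl t ((le_max_left _ _).trans ht)
    exact ⟨k, z, g, ⟨h1, fun i => (h2 i).1, fun i => (h2 i).2, h3, h4, h5, h6,
      (le_max_right _ _).trans ht, h⟩⟩

/-- squares of logarithms are small -/
theorem log_sq {d : ℝ} (hd : 0 < d) : ∃ T : ℝ, ∀ t ≥ T, Real.log t ^ 2 ≤ (1 + t) ^ d := by
  have h1 := (isLittleO_log_rpow_atTop (half_pos hd)).bound one_pos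
  obtain ⟨T, hT⟩ := (h1.and (eventually_ge_atTop 1)).exists_forall_of_atTop
  refine ⟨T, fun t ht => ?_⟩
  obtain ⟨h2, h3⟩ := hT t ht
  have h0 : 0 ≤ Real.log t := Real.log_nonneg h3
  rw [Real.norm_of_nonneg h0, Real.norm_of_nonneg (by positivity), one_mul] at h2
  calc Real.log t ^ 2 ≤ (t ^ (d / 2)) ^ 2 := by gcongr
    _ = t ^ d := by
      rw [← Real.rpow_natCast, ← Real.rpow_mul (by linarith)]
      congr 1
      push_cast
      ring
    _ ≤ (1 + t) ^ d := Real.rpow_le_rpow (by linarith) (by linarith) hd.le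

end HI2

open HI2

theorem HI2_all : P_HI2 := by
  intro T0 b0 b hb0 hb hR hS
  obtain ⟨c, hc, hs⟩ := hS
  obtain ⟨C, T, hC, hT, hloc⟩ := exists_loc hR
  obtain ⟨T', hT'⟩ := log_sq (sub_pos.2 hb)
  set K : ℝ := 3 ^ b0 / c with hK
  have hK0 : 0 ≤ K := by positivity
  refine ⟨C ^ 2 * (4 * K + 45) + 20 * C, max T T', by positivity, fun w h1 h2 h3 => ?_⟩
  set t := w.im with ht
  have ht1 : T ≤ t := (le_max_left _ _).trans h3
  have ht2 : T' ≤ t := (le_max_right _ _).trans h3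
  obtain ⟨hl1, k, z, g, L⟩ := hloc t ht1
  obtain ⟨N, hN, hb'⟩ := L.expand hb0 hc hs h1 h2 ht.symm
  refine ⟨N, hN, hb'.trans ?_⟩
  have ht0 : 0 ≤ t := by linarith
  have habs : |t| = t := abs_of_nonneg ht0
  rw [← ht, habs]
  set l := Real.log t with hl
  set M := (1 + t) ^ b0 with hM
  have hM1 : 1 ≤ M := Real.one_le_rpow (by linarith) hb0
  have hl2 : l ^ 2 ≤ (1 + t) ^ (b - b0) := hT' t ht2
  have hsplit : (1 + t) ^ b = (1 + t) ^ (b - b0) * M := by
    rw [hM, ← Real.rpow_add (by linarith)]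
    congr 1
    ring
  rw [hsplit]
  have hll : l ≤ l ^ 2 := by nlinarith
  have e1 : C * l * (2 * (2 * (C * l) * (K * M)) + 44 * (C * l)) + (C * l) ^ 2 + 20 * (C * l) ≤
      (C ^ 2 * (4 * K + 45) + 20 * C) * (l ^ 2 * M) := by
    have e2 : C * l * (2 * (2 * (C * l) * (K * M)) + 44 * (C * l)) + (C * l) ^ 2 + 20 * (C * l) =
        C ^ 2 * l ^ 2 * (4 * K * M + 45) + 20 * C * l := by ring
    rw [e2]
    have e3 : C ^ 2 * l ^ 2 * (4 * K * M + 45) ≤ C ^ 2 * l ^ 2 * (4 * K * M + 45 * M) := by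
      gcongr
      linarith
    have e4 : 20 * C * l ≤ 20 * C * (l ^ 2 * M) := by
      have : l ≤ l ^ 2 * M := by nlinarith [sq_nonneg l]
      gcongr
    calc C ^ 2 * l ^ 2 * (4 * K * M + 45) + 20 * C * l
        ≤ C ^ 2 * l ^ 2 * (4 * K * M + 45 * M) + 20 * C * (l ^ 2 * M) := add_le_add e3 e4
      _ = (C ^ 2 * (4 * K + 45) + 20 * C) * (l ^ 2 * M) := by ring
  refine e1.trans ?_
  gcongr

theorem RB2_all (h1 : P_LOWFIN) (h2 : P_CONJ) : P_RB2 := by
  intro T0 b0 b hb0 hb hR hS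
  obtain ⟨c, hc, hs⟩ := hS
  obtain ⟨C, T, hC, hT, hloc⟩ := exists_loc hR
  obtain ⟨T', hT'⟩ := log_sq (sub_pos.2 hb)
  set K : ℝ := 3 ^ b0 / c with hK
  have hK0 : 0 ≤ K := by positivity
  set T2 := max T T' with hT2
  set C1 : ℝ := 2 * C * K + 2 * C with hC1
  have hC10 : 0 ≤ C1 := by positivity
  -- large positive heights
  have key : ∀ ρ ∈ high T0, T2 ≤ ρ.im → ‖res2 ρ‖ ≤ C1 * (1 + |ρ.im|) ^ b := by
    intro ρ hρ h3
    set t := ρ.im with ht
    have ht1 : T ≤ t := (le_max_left _ _).trans h3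
    have ht2 : T' ≤ t := (le_max_right _ _).trans h3
    obtain ⟨hl1, k, z, g, L⟩ := hloc t ht1
    obtain ⟨i, hi⟩ := L.cover hρ (by rw [← ht, sub_self, abs_zero]; norm_num)
    have ht0 : 0 ≤ t := by linarith
    have habs : |t| = t := abs_of_nonneg ht0
    have hmem : z i ∈ closedBall (pt 10 t) (96 / 10) := by
      rw [mem_iff (by norm_num), L.re i, hi, ← ht]
      norm_num
    have h5 := L.rr_le hb0 hc hs i
    have h6 := L.bd _ hmem
    rw [← hi, L.res i, habs]
    set l := Real.log t with hl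
    set M := (1 + t) ^ b0 with hM
    have hM1 : 1 ≤ M := Real.one_le_rpow (by linarith) hb0
    have hl2 : l ^ 2 ≤ (1 + t) ^ (b - b0) := hT' t ht2
    have hsplit : (1 + t) ^ b = (1 + t) ^ (b - b0) * M := by
      rw [hM, ← Real.rpow_add (by linarith)]
      congr 1
      ring
    rw [hsplit]
    have hll : l ≤ l ^ 2 := by nlinarith
    have h7 : ‖2 * logDeriv g (z i)‖ ≤ 2 * (C * l) := by
      rw [norm_mul]
      have h8 : ‖(2 : ℂ)‖ = 2 := by norm_num
      rw [h8]
      linarith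
    have h8 : l ≤ l ^ 2 * M := by nlinarith [sq_nonneg l]
    calc ‖rr z i + 2 * logDeriv g (z i)‖ ≤ 2 * (C * l) * (K * M) + 2 * (C * l) :=
          (norm_add_le _ _).trans (add_le_add h5 h7)
      _ = 2 * C * K * (l * M) + 2 * C * l := by ring
      _ ≤ 2 * C * K * (l ^ 2 * M) + 2 * C * (l ^ 2 * M) := by gcongr
      _ = C1 * (l ^ 2 * M) := by rw [hC1]; ring
      _ ≤ C1 * ((1 + t) ^ (b - b0) * M) := by gcongr
  have hfin := h1 T2
  obtain ⟨D, hD⟩ : ∃ D : ℝ, ∀ ρ ∈ low T2, ‖res2 ρ‖ ≤ D := by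
    obtain ⟨D, hD⟩ := (hfin.image fun ρ => ‖res2 ρ‖).bddAbove
    exact ⟨D, fun ρ hρ => hD ⟨ρ, hρ, rfl⟩⟩
  refine ⟨max C1 D, le_trans hC10 (le_max_left _ _), fun ρ hρ => ?_⟩
  have hpow : 1 ≤ (1 + |ρ.im|) ^ b :=
    Real.one_le_rpow (by linarith [abs_nonneg ρ.im]) (by linarith)
  have hpow0 : 0 ≤ (1 + |ρ.im|) ^ b := by linarith
  rcases le_or_gt |ρ.im| T2 with h3 | h3
  · have h4 := hD ρ (Or.inl ⟨hρ.1, h3⟩)
    have h5 : 0 ≤ max C1 D := le_trans hC10 (le_max_left _ _)
    calc ‖res2 ρ‖ ≤ max C1 D := h4.trans (le_max_right _ _)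
      _ = max C1 D * 1 := (mul_one _).symm
      _ ≤ max C1 D * (1 + |ρ.im|) ^ b := by gcongr
  · have hle : C1 * (1 + |ρ.im|) ^ b ≤ max C1 D * (1 + |ρ.im|) ^ b := by
      gcongr
      exact le_max_left _ _
    rcases lt_abs.1 h3 with h4 | h4
    · exact (key ρ hρ h4.le).trans hle
    · have h5 := h2.2.2.2 T0 ρ hρ
      have h6 := key _ h5 (by rw [Complex.conj_im]; exact h4.le)
      rw [h2.2.2.1, Complex.norm_conj, Complex.conj_im, abs_neg] at h6
      exact h6.trans hle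

end Pool.Agent.SELB
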