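import Pool.Agent.Lib.SELB.Props
import Pool.Agent.Lib.MP_af3d17_nt_h98.Count
import Pool.Agent.Lib.MP_9ef1f5_an_helper32.General

/-!
# MP_af3d17_nt, Selberg's formula: row ID1 (and the domain used by ID2)
-/

set_option autoImplicit false

namespace Pool.Agent.SELB

open Complex Filter Topology MeasureTheory Set

namespace IDx

/-- The half plane `Re z > 1/2` without `S` and `1`. -/
def U (S : Finset ℂ) : Set ℂ := {z | 1 / 2 < z.re} \ ((S : Set ℂ) ∪ {1})

lemma cnt (S : Finset ℂ) : ((S : Set ℂ) ∪ {1}).Countable :=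
  S.countable_toSet.union (countable_singleton 1)

lemma opn : IsOpen {z : ℂ | 1 / 2 < z.re} := isOpen_lt continuous_const Complex.continuous_re

lemma U_open (S : Finset ℂ) : IsOpen (U S) :=
  opn.sdiff ((S.finite_toSet.union (finite_singleton 1)).isClosed)

lemma U_conn (S : Finset ℂ) : IsPreconnected (U S) :=
  Pool.Agent.H32Cover.isPreconnected_diff_countable (convex_halfSpace_re_gt (1 / 2)) opn (cnt S)

/-- The continuation of the right-hand side. -/
noncomputable def G (κ : ℕ) (t : ℝ) (S : Finset ℂ) (p q L : ℂ → ℂ) (z : ℂ) : ℂ :=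
  (z - t * I) ^ (κ + 1) * (L z + ∑ w ∈ S, mainL κ (p w) (q w) w t z)

lemma G_diff {κ : ℕ} {t : ℝ} {S : Finset ℂ} {p q L : ℂ → ℂ}
    (hL : DifferentiableOn ℂ L {z | 1 / 2 < z.re}) : DifferentiableOn ℂ (G κ t S p q L) (U S) := by
  intro z hz
  have h1 : DifferentiableAt ℂ L z := (hL z hz.1).differentiableAt (opn.mem_nhds hz.1)
  have h2 : ∀ w ∈ S, DifferentiableAt ℂ (fun z => mainL κ (p w) (q w) w t z) z := by
    intro w hw
    have hne : z - w ≠ 0 := by
      intro h
      apply hz.2
      left
      have : z = w := by linear_combination h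
      rw [this]; exact hw
    unfold mainL
    refine DifferentiableAt.sub (DifferentiableAt.div_const (DifferentiableAt.add ?_ ?_) _) ?_
    · exact (differentiableAt_const _).div ((differentiableAt_id.sub_const w).pow 2)
        (pow_ne_zero 2 hne)
    · exact (differentiableAt_const _).div (differentiableAt_id.sub_const w) hne
    · by_cases h0 : ((w - t * I : ℂ)) ^ (κ + 2) = 0
      · simp [h0]
      · exact (differentiableAt_const _).div ((differentiableAt_const _).mul
          (differentiableAt_id.sub_const w)) (mul_ne_zero h0 hne)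
  have h3 : DifferentiableAt ℂ (fun z => ∑ w ∈ S, mainL κ (p w) (q w) w t z) z := by
    have := DifferentiableAt.fun_sum (u := S) (A := fun w z => mainL κ (p w) (q w) w t z) h2
    exact this
  have h4 : DifferentiableAt ℂ (fun z : ℂ => (z - t * I) ^ (κ + 1)) z :=
    (differentiableAt_id.sub_const _).pow _
  exact (h4.mul (h1.add h3)).differentiableWithinAt

lemma zeta_an {z : ℂ} (hz : z ≠ 1) : AnalyticAt ℂ riemannZeta z := by
  have h2 : DifferentiableOn ℂ riemannZeta {1}ᶜ := fun s hs =>
    (differentiableAt_riemannZeta hs).differentiableWithinAt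
  exact h2.analyticAt (isOpen_compl_singleton.mem_nhds hz)

/-- The identity theorem in the form used. -/
lemma ident {κ : ℕ} {t : ℝ} {S : Finset ℂ} {p q L f : ℂ → ℂ}
    (hL : DifferentiableOn ℂ L {z | 1 / 2 < z.re}) (hf : AnalyticOnNhd ℂ f (U S))
    (h : ∀ z : ℂ, 3 / 2 < z.re → (∀ w ∈ S, w.re < z.re) →
      f z / riemannZeta z = G κ t S p q L z) :
    ∀ z ∈ U S, f z = riemannZeta z * G κ t S p q L z := by
  have hG : AnalyticOnNhd ℂ (G κ t S p q L) (U S) := (G_diff hL).analyticOnNhd (U_open S)
  have hz : AnalyticOnNhd ℂ riemannZeta (U S) := fun z hz =>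
    zeta_an (fun h => hz.2 (Or.inr h))
  obtain ⟨M, hM⟩ : ∃ M : ℝ, 3 / 2 < M ∧ ∀ w ∈ S, w.re < M := by
    obtain ⟨M, hM⟩ := (S.finite_toSet.image Complex.re).bddAbove
    refine ⟨max M 2 + 1, by have := le_max_right M 2; linarith, fun w hw => ?_⟩
    have := hM ⟨w, hw, rfl⟩
    have := le_max_left M 2
    linarith
  have hV : IsOpen {z : ℂ | M < z.re} := isOpen_lt continuous_const Complex.continuous_re
  have hmem : ((M + 1 : ℝ) : ℂ) ∈ {z : ℂ | M < z.re} := by simp
  have hsub : {z : ℂ | M < z.re} ⊆ U S := by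
    intro z hz
    have hz' : M < z.re := hz
    refine ⟨by show 1 / 2 < z.re; linarith [hM.1], ?_⟩
    rintro (h1 | h1)
    · have := hM.2 z h1
      linarith
    · rw [mem_singleton_iff] at h1
      rw [h1] at hz'
      simp at hz'
      linarith [hM.1]
  refine hf.eqOn_of_preconnected_of_eventuallyEq (hz.mul hG) (U_conn S) (hsub hmem) ?_
  filter_upwards [hV.mem_nhds hmem] with z hz
  have hz' : M < z.re := hz
  have hne : riemannZeta z ≠ 0 := riemannZeta_ne_zero_of_one_lt_re (by linarith [hM.1])
  have := h z (by linarith [hM.1]) (fun w hw => (hM.2 w hw).trans hz')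
  rw [div_eq_iff hne] at this
  rw [this]
  simp [mul_comm]

end IDx

open IDx in
theorem ID1_all : P_ID1 := by
  intro κ t S p q L hL h z hz h0
  by_contra hS
  have hz1 : z ≠ 1 := by
    rintro rfl
    exact riemannZeta_one_ne_zero h0
  have hU : z ∈ U S := ⟨hz, by
    rintro (h1 | h1)
    · exact hS h1
    · exact hz1 h1⟩
  have hd : AnalyticOnNhd ℂ (fun z => -deriv riemannZeta z) (U S) := by
    intro w hw
    exact (zeta_an (fun h => hw.2 (Or.inr h))).deriv.neg
  have key := ident (κ := κ) (t := t) (p := p) (q := q) hL hd (by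
    intro w hw hw'
    have := h w hw hw'
    unfold F1 at this
    rw [neg_div]
    exact this)
  have han := zeta_an hz1
  have hG : AnalyticAt ℂ (G κ t S p q L) z :=
    (G_diff hL).analyticAt ((U_open S).mem_nhds hU)
  have e1 : analyticOrderAt (fun z => -deriv riemannZeta z) z =
      analyticOrderAt riemannZeta z + analyticOrderAt (G κ t S p q L) z := by
    rw [← analyticOrderAt_mul han hG]
    apply analyticOrderAt_congr
    filter_upwards [(U_open S).mem_nhds hU] with w hw
    exact key w hw
  have e2 : analyticOrderAt (fun z => -deriv riemannZeta z) z =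
      analyticOrderAt (deriv riemannZeta) z := by
    have := analyticOrderAt_neg (f := deriv riemannZeta) (z₀ := z)
    exact this
  have e3 := han.analyticOrderAt_deriv_add_one
  rw [h0] at e3
  simp only [sub_zero] at e3
  have e4 := Pool.Agent.ZP.order_ne_top z
  rw [← e3, ← e2, e1] at e4
  have e5 : analyticOrderAt riemannZeta z = analyticOrderAt riemannZeta z +
      analyticOrderAt (G κ t S p q L) z + 1 := by
    rw [← e1, e2, e3]
  have e6 := Pool.Agent.ZP.order_ne_top z
  obtain ⟨m, hm⟩ := ENat.ne_top_iff_exists.1 e6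
  rw [← hm] at e5 e4
  have e7 : analyticOrderAt (G κ t S p q L) z ≠ ⊤ := by
    intro h
    rw [h] at e4
    simp at e4
  obtain ⟨n, hn⟩ := ENat.ne_top_iff_exists.1 e7
  rw [← hn] at e5
  norm_cast at e5
  omega

end Pool.Agent.SELB
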