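import Pool.Agent.Lib.SELB.ID1

/-!
# MP_af3d17_nt, Selberg's formula: row ID2
-/

set_option autoImplicit false

namespace Pool.Agent.SELB

open Complex Filter Topology MeasureTheory Set

open IDx in
theorem ID2_all : P_ID2 := by
  intro κ t S p q L hL h z hz hS hz1 h0
  have hU : z ∈ U S := ⟨hz, by
    rintro (h1 | h1)
    · exact hS h1
    · exact hz1 h1⟩
  have hd : AnalyticOnNhd ℂ (deriv (deriv riemannZeta)) (U S) := by
    intro w hw
    exact (zeta_an (fun h => hw.2 (Or.inr h))).deriv.deriv
  have key := ident (κ := κ) (t := t) (p := p) (q := q) hL hd (by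
    intro w hw hw'
    exact h w hw hw')
  have := key z hU
  unfold F2
  rw [div_eq_iff h0, this]
  simp only [G]
  ring

end Pool.Agent.SELB
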