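import Pool.Agent.Lib.SELB.LAPM

/-!
# MP_af3d17_nt, Selberg's formula: the Riesz means and their Laplace transforms
(row LAP; helper27)
-/

set_option autoImplicit false

namespace Pool.Agent.SELB

open Complex Filter Topology MeasureTheory Set

/-- One term of the Riesz mean, on the scale `x = e^y`. -/
noncomputable def rterm (f : ℕ → ℝ) (κ : ℕ) (t : ℝ) (n : ℕ) (y : ℝ) : ℂ :=
  if n = 0 then 0 else
    (f n : ℂ) * (n : ℂ) ^ (-(t * I)) * ((max (y - Real.log n) 0 : ℝ) : ℂ) ^ κ / (κ.factorial : ℂ)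

/-- The terms with `n > e^y` vanish. -/
lemma rterm_zero {f : ℕ → ℝ} {κ : ℕ} {t : ℝ} {n : ℕ} {y : ℝ} (hκ : 1 ≤ κ)
    (h : Real.exp y < n) : rterm f κ t n y = 0 := by
  unfold rterm
  split_ifs with hn
  · rfl
  · have hn0 : (0 : ℝ) < n := (Real.exp_pos y).trans h
    have h1 : y ≤ Real.log n := by
      rw [Real.le_log_iff_exp_le hn0]
      exact h.le
    have h2 : max (y - Real.log n) 0 = 0 := max_eq_right (by linarith)
    rw [h2, Complex.ofReal_zero, zero_pow (by omega)]
    simp

/-- The Riesz mean as a finite sum with any upper limit `N ≥ e^y`. -/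
lemma riesz_eq_sum {f : ℕ → ℝ} {κ : ℕ} {t y : ℝ} {N : ℕ} (hκ : 1 ≤ κ)
    (hN : Real.exp y ≤ N) :
    riesz f κ t (Real.exp y) = ∑ n ∈ Finset.Icc 1 N, rterm f κ t n y := by
  have hsub : Finset.Icc 1 ⌊Real.exp y⌋₊ ⊆ Finset.Icc 1 N := by
    refine Finset.Icc_subset_Icc_right ?_
    exact Nat.floor_le_of_le hN
  rw [← Finset.sum_subset hsub]
  · unfold riesz
    rw [Finset.sum_div]
    refine Finset.sum_congr rfl fun n hn => ?_
    rw [Finset.mem_Icc] at hn
    have hn0 : n ≠ 0 := by omega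
    have hnp : (0 : ℝ) < n := by exact_mod_cast Nat.pos_of_ne_zero hn0
    have hle : (n : ℝ) ≤ Real.exp y := (Nat.le_floor_iff (Real.exp_pos y).le).mp hn.2
    have h1 : Real.log (Real.exp y / n) = y - Real.log n := by
      rw [Real.log_div (Real.exp_pos y).ne' hnp.ne', Real.log_exp]
    have h2 : 0 ≤ y - Real.log n := by
      have := Real.log_le_log hnp hle
      rw [Real.log_exp] at this
      linarith
    unfold rterm
    rw [if_neg hn0, h1, max_eq_left h2]
  · intro n hn hn'
    rw [Finset.mem_Icc] at hn hn'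
    refine rterm_zero hκ ?_
    by_contra hlt
    push Not at hlt
    exact hn' ⟨hn.1, Nat.le_floor hlt⟩

/-- The Riesz mean as an infinite sum. -/
lemma riesz_eq_tsum {f : ℕ → ℝ} {κ : ℕ} {t y : ℝ} (hκ : 1 ≤ κ) :
    riesz f κ t (Real.exp y) = ∑' n, rterm f κ t n y := by
  rw [riesz_eq_sum (N := ⌈Real.exp y⌉₊) hκ (Nat.le_ceil _), tsum_eq_sum]
  intro n hn
  rw [Finset.mem_Icc] at hn
  by_cases h0 : n = 0
  · unfold rterm
    rw [if_pos h0]
  · refine rterm_zero hκ ?_
    have : ¬ n ≤ ⌈Real.exp y⌉₊ := fun h => hn ⟨Nat.one_le_iff_ne_zero.mpr h0, h⟩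
    push Not at this
    exact (Nat.le_ceil _).trans_lt (by exact_mod_cast this)

/-- Each term is continuous. -/
lemma rterm_cont (f : ℕ → ℝ) (κ : ℕ) (t : ℝ) (n : ℕ) : Continuous (rterm f κ t n) := by
  unfold rterm
  split_ifs with hn
  · exact continuous_const
  · have h : Continuous fun y : ℝ => max (y - Real.log n) 0 :=
      (continuous_id.sub continuous_const).max continuous_const
    have h2 : Continuous fun y : ℝ => ((max (y - Real.log n) 0 : ℝ) : ℂ) :=
      Complex.continuous_ofReal.comp h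
    exact (continuous_const.mul (h2.pow κ)).div_const _

/-- The norm of `n^(-it)` is `1`. -/
lemma norm_npow {n : ℕ} (hn : n ≠ 0) (t : ℝ) : ‖(n : ℂ) ^ (-(t * I))‖ = 1 := by
  rw [Complex.norm_natCast_cpow_of_pos (Nat.pos_of_ne_zero hn)]
  simp

/-- The norm of a term. -/
lemma rterm_norm {f : ℕ → ℝ} {κ : ℕ} {t : ℝ} {n : ℕ} {y : ℝ} (hn : n ≠ 0) :
    ‖rterm f κ t n y‖ = |f n| * max (y - Real.log n) 0 ^ κ / κ.factorial := by
  unfold rterm
  rw [if_neg hn, norm_div, norm_mul, norm_mul, norm_npow hn, norm_pow, Complex.norm_real,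
    Complex.norm_real, Complex.norm_natCast, Real.norm_eq_abs, Real.norm_eq_abs,
    abs_of_nonneg (le_max_right (y - Real.log n) 0), mul_one]

/-- The Laplace transform of a shifted power. -/
lemma shift_lap {L : ℝ} (hL : 0 ≤ L) {s : ℂ} (hs : 0 < s.re) {κ : ℕ} (hκ : 1 ≤ κ) :
    Integrable (fun y : ℝ => ((max (y - L) 0 : ℝ) : ℂ) ^ κ * cexp (-s * y))
      (volume.restrict (Ioi 0)) ∧
    ∫ y in Ioi (0 : ℝ), ((max (y - L) 0 : ℝ) : ℂ) ^ κ * cexp (-s * y) =
      cexp (-s * L) * ((κ.factorial : ℂ) / s ^ (κ + 1)) := by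
  have hκ0 : κ ≠ 0 := by omega
  set G : ℝ → ℂ := fun y => (Ioi (0 : ℝ)).indicator
    (fun u : ℝ => (u : ℂ) ^ κ * cexp (-s * u)) (y - L) * cexp (-s * L) with hG
  have hG1 : (Ioi (0 : ℝ)).indicator
      (fun y : ℝ => ((max (y - L) 0 : ℝ) : ℂ) ^ κ * cexp (-s * y)) = G := by
    funext y
    rw [hG]
    simp only [Set.indicator_apply, Set.mem_Ioi]
    by_cases h1 : 0 < y - L
    · have h2 : 0 < y := by linarith
      rw [if_pos h1, if_pos h2, max_eq_left h1.le, mul_assoc, ← Complex.exp_add]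
      congr 2
      push_cast
      ring
    · rw [if_neg h1, zero_mul]
      have h3 : max (y - L) 0 = 0 := max_eq_right (by linarith)
      rw [h3, Complex.ofReal_zero, zero_pow hκ0, zero_mul]
      simp
  have hi0 : Integrable ((Ioi (0 : ℝ)).indicator
      (fun u : ℝ => (u : ℂ) ^ κ * cexp (-s * u))) volume :=
    (integrable_indicator_iff measurableSet_Ioi).mpr (int_pow hs κ)
  have hi1 : Integrable G volume := (hi0.comp_sub_right L).mul_const _
  constructor
  · rw [← hG1] at hi1
    exact (integrable_indicator_iff measurableSet_Ioi).mp hi1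
  · rw [← integral_indicator measurableSet_Ioi, hG1, hG, integral_mul_const,
      integral_sub_right_eq_self (fun y => (Ioi (0 : ℝ)).indicator
        (fun u : ℝ => (u : ℂ) ^ κ * cexp (-s * u)) y) L,
      integral_indicator measurableSet_Ioi, lap_pow hs κ, mul_comm]

/-- The real version for the norms. -/
lemma shift_lap_norm {L : ℝ} (hL : 0 ≤ L) {s : ℂ} (hs : 0 < s.re) {κ : ℕ} (hκ : 1 ≤ κ) :
    ∫ y in Ioi (0 : ℝ), ‖((max (y - L) 0 : ℝ) : ℂ) ^ κ * cexp (-s * y)‖ =
      Real.exp (-s.re * L) * ((κ.factorial : ℝ) / s.re ^ (κ + 1)) := by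
  have h := (shift_lap hL (s := (s.re : ℂ)) (by simpa using hs) hκ).2
  have e1 : ∫ y in Ioi (0 : ℝ), ((max (y - L) 0 : ℝ) : ℂ) ^ κ * cexp (-(s.re : ℂ) * y) =
      ((∫ y in Ioi (0 : ℝ), ‖((max (y - L) 0 : ℝ) : ℂ) ^ κ * cexp (-s * y)‖ : ℝ) : ℂ) := by
    rw [← integral_complex_ofReal]
    refine integral_congr_ae (Eventually.of_forall fun y => ?_)
    simp only
    rw [norm_mul, norm_pow, Complex.norm_real, Real.norm_of_nonneg (le_max_right _ _),
      Complex.norm_exp]
    have : (-s * (y : ℂ)).re = -s.re * y := by simp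
    rw [this]
    push_cast
    rfl
  rw [e1] at h
  have e2 : cexp (-(s.re : ℂ) * L) * ((κ.factorial : ℂ) / (s.re : ℂ) ^ (κ + 1)) =
      ((Real.exp (-s.re * L) * ((κ.factorial : ℝ) / s.re ^ (κ + 1)) : ℝ) : ℂ) := by
    push_cast
    rfl
  rw [e2] at h
  exact_mod_cast h

/-- Row LAP. -/
theorem LAP_all : P_LAP := by
  intro f F κ t hκ hF
  refine ⟨?_, ?_, ?_, ?_⟩
  · intro y0 _
    refine ContinuousAt.continuousWithinAt ?_
    have h1 : (fun y : ℝ => riesz f κ t (Real.exp y)) =ᶠ[𝓝 y0]
        fun y => ∑ n ∈ Finset.Icc 1 ⌈Real.exp (y0 + 1)⌉₊, rterm f κ t n y := by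
      filter_upwards [Iio_mem_nhds (show y0 < y0 + 1 by linarith)] with y hy
      refine riesz_eq_sum hκ ?_
      exact (Real.exp_le_exp.mpr (le_of_lt hy)).trans (Nat.le_ceil _)
    refine ContinuousAt.congr ?_ h1.symm
    exact (continuous_finsetSum _ fun n _ => rterm_cont f κ t n).continuousAt
  · unfold riesz
    rw [Nat.floor_one, Finset.Icc_self, Finset.sum_singleton]
    have : Real.log (1 / ((1 : ℕ) : ℝ)) = 0 := by simp
    rw [this, Complex.ofReal_zero, zero_pow (by omega)]
    simp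
  · have hs := (hF (5 / 4 : ℝ) (by norm_num)).summable.norm
    set S : ℝ := ∑' n, ‖LSeries.term (fun n => (f n : ℂ)) ((5 / 4 : ℝ) : ℂ) n‖ with hS
    refine ⟨S * 4 ^ κ, fun y hy => ?_⟩
    rw [riesz_eq_sum (N := ⌈Real.exp y⌉₊) hκ (Nat.le_ceil _)]
    have hterm : ∀ n ∈ Finset.Icc 1 ⌈Real.exp y⌉₊, ‖rterm f κ t n y‖ ≤
        ‖LSeries.term (fun n => (f n : ℂ)) ((5 / 4 : ℝ) : ℂ) n‖ *
          (4 ^ κ * Real.exp (3 / 2 * y)) := by
      intro n hn
      rw [Finset.mem_Icc] at hn
      have hn0 : n ≠ 0 := by omega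
      have hnp : (0 : ℝ) < n := by exact_mod_cast Nat.pos_of_ne_zero hn0
      have hlog : 0 ≤ Real.log n := Real.log_natCast_nonneg n
      rw [rterm_norm hn0, LSeries.term_of_ne_zero hn0, norm_div,
        Complex.norm_natCast_cpow_of_pos (Nat.pos_of_ne_zero hn0), Complex.norm_real,
        Real.norm_eq_abs, Complex.ofReal_re]
      by_cases h1 : y - Real.log n ≤ 0
      · rw [max_eq_right h1, zero_pow (by omega), mul_zero, zero_div]
        positivity
      · push Not at h1
        rw [max_eq_left h1.le]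
        have h2 : ((y - Real.log n) / 4) ^ κ / κ.factorial ≤ Real.exp ((y - Real.log n) / 4) :=
          Real.pow_div_factorial_le_exp _ (by linarith) _
        have h3 : (y - Real.log n) ^ κ / κ.factorial ≤
            4 ^ κ * Real.exp ((y - Real.log n) / 4) := by
          rw [div_pow] at h2
          have h4 : (y - Real.log n) ^ κ / κ.factorial =
              4 ^ κ * ((y - Real.log n) ^ κ / 4 ^ κ / κ.factorial) := by
            field_simp
          rw [h4]
          exact mul_le_mul_of_nonneg_left h2 (by positivity)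
        have h5 : (n : ℝ) ^ (5 / 4 : ℝ) = Real.exp (5 / 4 * Real.log n) := by
          rw [Real.rpow_def_of_pos hnp, mul_comm]
        rw [h5, div_eq_mul_inv (|f n|) (Real.exp (5 / 4 * Real.log n)), ← Real.exp_neg,
          mul_div_assoc]
        calc |f n| * ((y - Real.log n) ^ κ / κ.factorial)
            ≤ |f n| * (4 ^ κ * Real.exp ((y - Real.log n) / 4)) :=
              mul_le_mul_of_nonneg_left h3 (abs_nonneg _)
          _ ≤ |f n| * (4 ^ κ * (Real.exp (-(5 / 4 * Real.log n)) * Real.exp (3 / 2 * y))) := by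
              refine mul_le_mul_of_nonneg_left ?_ (abs_nonneg _)
              refine mul_le_mul_of_nonneg_left ?_ (by positivity)
              rw [← Real.exp_add]
              refine Real.exp_le_exp.mpr ?_
              linarith
          _ = |f n| * Real.exp (-(5 / 4 * Real.log n)) * (4 ^ κ * Real.exp (3 / 2 * y)) := by
              ring
    refine (norm_sum_le _ _).trans ((Finset.sum_le_sum hterm).trans ?_)
    rw [← Finset.sum_mul]
    have h6 : ∑ n ∈ Finset.Icc 1 ⌈Real.exp y⌉₊,
        ‖LSeries.term (fun n => (f n : ℂ)) ((5 / 4 : ℝ) : ℂ) n‖ ≤ S :=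
      hs.sum_le_tsum _ fun n _ => norm_nonneg _
    calc (∑ n ∈ Finset.Icc 1 ⌈Real.exp y⌉₊,
        ‖LSeries.term (fun n => (f n : ℂ)) ((5 / 4 : ℝ) : ℂ) n‖) *
          (4 ^ κ * Real.exp (3 / 2 * y)) ≤ S * (4 ^ κ * Real.exp (3 / 2 * y)) :=
          mul_le_mul_of_nonneg_right h6 (by positivity)
      _ = S * 4 ^ κ * Real.exp (3 / 2 * y) := by ring
  · intro s hs
    have hs0 : 0 < s.re := by linarith
    have hsne : s ≠ 0 := by
      rintro rfl
      simp at hs0
    have hκ0 : κ ≠ 0 := by omega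
    have hfac : (κ.factorial : ℂ) ≠ 0 := by exact_mod_cast Nat.factorial_ne_zero κ
    -- the terms
    have hterm : ∀ n : ℕ, Integrable (fun y : ℝ => rterm f κ t n y * cexp (-s * y))
        (volume.restrict (Ioi 0)) ∧
        ∫ y in Ioi (0 : ℝ), rterm f κ t n y * cexp (-s * y) =
          LSeries.term (fun n => (f n : ℂ)) (s + t * I) n / s ^ (κ + 1) ∧
        ∫ y in Ioi (0 : ℝ), ‖rterm f κ t n y * cexp (-s * y)‖ =
          ‖LSeries.term (fun n => (f n : ℂ)) (s + t * I) n‖ / s.re ^ (κ + 1) := by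
      intro n
      by_cases hn : n = 0
      · subst hn
        simp [rterm]
      · have hlog : 0 ≤ Real.log n := Real.log_natCast_nonneg n
        have hnc : (n : ℂ) ≠ 0 := by exact_mod_cast hn
        obtain ⟨i1, j1⟩ := shift_lap hlog hs0 hκ
        have k1 := shift_lap_norm hlog hs0 hκ
        have e : ∀ y : ℝ, rterm f κ t n y * cexp (-s * y) =
            ((f n : ℂ) * (n : ℂ) ^ (-(t * I)) / (κ.factorial : ℂ)) *
              (((max (y - Real.log n) 0 : ℝ) : ℂ) ^ κ * cexp (-s * y)) := by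
          intro y
          unfold rterm
          rw [if_neg hn]
          ring
        have e2 : cexp (-s * (Real.log n : ℝ)) = (n : ℂ) ^ (-s) := by
          rw [Complex.cpow_def_of_ne_zero hnc, Complex.natCast_log, mul_comm]
        have e3 : (n : ℂ) ^ (-(t * I)) * (n : ℂ) ^ (-s) = ((n : ℂ) ^ (s + t * I))⁻¹ := by
          rw [← Complex.cpow_add _ _ hnc, ← Complex.cpow_neg]
          congr 1
          ring
        refine ⟨?_, ?_, ?_⟩
        · simp only [e]
          exact i1.const_mul _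
        · simp only [e]
          rw [integral_const_mul, j1, e2, LSeries.term_of_ne_zero hn, div_eq_mul_inv (f n : ℂ),
            ← e3]
          field_simp
        · simp only [e, norm_mul ((f n : ℂ) * (n : ℂ) ^ (-(t * I)) / (κ.factorial : ℂ)) _]
          rw [integral_const_mul, k1, LSeries.term_of_ne_zero hn, norm_div, norm_mul,
            norm_npow hn, norm_div, Complex.norm_natCast,
            Complex.norm_natCast_cpow_of_pos (Nat.pos_of_ne_zero hn)]
          have e4 : (s + t * I).re = s.re := by simp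
          have hnp : (0 : ℝ) < n := by exact_mod_cast Nat.pos_of_ne_zero hn
          have e5 : Real.exp (-s.re * Real.log n) = ((n : ℝ) ^ s.re)⁻¹ := by
            rw [Real.rpow_def_of_pos hnp, ← Real.exp_neg]
            congr 1
            ring
          have hfr : (κ.factorial : ℝ) ≠ 0 := by exact_mod_cast Nat.factorial_ne_zero κ
          rw [e4, e5]
          have hp : (n : ℝ) ^ s.re ≠ 0 := (Real.rpow_pos_of_pos hnp _).ne'
          have hq : s.re ^ (κ + 1) ≠ 0 := pow_ne_zero _ hs0.ne'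
          field_simp
    have hF' := hF (s + t * I) (by simp; linarith)
    have hsum : Summable fun n => ∫ y in Ioi (0 : ℝ), ‖rterm f κ t n y * cexp (-s * y)‖ := by
      simp only [fun n => (hterm n).2.2]
      exact hF'.summable.norm.div_const _
    have h := (hasSum_integral_of_summable_integral_norm (fun n => (hterm n).1) hsum).tsum_eq
    have e1 : ∀ y : ℝ, riesz f κ t (Real.exp y) * cexp (-s * y) =
        ∑' n, rterm f κ t n y * cexp (-s * y) := by
      intro y
      rw [riesz_eq_tsum hκ, tsum_mul_right]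
    simp only [e1]
    rw [← h]
    simp only [fun n => (hterm n).2.1]
    rw [tsum_div_const, hF'.tsum_eq]

end Pool.Agent.SELB
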