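import Pool.Agent.Lib.SELB.LAPM

/-!
# MP_af3d17_nt, Selberg's formula: the sum over the zeros and its Laplace transform
(row LAPV; helper27)
-/

set_option autoImplicit false

namespace Pool.Agent.SELB

open Complex Filter Topology MeasureTheory Set

/-- One term of the sum over the zeros. -/
lemma term_le {c w : ℂ} (hw : w.re = 1 / 2) (y : ℝ) :
    ‖c * (cexp (w * y) - cexp ((w - 1) * y))‖ ≤
      ‖c‖ * (Real.exp (y / 2) + Real.exp (-(y / 2))) := by
  rw [norm_mul]
  refine mul_le_mul_of_nonneg_left ((norm_sub_le _ _).trans ?_) (norm_nonneg _)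
  rw [Complex.norm_exp, Complex.norm_exp]
  have e1 : (w * (y : ℂ)).re = y / 2 := by
    simp [hw]
    ring
  have e2 : ((w - 1) * (y : ℂ)).re = -(y / 2) := by
    simp [hw]
    ring
  rw [e1, e2]

/-- The same for `y ≥ 0`. -/
lemma term_le' {c w : ℂ} (hw : w.re = 1 / 2) {y : ℝ} (hy : 0 ≤ y) :
    ‖c * (cexp (w * y) - cexp ((w - 1) * y))‖ ≤ 2 * ‖c‖ * Real.exp (y / 2) := by
  refine (term_le hw y).trans ?_
  have h1 : Real.exp (-(y / 2)) ≤ Real.exp (y / 2) := Real.exp_le_exp.mpr (by linarith)
  have := norm_nonneg c
  nlinarith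

/-- The Laplace transform of one term. -/
lemma term_lap {c w s : ℂ} (hw : w.re = 1 / 2) (hs : 1 / 2 < s.re) :
    Integrable (fun y : ℝ => c * (cexp (w * y) - cexp ((w - 1) * y)) * cexp (-s * y))
      (volume.restrict (Ioi 0)) ∧
    ∫ y in Ioi (0 : ℝ), c * (cexp (w * y) - cexp ((w - 1) * y)) * cexp (-s * y) =
      c * (1 / (s - w) - 1 / (s - w + 1)) := by
  have h1 : 0 < (s - w).re := by
    rw [Complex.sub_re, hw]
    linarith
  have h2 : 0 < (s - w + 1).re := by
    rw [Complex.add_re, Complex.sub_re, hw, Complex.one_re]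
    linarith
  obtain ⟨i1, j1⟩ := lap_exp h1
  obtain ⟨i2, j2⟩ := lap_exp h2
  have e : (fun y : ℝ => c * (cexp (w * y) - cexp ((w - 1) * y)) * cexp (-s * y)) =
      fun y : ℝ => c * (cexp (-(s - w) * y) - cexp (-(s - w + 1) * y)) := by
    funext y
    have a1 : cexp (-(s - w) * y) = cexp (w * y) * cexp (-s * y) := by
      rw [← Complex.exp_add]
      congr 1
      ring
    have a2 : cexp (-(s - w + 1) * y) = cexp ((w - 1) * y) * cexp (-s * y) := by
      rw [← Complex.exp_add]
      congr 1
      ring
    rw [a1, a2]
    ring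
  rw [e]
  constructor
  · exact (i1.sub i2).const_mul c
  · rw [integral_const_mul, integral_sub i1 i2, j1, j2]

/-- Row LAPV. -/
theorem LAPV_all : P_LAPV := by
  intro ι _ c w hw hc
  refine ⟨?_, ?_, ?_, ?_⟩
  · rw [continuous_iff_continuousAt]
    intro y0
    have hcont : ContinuousOn
        (fun y : ℝ => ∑' i, c i * (cexp (w i * y) - cexp ((w i - 1) * y)))
        (Ioo (y0 - 1) (y0 + 1)) := by
      refine continuousOn_tsum (u := fun i => ‖c i‖ * (2 * Real.exp ((|y0| + 1) / 2)))
        (fun i => Continuous.continuousOn (by fun_prop)) (hc.mul_right _) ?_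
      intro i y hy
      refine (term_le (hw i) y).trans ?_
      refine mul_le_mul_of_nonneg_left ?_ (norm_nonneg _)
      have ha : |y| ≤ |y0| + 1 := by
        rw [abs_le]
        have := neg_abs_le y0
        have := le_abs_self y0
        constructor <;> linarith [hy.1, hy.2]
      have hb := abs_le.mp ha
      have h1 : Real.exp (y / 2) ≤ Real.exp ((|y0| + 1) / 2) :=
        Real.exp_le_exp.mpr (by linarith [hb.2])
      have h2 : Real.exp (-(y / 2)) ≤ Real.exp ((|y0| + 1) / 2) :=
        Real.exp_le_exp.mpr (by linarith [hb.1])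
      linarith
    exact hcont.continuousAt (Ioo_mem_nhds (by linarith) (by linarith))
  · intro y hy
    have hs : Summable fun i => 2 * ‖c i‖ * Real.exp (y / 2) :=
      (hc.mul_left 2).mul_right _
    refine (tsum_of_norm_bounded hs.hasSum fun i => term_le' (hw i) hy).trans (le_of_eq ?_)
    rw [tsum_mul_right, tsum_mul_left]
  · intro s hs
    have hint : ∀ i, Integrable (fun y : ℝ =>
        c i * (cexp (w i * y) - cexp ((w i - 1) * y)) * cexp (-s * y))
        (volume.restrict (Ioi 0)) := fun i => (term_lap (hw i) hs).1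
    have hδ : 0 < s.re - 1 / 2 := by linarith
    have hI := lap_exp (v := ((s.re - 1 / 2 : ℝ) : ℂ)) (by simpa using hδ)
    have hreal : IntegrableOn (fun y : ℝ => Real.exp (-(s.re - 1 / 2) * y)) (Ioi 0) :=
      integrableOn_exp_mul_Ioi (by linarith) 0
    have hn : ∀ i, ∫ y in Ioi (0 : ℝ),
        ‖c i * (cexp (w i * y) - cexp ((w i - 1) * y)) * cexp (-s * y)‖ ≤
        ‖c i‖ * (2 * ∫ y in Ioi (0 : ℝ), Real.exp (-(s.re - 1 / 2) * y)) := by
      intro i
      rw [← mul_assoc, mul_comm ‖c i‖ 2, ← integral_const_mul]
      refine setIntegral_mono_on (hint i).norm (hreal.const_mul _) measurableSet_Ioi ?_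
      intro y hy
      have hy0 : (0 : ℝ) ≤ y := le_of_lt hy
      rw [norm_mul, Complex.norm_exp]
      have e1 : (-s * (y : ℂ)).re = -s.re * y := by simp
      rw [e1]
      have e2 : Real.exp (-(s.re - 1 / 2) * y) = Real.exp (y / 2) * Real.exp (-s.re * y) := by
        rw [← Real.exp_add]
        congr 1
        ring
      rw [e2, ← mul_assoc]
      exact mul_le_mul_of_nonneg_right (term_le' (hw i) hy0) (Real.exp_pos _).le
    have hsum : Summable fun i => ∫ y in Ioi (0 : ℝ),
        ‖c i * (cexp (w i * y) - cexp ((w i - 1) * y)) * cexp (-s * y)‖ :=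
      Summable.of_nonneg_of_le (fun i => integral_nonneg fun y => norm_nonneg _) hn
        (hc.mul_right _)
    have h := (hasSum_integral_of_summable_integral_norm hint hsum).tsum_eq
    have e1 : ∀ y : ℝ, (∑' i, c i * (cexp (w i * y) - cexp ((w i - 1) * y))) * cexp (-s * y) =
        ∑' i, c i * (cexp (w i * y) - cexp ((w i - 1) * y)) * cexp (-s * y) := by
      intro y
      rw [tsum_mul_right]
    simp only [e1]
    rw [← h]
    exact tsum_congr fun i => (term_lap (hw i) hs).2
  · intro s hs
    have hs' : 1 / 2 < s.re := hs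
    set d : ℝ := (s.re - 1 / 2) / 2 with hd
    have hdpos : 0 < d := by rw [hd]; linarith
    have hopen : IsOpen {z : ℂ | 1 / 2 + d < z.re} :=
      isOpen_lt continuous_const Complex.continuous_re
    have hmem : s ∈ {z : ℂ | 1 / 2 + d < z.re} := by
      show 1 / 2 + d < s.re
      rw [hd]
      linarith
    have hdiff : DifferentiableOn ℂ
        (fun z => ∑' i, c i * (1 / (z - w i) - 1 / (z - w i + 1))) {z : ℂ | 1 / 2 + d < z.re} := by
      refine differentiableOn_tsum_of_summable_norm (u := fun i => ‖c i‖ * (1 / d))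
        (hc.mul_right _) ?_ hopen ?_
      · intro i z hz
        have hz1 : z - w i ≠ 0 := by
          intro h
          have := congrArg Complex.re h
          simp only [Complex.sub_re, Complex.zero_re, hw i] at this
          have hz' : 1 / 2 + d < z.re := hz
          linarith
        have hz2 : z - w i + 1 ≠ 0 := by
          intro h
          have := congrArg Complex.re h
          simp only [Complex.sub_re, Complex.zero_re, Complex.add_re, Complex.one_re,
            hw i] at this
          have hz' : 1 / 2 + d < z.re := hz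
          linarith
        refine DifferentiableAt.differentiableWithinAt ?_
        refine DifferentiableAt.const_mul (DifferentiableAt.sub ?_ ?_) _
        · exact (differentiableAt_const _).div (by fun_prop) hz1
        · exact (differentiableAt_const _).div (by fun_prop) hz2
      · intro i z hz
        have hz' : 1 / 2 + d < z.re := hz
        have h1 : d ≤ ‖z - w i‖ := by
          refine le_trans ?_ (Complex.re_le_norm _)
          rw [Complex.sub_re, hw i]
          linarith
        have h2 : 1 ≤ ‖z - w i + 1‖ := by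
          refine le_trans ?_ (Complex.re_le_norm _)
          rw [Complex.add_re, Complex.sub_re, hw i, Complex.one_re]
          linarith
        have hz1 : z - w i ≠ 0 := norm_pos_iff.mp (hdpos.trans_le h1)
        have hz2 : z - w i + 1 ≠ 0 := norm_pos_iff.mp (one_pos.trans_le h2)
        rw [norm_mul]
        refine mul_le_mul_of_nonneg_left ?_ (norm_nonneg _)
        have e : 1 / (z - w i) - 1 / (z - w i + 1) = 1 / ((z - w i) * (z - w i + 1)) := by
          field_simp
          ring
        rw [e, norm_div, norm_one, norm_mul]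
        refine one_div_le_one_div_of_le hdpos ?_
        nlinarith [norm_nonneg (z - w i)]
    exact (hdiff.differentiableAt (hopen.mem_nhds hmem)).differentiableWithinAt

end Pool.Agent.SELB
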