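import Pool.Agent.Lib.SELB.Props

/-!
# MP_af3d17_nt, Selberg's formula: row LINE
-/

set_option autoImplicit false

namespace Pool.Agent.SELB

open Complex Filter Topology MeasureTheory Set

namespace LINEx

/-- the mirror image of a nontrivial zero is a nontrivial zero with the same ordinate -/
lemma mirror {ρ : ℂ} (h : ρ ∈ NZ) : (1 - (starRingEnd ℂ) ρ) ∈ NZ := by
  have hre : (1 - (starRingEnd ℂ) ρ).re = 1 - ρ.re := by simp
  obtain ⟨h0, h1, h2⟩ := h
  refine ⟨?_, ?_, ?_⟩
  · have hne : ∀ n : ℕ, ρ ≠ -n := by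
      intro n hn
      rw [hn] at h1
      simp at h1
      have h0 : (0 : ℝ) ≤ n := Nat.cast_nonneg n
      linarith
    have h3 : ρ ≠ 1 := by
      rintro rfl
      simp at h2
    have h4 := riemannZeta_one_sub hne h3
    rw [h0, mul_zero] at h4
    have h5 : (1 - (starRingEnd ℂ) ρ) = (starRingEnd ℂ) (1 - ρ) := by simp
    rw [h5, riemannZeta_conj, h4, map_zero]
  · rw [hre]; linarith
  · rw [hre]; linarith

end LINEx

theorem LINE_all : P_LINE := by
  intro S hS
  obtain ⟨M, hM⟩ := (S.finite_toSet.image (fun z : ℂ => |z.im|)).bddAbove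
  have hM' : ∀ w ∈ S, |w.im| ≤ M := fun w hw => hM ⟨w, hw, rfl⟩
  refine ⟨max M 1, le_max_right _ _, ?_⟩
  intro ρ hρ
  obtain ⟨hN, hT⟩ := hρ
  have hT' : M < |ρ.im| := lt_of_le_of_lt (le_max_left _ _) hT
  rcases lt_trichotomy ρ.re (1 / 2) with h | h | h
  · exfalso
    have h1 := LINEx.mirror hN
    have h2 : (1 / 2 : ℝ) < (1 - (starRingEnd ℂ) ρ).re := by
      simp only [sub_re, one_re, conj_re]
      linarith
    have h3 := hM' _ (hS _ h2 h1.1)
    simp only [sub_im, one_im, conj_im, sub_neg_eq_add, zero_add] at h3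
    linarith
  · exact h
  · exfalso
    have h3 := hM' _ (hS _ h hN.1)
    linarith

end Pool.Agent.SELB
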