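import Pool.Agent.Lib.SELB.PPEX

/-!
# MP_af3d17_nt, Selberg's formula: row LOW
-/

set_option autoImplicit false

namespace Pool.Agent.SELB

open Complex Filter Topology MeasureTheory Set

theorem LOW_fin (h : P_DENS) (T0 : ℝ) (z0 : ℂ) :
    {ρ | ρ ∈ high T0 ∧ |ρ.im - z0.im| ≤ 1}.Finite := by
  obtain ⟨C, hC⟩ := h 1 one_pos
  refine (hC z0.im).1.subset fun ρ hρ => ⟨hρ.1.1, hρ.2.trans (by norm_num)⟩

theorem LOW_not_high {T0 : ℝ} {w : ℂ} (hw : w ∈ low T0) : w ∉ high T0 := by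
  intro h
  rcases hw with hw | hw
  · exact absurd hw.2 (not_le.2 h.2)
  · rw [mem_singleton_iff] at hw
    have := h.1.2.2
    rw [hw] at this
    simp at this

/-- near every point, `D` minus the sum over a fixed window is bounded -/
theorem LOW_local {F R : ℂ → ℂ} (hF : Mero F R) {T0 : ℝ} {S : Finset ℂ}
    (hS : (S : Set ℂ) = low T0) (hRH : RHs T0) {p q : ℂ → ℂ}
    (hpq : ∀ w ∈ S, ∃ h : ℂ → ℂ, AnalyticAt ℂ h w ∧
      ∀ᶠ z in 𝓝[≠] w, F z = h z + PP (p w) (q w) w z)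
    {N : Finset ℂ} {z0 : ℂ} (hz0 : 1 / 2 ≤ z0.re)
    (hN : ∀ ρ, ρ ∈ N ↔ ρ ∈ high T0 ∧ |ρ.im - z0.im| ≤ 1) :
    ∃ g : ℂ → ℂ, AnalyticAt ℂ g z0 ∧ ∀ᶠ z in 𝓝[≠] z0,
      (F z - ∑ w ∈ S, PP (p w) (q w) w z) - ∑ ρ ∈ N, R ρ / (z - ρ) = g z := by
  classical
  have hS' : ∀ w, w ∈ S ↔ w ∈ low T0 := fun w => by rw [← hS]; exact Finset.mem_coe.symm
  have hR : ∀ (N' : Finset ℂ), z0 ∉ N' → AnalyticAt ℂ (fun z => ∑ ρ ∈ N', R ρ / (z - ρ)) z0 := by
    intro N' hN'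
    refine Finset.analyticAt_fun_sum _ fun ρ hρ => ?_
    exact analyticAt_const.div (analyticAt_id.sub analyticAt_const)
      (sub_ne_zero.2 fun h => hN' (by rw [← h] at hρ; exact hρ))
  have hP : ∀ (S' : Finset ℂ), z0 ∉ S' →
      AnalyticAt ℂ (fun z => ∑ w ∈ S', PP (p w) (q w) w z) z0 := by
    intro S' hS'
    refine Finset.analyticAt_fun_sum _ fun ρ hρ => ?_
    exact PP_analyticAt fun h => hS' (by rw [← h] at hρ; exact hρ)
  by_cases hzS : z0 ∈ S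
  · obtain ⟨h, hh1, hh2⟩ := hpq z0 hzS
    have hzN : z0 ∉ N := fun hc => LOW_not_high ((hS' z0).1 hzS) ((hN z0).1 hc).1
    refine ⟨fun z => (h z - ∑ w ∈ S.erase z0, PP (p w) (q w) w z) - ∑ ρ ∈ N, R ρ / (z - ρ),
      (hh1.sub (hP _ (Finset.notMem_erase z0 S))).sub (hR N hzN), ?_⟩
    filter_upwards [hh2] with z hz
    rw [hz, ← Finset.add_sum_erase S _ hzS]
    ring
  · by_cases hzN : z0 ∈ N
    · have hz1 := ((hN z0).1 hzN).1
      obtain ⟨h, hh1, hh2⟩ := hF.simple z0 hz1.1 (hRH z0 hz1).2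
      refine ⟨fun z => (h z - ∑ w ∈ S, PP (p w) (q w) w z) - ∑ ρ ∈ N.erase z0, R ρ / (z - ρ),
        (hh1.sub (hP _ hzS)).sub (hR _ (Finset.notMem_erase z0 N)), ?_⟩
      filter_upwards [hh2] with z hz
      rw [hz, ← Finset.add_sum_erase N _ hzN]
      ring
    · have hlow : z0 ∉ low T0 := fun h => hzS ((hS' z0).2 h)
      have hζ : riemannZeta z0 ≠ 0 := by
        intro h0
        have h1 : z0.re < 1 := by
          by_contra h
          exact riemannZeta_ne_zero_of_one_le_re (not_lt.1 h) h0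
        have hNZ : z0 ∈ NZ := ⟨h0, by linarith, h1⟩
        have h2 : ¬ |z0.im| ≤ T0 := fun h => hlow (Or.inl ⟨hNZ, h⟩)
        exact hzN ((hN z0).2 ⟨⟨hNZ, not_le.1 h2⟩, by simp⟩)
      refine ⟨fun z => (F z - ∑ w ∈ S, PP (p w) (q w) w z) - ∑ ρ ∈ N, R ρ / (z - ρ),
        ((hF.reg z0 (by linarith) (ne_one_of_not_low hlow) hζ).sub (hP _ hzS)).sub (hR _ hzN), ?_⟩
      exact Eventually.of_forall fun z => rfl

theorem LOW_all (h : P_DENS) : P_LOW := by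
  intro F R hF T0 S hS hRH p q hpq T2
  set D : ℂ → ℂ := fun z => F z - ∑ w ∈ S, PP (p w) (q w) w z with hD
  have hK : IsCompact (Icc (1 / 2 : ℝ) 2 ×ℂ Icc (-T2) T2) := isCompact_Icc.reProdIm isCompact_Icc
  have key : ∃ C : ℝ, 0 ≤ C ∧ ∀ z ∈ (Icc (1 / 2 : ℝ) 2 ×ℂ Icc (-T2) T2), 1 / 2 < z.re →
      z ∉ S → ExpansionAt T0 0 C D R z := by
    refine IsCompact.induction_on (p := fun s => ∃ C : ℝ, 0 ≤ C ∧ ∀ z ∈ s, 1 / 2 < z.re →
      z ∉ S → ExpansionAt T0 0 C D R z) hK ⟨0, le_rfl, fun z hz => absurd hz (notMem_empty z)⟩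
      ?_ ?_ ?_
    · rintro s t hst ⟨C, hC0, hC⟩
      exact ⟨C, hC0, fun z hz => hC z (hst hz)⟩
    · rintro s t ⟨C, hC0, hC⟩ ⟨C', hC0', hC'⟩
      refine ⟨max C C', hC0.trans (le_max_left _ _), fun z hz h1 h2 => ?_⟩
      rcases hz with hz | hz
      · obtain ⟨N, hN, hb⟩ := hC z hz h1 h2
        refine ⟨N, hN, hb.trans ?_⟩
        rw [Real.rpow_zero, mul_one, mul_one]
        exact le_max_left _ _
      · obtain ⟨N, hN, hb⟩ := hC' z hz h1 h2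
        refine ⟨N, hN, hb.trans ?_⟩
        rw [Real.rpow_zero, mul_one, mul_one]
        exact le_max_right _ _
    · intro z0 hz0
      have hre0 : (1 / 2 : ℝ) ≤ z0.re := (Complex.mem_reProdIm.1 hz0).1.1
      set N : Finset ℂ := (LOW_fin h T0 z0).toFinset with hNdef
      have hN : ∀ ρ, ρ ∈ N ↔ ρ ∈ high T0 ∧ |ρ.im - z0.im| ≤ 1 := fun ρ => by
        rw [hNdef, Set.Finite.mem_toFinset, mem_ofPred_eq]
      obtain ⟨g, hg1, hg2⟩ := LOW_local hF hS hRH hpq hre0 hN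
      set E : ℂ → ℂ := fun z => D z - ∑ ρ ∈ N, R ρ / (z - ρ) with hE
      have hgc : ∀ᶠ z in 𝓝 z0, ‖g z‖ < ‖g z0‖ + 1 :=
        hg1.continuousAt.norm.eventually (gt_mem_nhds (lt_add_one _))
      have hball : ∀ᶠ z in 𝓝 z0, dist z z0 < 1 / 2 := Metric.ball_mem_nhds z0 (by norm_num)
      have hev : ∀ᶠ z in 𝓝 z0, ‖E z‖ ≤ ‖g z0‖ + 1 + ‖E z0‖ ∧ dist z z0 < 1 / 2 := by
        filter_upwards [hgc, hball, eventually_nhdsWithin_iff.1 hg2] with z h1 h2 h3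
        refine ⟨?_, h2⟩
        by_cases hz : z = z0
        · subst hz
          have := norm_nonneg (g z)
          linarith
        · have h4 := h3 hz
          have h5 : E z = g z := h4
          rw [h5]
          have := norm_nonneg (E z0)
          linarith
      refine ⟨{z | ‖E z‖ ≤ ‖g z0‖ + 1 + ‖E z0‖ ∧ dist z z0 < 1 / 2},
        mem_nhdsWithin_of_mem_nhds hev, ‖g z0‖ + 1 + ‖E z0‖, by positivity, ?_⟩
      rintro z ⟨h1, h2⟩ _ _
      have him : |z.im - z0.im| ≤ 1 / 2 := by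
        rw [← Complex.sub_im]
        refine (Complex.abs_im_le_norm _).trans ?_
        rw [← dist_eq_norm]
        exact h2.le
      refine ⟨N, ⟨fun ρ hρ => ?_, fun ρ hρ hρ2 => ?_⟩, ?_⟩
      · obtain ⟨h3, h4⟩ := (hN ρ).1 hρ
        refine ⟨h3, ?_⟩
        rw [abs_le] at h4 him ⊢
        constructor <;> linarith [h4.1, h4.2, him.1, him.2]
      · refine (hN ρ).2 ⟨hρ, ?_⟩
        rw [abs_le] at hρ2 him ⊢
        constructor <;> linarith [hρ2.1, hρ2.2, him.1, him.2]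
      · rw [Real.rpow_zero, mul_one]
        exact h1
  obtain ⟨C, hC0, hC⟩ := key
  refine ⟨C, hC0, fun z h1 h2 h3 h4 => hC z ?_ h1 h4⟩
  exact Complex.mem_reProdIm.2 ⟨⟨h1.le, h2⟩, abs_le.1 h3⟩

end Pool.Agent.SELB
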