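import Pool.Agent.Lib.SELB.Props

/-!
# MP_af3d17_nt, Selberg's formula, row LS: the Dirichlet series
-/

set_option autoImplicit false

namespace Pool.Agent.SELB

open Complex Filter Topology MeasureTheory Set

lemma LS_vM : IsDS vM F1 := by
  intro z hz
  have h1 := ArithmeticFunction.LSeriesSummable_vonMangoldt hz
  have h2 := h1.LSeriesHasSum
  rw [ArithmeticFunction.LSeries_vonMangoldt_eq_deriv_riemannZeta_div hz] at h2
  have h3 : F1 z = -deriv riemannZeta z / riemannZeta z := by rw [F1, neg_div]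
  rw [h3]
  exact h2

lemma LS_log2 {z : ℂ} (hz : 1 < z.re) :
    LSeriesHasSum (LSeries.logMul (LSeries.logMul 1)) z (deriv (deriv riemannZeta) z) := by
  have hab : LSeries.abscissaOfAbsConv 1 < z.re := by
    rw [LSeries.abscissaOfAbsConv_one]
    exact_mod_cast hz
  have hab2 : LSeries.abscissaOfAbsConv (LSeries.logMul 1) < z.re := by
    rw [LSeries.abscissaOfAbsConv_logMul]
    exact hab
  have hs := LSeriesSummable_logMul_of_lt_re hab2
  have h1 : ∀ w : ℂ, 1 < w.re → LSeries 1 =ᶠ[𝓝 w] riemannZeta := by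
    intro w hw
    filter_upwards [(isOpen_lt continuous_const Complex.continuous_re).mem_nhds hw] with v hv
    exact LSeries_one_eq_riemannZeta hv
  have h2 : deriv riemannZeta =ᶠ[𝓝 z] fun w => -LSeries (LSeries.logMul 1) w := by
    filter_upwards [(isOpen_lt continuous_const Complex.continuous_re).mem_nhds hz] with w hw
    rw [← (h1 w hw).deriv_eq]
    apply LSeries_deriv
    rw [LSeries.abscissaOfAbsConv_one]
    exact_mod_cast hw
  have h3 : deriv (deriv riemannZeta) z = LSeries (LSeries.logMul (LSeries.logMul 1)) z := by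
    rw [h2.deriv_eq, deriv.fun_neg, LSeries_deriv hab2, neg_neg]
  rw [h3]
  exact hs.LSeriesHasSum

lemma LS_mu {z : ℂ} (hz : 1 < z.re) :
    LSeriesHasSum (fun n => ((ArithmeticFunction.moebius n : ℤ) : ℂ)) z (riemannZeta z)⁻¹ := by
  have h1 : LSeriesSummable (fun n => ((ArithmeticFunction.moebius n : ℤ) : ℂ)) z :=
    ArithmeticFunction.LSeriesSummable_moebius_iff.2 hz
  have h2 := LSeries_one_mul_Lseries_moebius hz
  rw [LSeries_one_eq_riemannZeta hz] at h2
  have h3 := h1.LSeriesHasSum
  rw [eq_inv_of_mul_eq_one_right h2] at h3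
  exact h3

lemma LS_selberg : IsDS selberg F2 := by
  intro z hz
  have h := (LS_mu hz).convolution (LS_log2 hz)
  have h3 : F2 z = (riemannZeta z)⁻¹ * deriv (deriv riemannZeta) z := by
    rw [F2, div_eq_mul_inv, mul_comm]
  rw [h3]
  refine (LSeriesHasSum_congr _ _ ?_).2 h
  intro n hn
  rw [LSeries.convolution_def]
  simp only
  rw [Nat.sum_divisorsAntidiagonal (fun d e : ℕ => ((ArithmeticFunction.moebius d : ℤ) : ℂ) *
    LSeries.logMul (LSeries.logMul 1) e), selberg]
  push_cast
  refine Finset.sum_congr rfl fun d hd => ?_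
  have hdvd := Nat.dvd_of_mem_divisors hd
  have hd0 : d ≠ 0 := (Nat.pos_of_mem_divisors hd).ne'
  congr 1
  simp only [LSeries.logMul, Pi.one_apply, mul_one]
  rw [Nat.cast_div hdvd (by exact_mod_cast hd0), ← sq]
  have h4 : ((n : ℂ) / (d : ℂ)) = (((n : ℝ) / (d : ℝ) : ℝ) : ℂ) := by push_cast; rfl
  rw [h4, Complex.ofReal_log (by positivity)]

theorem LS_all : P_LS := ⟨LS_vM, LS_selberg⟩

end Pool.Agent.SELB
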