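import Pool.Agent.Lib.SELB.Props
import Pool.Agent.Lib.MP_af3d17_nt_h98.Count

/-!
# MP_af3d17_nt, Selberg's formula, row MERO1: the local structure of `-ζ'/ζ`
-/

set_option autoImplicit false

namespace Pool.Agent.SELB

open Complex Filter Topology MeasureTheory Set

lemma MERO_analytic {w : ℂ} (hw : w ≠ 1) : AnalyticAt ℂ riemannZeta w := by
  have h2 : DifferentiableOn ℂ riemannZeta {1}ᶜ := fun s hs =>
    (differentiableAt_riemannZeta hs).differentiableWithinAt
  exact h2.analyticAt (isOpen_compl_singleton.mem_nhds hw)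

/-- the factor at the pole -/
lemma MERO_local_one : ∃ g : ℂ → ℂ, AnalyticAt ℂ g 1 ∧ g 1 ≠ 0 ∧
    ∀ᶠ z in 𝓝[≠] (1 : ℂ), riemannZeta z = (z - 1) ^ (-1 : ℤ) * g z := by
  refine ⟨Function.update (fun z => (z - 1) * riemannZeta z) 1 1, ?_, ?_, ?_⟩
  · apply Complex.analyticAt_of_differentiable_on_punctured_nhds_of_continuousAt
    · filter_upwards [self_mem_nhdsWithin] with z hz
      have hz1 : z ≠ 1 := hz
      have h1 : Function.update (fun z => (z - 1) * riemannZeta z) 1 1 =ᶠ[𝓝 z]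
          fun z => (z - 1) * riemannZeta z := by
        filter_upwards [isOpen_compl_singleton.mem_nhds hz1] with v hv
        exact Function.update_of_ne hv _ _
      refine DifferentiableAt.congr_of_eventuallyEq ?_ h1
      exact (differentiableAt_id.sub_const 1).mul (differentiableAt_riemannZeta hz1)
    · exact continuousAt_update_same.2 riemannZeta_residue_one
  · simp
  · filter_upwards [self_mem_nhdsWithin] with z hz
    have hz1 : z ≠ 1 := hz
    rw [Function.update_of_ne hz1]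
    have h2 : z - 1 ≠ 0 := sub_ne_zero.2 hz1
    simp only [zpow_neg, zpow_one]
    field_simp

/-- the local factor at every point -/
lemma MERO_local (w : ℂ) : ∃ (k : ℤ) (g : ℂ → ℂ), AnalyticAt ℂ g w ∧ g w ≠ 0 ∧
    ∀ᶠ z in 𝓝[≠] w, riemannZeta z = (z - w) ^ k * g z := by
  by_cases hw : w = 1
  · subst hw
    obtain ⟨g, h1, h2, h3⟩ := MERO_local_one
    exact ⟨-1, g, h1, h2, h3⟩
  · obtain ⟨g, h1, h2, h3⟩ := (MERO_analytic hw).analyticOrderAt_ne_top.1
      (Pool.Agent.ZP.order_ne_top w)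
    refine ⟨(analyticOrderNatAt riemannZeta w : ℕ), g, h1, h2, ?_⟩
    filter_upwards [h3.filter_mono nhdsWithin_le_nhds] with z hz
    rw [hz, zpow_natCast, smul_eq_mul]

/-- the local factor at a simple zero -/
lemma MERO_local_simple {w : ℂ} (hw : w ≠ 1) (h0 : riemannZeta w = 0)
    (h1 : deriv riemannZeta w ≠ 0) : ∃ g : ℂ → ℂ, AnalyticAt ℂ g w ∧ g w ≠ 0 ∧
    ∀ᶠ z in 𝓝 w, riemannZeta z = (z - w) * g z := by
  have h2 := (MERO_analytic hw).analyticOrderAt_eq_one_of_zero_deriv_ne_zero h0 h1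
  obtain ⟨g, h3, h4, h5⟩ := (MERO_analytic hw).analyticOrderAt_ne_top.1
      (Pool.Agent.ZP.order_ne_top w)
  refine ⟨g, h3, h4, ?_⟩
  have h6 : analyticOrderNatAt riemannZeta w = 1 := by
    rw [analyticOrderNatAt, h2]
    rfl
  filter_upwards [h5] with z hz
  rw [hz, h6, pow_one, smul_eq_mul]

/-- the logarithmic derivative near `w` -/
lemma MERO_logDeriv {w : ℂ} {k : ℤ} {g : ℂ → ℂ} (hg : AnalyticAt ℂ g w) (hg0 : g w ≠ 0)
    (h : ∀ᶠ z in 𝓝[≠] w, riemannZeta z = (z - w) ^ k * g z) :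
    ∀ᶠ z in 𝓝[≠] w, riemannZeta z ≠ 0 ∧
      deriv riemannZeta z / riemannZeta z = k / (z - w) + deriv g z / g z := by
  have h1 := eventually_eventually_nhdsWithin.2 h
  have h2 : ∀ᶠ z in 𝓝[≠] w, AnalyticAt ℂ g z :=
    hg.eventually_analyticAt.filter_mono nhdsWithin_le_nhds
  have h3 : ∀ᶠ z in 𝓝[≠] w, g z ≠ 0 :=
    (hg.continuousAt.eventually_ne hg0).filter_mono nhdsWithin_le_nhds
  filter_upwards [h, h1, h2, h3, self_mem_nhdsWithin] with z hz hz1 hz2 hz3 hz4
  have hzw : z ≠ w := hz4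
  have hsub : z - w ≠ 0 := sub_ne_zero.2 hzw
  have hev : riemannZeta =ᶠ[𝓝 z] fun z => (z - w) ^ k * g z := by
    have h5 : 𝓝[≠] z ≤ 𝓝 z := nhdsWithin_le_nhds
    have h6 : 𝓝[{w}ᶜ] z = 𝓝 z := isOpen_compl_singleton.nhdsWithin_eq hz4
    rw [h6] at hz1
    exact hz1
  have hd : HasDerivAt (fun z => (z - w) ^ k * g z)
      (((k : ℂ) * (z - w) ^ (k - 1) * 1) * g z + (z - w) ^ k * deriv g z) z := by
    refine HasDerivAt.mul ?_ hz2.differentiableAt.hasDerivAt
    exact (hasDerivAt_zpow k (z - w) (Or.inl hsub)).comp z ((hasDerivAt_id z).sub_const w)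
  have hp : (z - w) ^ k ≠ 0 := zpow_ne_zero _ hsub
  refine ⟨by rw [hz]; exact mul_ne_zero hp hz3, ?_⟩
  rw [hev.deriv_eq, hd.deriv, hz, zpow_sub_one₀ hsub]
  field_simp

theorem MERO1_all : P_MERO1 := by
  refine ⟨?_, ?_, ?_⟩
  · intro w hw
    obtain ⟨k, g, hg, hg0, h⟩ := MERO_local w
    refine ⟨0, -k, fun z => -(deriv g z / g z), (hg.deriv.div hg hg0).neg, ?_⟩
    filter_upwards [MERO_logDeriv hg hg0 h] with z hz
    rw [F1, hz.2, PP]
    ring
  · intro w hw h1
    have hw1 : w ≠ 1 := by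
      rintro rfl
      have := hw.2.2
      simp at this
    obtain ⟨g, hg, hg0, h⟩ := MERO_local_simple hw1 hw.1 h1
    have h' : ∀ᶠ z in 𝓝[≠] w, riemannZeta z = (z - w) ^ (1 : ℤ) * g z := by
      filter_upwards [h.filter_mono nhdsWithin_le_nhds] with z hz
      rw [hz, zpow_one]
    refine ⟨fun z => -(deriv g z / g z), (hg.deriv.div hg hg0).neg, ?_⟩
    filter_upwards [MERO_logDeriv hg hg0 h'] with z hz
    rw [F1, hz.2, res1]
    push_cast
    ring
  · intro w hw hw1 h0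
    exact ((MERO_analytic hw1).deriv.div (MERO_analytic hw1) h0).neg

end Pool.Agent.SELB
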