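import Pool.Agent.Lib.SELB.MERO1

/-!
# MP_af3d17_nt, Selberg's formula, row MERO2: the local structure of `ζ''/ζ`
-/

set_option autoImplicit false

namespace Pool.Agent.SELB

open Complex Filter Topology MeasureTheory Set

/-- the expansion of `ζ''/ζ` near `w` -/
lemma MERO_second {w : ℂ} {k : ℤ} {g : ℂ → ℂ} (hg : AnalyticAt ℂ g w) (hg0 : g w ≠ 0)
    (h : ∀ᶠ z in 𝓝[≠] w, riemannZeta z = (z - w) ^ k * g z) :
    ∀ᶠ z in 𝓝[≠] w, F2 z = -(k / (z - w) ^ 2) + deriv (fun z => deriv g z / g z) z +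
      (k / (z - w) + deriv g z / g z) ^ 2 := by
  have hu : AnalyticAt ℂ (fun z => deriv g z / g z) w := hg.deriv.div hg hg0
  have h0 := MERO_logDeriv hg hg0 h
  have h1 := eventually_eventually_nhdsWithin.2 h0
  have h2 : ∀ᶠ z in 𝓝[≠] w, AnalyticAt ℂ (fun z => deriv g z / g z) z :=
    hu.eventually_analyticAt.filter_mono nhdsWithin_le_nhds
  have h3 : ∀ᶠ z in 𝓝[≠] w, z ≠ 1 := by
    by_cases hw : w = 1
    · subst hw
      exact self_mem_nhdsWithin
    · exact (isOpen_compl_singleton.mem_nhds hw : ({1}ᶜ : Set ℂ) ∈ 𝓝 w) |>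
        fun h => mem_nhdsWithin_of_mem_nhds h
  filter_upwards [h0, h1, h2, h3, self_mem_nhdsWithin] with z hz hz1 hz2 hz3 hz4
  have hzw : z ≠ w := hz4
  have hsub : z - w ≠ 0 := sub_ne_zero.2 hzw
  have h6 : 𝓝[{w}ᶜ] z = 𝓝 z := isOpen_compl_singleton.nhdsWithin_eq hz4
  rw [h6] at hz1
  have hev : deriv riemannZeta =ᶠ[𝓝 z]
      fun v => ((k : ℂ) * (v - w)⁻¹ + deriv g v / g v) * riemannZeta v := by
    filter_upwards [hz1] with v hv
    have h7 := hv.2
    rw [div_eq_iff hv.1] at h7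
    rw [h7, div_eq_mul_inv (k : ℂ)]
  have hinv : HasDerivAt (fun v : ℂ => (v - w)⁻¹) (-(1 : ℂ) / (z - w) ^ 2) z :=
    ((hasDerivAt_id z).sub_const w).inv hsub
  have hd := ((hinv.const_mul (k : ℂ)).add hz2.differentiableAt.hasDerivAt).mul
    (differentiableAt_riemannZeta hz3).hasDerivAt
  have hd2 : deriv (deriv riemannZeta) z = ((k : ℂ) * (-(1 : ℂ) / (z - w) ^ 2) +
      deriv (fun z => deriv g z / g z) z) * riemannZeta z +
      ((k : ℂ) * (z - w)⁻¹ + deriv g z / g z) * deriv riemannZeta z := by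
    rw [hev.deriv_eq]
    exact hd.deriv
  have h8 : deriv riemannZeta z = (k / (z - w) + deriv g z / g z) * riemannZeta z := by
    have h7 := hz.2
    rw [div_eq_iff hz.1] at h7
    exact h7
  rw [F2, hd2, h8]
  have hz0 := hz.1
  rw [div_eq_iff hz0, div_eq_mul_inv (k : ℂ)]
  ring

lemma MERO_dslope {u : ℂ → ℂ} {w z : ℂ} (hz : z ≠ w) :
    u z / (z - w) = u w / (z - w) + dslope u w z := by
  have hsub : z - w ≠ 0 := sub_ne_zero.2 hz
  rw [dslope_of_ne _ hz, slope_def_field]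
  field_simp
  ring

lemma MERO_expand {w : ℂ} {k : ℤ} {g : ℂ → ℂ} (hg : AnalyticAt ℂ g w) (hg0 : g w ≠ 0)
    (h : ∀ᶠ z in 𝓝[≠] w, riemannZeta z = (z - w) ^ k * g z) :
    ∃ H : ℂ → ℂ, AnalyticAt ℂ H w ∧ ∀ᶠ z in 𝓝[≠] w,
      F2 z = H z + ((k * (k - 1) : ℤ) : ℂ) / (z - w) ^ 2 + 2 * k * (deriv g w / g w) / (z - w) := by
  have hu : AnalyticAt ℂ (fun z => deriv g z / g z) w := hg.deriv.div hg hg0
  refine ⟨fun z => deriv (fun z => deriv g z / g z) z + (deriv g z / g z) ^ 2 +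
    2 * k * dslope (fun z => deriv g z / g z) w z, ?_, ?_⟩
  · exact (hu.deriv.add (hu.pow 2)).add (analyticAt_const.mul (Pool.Agent.ZP.analyticAt_dslope hu))
  · filter_upwards [MERO_second hg hg0 h, self_mem_nhdsWithin] with z hz hz4
    have hzw : z ≠ w := hz4
    have hsub : z - w ≠ 0 := sub_ne_zero.2 hzw
    have h1 := MERO_dslope (u := fun z => deriv g z / g z) hzw
    rw [hz]
    have h2 : ((k : ℂ) / (z - w) + deriv g z / g z) ^ 2 = k ^ 2 / (z - w) ^ 2 +
        2 * k * (deriv g z / g z / (z - w)) + (deriv g z / g z) ^ 2 := by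
      field_simp
      ring
    rw [h2, h1]
    push_cast
    field_simp
    ring

theorem MERO2_all : P_MERO2 := by
  refine ⟨?_, ?_, ?_⟩
  · intro w hw
    obtain ⟨k, g, hg, hg0, h⟩ := MERO_local w
    obtain ⟨H, hH, h1⟩ := MERO_expand hg hg0 h
    refine ⟨((k * (k - 1) : ℤ) : ℂ), 2 * k * (deriv g w / g w), H, hH, ?_⟩
    filter_upwards [h1] with z hz
    rw [hz, PP]
    ring
  · intro w hw h1
    have hw1 : w ≠ 1 := by
      rintro rfl
      have := hw.2.2
      simp at this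
    obtain ⟨g, hg, hg0, h⟩ := MERO_local_simple hw1 hw.1 h1
    have h' : ∀ᶠ z in 𝓝[≠] w, riemannZeta z = (z - w) ^ (1 : ℤ) * g z := by
      filter_upwards [h.filter_mono nhdsWithin_le_nhds] with z hz
      rw [hz, zpow_one]
    obtain ⟨H, hH, h2⟩ := MERO_expand hg hg0 h'
    refine ⟨H, hH, ?_⟩
    -- the derivatives at the zero
    have hev : riemannZeta =ᶠ[𝓝 w] fun z => (z - w) * g z := h
    have hga : ∀ᶠ z in 𝓝 w, AnalyticAt ℂ g z := hg.eventually_analyticAt
    have hd1 : deriv riemannZeta =ᶠ[𝓝 w] fun z => g z + (z - w) * deriv g z := by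
      filter_upwards [hga, hev.eventuallyEq_nhds] with z hz hz2
      have h3 : HasDerivAt (fun z => (z - w) * g z) (1 * g z + (z - w) * deriv g z) z :=
        ((hasDerivAt_id z).sub_const w).mul hz.differentiableAt.hasDerivAt
      rw [hz2.deriv_eq, h3.deriv, one_mul]
    have hd1w : deriv riemannZeta w = g w := by
      rw [hd1.eq_of_nhds]
      simp
    have hd2 : deriv (deriv riemannZeta) w = 2 * deriv g w := by
      have h3 : HasDerivAt (fun z => g z + (z - w) * deriv g z)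
          (deriv g w + (1 * deriv g w + (w - w) * deriv (deriv g) w)) w :=
        hg.differentiableAt.hasDerivAt.add
          (((hasDerivAt_id w).sub_const w).mul hg.deriv.differentiableAt.hasDerivAt)
      rw [hd1.deriv_eq, h3.deriv]
      ring
    filter_upwards [h2] with z hz
    rw [hz, res2, hd1w, hd2]
    push_cast
    ring
  · intro w hw hw1 h0
    exact (MERO_analytic hw1).deriv.deriv.div (MERO_analytic hw1) h0

end Pool.Agent.SELB
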