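import Pool.Agent.Lib.SELB.Props
import Pool.Agent.Lib.MP_af3d17_nt_h98.Near

/-!
# MP_af3d17_nt, Selberg's formula, row PAIR: two close zeros make `ζ''/ζ` large
-/

set_option autoImplicit false

namespace Pool.Agent.SELB

open Complex Filter Topology MeasureTheory Set Metric

open Pool.Agent.ZP (pt pt_re pt_im)

/-- `ζ''/ζ` from a local factorisation -/
lemma PAIR_F2 {k : ℕ} {z : Fin k → ℂ} {g : ℂ → ℂ} {c s : ℂ}
    (hg : AnalyticOnNhd ℂ g (closedBall c (98 / 10)))
    (hf : ∀ s ∈ closedBall c (98 / 10), riemannZeta s = (∏ i, (s - z i)) * g s)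
    (hs : s ∈ closedBall c (96 / 10)) (hz : riemannZeta s ≠ 0) (hs1 : s ≠ 1) :
    F2 s = -(∑ i, 1 / (s - z i) ^ 2) + deriv (logDeriv g) s +
      (∑ i, 1 / (s - z i) + logDeriv g s) ^ 2 := by
  have hs8 : s ∈ closedBall c (98 / 10) := closedBall_subset_closedBall (by norm_num) hs
  have hsb : s ∈ ball c (97 / 10) := by
    rw [mem_ball]; rw [mem_closedBall] at hs; linarith
  have hev : ∀ᶠ v in 𝓝 s, deriv riemannZeta v =
      (∑ i, (v - z i)⁻¹ + logDeriv g v) * riemannZeta v := by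
    filter_upwards [isOpen_ball.mem_nhds hsb,
      (differentiableAt_riemannZeta hs1).continuousAt.eventually_ne hz] with v hv hv0
    have h1 := Pool.Agent.ZP.A.logDeriv_fact hg hf (ball_subset_closedBall hv) hv0
    rw [logDeriv_apply, div_eq_iff hv0] at h1
    rw [h1]
    simp only [one_div]
  have h2 : (∏ i, (s - z i)) * g s ≠ 0 := by rw [← hf s hs8]; exact hz
  have h3 : ∏ i, (s - z i) ≠ 0 := left_ne_zero_of_mul h2
  have h4 : g s ≠ 0 := right_ne_zero_of_mul h2
  have h5 : ∀ i ∈ (Finset.univ : Finset (Fin k)), s - z i ≠ 0 := Finset.prod_ne_zero_iff.1 h3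
  have hd1 : HasDerivAt (fun v => ∑ i, (v - z i)⁻¹) (∑ i, (-(1 : ℂ) / (s - z i) ^ 2)) s :=
    HasDerivAt.fun_sum fun i hi => ((hasDerivAt_id s).sub_const (z i)).inv (h5 i hi)
  have hd2 : HasDerivAt (logDeriv g) (deriv (logDeriv g) s) s := by
    have h6 : DifferentiableAt ℂ (logDeriv g) s :=
      ((hg s hs8).deriv.div (hg s hs8) h4).differentiableAt
    exact h6.hasDerivAt
  have hd3 := (hd1.add hd2).mul (differentiableAt_riemannZeta hs1).hasDerivAt
  have h7 : deriv (deriv riemannZeta) s = (∑ i, (-(1 : ℂ) / (s - z i) ^ 2) +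
      deriv (logDeriv g) s) * riemannZeta s + (∑ i, (s - z i)⁻¹ + logDeriv g s) *
      deriv riemannZeta s := by
    have hev' : deriv riemannZeta =ᶠ[𝓝 s] fun v =>
      (∑ i, (v - z i)⁻¹ + logDeriv g v) * riemannZeta v := hev
    rw [hev'.deriv_eq]
    exact hd3.deriv
  have h8 := hev.self_of_nhds
  rw [F2, h7, h8, div_eq_iff hz]
  simp only [one_div, neg_div, Finset.sum_neg_distrib]
  ring

/-- the real inequality at the end -/
lemma PAIR_real {δ H X A : ℝ} (hδ : 0 < δ) (hδ1 : δ ≤ 1) (hH : 0 ≤ H) (hHδ : H * δ ≤ 1 / 100)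
    (hA : 3 / (2 * δ) ≤ A) (hAX : A ≤ X) :
    1 / (2 * δ ^ 2) ≤ (X - H) ^ 2 - A / δ - 20 * H := by
  have hX : 3 / (2 * δ) ≤ X := hA.trans hAX
  set u : ℝ := 1 / δ with hu
  have hu0 : 0 < u := by positivity
  have h1 : 3 / (2 * δ) = 3 / 2 * u := by rw [hu]; field_simp
  have h2 : 1 / (2 * δ ^ 2) = u ^ 2 / 2 := by rw [hu]; field_simp
  have h3 : A / δ = A * u := by rw [hu]; field_simp
  have h4 : H ≤ u / 100 := by
    rw [hu, div_div, le_div_iff₀ (by positivity)]
    linarith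
  have h5 : 1 ≤ u := by
    rw [hu, le_div_iff₀ hδ]
    linarith
  rw [h1] at hX
  rw [h2, h3]
  have h6 : A * u ≤ X * u := mul_le_mul_of_nonneg_right hAX hu0.le
  have h7 : 0 ≤ (X - 3 / 2 * u) * (X - u - 2 * H) := by
    apply mul_nonneg (by linarith)
    linarith
  nlinarith [mul_nonneg hH hu0.le, mul_le_mul_of_nonneg_right h4 hu0.le,
    mul_le_mul_of_nonneg_left h5 hu0.le]

/-- a multiple zero occurs twice in the factorisation -/
lemma PAIR_double {k : ℕ} {z : Fin k → ℂ} {g : ℂ → ℂ} {c ρ : ℂ}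
    (hg : AnalyticOnNhd ℂ g (closedBall c (98 / 10)))
    (hf : ∀ s ∈ closedBall c (98 / 10), riemannZeta s = (∏ i, (s - z i)) * g s)
    (hρ : ρ ∈ closedBall c (97 / 10)) (hg0 : g ρ ≠ 0) {i : Fin k} (hi : z i = ρ)
    (hd : deriv riemannZeta ρ = 0) : ∃ j, j ≠ i ∧ z j = ρ := by
  by_contra hcon
  push Not at hcon
  have hs8 : ρ ∈ closedBall c (98 / 10) := closedBall_subset_closedBall (by norm_num) hρ
  have hsb : ρ ∈ ball c (98 / 10) := by
    rw [mem_ball]; rw [mem_closedBall] at hρ; linarith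
  have hev : riemannZeta =ᶠ[𝓝 ρ] fun v => (v - ρ) *
      ((∏ j ∈ Finset.univ.erase i, (v - z j)) * g v) := by
    filter_upwards [isOpen_ball.mem_nhds hsb] with v hv
    rw [hf v (ball_subset_closedBall hv),
      ← Finset.mul_prod_erase Finset.univ (fun j => v - z j) (Finset.mem_univ i), hi, mul_assoc]
  have hG : DifferentiableAt ℂ (fun v => (∏ j ∈ Finset.univ.erase i, (v - z j)) * g v) ρ := by
    refine DifferentiableAt.mul ?_ (hg ρ hs8).differentiableAt
    fun_prop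
  have h1 := ((hasDerivAt_id ρ).sub_const ρ).mul hG.hasDerivAt
  rw [hev.deriv_eq] at hd
  have h2 := h1.deriv
  have h3 : (∏ j ∈ Finset.univ.erase i, (ρ - z j)) * g ρ = 0 := by
    have h4 : deriv (fun v => (v - ρ) * ((∏ j ∈ Finset.univ.erase i, (v - z j)) * g v)) ρ =
      1 * ((∏ j ∈ Finset.univ.erase i, (ρ - z j)) * g ρ) + (ρ - ρ) *
        deriv (fun v => (∏ j ∈ Finset.univ.erase i, (v - z j)) * g v) ρ := h2
    rw [h4] at hd
    simpa using hd
  rcases mul_eq_zero.1 h3 with h | h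
  · obtain ⟨j, hj, hj0⟩ := Finset.prod_eq_zero_iff.1 h
    exact hcon j (Finset.ne_of_mem_erase hj) (sub_eq_zero.1 hj0).symm
  · exact hg0 h

theorem PAIR_all : P_PAIR := by
  intro T0 hRH
  obtain ⟨C, T1, hC, hT1, hloc⟩ := Pool.Agent.ZP.local_zeta
  refine ⟨min (1 / (100 * C)) (1 / 10), max T1 (T0 + 20), by positivity,
    hT1.trans (le_max_left _ _), ?_⟩
  intro ρ hρ hT δ hδ hδc hpair
  set t : ℝ := ρ.im with ht
  have htT1 : T1 ≤ t := (le_max_left _ _).trans hT
  have htT0 : T0 + 20 ≤ t := (le_max_right _ _).trans hT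
  have ht100 : 100 ≤ t := hT1.trans htT1
  have ht0 : 0 < t := by linarith
  have hlog : 4 ≤ Real.log t := by
    rw [Real.le_log_iff_exp_le ht0]
    have h1 : Real.exp 1 < 2.7182818286 := Real.exp_one_lt_d9
    have h2 : Real.exp 4 = (Real.exp 1) ^ 4 := by
      rw [← Real.exp_nat_mul]; norm_num
    rw [h2]
    have h3 : (Real.exp 1) ^ 4 ≤ 2.72 ^ 4 := by
      apply pow_le_pow_left₀ (Real.exp_pos 1).le
      linarith
    refine h3.trans ?_
    norm_num
    linarith
  have hδc1 : δ * Real.log t ≤ 1 / (100 * C) := hδc.trans (min_le_left _ _)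
  have hδc2 : δ * Real.log t ≤ 1 / 10 := hδc.trans (min_le_right _ _)
  have hδ1 : δ ≤ 1 / 10 := by nlinarith
  obtain ⟨k, z, g, hk, hz, hg, hf, hg0, hgl⟩ := hloc t htT1
  -- the zeros are on the line
  have hre : ∀ w : ℂ, riemannZeta w = 0 → 0 < w.re → |w.im - t| ≤ 97 / 10 → w.re = 1 / 2 := by
    intro w hw hw0 hwt
    rw [abs_le] at hwt
    refine hRH w ⟨⟨hw, hw0, ?_⟩, ?_⟩
    · by_contra h5
      exact riemannZeta_ne_zero_of_one_le_re (not_lt.mp h5) hw
    · have h6 : w.im ≤ |w.im| := le_abs_self _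
      linarith
  have hzre : ∀ i, (z i).re = 1 / 2 := by
    intro i
    obtain ⟨h1, h2⟩ := hz i
    rw [mem_closedBall, dist_eq_norm] at h1
    have h3 := (Complex.abs_re_le_norm (z i - pt 10 t)).trans h1
    have h4 := (Complex.abs_im_le_norm (z i - pt 10 t)).trans h1
    rw [Complex.sub_re, pt_re, abs_le] at h3
    rw [Complex.sub_im, pt_im] at h4
    exact hre (z i) h2 (by linarith) h4
  have hρre : ρ.re = 1 / 2 := by
    refine hre ρ hρ.1 hρ.2.1 ?_
    rw [← ht, sub_self, abs_zero]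
    norm_num
  -- the zeros near the point occur
  have hball : ∀ w : ℂ, w.re = 1 / 2 → |w.im - t| ≤ 1 / 10 →
      w ∈ closedBall (pt 10 t) (97 / 10) := by
    intro w hw1 hw2
    rw [mem_closedBall, dist_eq_norm]
    have h1 : ‖w - pt 10 t‖ ≤ |(w - pt 10 t).re| + |(w - pt 10 t).im| :=
      Complex.norm_le_abs_re_add_abs_im _
    refine h1.trans ?_
    rw [Complex.sub_re, Complex.sub_im, pt_re, pt_im, hw1]
    have h2 : |(1 / 2 : ℝ) - 10| = 19 / 2 := by norm_num [abs_of_neg]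
    rw [h2]
    linarith
  have hfind : ∀ w : ℂ, riemannZeta w = 0 → w ∈ closedBall (pt 10 t) (97 / 10) →
      ∃ i, z i = w := by
    intro w hw hwb
    have h3 := hf w (closedBall_subset_closedBall (by norm_num) hwb)
    rw [hw] at h3
    rcases mul_eq_zero.mp h3.symm with h4 | h4
    · rw [Finset.prod_eq_zero_iff] at h4
      obtain ⟨i, -, hi⟩ := h4
      exact ⟨i, (sub_eq_zero.mp hi).symm⟩
    · exact absurd h4 (hg0 _ hwb)
  have hρb : ρ ∈ closedBall (pt 10 t) (97 / 10) := by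
    refine hball ρ hρre ?_
    rw [← ht, sub_self, abs_zero]
    norm_num
  obtain ⟨i, hi⟩ := hfind ρ hρ.1 hρb
  have hj : ∃ j, j ≠ i ∧ |(z j).im - t| ≤ δ := by
    rcases hpair with hd | ⟨ρ', hρ', hne, hdist⟩
    · obtain ⟨j, hji, hj⟩ := PAIR_double hg hf hρb (hg0 ρ hρb) hi hd
      refine ⟨j, hji, ?_⟩
      rw [hj, ← ht, sub_self, abs_zero]
      exact hδ.le
    · have h1 : ρ'.re = 1 / 2 := hre ρ' hρ'.1 hρ'.2.1 (by linarith)
      obtain ⟨j, hj⟩ := hfind ρ' hρ'.1 (hball ρ' h1 (by linarith))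
      refine ⟨j, ?_, ?_⟩
      · rintro rfl
        exact hne (hj.symm.trans hi)
      · rw [hj]
        exact hdist
  obtain ⟨j, hji, hjd⟩ := hj
  -- the point
  set s : ℂ := ρ + δ with hs
  have hsre : s.re = 1 / 2 + δ := by rw [hs]; simp [hρre]
  have hsim : s.im = t := by rw [hs]; simp [ht]
  have hspt : s - pt 10 t = ((-(19 / 2) + δ : ℝ) : ℂ) := by
    apply Complex.ext
    · rw [Complex.sub_re, hsre, pt_re, Complex.ofReal_re]; ring
    · rw [Complex.sub_im, hsim, pt_im, Complex.ofReal_im]; ring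
  have hsb : ‖s - pt 10 t‖ ≤ 19 / 2 := by
    rw [hspt, Complex.norm_real, Real.norm_eq_abs, abs_le]
    constructor <;> linarith
  have hs96 : s ∈ closedBall (pt 10 t) (96 / 10) := by
    rw [mem_closedBall, dist_eq_norm]
    linarith
  have hs97 : s ∈ closedBall (pt 10 t) (97 / 10) :=
    closedBall_subset_closedBall (by norm_num) hs96
  have hs1 : s ≠ 1 := by
    intro h
    rw [h] at hsim
    simp at hsim
    linarith
  have hsz : riemannZeta s ≠ 0 := by
    intro h
    obtain ⟨l, hl⟩ := hfind s h hs97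
    have h1 := hzre l
    rw [hl, hsre] at h1
    linarith
  have hF := PAIR_F2 hg hf hs96 hsz hs1
  -- the bound for the zero free factor
  set H : ℝ := C * Real.log t with hH
  have hH0 : 0 ≤ H := by positivity
  have hHδ : H * δ ≤ 1 / 100 := by
    have h1 : H * δ = C * (δ * Real.log t) := by rw [hH]; ring
    rw [h1]
    calc C * (δ * Real.log t) ≤ C * (1 / (100 * C)) := by gcongr
      _ = 1 / 100 := by field_simp
  have hh : ‖logDeriv g s‖ ≤ H := hgl s hs96
  have hh' : ‖deriv (logDeriv g) s‖ ≤ 20 * H := by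
    have hsub : ∀ w ∈ closedBall s (5 / 100), w ∈ closedBall (pt 10 t) (96 / 10) := by
      intro w hw
      rw [mem_closedBall] at hw ⊢
      have h1 : dist s (pt 10 t) ≤ 19 / 2 := by rw [dist_eq_norm]; exact hsb
      linarith [dist_triangle w s (pt 10 t)]
    have h1 : DiffContOnCl ℂ (logDeriv g) (ball s (5 / 100)) := by
      apply DifferentiableOn.diffContOnCl
      rw [closure_ball s (by norm_num)]
      intro w hw
      have hw8 : w ∈ closedBall (pt 10 t) (98 / 10) :=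
        closedBall_subset_closedBall (by norm_num) (hsub w hw)
      have hw7 : w ∈ closedBall (pt 10 t) (97 / 10) :=
        closedBall_subset_closedBall (by norm_num) (hsub w hw)
      have h2 : DifferentiableAt ℂ (logDeriv g) w :=
        ((hg w hw8).deriv.div (hg w hw8) (hg0 w hw7)).differentiableAt
      exact h2.differentiableWithinAt
    have h2 := Complex.norm_deriv_le_of_forall_mem_sphere_norm_le (by norm_num) h1
      (fun w hw => hgl w (hsub w (sphere_subset_closedBall hw)))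
    calc ‖deriv (logDeriv g) s‖ ≤ H / (5 / 100) := h2
      _ = 20 * H := by ring
  -- the sums
  set A : ℝ := ∑ l, δ / ‖s - z l‖ ^ 2 with hA
  have hAre : (∑ l, 1 / (s - z l)).re = A := by
    rw [Complex.re_sum]
    refine Finset.sum_congr rfl fun l _ => ?_
    rw [Pool.Agent.ZP.A.re_inv_sub, hsre, hzre l]
    congr 1
    ring
  have hAX : A ≤ ‖∑ l, 1 / (s - z l)‖ := by
    rw [← hAre]
    exact Complex.re_le_norm _
  have hS2 : ‖∑ l, 1 / (s - z l) ^ 2‖ ≤ A / δ := by
    refine (norm_sum_le _ _).trans ?_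
    rw [hA, Finset.sum_div]
    refine Finset.sum_le_sum fun l _ => ?_
    rw [norm_div, norm_one, norm_pow]
    apply le_of_eq
    field_simp
  have hnorm : ∀ l, ‖s - z l‖ ^ 2 = δ ^ 2 + ((z l).im - t) ^ 2 := by
    intro l
    rw [← Complex.normSq_eq_norm_sq, Complex.normSq_apply, Complex.sub_re, Complex.sub_im, hsre,
      hsim, hzre l]
    ring
  have hAlow : 3 / (2 * δ) ≤ A := by
    have h1 : ∑ l ∈ ({i, j} : Finset (Fin k)), δ / ‖s - z l‖ ^ 2 ≤ A :=
      Finset.sum_le_sum_of_subset_of_nonneg (Finset.subset_univ _)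
        (fun l _ _ => by positivity)
    rw [Finset.sum_pair hji.symm, hnorm, hnorm, hi, ← ht, sub_self] at h1
    have h2 : δ / (δ ^ 2 + 0 ^ 2) = 1 / δ := by field_simp; ring
    have h3 : 1 / (2 * δ) ≤ δ / (δ ^ 2 + ((z j).im - t) ^ 2) := by
      have h4 : ((z j).im - t) ^ 2 ≤ δ ^ 2 := by
        rw [← sq_abs ((z j).im - t)]
        exact pow_le_pow_left₀ (abs_nonneg _) hjd 2
      rw [div_le_div_iff₀ (by positivity) (by positivity)]
      nlinarith
    rw [h2] at h1
    have h5 : 3 / (2 * δ) = 1 / δ + 1 / (2 * δ) := by field_simp; ring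
    rw [h5]
    linarith
  have hreal := PAIR_real hδ (by linarith) hH0 hHδ hAlow hAX
  refine hreal.trans ?_
  rw [hF]
  set S1 := ∑ l, 1 / (s - z l) with hS1
  set S2 := ∑ l, 1 / (s - z l) ^ 2 with hS2'
  have hX : H ≤ ‖S1‖ := by
    have h1 : H ≤ 3 / (2 * δ) := by
      rw [le_div_iff₀ (by positivity)]
      nlinarith
    exact h1.trans (hAlow.trans hAX)
  have h10 : ‖S1‖ - H ≤ ‖S1 + logDeriv g s‖ := by
    have h11 : ‖S1‖ ≤ ‖S1 + logDeriv g s‖ + ‖logDeriv g s‖ := by
      calc ‖S1‖ = ‖(S1 + logDeriv g s) - logDeriv g s‖ := by congr 1; ring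
        _ ≤ _ := norm_sub_le _ _
    linarith
  have h12 : (‖S1‖ - H) ^ 2 ≤ ‖(S1 + logDeriv g s) ^ 2‖ := by
    rw [norm_pow]
    exact pow_le_pow_left₀ (by linarith) h10 2
  have h13 : ‖(S1 + logDeriv g s) ^ 2‖ ≤ ‖-S2 + deriv (logDeriv g) s + (S1 + logDeriv g s) ^ 2‖ +
      ‖S2‖ + ‖deriv (logDeriv g) s‖ := by
    calc ‖(S1 + logDeriv g s) ^ 2‖ = ‖(-S2 + deriv (logDeriv g) s + (S1 + logDeriv g s) ^ 2) + S2 -
          deriv (logDeriv g) s‖ := by congr 1; ring
      _ ≤ _ := (norm_sub_le _ _).trans (by gcongr; exact norm_add_le _ _)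
  linarith

end Pool.Agent.SELB
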