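import Pool.Agent.Lib.SELB.Props

/-!
# MP_af3d17_nt, Selberg's formula: row PPEX
-/

set_option autoImplicit false

namespace Pool.Agent.SELB

open Complex Filter Topology MeasureTheory Set

theorem PP_analyticAt {p q w z : ℂ} (h : z ≠ w) : AnalyticAt ℂ (PP p q w) z := by
  have h0 : z - w ≠ 0 := sub_ne_zero.2 h
  have h1 : AnalyticAt ℂ (fun z : ℂ => z - w) z := analyticAt_id.sub analyticAt_const
  exact (analyticAt_const.div (h1.pow 2) (pow_ne_zero 2 h0)).add (analyticAt_const.div h1 h0)

/-- points of `low T0` have positive real part -/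
theorem re_pos_of_low {T0 : ℝ} {w : ℂ} (hw : w ∈ low T0) : 0 < w.re := by
  rcases hw with hw | hw
  · exact hw.1.2.1
  · rw [mem_singleton_iff] at hw
    subst hw
    simp

/-- outside the low points, the zeta function has no zero to the right of the line -/
theorem zeta_ne_zero_of_not_low {T0 : ℝ} (hT : RHl T0) {z : ℂ} (hz : 1 / 2 < z.re)
    (hS : z ∉ low T0) : riemannZeta z ≠ 0 := by
  intro h0
  have h1 : z.re < 1 := by
    by_contra h
    exact riemannZeta_ne_zero_of_one_le_re (not_lt.1 h) h0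
  have hN : z ∈ NZ := ⟨h0, by linarith, h1⟩
  have h2 : ¬ |z.im| ≤ T0 := fun h => hS (Or.inl ⟨hN, h⟩)
  have h3 := hT z ⟨hN, not_le.1 h2⟩
  rw [h3] at hz
  exact lt_irrefl _ hz

theorem ne_one_of_not_low {T0 : ℝ} {z : ℂ} (hS : z ∉ low T0) : z ≠ 1 :=
  fun h => hS (Or.inr h)

theorem PPEX_all : P_PPEX := by
  intro F R hF T0 S hS hRH
  have hS' : ∀ w, w ∈ S ↔ w ∈ low T0 := fun w => by rw [← hS]; exact Finset.mem_coe.symm
  have hRl : RHl T0 := fun ρ hρ => (hRH ρ hρ).1
  choose! p q h hh using fun (w : ℂ) (hw : 0 < w.re) => hF.pole w hw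
  have hSre : ∀ w ∈ S, 0 < w.re := fun w hw => re_pos_of_low ((hS' w).1 hw)
  classical
  set D : ℂ → ℂ := fun z => F z - ∑ w ∈ S, PP (p w) (q w) w z with hD
  set G : ℂ → ℂ → ℂ := fun w z => h w z - ∑ w' ∈ S.erase w, PP (p w') (q w') w' z with hG
  refine ⟨p, q, fun z => if z ∈ S then G z z else D z, fun w hw => ⟨h w, hh w (hSre w hw)⟩,
    ?_, ?_⟩
  · intro z hz
    rw [mem_ofPred_eq] at hz
    refine DifferentiableAt.differentiableWithinAt ?_
    have hev : ∀ᶠ y in 𝓝[≠] z, y ∉ S := by
      have h1 : (↑(S.erase z) : Set ℂ)ᶜ ∈ 𝓝 z :=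
        (S.erase z).finite_toSet.isClosed.isOpen_compl.mem_nhds (by simp)
      have h2 : ∀ᶠ y in 𝓝[≠] z, y ∈ (↑(S.erase z) : Set ℂ)ᶜ := mem_nhdsWithin_of_mem_nhds h1
      filter_upwards [h2, self_mem_nhdsWithin] with y hy1 hy2 hy3
      exact hy1 (Finset.mem_coe.2 (Finset.mem_erase.2 ⟨hy2, hy3⟩))
    by_cases hzS : z ∈ S
    · have hGa : AnalyticAt ℂ (G z) z := by
        refine (hh z (by linarith)).1.sub (Finset.analyticAt_fun_sum _ fun w' hw' => ?_)
        exact PP_analyticAt (Finset.ne_of_mem_erase hw').symm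
      refine DifferentiableAt.congr_of_eventuallyEq hGa.differentiableAt ?_
      have h3 : ∀ᶠ y in 𝓝[≠] z, (if y ∈ S then G y y else D y) = G z y := by
        filter_upwards [hev, (hh z (by linarith)).2] with y hy1 hy2
        rw [if_neg hy1, hD, hG]
        simp only
        rw [hy2, ← Finset.add_sum_erase S _ hzS]
        ring
      have h4 := (eventually_nhdsWithin_iff.1 h3)
      filter_upwards [h4] with y hy
      by_cases hyz : y = z
      · subst hyz
        rw [if_pos hzS]
      · exact hy hyz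
    · have hDa : AnalyticAt ℂ D z := by
        have hlow : z ∉ low T0 := fun h => hzS ((hS' z).2 h)
        refine (hF.reg z (by linarith) (ne_one_of_not_low hlow)
          (zeta_ne_zero_of_not_low hRl hz hlow)).sub
          (Finset.analyticAt_fun_sum _ fun w' hw' => ?_)
        exact PP_analyticAt fun h => hzS (h ▸ hw')
      refine DifferentiableAt.congr_of_eventuallyEq hDa.differentiableAt ?_
      filter_upwards [eventually_nhdsWithin_iff.1 hev] with y hy
      by_cases hyz : y = z
      · subst hyz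
        rw [if_neg hzS]
      · rw [if_neg (hy hyz)]
  · intro z _ hzS
    simp only
    rw [if_neg hzS, hD]
    simp only
    ring

end Pool.Agent.SELB
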