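import Pool.Agent.Lib.SELB.Props

/-!
# SELB: rows S0 and SB, weighted sums over the zeros
-/

set_option autoImplicit false

namespace Pool.Agent.SELB

open Complex Filter Topology MeasureTheory Set

/-- transfer from all zeros to the high zeros -/
theorem high_transfer (T0 : ℝ) (f g : ℂ → ℝ) (hf : ∀ ρ, 0 ≤ f ρ) (hg : ∀ ρ, 0 ≤ g ρ)
    (hfg : ∀ ρ, f ρ ≤ g ρ) (hs : Summable (fun ρ : NZ => g ρ)) :
    Summable (fun ρ : high T0 => f ρ) ∧ ∑' ρ : high T0, f ρ ≤ ∑' ρ : NZ, g ρ := by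
  let i : high T0 → NZ := fun ρ => ⟨ρ, ρ.2.1⟩
  have hi : Function.Injective i := by
    intro a b hab
    have h1 : (i a : ℂ) = (i b : ℂ) := by rw [hab]
    exact Subtype.ext h1
  have h1 : Summable (fun ρ : high T0 => g ρ) := hs.comp_injective hi
  have h2 : Summable (fun ρ : high T0 => f ρ) :=
    Summable.of_nonneg_of_le (fun ρ => hf ρ) (fun ρ => hfg ρ) h1
  refine ⟨h2, ?_⟩
  have h3 : ∑' ρ : high T0, f ρ ≤ ∑' ρ : high T0, g ρ :=
    Summable.tsum_le_tsum (fun ρ : high T0 => hfg (ρ : ℂ)) h2 h1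
  refine h3.trans ?_
  exact tsum_comp_le_tsum_of_inj hs (fun ρ => hg ρ) hi

theorem S0_all (h : P_SQ) : P_S0 := by
  intro b m hb hbm η hη
  obtain ⟨C, hC⟩ := h ((m : ℝ) - b) (by linarith) η hη
  refine ⟨C, fun T0 t => ?_⟩
  obtain ⟨h1, h2⟩ := hC t
  have ht : 0 < 1 + |t| := by positivity
  obtain ⟨h3, h4⟩ := high_transfer T0
    (fun ρ => (1 + |ρ.im|) ^ b * (1 + |ρ.im - t|) ^ (-(m : ℝ)))
    (fun ρ => (1 + |t|) ^ b * (1 + |ρ.im - t|) ^ (-((m : ℝ) - b)))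
    (fun ρ => by positivity) (fun ρ => by positivity)
    (fun ρ => by
      have hx : 0 < 1 + |ρ.im - t| := by positivity
      have e1 : 1 + |ρ.im| ≤ (1 + |t|) * (1 + |ρ.im - t|) := by
        have e2 : |ρ.im| ≤ |t| + |ρ.im - t| := by
          have e3 : ρ.im = t + (ρ.im - t) := by ring
          calc |ρ.im| = |t + (ρ.im - t)| := by rw [← e3]
            _ ≤ |t| + |ρ.im - t| := abs_add_le _ _
        nlinarith [mul_nonneg (abs_nonneg t) (abs_nonneg (ρ.im - t))]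
      calc (1 + |ρ.im|) ^ b * (1 + |ρ.im - t|) ^ (-(m : ℝ))
          ≤ ((1 + |t|) * (1 + |ρ.im - t|)) ^ b * (1 + |ρ.im - t|) ^ (-(m : ℝ)) := by
            gcongr
        _ = (1 + |t|) ^ b * ((1 + |ρ.im - t|) ^ b * (1 + |ρ.im - t|) ^ (-(m : ℝ))) := by
            rw [Real.mul_rpow ht.le hx.le, mul_assoc]
        _ = (1 + |t|) ^ b * (1 + |ρ.im - t|) ^ (-((m : ℝ) - b)) := by
            rw [← Real.rpow_add hx]
            congr 2
            ring)
    (h1.mul_left _)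
  refine ⟨h3, h4.trans ?_⟩
  rw [tsum_mul_left, Real.rpow_add ht]
  calc (1 + |t|) ^ b * ∑' ρ : NZ, (1 + |(ρ : ℂ).im - t|) ^ (-((m : ℝ) - b))
      ≤ (1 + |t|) ^ b * (C * (1 + |t|) ^ η) := by gcongr
    _ = C * ((1 + |t|) ^ b * (1 + |t|) ^ η) := by ring

/-- `X^(-a) Y^(-b) ≤ X^(-a-b) + Y^(-a-b)` -/
theorem mix_le (X Y a b : ℝ) (hX : 1 ≤ X) (hY : 1 ≤ Y) (ha : 0 ≤ a) (hb : 0 ≤ b) :
    X ^ (-a) * Y ^ (-b) ≤ X ^ (-(a + b)) + Y ^ (-(a + b)) := by
  have hX0 : 0 < X := by linarith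
  have hY0 : 0 < Y := by linarith
  rcases le_total X Y with hXY | hXY
  · have h1 : Y ^ (-b) ≤ X ^ (-b) := Real.rpow_le_rpow_of_nonpos hX0 hXY (by linarith)
    calc X ^ (-a) * Y ^ (-b) ≤ X ^ (-a) * X ^ (-b) := by gcongr
      _ = X ^ (-(a + b)) := by
          rw [← Real.rpow_add hX0]
          congr 1
          ring
      _ ≤ _ := by
          have : 0 ≤ Y ^ (-(a + b)) := by positivity
          linarith
  · have h1 : X ^ (-a) ≤ Y ^ (-a) := Real.rpow_le_rpow_of_nonpos hY0 hXY (by linarith)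
    calc X ^ (-a) * Y ^ (-b) ≤ Y ^ (-a) * Y ^ (-b) := by gcongr
      _ = Y ^ (-(a + b)) := by
          rw [← Real.rpow_add hY0]
          congr 1
          ring
      _ ≤ _ := by
          have : 0 ≤ X ^ (-(a + b)) := by positivity
          linarith

theorem SB_all (h : P_SQ) : P_SB := by
  intro b m hb hbm η hη
  set p : ℝ := (m : ℝ) - b with hp
  have hp1 : 1 < p := by linarith
  obtain ⟨d, hd0, hd1, hd2⟩ : ∃ d : ℝ, 0 < d ∧ d < 1 ∧ 2 * d < p - 1 := by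
    refine ⟨min (1 / 2) ((p - 1) / 4), by apply lt_min <;> linarith, ?_, ?_⟩
    · exact (min_le_left _ _).trans_lt (by norm_num)
    · have := min_le_right (1 / 2) ((p - 1) / 4)
      linarith
  obtain ⟨e, he0, he1, he2⟩ : ∃ e : ℝ, 0 < e ∧ e ≤ η ∧ e ≤ d / 2 :=
    ⟨min η (d / 2), by apply lt_min <;> linarith, min_le_left _ _, min_le_right _ _⟩
  obtain ⟨C', hC'⟩ := h (p - 2 * d) (by linarith) e he0
  set C : ℝ := max C' 0 with hC
  have hC0 : 0 ≤ C := le_max_right _ _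
  refine ⟨2 * C, d - e, by linarith, fun T0 t u => ?_⟩
  obtain ⟨h1, h2'⟩ := hC' t
  obtain ⟨h3, h4'⟩ := hC' u
  have ht : 0 < 1 + |t| := by positivity
  have hu : 0 < 1 + |u| := by positivity
  have hU : 0 < 1 + |u - t| := by positivity
  have hU1 : 1 ≤ 1 + |u - t| := by linarith [abs_nonneg (u - t)]
  have ht1 : 1 ≤ 1 + |t| := by linarith [abs_nonneg t]
  have h2 : ∑' ρ : NZ, (1 + |(ρ : ℂ).im - t|) ^ (-(p - 2 * d)) ≤ C * (1 + |t|) ^ e :=
    h2'.trans (by gcongr; exact le_max_left _ _)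
  have h4 : ∑' ρ : NZ, (1 + |(ρ : ℂ).im - u|) ^ (-(p - 2 * d)) ≤ C * (1 + |u|) ^ e :=
    h4'.trans (by gcongr; exact le_max_left _ _)
  have hut : 1 + |u| ≤ (1 + |t|) * (1 + |u - t|) := by
    have e2 : |u| ≤ |t| + |u - t| := by
      have e3 : u = t + (u - t) := by ring
      calc |u| = |t + (u - t)| := by rw [← e3]
        _ ≤ |t| + |u - t| := abs_add_le _ _
    nlinarith [mul_nonneg (abs_nonneg t) (abs_nonneg (u - t))]
  obtain ⟨h5, h6⟩ := high_transfer T0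
    (fun ρ => (1 + |ρ.im|) ^ b * (1 + |ρ.im - t|) ^ (-(m : ℝ)) * (1 + |ρ.im - u|) ^ (-2 : ℝ))
    (fun ρ => ((1 + |t|) ^ b * (1 + |u - t|) ^ (-1 - d)) *
      ((1 + |ρ.im - t|) ^ (-(p - 2 * d)) + (1 + |ρ.im - u|) ^ (-(p - 2 * d))))
    (fun ρ => by positivity) (fun ρ => by positivity)
    (fun ρ => by
      set X : ℝ := 1 + |ρ.im - t| with hX
      set Y : ℝ := 1 + |ρ.im - u| with hY
      have hX1 : 1 ≤ X := by rw [hX]; linarith [abs_nonneg (ρ.im - t)]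
      have hY1 : 1 ≤ Y := by rw [hY]; linarith [abs_nonneg (ρ.im - u)]
      have hX0 : 0 < X := by linarith
      have hY0 : 0 < Y := by linarith
      have e1 : 1 + |ρ.im| ≤ (1 + |t|) * X := by
        have e2 : |ρ.im| ≤ |t| + |ρ.im - t| := by
          have e3 : ρ.im = t + (ρ.im - t) := by ring
          calc |ρ.im| = |t + (ρ.im - t)| := by rw [← e3]
            _ ≤ |t| + |ρ.im - t| := abs_add_le _ _
        rw [hX]
        nlinarith [mul_nonneg (abs_nonneg t) (abs_nonneg (ρ.im - t))]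
      have e4 : 1 + |u - t| ≤ X * Y := by
        have e2 : |u - t| ≤ |ρ.im - t| + |ρ.im - u| := by
          have e3 : u - t = (ρ.im - t) - (ρ.im - u) := by ring
          rw [e3]
          exact abs_sub _ _
        rw [hX, hY]
        nlinarith [mul_nonneg (abs_nonneg (ρ.im - t)) (abs_nonneg (ρ.im - u))]
      have e5 : (X * Y) ^ (-1 - d) ≤ (1 + |u - t|) ^ (-1 - d) :=
        Real.rpow_le_rpow_of_nonpos hU e4 (by linarith)
      have e6 := mix_le X Y (p - 1 - d) (1 - d) hX1 hY1 (by linarith) (by linarith)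
      have e7 : p - 1 - d + (1 - d) = p - 2 * d := by ring
      rw [e7] at e6
      calc (1 + |ρ.im|) ^ b * X ^ (-(m : ℝ)) * Y ^ (-2 : ℝ)
          ≤ ((1 + |t|) * X) ^ b * X ^ (-(m : ℝ)) * Y ^ (-2 : ℝ) := by gcongr
        _ = (1 + |t|) ^ b * ((X * Y) ^ (-1 - d) * (X ^ (-(p - 1 - d)) * Y ^ (-(1 - d)))) := by
            rw [Real.mul_rpow ht.le hX0.le, Real.mul_rpow hX0.le hY0.le]
            have e8 : X ^ b * X ^ (-(m : ℝ)) = X ^ (-1 - d) * X ^ (-(p - 1 - d)) := by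
              rw [← Real.rpow_add hX0, ← Real.rpow_add hX0]
              congr 1
              rw [hp]
              ring
            have e9 : Y ^ (-2 : ℝ) = Y ^ (-1 - d) * Y ^ (-(1 - d)) := by
              rw [← Real.rpow_add hY0]
              congr 1
              ring
            calc (1 + |t|) ^ b * X ^ b * X ^ (-(m : ℝ)) * Y ^ (-2 : ℝ)
                = (1 + |t|) ^ b * (X ^ b * X ^ (-(m : ℝ))) * Y ^ (-2 : ℝ) := by ring
              _ = (1 + |t|) ^ b * (X ^ (-1 - d) * X ^ (-(p - 1 - d))) *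
                    (Y ^ (-1 - d) * Y ^ (-(1 - d))) := by rw [e8, e9]
              _ = _ := by ring
        _ ≤ (1 + |t|) ^ b * ((1 + |u - t|) ^ (-1 - d) *
              (X ^ (-(p - 2 * d)) + Y ^ (-(p - 2 * d)))) := by gcongr
        _ = _ := by ring)
    ((h1.add h3).mul_left _)
  refine ⟨h5, h6.trans ?_⟩
  rw [tsum_mul_left, h1.tsum_add h3]
  have e1 : (1 + |t|) ^ e ≤ (1 + |t|) ^ η := Real.rpow_le_rpow_of_exponent_le ht1 he1
  have e2 : (1 : ℝ) ≤ (1 + |u - t|) ^ e := Real.one_le_rpow hU1 he0.le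
  have e3 : (1 + |u|) ^ e ≤ (1 + |t|) ^ η * (1 + |u - t|) ^ e := by
    calc (1 + |u|) ^ e ≤ ((1 + |t|) * (1 + |u - t|)) ^ e := by gcongr
      _ = (1 + |t|) ^ e * (1 + |u - t|) ^ e := Real.mul_rpow ht.le hU.le
      _ ≤ _ := by gcongr
  have e4 : (1 + |t|) ^ e ≤ (1 + |t|) ^ η * (1 + |u - t|) ^ e := by
    calc (1 + |t|) ^ e ≤ (1 + |t|) ^ η * 1 := by rw [mul_one]; exact e1
      _ ≤ _ := by gcongr
  calc (1 + |t|) ^ b * (1 + |u - t|) ^ (-1 - d) *
        (∑' ρ : NZ, (1 + |(ρ : ℂ).im - t|) ^ (-(p - 2 * d)) +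
          ∑' ρ : NZ, (1 + |(ρ : ℂ).im - u|) ^ (-(p - 2 * d)))
      ≤ (1 + |t|) ^ b * (1 + |u - t|) ^ (-1 - d) *
        (C * ((1 + |t|) ^ η * (1 + |u - t|) ^ e) + C * ((1 + |t|) ^ η * (1 + |u - t|) ^ e)) := by
        gcongr
        · exact h2.trans (by gcongr)
        · exact h4.trans (by gcongr)
    _ = 2 * C * ((1 + |t|) ^ b * (1 + |t|) ^ η) *
          ((1 + |u - t|) ^ (-1 - d) * (1 + |u - t|) ^ e) := by ring
    _ = 2 * C * (1 + |t|) ^ (b + η) * (1 + |u - t|) ^ (-1 - (d - e)) := by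
        rw [← Real.rpow_add ht, ← Real.rpow_add hU]
        congr 2
        ring

end Pool.Agent.SELB
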