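import Pool.Agent.Lib.SELB.Defs

/-!
# MP_af3d17_nt, Selberg's formula: `μ * log² = Λ log + Λ * Λ`
-/

set_option autoImplicit false

namespace Pool.Agent.SELB

open ArithmeticFunction

/-- multiplication by `log` is a derivation -/
lemma pmul_log_mul (f g : ArithmeticFunction ℝ) :
    pmul (f * g) log = pmul f log * g + f * pmul g log := by
  ext n
  rw [pmul_apply, ArithmeticFunction.add_apply, mul_apply, mul_apply, mul_apply, Finset.sum_mul,
    ← Finset.sum_add_distrib]
  refine Finset.sum_congr rfl fun x hx => ?_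
  obtain ⟨h1, h2⟩ := Nat.mem_divisorsAntidiagonal.1 hx
  have hx1 : x.1 ≠ 0 := by
    rintro h
    rw [h, zero_mul] at h1
    exact h2 h1.symm
  have hx2 : x.2 ≠ 0 := by
    rintro h
    rw [h, mul_zero] at h1
    exact h2 h1.symm
  have h3 : log n = log x.1 + log x.2 := by
    rw [log_apply, log_apply, log_apply, ← h1, Nat.cast_mul,
      Real.log_mul (by exact_mod_cast hx1) (by exact_mod_cast hx2)]
  rw [pmul_apply, pmul_apply, h3]
  ring

/-- Selberg's function as an arithmetic function -/
noncomputable def selA : ArithmeticFunction ℝ := pmul vonMangoldt log + vonMangoldt * vonMangoldt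

lemma selA_mul_zeta : selA * (zeta : ArithmeticFunction ℝ) = pmul log log := by
  have h1 : pmul (vonMangoldt * (zeta : ArithmeticFunction ℝ)) log =
      pmul vonMangoldt log * (zeta : ArithmeticFunction ℝ) +
        vonMangoldt * pmul (zeta : ArithmeticFunction ℝ) log := pmul_log_mul _ _
  rw [vonMangoldt_mul_zeta] at h1
  have h2 : pmul (zeta : ArithmeticFunction ℝ) log = log := by
    ext n
    rw [pmul_apply]
    rcases Nat.eq_zero_or_pos n with h | h
    · subst h; simp
    · simp [natCoe_apply, zeta_apply, h.ne']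
  rw [h1, h2, selA, add_mul, mul_assoc, vonMangoldt_mul_zeta]

theorem selberg_eq (n : ℕ) : selberg n = selA n := by
  have h1 : (moebius : ArithmeticFunction ℝ) * (selA * (zeta : ArithmeticFunction ℝ)) = selA := by
    rw [mul_comm selA, ← mul_assoc, coe_moebius_mul_coe_zeta, one_mul]
  rw [selA_mul_zeta] at h1
  rw [← h1, mul_apply, selberg]
  rw [← Nat.sum_divisorsAntidiagonal (fun d e => (moebius d : ℝ) * Real.log ((n : ℝ) / (d : ℝ)) ^ 2)]
  refine Finset.sum_congr rfl fun x hx => ?_
  obtain ⟨h1, h2⟩ := Nat.mem_divisorsAntidiagonal.1 hx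
  have hx1 : x.1 ≠ 0 := by
    rintro h
    rw [h, zero_mul] at h1
    exact h2 h1.symm
  have h3 : (n : ℝ) / (x.1 : ℝ) = x.2 := by
    rw [← h1, Nat.cast_mul]
    field_simp
  rw [h3, pmul_apply, log_apply]
  simp [sq]

end Pool.Agent.SELB
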