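import Pool.Agent.Lib.SELB.Props
import Pool.Agent.Lib.MP_af3d17_nt_h98.Psi
import Pool.Agent.Lib.MP_af3d17_nt_h98.Seq

/-!
# MP_af3d17_nt, Selberg's formula: separation of the high zeros

If `α ≥ -A` then from some height on all zeros are simple and on the critical line, and for every
`b > A` two distinct high zeros are at distance at least `c (1 + |γ|)^(-b)`.
-/

set_option autoImplicit false

namespace Pool.Agent.SELB

open Complex Filter Topology MeasureTheory Set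

/-- finitely many positive gaps have a positive lower bound -/
lemma sep_finite {γ : ℕ → ℝ} {T0 : ℝ} (hpos : ∀ n, T0 < γ n → γ n < γ (n + 1)) (N : ℕ) :
    ∃ c : ℝ, 0 < c ∧ ∀ n < N, T0 < γ n → c ≤ γ (n + 1) - γ n := by
  induction N with
  | zero => exact ⟨1, one_pos, fun n hn => absurd hn (Nat.not_lt_zero n)⟩
  | succ N ih =>
    obtain ⟨c, hc, h⟩ := ih
    by_cases hN : T0 < γ N
    · refine ⟨min c (γ (N + 1) - γ N), lt_min hc (sub_pos.2 (hpos N hN)), fun n hn hT => ?_⟩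
      rcases Nat.lt_succ_iff_lt_or_eq.1 hn with h1 | h1
      · exact (min_le_left _ _).trans (h n h1 hT)
      · subst h1
        exact min_le_right _ _
    · refine ⟨c, hc, fun n hn hT => ?_⟩
      rcases Nat.lt_succ_iff_lt_or_eq.1 hn with h1 | h1
      · exact h n h1 hT
      · subst h1
        exact absurd hT hN

/-- the gaps above `T0` are bounded below by `c (1 + γ_n)^(-b)` -/
lemma sep_gaps {γ : ℕ → ℝ} (hγ : Pool.Agent.ZP.IsOrdinateSeq γ) {T0 b : ℝ} (hT0 : 0 ≤ T0)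
    (hRH : Pool.Agent.ZP.RH T0) (hb0 : 0 < b)
    (hb : ((-b : ℝ) : EReal) < Pool.Agent.ZP.alpha γ) :
    ∃ c : ℝ, 0 < c ∧ c ≤ 1 ∧ ∀ n, T0 < γ n → c * (1 + γ n) ^ (-b) ≤ γ (n + 1) - γ n := by
  obtain ⟨N, hN⟩ := (Pool.Agent.ZP.gap_lower hγ hRH hb).exists_forall_of_atTop
  obtain ⟨c, hc, hc'⟩ := sep_finite (γ := γ) (T0 := T0)
    (fun n hn => Pool.Agent.ZP.gap_pos hγ hRH hn) N
  refine ⟨min c 1, lt_min hc one_pos, min_le_right _ _, fun n hn => ?_⟩
  have hn0 : 0 < γ n := lt_of_le_of_lt hT0 hn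
  have h1 : (1 + γ n) ^ (-b) ≤ 1 := by
    apply Real.rpow_le_one_of_one_le_of_nonpos
    · linarith
    · linarith
  have h0 : 0 ≤ (1 + γ n) ^ (-b) := Real.rpow_nonneg (by linarith) _
  rcases lt_or_ge n N with h2 | h2
  · have h3 := hc' n h2 hn
    have h4 : min c 1 * (1 + γ n) ^ (-b) ≤ c * 1 :=
      mul_le_mul (min_le_left _ _) h1 h0 hc.le
    linarith
  · have h3 := hN n h2
    have h4 : (1 + γ n) ^ (-b) ≤ γ n ^ (-b) :=
      Real.rpow_le_rpow_of_nonpos hn0 (by linarith) (by linarith)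
    have h5 : min c 1 * (1 + γ n) ^ (-b) ≤ 1 * (1 + γ n) ^ (-b) :=
      mul_le_mul_of_nonneg_right (min_le_right _ _) h0
    linarith

/-- a high zero in the upper half plane is an upper zero -/
lemma isUpper_of_high {T0 : ℝ} {ρ : ℂ} (h : ρ ∈ high T0) (him : 0 < ρ.im) :
    Pool.Agent.ZP.IsUpperZero ρ ∧ T0 < ρ.im := by
  obtain ⟨⟨h1, h2, h3⟩, h4⟩ := h
  rw [abs_of_pos him] at h4
  exact ⟨⟨h1, h2, h3, him⟩, h4⟩

theorem SEP_all (h1 : P_CONJ) (_h2 : P_LOWFIN) : P_SEP := by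
  intro γ hγ A hA hα
  have hbot : Pool.Agent.ZP.alpha γ ≠ ⊥ := by
    intro h
    rw [h] at hα
    exact EReal.coe_ne_bot _ (le_bot_iff.1 hα)
  obtain ⟨T1, hT1⟩ := Pool.Agent.ZP.rh_of_alpha hγ hbot
  set T0 : ℝ := max T1 1 with hT0def
  have hT01 : 1 ≤ T0 := le_max_right _ _
  have hRH : Pool.Agent.ZP.RH T0 := fun ρ hρ hT =>
    hT1 ρ hρ (lt_of_le_of_lt (le_max_left _ _) hT)
  have hconj := h1.2.2.2
  -- the sign of the imaginary part
  have hsign : ∀ ρ ∈ high T0, 0 < ρ.im ∨ ρ.im < 0 := by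
    intro ρ hρ
    rcases lt_trichotomy ρ.im 0 with h | h | h
    · exact Or.inr h
    · have := hρ.2
      rw [h, abs_zero] at this
      linarith
    · exact Or.inl h
  have hRHs : RHs T0 := by
    intro ρ hρ
    rcases hsign ρ hρ with h | h
    · obtain ⟨h3, h4⟩ := isUpper_of_high hρ h
      exact hRH ρ h3 h4
    · obtain ⟨h3, h4⟩ := isUpper_of_high (hconj T0 ρ hρ) (by simpa using h)
      obtain ⟨h5, h6⟩ := hRH _ h3 h4
      refine ⟨by simpa using h5, fun h7 => h6 ?_⟩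
      rw [Pool.Agent.ZP.Psi.deriv_zeta_conj, h7, map_zero]
  refine ⟨T0, hT01, hRHs, fun b hb => ?_⟩
  have hb0 : 0 < b := lt_of_le_of_lt hA hb
  have hbα : ((-b : ℝ) : EReal) < Pool.Agent.ZP.alpha γ := by
    refine lt_of_lt_of_le ?_ hα
    exact_mod_cast (neg_lt_neg hb)
  obtain ⟨c, hc0, hc1, hgap⟩ := sep_gaps hγ (by linarith) hRH hb0 hbα
  refine ⟨c, hc0, ?_⟩
  -- two upper zeros
  have key : ∀ ρ ρ' : ℂ, Pool.Agent.ZP.IsUpperZero ρ → Pool.Agent.ZP.IsUpperZero ρ' →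
      T0 < ρ.im → ρ.im < ρ'.im → c * (1 + ρ.im) ^ (-b) ≤ ρ'.im - ρ.im := by
    intro ρ ρ' hρ hρ' hT hlt
    obtain ⟨n, hn⟩ := Pool.Agent.ZP.exists_index_of_zero hγ hρ
    obtain ⟨m, hm⟩ := Pool.Agent.ZP.exists_index_of_zero hγ hρ'
    have h3 : n < m := Pool.Agent.ZP.lt_index hγ (by rw [hn, hm]; exact hlt)
    have h4 : γ (n + 1) ≤ γ m := hγ.mono h3
    have h5 := hgap n (by rw [hn]; exact hT)
    rw [hn] at h5
    rw [hm] at h4
    linarith
  have key2 : ∀ ρ ρ' : ℂ, ρ ∈ high T0 → ρ' ∈ high T0 → 0 < ρ.im → 0 < ρ'.im → ρ ≠ ρ' →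
      c * (1 + |ρ.im|) ^ (-b) ≤ |ρ.im - ρ'.im| := by
    intro ρ ρ' hρ hρ' him him' hne
    obtain ⟨h3, h4⟩ := isUpper_of_high hρ him
    obtain ⟨h3', h4'⟩ := isUpper_of_high hρ' him'
    rw [abs_of_pos him]
    rcases lt_trichotomy ρ.im ρ'.im with h | h | h
    · have h5 := key ρ ρ' h3 h3' h4 h
      have h6 : ρ'.im - ρ.im ≤ |ρ.im - ρ'.im| := by
        rw [abs_sub_comm]
        exact le_abs_self _
      exact h5.trans h6
    · exact absurd (Complex.ext ((hRHs ρ hρ).1.trans (hRHs ρ' hρ').1.symm) h) hne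
    · have h5 := key ρ' ρ h3' h3 h4' h
      have h6 : (1 + ρ.im) ^ (-b) ≤ (1 + ρ'.im) ^ (-b) :=
        Real.rpow_le_rpow_of_nonpos (by linarith) (by linarith) (by linarith)
      have h7 : c * (1 + ρ.im) ^ (-b) ≤ c * (1 + ρ'.im) ^ (-b) :=
        mul_le_mul_of_nonneg_left h6 hc0.le
      exact (h7.trans h5).trans (le_abs_self _)
  intro ρ hρ ρ' hρ' hne
  have hsmall : c * (1 + |ρ.im|) ^ (-b) ≤ 1 := by
    have h3 : (1 + |ρ.im|) ^ (-b) ≤ 1 :=
      Real.rpow_le_one_of_one_le_of_nonpos (by linarith [abs_nonneg ρ.im]) (by linarith)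
    have h4 : 0 ≤ (1 + |ρ.im|) ^ (-b) := Real.rpow_nonneg (by positivity) _
    calc c * (1 + |ρ.im|) ^ (-b) ≤ 1 * 1 := mul_le_mul hc1 h3 h4 zero_le_one
      _ = 1 := one_mul 1
  rcases hsign ρ hρ with h | h <;> rcases hsign ρ' hρ' with h' | h'
  · exact key2 ρ ρ' hρ hρ' h h' hne
  · have h3 := hρ.2
    rw [abs_of_pos h] at h3
    have h4 : 1 ≤ ρ.im - ρ'.im := by linarith
    exact hsmall.trans (h4.trans (le_abs_self _))
  · have h3 := hρ'.2
    rw [abs_of_pos h'] at h3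
    have h4 : 1 ≤ -(ρ.im - ρ'.im) := by linarith
    exact hsmall.trans (h4.trans (neg_le_abs _))
  · have h3 := key2 ((starRingEnd ℂ) ρ) ((starRingEnd ℂ) ρ') (hconj T0 ρ hρ) (hconj T0 ρ' hρ')
      (by simpa using h) (by simpa using h') (fun h => hne ((starRingEnd ℂ).injective h))
    have h4 : |(-ρ.im) - (-ρ'.im)| = |ρ.im - ρ'.im| := by
      rw [← abs_neg]
      congr 1
      ring
    rw [Complex.conj_im, Complex.conj_im, abs_neg, h4] at h3
    exact h3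

end Pool.Agent.SELB
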