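import Pool.Agent.Lib.SELB.Props

/-!
# MP_af3d17_nt, Selberg's formula: row SQ

The basic sum over the zeros.
-/

set_option autoImplicit false

namespace Pool.Agent.SELB

open Complex Filter Topology MeasureTheory Set

/-- SQ -/
theorem SQ_all (h : P_DENS) : P_SQ := by
  intro q hq η hη
  set e : ℝ := min η ((q - 1) / 2) with he
  have he0 : 0 < e := lt_min hη (by linarith)
  have heη : e ≤ η := min_le_left _ _
  have heq : e ≤ (q - 1) / 2 := min_le_right _ _
  obtain ⟨C, hC⟩ := h e he0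
  have hC0 : 0 ≤ C := by
    have h1 := (hC 0).2
    rw [abs_zero, add_zero, Real.one_rpow, mul_one] at h1
    exact (Nat.cast_nonneg _).trans h1
  -- the majorant over the integers
  have hsum : Summable (fun j : ℤ => (1 + |(j : ℝ)|) ^ (-(q - e))) := by
    have h1 : Summable (fun n : ℕ => ((n : ℝ) + 1) ^ (-(q - e))) := by
      have h2 : Summable (fun n : ℕ => (n : ℝ) ^ (-(q - e))) :=
        Real.summable_nat_rpow.2 (by linarith)
      have h3 := (summable_nat_add_iff 1).2 h2
      refine h3.congr fun n => ?_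
      push_cast
      ring_nf
    refine Summable.of_nat_of_neg ?_ ?_
    · refine h1.congr fun n => ?_
      simp only [Int.cast_natCast, Nat.abs_cast]
      rw [add_comm]
    · refine h1.congr fun n => ?_
      simp only [Int.cast_neg, Int.cast_natCast, abs_neg, Nat.abs_cast]
      rw [add_comm]
  set Q0 : ℝ := ∑' j : ℤ, (1 + |(j : ℝ)|) ^ (-(q - e)) with hQ0
  have hQ0nn : 0 ≤ Q0 := tsum_nonneg fun j => by positivity
  refine ⟨C * 2 ^ q * Q0, fun v => ?_⟩
  have hv1 : 0 < 1 + |v| := by positivity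
  have hbound : ∀ s : Finset NZ, ∑ ρ ∈ s, (1 + |(ρ : ℂ).im - v|) ^ (-q) ≤
      C * 2 ^ q * Q0 * (1 + |v|) ^ e := by
    intro s
    classical
    set J : NZ → ℤ := fun ρ => ⌊(ρ : ℂ).im - v⌋ with hJ
    have hfib := Finset.sum_fiberwise_of_maps_to (s := s) (t := s.image J) (g := J)
      (fun ρ hρ => Finset.mem_image_of_mem J hρ) (fun ρ : NZ => (1 + |(ρ : ℂ).im - v|) ^ (-q))
    rw [← hfib]
    have hj : ∀ j ∈ s.image J, ∑ ρ ∈ s.filter (fun ρ => J ρ = j),
        (1 + |(ρ : ℂ).im - v|) ^ (-q) ≤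
        C * 2 ^ q * (1 + |v|) ^ e * (1 + |(j : ℝ)|) ^ (-(q - e)) := by
      intro j _
      have hterm : ∀ ρ ∈ s.filter (fun ρ => J ρ = j), (1 + |(ρ : ℂ).im - v|) ^ (-q) ≤
          2 ^ q * (1 + |(j : ℝ)|) ^ (-q) := by
        intro ρ hρ
        have h1 : J ρ = j := (Finset.mem_filter.1 hρ).2
        have h2 : (j : ℝ) ≤ (ρ : ℂ).im - v := by
          rw [← h1]
          exact Int.floor_le _
        have h3 : (ρ : ℂ).im - v < j + 1 := by
          rw [← h1]
          exact Int.lt_floor_add_one _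
        have h4 : |(j : ℝ)| ≤ |(ρ : ℂ).im - v| + 1 := by
          have h5 : |(j : ℝ) - ((ρ : ℂ).im - v)| ≤ 1 := abs_le.2 ⟨by linarith, by linarith⟩
          have h6 := abs_add_le ((j : ℝ) - ((ρ : ℂ).im - v)) ((ρ : ℂ).im - v)
          rw [sub_add_cancel] at h6
          linarith
        have h7 : (1 + |(j : ℝ)|) / 2 ≤ 1 + |(ρ : ℂ).im - v| := by
          have := abs_nonneg ((ρ : ℂ).im - v)
          linarith
        have h8 : (1 + |(ρ : ℂ).im - v|) ^ (-q) ≤ ((1 + |(j : ℝ)|) / 2) ^ (-q) :=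
          Real.rpow_le_rpow_of_nonpos (by positivity) h7 (by linarith)
        refine h8.trans (le_of_eq ?_)
        rw [Real.div_rpow (by positivity) (by norm_num), Real.rpow_neg (by norm_num : (0 : ℝ) ≤ 2)]
        field_simp
      have hcard : ((s.filter (fun ρ => J ρ = j)).card : ℝ) ≤
          C * ((1 + |v|) ^ e * (1 + |(j : ℝ)|) ^ e) := by
        obtain ⟨hfin, hle⟩ := hC (v + j)
        have h1 : (s.filter (fun ρ => J ρ = j)).card ≤
            ({ρ | ρ ∈ NZ ∧ |ρ.im - (v + j)| ≤ 2} : Set ℂ).ncard := by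
          have h2 : ((s.filter (fun ρ => J ρ = j)).map
              (Function.Embedding.subtype _) : Set ℂ) ⊆
              {ρ | ρ ∈ NZ ∧ |ρ.im - (v + j)| ≤ 2} := by
            intro x hx
            rw [Finset.mem_coe, Finset.mem_map] at hx
            obtain ⟨ρ, hρ, rfl⟩ := hx
            refine ⟨ρ.2, ?_⟩
            have h1 : J ρ = j := (Finset.mem_filter.1 hρ).2
            have h2 : (j : ℝ) ≤ (ρ : ℂ).im - v := by
              rw [← h1]
              exact Int.floor_le _
            have h3 : (ρ : ℂ).im - v < j + 1 := by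
              rw [← h1]
              exact Int.lt_floor_add_one _
            change |(ρ : ℂ).im - (v + j)| ≤ 2
            exact abs_le.2 ⟨by linarith, by linarith⟩
          have h3 := Set.ncard_le_ncard h2 hfin
          rw [Set.ncard_coe_finset, Finset.card_map] at h3
          exact h3
        have h2 : ((s.filter (fun ρ => J ρ = j)).card : ℝ) ≤ C * (1 + |v + j|) ^ e :=
          (Nat.cast_le.2 h1).trans hle
        refine h2.trans (mul_le_mul_of_nonneg_left ?_ hC0)
        rw [← Real.mul_rpow (by positivity) (by positivity)]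
        refine Real.rpow_le_rpow (by positivity) ?_ he0.le
        have h3 := abs_add_le v (j : ℝ)
        nlinarith [abs_nonneg v, abs_nonneg (j : ℝ), mul_nonneg (abs_nonneg v) (abs_nonneg (j : ℝ))]
      calc ∑ ρ ∈ s.filter (fun ρ => J ρ = j), (1 + |(ρ : ℂ).im - v|) ^ (-q)
          ≤ ∑ _ρ ∈ s.filter (fun ρ => J ρ = j), 2 ^ q * (1 + |(j : ℝ)|) ^ (-q) :=
            Finset.sum_le_sum hterm
        _ = ((s.filter (fun ρ => J ρ = j)).card : ℝ) * (2 ^ q * (1 + |(j : ℝ)|) ^ (-q)) := by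
            rw [Finset.sum_const, nsmul_eq_mul]
        _ ≤ C * ((1 + |v|) ^ e * (1 + |(j : ℝ)|) ^ e) * (2 ^ q * (1 + |(j : ℝ)|) ^ (-q)) :=
            mul_le_mul_of_nonneg_right hcard (by positivity)
        _ = C * 2 ^ q * (1 + |v|) ^ e * ((1 + |(j : ℝ)|) ^ e * (1 + |(j : ℝ)|) ^ (-q)) := by ring
        _ = C * 2 ^ q * (1 + |v|) ^ e * (1 + |(j : ℝ)|) ^ (-(q - e)) := by
            rw [← Real.rpow_add (by positivity)]
            congr 2
            ring
    refine (Finset.sum_le_sum hj).trans ?_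
    rw [← Finset.mul_sum]
    have h1 : ∑ j ∈ s.image J, (1 + |(j : ℝ)|) ^ (-(q - e)) ≤ Q0 :=
      hsum.sum_le_tsum _ (fun j _ => by positivity)
    calc C * 2 ^ q * (1 + |v|) ^ e * ∑ j ∈ s.image J, (1 + |(j : ℝ)|) ^ (-(q - e))
        ≤ C * 2 ^ q * (1 + |v|) ^ e * Q0 := mul_le_mul_of_nonneg_left h1 (by positivity)
      _ = C * 2 ^ q * Q0 * (1 + |v|) ^ e := by ring
  have hS : Summable (fun ρ : NZ => (1 + |(ρ : ℂ).im - v|) ^ (-q)) :=
    summable_of_sum_le (fun ρ => by positivity) hbound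
  refine ⟨hS, (hS.tsum_le_of_sum_le hbound).trans ?_⟩
  refine mul_le_mul_of_nonneg_left ?_ (by positivity)
  exact Real.rpow_le_rpow_of_exponent_le (by have := abs_nonneg v; linarith) heη

end Pool.Agent.SELB
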