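import Pool.Agent.Lib.SELB.Props

/-!
# MP_af3d17_nt, Selberg's formula: row TAUB

Laplace inversion on the line `Re s = 2` and shift of the line to `Re s = 1/2`.
-/

set_option autoImplicit false

namespace Pool.Agent.SELB

open Complex Filter Topology MeasureTheory Set
open scoped FourierTransform

namespace TAUBx

lemma intK (η : ℝ) (hη : 0 < η) : Integrable (fun τ : ℝ => (1 + |τ|) ^ (-1 - η)) := by
  have h := integrable_one_add_norm (E := ℝ) (μ := volume) (r := 1 + η) (by simp; linarith)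
  have e : -(1 + η) = -1 - η := by ring
  rw [e] at h
  exact h

lemma isOpen_half : IsOpen {s : ℂ | 1 / 2 < s.re} := isOpen_lt continuous_const continuous_re

/-- the bound extends to the exceptional set -/
lemma bound_all {G : ℂ → ℂ} {B η : ℝ} {E : Finset ℂ}
    (hG : DifferentiableOn ℂ G {s | 1 / 2 < s.re})
    (hb : ∀ s : ℂ, 1 / 2 < s.re → s.re ≤ 2 → s ∉ E → ‖G s‖ ≤ B * (1 + |s.im|) ^ (-1 - η)) :
    ∀ s : ℂ, 1 / 2 < s.re → s.re ≤ 2 → ‖G s‖ ≤ B * (1 + |s.im|) ^ (-1 - η) := by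
  intro s h1 h2
  have hcont : ContinuousAt G s := (hG.differentiableAt (isOpen_half.mem_nhds h1)).continuousAt
  have ht : Tendsto (fun x : ℝ => s - (x : ℂ)) (𝓝[>] 0) (𝓝 s) := by
    have h0 : Tendsto (fun x : ℝ => s - (x : ℂ)) (𝓝 0) (𝓝 (s - ((0 : ℝ) : ℂ))) :=
      Continuous.tendsto (by fun_prop) 0
    rw [ofReal_zero, sub_zero] at h0
    exact h0.mono_left nhdsWithin_le_nhds
  have h3 : Tendsto (fun x : ℝ => ‖G (s - (x : ℂ))‖) (𝓝[>] 0) (𝓝 ‖G s‖) :=
    (hcont.tendsto.comp ht).norm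
  refine le_of_tendsto h3 ?_
  have h4 : ∀ᶠ x : ℝ in 𝓝[>] (0 : ℝ), 1 / 2 < (s - (x : ℂ)).re :=
    ht.eventually (isOpen_half.mem_nhds h1)
  have hfin : {x : ℝ | s - (x : ℂ) ∈ E}.Finite := by
    refine Set.Finite.preimage (f := fun x : ℝ => s - (x : ℂ)) ?_ E.finite_toSet
    intro a _ b _ h
    simpa using h
  have hclosed : IsClosed ({x : ℝ | s - (x : ℂ) ∈ E} \ {0}) := (hfin.subset sdiff_subset).isClosed
  have h5 : ∀ᶠ x : ℝ in 𝓝[>] (0 : ℝ), x ∉ ({x : ℝ | s - (x : ℂ) ∈ E} \ {0} : Set ℝ) :=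
    mem_nhdsWithin_of_mem_nhds (hclosed.isOpen_compl.mem_nhds (by simp))
  filter_upwards [h4, h5, self_mem_nhdsWithin] with x hx1 hx2 hx3
  have hx0 : (0 : ℝ) < x := hx3
  have hx4 : s - (x : ℂ) ∉ E := by
    intro h
    exact hx2 ⟨h, by simpa using hx0.ne'⟩
  have h6 := hb (s - (x : ℂ)) hx1 (by simp; linarith) hx4
  simpa using h6

/-- shift of the vertical line of integration -/
lemma shift {f : ℂ → ℂ} {C η σ : ℝ} (hη : 0 < η) (hσ : 1 / 2 < σ) (hσ2 : σ ≤ 2)
    (hf : DifferentiableOn ℂ f {s | 1 / 2 < s.re})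
    (hb : ∀ s : ℂ, 1 / 2 < s.re → s.re ≤ 2 → ‖f s‖ ≤ C * (1 + |s.im|) ^ (-1 - η)) :
    Integrable (fun τ : ℝ => f (σ + τ * I)) ∧ Integrable (fun τ : ℝ => f ((2 : ℝ) + τ * I)) ∧
    ∫ τ : ℝ, f ((2 : ℝ) + τ * I) = ∫ τ : ℝ, f (σ + τ * I) := by
  have hint : ∀ x : ℝ, 1 / 2 < x → x ≤ 2 → Integrable (fun τ : ℝ => f (x + τ * I)) := by
    intro x hx1 hx2
    have hc : Continuous (fun τ : ℝ => f (x + τ * I)) := by
      refine hf.continuousOn.comp_continuous (by fun_prop) fun τ => ?_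
      simpa using hx1
    refine Integrable.mono' ((intK η hη).const_mul C) hc.aestronglyMeasurable
      (Eventually.of_forall fun τ => ?_)
    have h := hb (x + τ * I) (by simpa using hx1) (by simpa using hx2)
    simpa using h
  have h1 := hint σ hσ hσ2
  have h2 := hint 2 (by norm_num) le_rfl
  refine ⟨h1, h2, ?_⟩
  have t1 : Tendsto (fun T : ℝ => ∫ τ in (-T)..T, f (σ + τ * I)) atTop
      (𝓝 (∫ τ : ℝ, f (σ + τ * I))) :=
    intervalIntegral_tendsto_integral h1 tendsto_neg_atTop_atBot tendsto_id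
  have t2 : Tendsto (fun T : ℝ => ∫ τ in (-T)..T, f ((2 : ℝ) + τ * I)) atTop
      (𝓝 (∫ τ : ℝ, f ((2 : ℝ) + τ * I))) :=
    intervalIntegral_tendsto_integral h2 tendsto_neg_atTop_atBot tendsto_id
  have hrect : ∀ T : ℝ, 0 ≤ T →
      ‖(∫ τ in (-T)..T, f ((2 : ℝ) + τ * I)) - ∫ τ in (-T)..T, f (σ + τ * I)‖ ≤
        2 * (C * (1 + T) ^ (-1 - η) * |2 - σ|) := by
    intro T hT
    have h3 := Complex.integral_boundary_rect_eq_zero_of_differentiableOn f
      ((σ : ℂ) + ((-T : ℝ) : ℂ) * I) (((2 : ℝ) : ℂ) + ((T : ℝ) : ℂ) * I) ?_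
    · have er1 : ((σ : ℂ) + ((-T : ℝ) : ℂ) * I).re = σ := by simp
      have ei1 : ((σ : ℂ) + ((-T : ℝ) : ℂ) * I).im = -T := by simp
      have er2 : (((2 : ℝ) : ℂ) + ((T : ℝ) : ℂ) * I).re = 2 := by simp
      have ei2 : (((2 : ℝ) : ℂ) + ((T : ℝ) : ℂ) * I).im = T := by simp
      rw [er1, ei1, er2, ei2] at h3
      have hside : ∀ S : ℝ, |S| = T → ‖∫ x : ℝ in σ..2, f ((x : ℂ) + S * I)‖ ≤
          C * (1 + T) ^ (-1 - η) * |2 - σ| := by
        intro S hS
        refine intervalIntegral.norm_integral_le_of_norm_le_const fun x hx => ?_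
        rw [uIoc_of_le hσ2, mem_Ioc] at hx
        have h := hb ((x : ℂ) + S * I) (by simp; linarith) (by simp; linarith)
        simp only [add_im, ofReal_im, mul_im, ofReal_re, I_im, mul_one, I_re, mul_zero, add_zero,
          zero_add] at h
        rwa [hS] at h
      have hs1 := hside (-T) (by rw [abs_neg, abs_of_nonneg hT])
      have hs2 := hside T (abs_of_nonneg hT)
      set X1 := ∫ x : ℝ in σ..2, f ((x : ℂ) + ((-T : ℝ) : ℂ) * I) with hX1
      set X2 := ∫ x : ℝ in σ..2, f ((x : ℂ) + ((T : ℝ) : ℂ) * I) with hX2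
      set Y2 := ∫ y : ℝ in (-T)..T, f (((2 : ℝ) : ℂ) + (y : ℂ) * I) with hY2
      set Y1 := ∫ y : ℝ in (-T)..T, f ((σ : ℂ) + (y : ℂ) * I) with hY1
      have e : I • (Y2 - Y1) = X2 - X1 := by
        have h4 : X1 - X2 + I • Y2 - I • Y1 = 0 := h3
        rw [smul_sub]
        linear_combination h4
      have e2 : ‖Y2 - Y1‖ = ‖X2 - X1‖ := by
        rw [← e, norm_smul, norm_I, one_mul]
      rw [e2]
      calc ‖X2 - X1‖ ≤ ‖X2‖ + ‖X1‖ := norm_sub_le _ _
        _ ≤ _ := by linarith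
    · refine hf.mono ?_
      intro s hs
      rw [mem_reProdIm] at hs
      obtain ⟨hs1, _⟩ := hs
      have er1 : ((σ : ℂ) + ((-T : ℝ) : ℂ) * I).re = σ := by simp
      have er2 : (((2 : ℝ) : ℂ) + ((T : ℝ) : ℂ) * I).re = 2 := by simp
      rw [er1, er2, uIcc_of_le hσ2, mem_Icc] at hs1
      show 1 / 2 < s.re
      linarith
  have t3 : Tendsto (fun T : ℝ => 2 * (C * (1 + T) ^ (-1 - η) * |2 - σ|)) atTop (𝓝 0) := by
    have h4 : Tendsto (fun T : ℝ => (1 + T) ^ (-(1 + η))) atTop (𝓝 0) :=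
      (tendsto_rpow_neg_atTop (by linarith)).comp (tendsto_atTop_add_const_left _ 1 tendsto_id)
    have e : -(1 + η) = -1 - η := by ring
    rw [e] at h4
    have h5 := ((h4.const_mul C).mul_const |2 - σ|).const_mul 2
    simpa using h5
  have t4 : Tendsto (fun T : ℝ => (∫ τ in (-T)..T, f ((2 : ℝ) + τ * I)) -
      ∫ τ in (-T)..T, f (σ + τ * I)) atTop (𝓝 0) := by
    refine squeeze_zero_norm' ?_ t3
    filter_upwards [eventually_ge_atTop (0 : ℝ)] with T hT using hrect T hT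
  have t5 := t2.sub t1
  have := tendsto_nhds_unique t5 t4
  exact sub_eq_zero.mp this

/-- Laplace inversion on the line `Re s = 2`. -/
lemma inversion {r : ℝ → ℂ} {G : ℂ → ℂ} {A B η : ℝ} (hη : 0 < η) (hrc : ContinuousOn r (Ici 0))
    (hr0 : r 0 = 0) (hrb : ∀ y : ℝ, 0 ≤ y → ‖r y‖ ≤ A * Real.exp (3 / 2 * y))
    (hG : DifferentiableOn ℂ G {s | 1 / 2 < s.re})
    (hL : ∀ s : ℂ, s.re = 2 → ∫ y in Ioi (0 : ℝ), r y * cexp (-s * y) = G s)
    (hb : ∀ s : ℂ, 1 / 2 < s.re → s.re ≤ 2 → ‖G s‖ ≤ B * (1 + |s.im|) ^ (-1 - η))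
    (y : ℝ) (hy : 0 ≤ y) :
    r y = ((1 / (2 * Real.pi) : ℝ) : ℂ) *
      ∫ τ : ℝ, G ((2 : ℝ) + τ * I) * cexp (((2 : ℝ) + τ * I) * y) := by
  set h : ℝ → ℂ := fun v => r (max v 0) * cexp (-2 * ((max v 0 : ℝ) : ℂ)) with hh
  have hcont : Continuous h := by
    refine Continuous.mul ?_ (by fun_prop)
    exact hrc.comp_continuous (by fun_prop) fun v => mem_Ici.mpr (le_max_right _ _)
  have hind : h = indicator (Ioi 0) (fun v : ℝ => r v * cexp (-2 * (v : ℂ))) := by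
    funext v
    by_cases hv : v ∈ Ioi (0 : ℝ)
    · rw [indicator_of_mem hv, hh]
      have hv' : (0 : ℝ) < v := hv
      simp only [max_eq_left hv'.le]
    · rw [indicator_of_notMem hv, hh]
      have hv' : v ≤ 0 := not_lt.mp hv
      simp only [max_eq_right hv', hr0, zero_mul]
  have hint : Integrable h := by
    rw [hind, integrable_indicator_iff measurableSet_Ioi]
    have hexp : IntegrableOn (fun v : ℝ => A * Real.exp (-(1 / 2) * v)) (Ioi 0) :=
      (exp_neg_integrableOn_Ioi 0 (by norm_num)).const_mul A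
    refine Integrable.mono' hexp ?_ ?_
    · refine ContinuousOn.aestronglyMeasurable ?_ measurableSet_Ioi
      refine ContinuousOn.mul (hrc.mono Ioi_subset_Ici_self) (by fun_prop)
    · rw [ae_restrict_iff' measurableSet_Ioi]
      refine Eventually.of_forall fun v hv => ?_
      have hv' : (0 : ℝ) < v := hv
      rw [norm_mul, Complex.norm_exp]
      have e1 : (-2 * (v : ℂ)).re = -2 * v := by simp
      rw [e1]
      calc ‖r v‖ * Real.exp (-2 * v) ≤ A * Real.exp (3 / 2 * v) * Real.exp (-2 * v) := by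
            gcongr
            exact hrb v hv'.le
        _ = A * Real.exp (-(1 / 2) * v) := by
            rw [mul_assoc, ← Real.exp_add]
            ring_nf
  have hF : 𝓕 h = fun ξ : ℝ => G ((2 : ℝ) + (2 * Real.pi * ξ : ℝ) * I) := by
    funext ξ
    rw [Real.fourier_real_eq_integral_exp_smul]
    have e1 : (fun v : ℝ => cexp (↑(-2 * Real.pi * v * ξ) * I) • h v) =
        indicator (Ioi 0) (fun v : ℝ => r v * cexp (-((2 : ℝ) + (2 * Real.pi * ξ : ℝ) * I) * v)) := by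
      funext v
      rw [hind]
      by_cases hv : v ∈ Ioi (0 : ℝ)
      · rw [indicator_of_mem hv, indicator_of_mem hv, smul_eq_mul]
        rw [mul_left_comm, ← Complex.exp_add]
        congr 2
        push_cast
        ring
      · rw [indicator_of_notMem hv, indicator_of_notMem hv, smul_zero]
    rw [e1, integral_indicator measurableSet_Ioi]
    exact hL _ (by simp)
  have hFint : Integrable (𝓕 h) := by
    rw [hF]
    have h1 := (shift (f := G) hη (σ := 2) (by norm_num) le_rfl hG hb).2.1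
    exact h1.comp_mul_left' (by positivity)
  have hinv := congrFun (hcont.fourierInv_fourier_eq hint hFint) y
  rw [hF, Real.fourierInv_eq'] at hinv
  set g : ℝ → ℂ := fun τ => cexp (((τ * y : ℝ) : ℂ) * I) * G ((2 : ℝ) + τ * I) with hg
  have e2 : (∫ v : ℝ, cexp (((2 * Real.pi * inner ℝ v y : ℝ) : ℂ) * I) •
      G ((2 : ℝ) + (2 * Real.pi * v : ℝ) * I)) = ∫ v : ℝ, g ((2 * Real.pi) * v) := by
    refine integral_congr_ae (Eventually.of_forall fun v => ?_)
    simp only [hg, smul_eq_mul, RCLike.inner_apply, conj_trivial]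
    congr 3
    push_cast
    ring
  rw [e2, Measure.integral_comp_mul_left, abs_of_pos (by positivity)] at hinv
  have e3 : h y = r y * cexp (-2 * (y : ℂ)) := by
    rw [hh]
    simp only [max_eq_left hy]
  rw [e3] at hinv
  have e4 : r y = cexp (2 * (y : ℂ)) * (r y * cexp (-2 * (y : ℂ))) := by
    rw [mul_left_comm, ← Complex.exp_add]
    simp
  have e5 : (∫ τ : ℝ, G ((2 : ℝ) + τ * I) * cexp (((2 : ℝ) + τ * I) * y)) =
      cexp (2 * (y : ℂ)) * ∫ τ : ℝ, g τ := by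
    rw [← integral_const_mul]
    refine integral_congr_ae (Eventually.of_forall fun τ => ?_)
    simp only [hg]
    have e6 : cexp (((2 : ℝ) + τ * I) * y) = cexp (2 * (y : ℂ)) * cexp (((τ * y : ℝ) : ℂ) * I) := by
      rw [← Complex.exp_add]
      congr 1
      push_cast
      ring
    rw [e6]
    ring
  rw [e5, e4, ← hinv, real_smul]
  push_cast
  ring

end TAUBx

open TAUBx

theorem TAUB_all : P_TAUB := by
  intro η hη
  refine ⟨1 / (2 * Real.pi) * ∫ τ : ℝ, (1 + |τ|) ^ (-1 - η), ?_, ?_⟩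
  · have := Real.pi_pos
    have h2 : 0 ≤ ∫ τ : ℝ, (1 + |τ|) ^ (-1 - η) := integral_nonneg fun τ => by positivity
    positivity
  intro r G A B E hrc hr0 hrb hG hL hb y hy
  have hb' := bound_all hG hb
  have hB : 0 ≤ B := by
    have h := hb' 2 (by norm_num) (by norm_num)
    simp at h
    exact (norm_nonneg _).trans h
  have hinv := inversion hη hrc hr0 hrb hG hL hb' y hy
  set f : ℂ → ℂ := fun s => G s * cexp (s * y) with hf
  have hfd : DifferentiableOn ℂ f {s | 1 / 2 < s.re} :=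
    hG.mul (Differentiable.differentiableOn (by fun_prop))
  have hfb : ∀ σ : ℝ, σ ≤ 2 → ∀ s : ℂ, 1 / 2 < s.re → s.re ≤ σ →
      ‖f s‖ ≤ B * Real.exp (σ * y) * (1 + |s.im|) ^ (-1 - η) := by
    intro σ hσ s h1 h2
    rw [hf]
    simp only [norm_mul, Complex.norm_exp]
    have e : (s * (y : ℂ)).re = s.re * y := by simp
    rw [e]
    have h3 := hb' s h1 (h2.trans hσ)
    have h4 : Real.exp (s.re * y) ≤ Real.exp (σ * y) := by
      rw [Real.exp_le_exp]
      gcongr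
    calc ‖G s‖ * Real.exp (s.re * y) ≤ (B * (1 + |s.im|) ^ (-1 - η)) * Real.exp (σ * y) := by
          gcongr
      _ = _ := by ring
  have hmain : ∀ σ : ℝ, 1 / 2 < σ → σ ≤ 2 → ‖r y‖ ≤
      1 / (2 * Real.pi) * (∫ τ : ℝ, (1 + |τ|) ^ (-1 - η)) * B * Real.exp (σ * y) := by
    intro σ h1 h2
    obtain ⟨i1, -, i3⟩ := shift hη h1 h2 hfd (hfb 2 le_rfl)
    have h3 : ‖∫ τ : ℝ, f (σ + τ * I)‖ ≤
        ∫ τ : ℝ, B * Real.exp (σ * y) * (1 + |τ|) ^ (-1 - η) := by
      refine norm_integral_le_of_norm_le ((intK η hη).const_mul _)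
        (Eventually.of_forall fun τ => ?_)
      have h := hfb σ h2 (σ + τ * I) (by simpa using h1) (by simp)
      simpa using h
    rw [integral_const_mul] at h3
    rw [hinv]
    have e : (∫ τ : ℝ, G ((2 : ℝ) + τ * I) * cexp (((2 : ℝ) + τ * I) * y)) =
        ∫ τ : ℝ, f (σ + τ * I) := i3
    rw [e, norm_mul, norm_real, Real.norm_of_nonneg (by positivity)]
    calc 1 / (2 * Real.pi) * ‖∫ τ : ℝ, f (σ + τ * I)‖ ≤
        1 / (2 * Real.pi) * (B * Real.exp (σ * y) * ∫ τ : ℝ, (1 + |τ|) ^ (-1 - η)) := by gcongr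
      _ = _ := by ring
  have hlim : Tendsto (fun σ : ℝ => 1 / (2 * Real.pi) * (∫ τ : ℝ, (1 + |τ|) ^ (-1 - η)) * B *
      Real.exp (σ * y)) (𝓝[>] (1 / 2)) (𝓝 (1 / (2 * Real.pi) *
      (∫ τ : ℝ, (1 + |τ|) ^ (-1 - η)) * B * Real.exp (1 / 2 * y))) :=
    (Continuous.tendsto (by fun_prop) _).mono_left nhdsWithin_le_nhds
  have e : Real.exp (y / 2) = Real.exp (1 / 2 * y) := by congr 1; ring
  rw [e]
  refine ge_of_tendsto hlim ?_
  have h5 : ∀ᶠ σ : ℝ in 𝓝[>] (1 / 2 : ℝ), σ ≤ 2 :=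
    mem_nhdsWithin_of_mem_nhds (Iic_mem_nhds (by norm_num))
  filter_upwards [self_mem_nhdsWithin, h5] with σ hσ1 hσ2 using hmain σ hσ1 hσ2

end Pool.Agent.SELB
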