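import Pool.Agent.Lib.SELB.LS
import Pool.Agent.Lib.SELB.LAP
import Pool.Agent.Lib.SELB.LAPM
import Pool.Agent.Lib.SELB.LAPV
import Pool.Agent.Lib.SELB.TAUB
import Pool.Agent.Lib.SELB.DENS
import Pool.Agent.Lib.SELB.SQ
import Pool.Agent.Lib.SELB.SB
import Pool.Agent.Lib.SELB.MERO1
import Pool.Agent.Lib.SELB.MERO2
import Pool.Agent.Lib.SELB.CONJ
import Pool.Agent.Lib.SELB.PPEX
import Pool.Agent.Lib.SELB.LOW
import Pool.Agent.Lib.SELB.HI1
import Pool.Agent.Lib.SELB.HI2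
import Pool.Agent.Lib.SELB.EXPALL
import Pool.Agent.Lib.SELB.GM
import Pool.Agent.Lib.SELB.GZ
import Pool.Agent.Lib.SELB.AT
import Pool.Agent.Lib.SELB.SEP
import Pool.Agent.Lib.SELB.FWD
import Pool.Agent.Lib.SELB.BACK
import Pool.Agent.Lib.SELB.ID1
import Pool.Agent.Lib.SELB.ID2
import Pool.Agent.Lib.SELB.LINE
import Pool.Agent.Lib.SELB.PAIR
import Pool.Agent.Lib.SELB.BWDC
import Pool.Agent.Lib.SELB.BWD
import Pool.Agent.Lib.SELB.SEL

/-!
# MP_af3d17_nt, Selberg's formula: the twisted theorem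
-/

set_option autoImplicit false

namespace Pool.Agent.SELB

theorem fwd : P_FWD :=
  FWD_all LS_all MERO1_all MERO2_all LOWFIN_all CONJ_all PPEX_all (RB2_all LOWFIN_all CONJ_all)
    HI1_all HI2_all (EXPALL_all (LOW_all DENS_all) CONJ_all)
    (AT_all LAP_all LAPM_all MAINB_all LAPV_all TAUB_all DENS_all (S0_all (SQ_all DENS_all)) GM_all
      (GZ_all DENS_all (S0_all (SQ_all DENS_all)) (SB_all (SQ_all DENS_all))))
    (SEP_all CONJ_all LOWFIN_all)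

theorem bwd : P_BWD :=
  BWD_all LS_all (BACK_all LAP_all LAPM_all) ID1_all ID2_all LINE_all (BWDC_all PAIR_all)

/-- `α ≥ -A` if and only if `Λ` and `Λ₂` expand with exponent `A`. -/
theorem selb_main (γ : ℕ → ℝ) (hγ : Pool.Agent.ZP.IsOrdinateSeq γ) (κ : ℕ) (A : ℝ) (hA : 0 ≤ A)
    (hAκ : A < κ) :
    ((-A : ℝ) : EReal) ≤ Pool.Agent.ZP.alpha γ ↔ Expands vM κ A ∧ Expands selberg κ A := by
  have hκ0 : (0 : ℝ) < κ := lt_of_le_of_lt hA hAκ
  have hκ : 1 ≤ κ := Nat.one_le_iff_ne_zero.2 (by rintro rfl; simp at hκ0)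
  exact ⟨fun h => fwd γ hγ κ A hA hAκ h, fun h => (bwd γ hγ).1 κ A hκ hA h.1 h.2⟩

end Pool.Agent.SELB
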